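import Mathlib

/-!
Composition of rational functions in `RatFunc ℂ`.
-/

open Polynomial IntermediateField

namespace Pool.Agent.Helper65

/-- composition `A ∘ B` of rational functions. -/
noncomputable def comp (A B : RatFunc ℂ) : RatFunc ℂ := RatFunc.eval RatFunc.C B A

/-- degree of a rational function. -/
noncomputable def deg (A : RatFunc ℂ) : ℕ := max A.num.natDegree A.denom.natDegree

/-- `n`-fold iterate. -/
noncomputable def iter (A : RatFunc ℂ) (n : ℕ) : RatFunc ℂ := (comp A)^[n] RatFunc.X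

/-- nonconstant -/
def NC (B : RatFunc ℂ) : Prop := ¬ ∃ c, B = RatFunc.C c

lemma NC.transcendental {B : RatFunc ℂ} (h : NC B) : Transcendental ℂ B :=
  RatFunc.transcendental_of_ne_C B h

/-- the field embedding `A ↦ A ∘ B`. -/
noncomputable def phi (B : RatFunc ℂ) (h : NC B) : RatFunc ℂ →ₐ[ℂ] RatFunc ℂ :=
  (ℂ⟮B⟯.val).comp (RatFunc.algEquivOfTranscendental B h.transcendental).toAlgHom

lemma phi_apply (B : RatFunc ℂ) (h : NC B) (A : RatFunc ℂ) : phi B h A = comp A B := by
  simp only [phi, comp, RatFunc.eval]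
  have := RatFunc.algEquivOfTranscendental_apply B h.transcendental A
  simpa [Polynomial.aeval_def] using this

lemma phi_X (B : RatFunc ℂ) (h : NC B) : phi B h RatFunc.X = B := by
  simp [phi]

lemma comp_injective {B : RatFunc ℂ} (h : NC B) {A A' : RatFunc ℂ}
    (e : comp A B = comp A' B) : A = A' := by
  rw [← phi_apply B h, ← phi_apply B h] at e
  exact (phi B h).toRingHom.injective e

lemma algHom_ext_X {f g : RatFunc ℂ →ₐ[ℂ] RatFunc ℂ} (h : f RatFunc.X = g RatFunc.X) : f = g := by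
  have hp : ∀ p : ℂ[X], f (algebraMap _ _ p) = g (algebraMap _ _ p) := by
    intro p
    have e1 : f.comp (Algebra.algHom ℂ ℂ[X] (RatFunc ℂ)) = g.comp (Algebra.algHom ℂ ℂ[X] (RatFunc ℂ)) := by
      apply Polynomial.algHom_ext
      show f (algebraMap ℂ[X] (RatFunc ℂ) X) = g (algebraMap ℂ[X] (RatFunc ℂ) X)
      rw [RatFunc.algebraMap_X, h]
    exact congrArg (fun (k : ℂ[X] →ₐ[ℂ] RatFunc ℂ) => k p) e1
  ext A
  rw [← RatFunc.num_div_denom A, map_div₀, map_div₀, hp, hp]

lemma nc_comp {A B : RatFunc ℂ} (hA : NC A) (hB : NC B) : NC (comp A B) := by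
  rintro ⟨c, hc⟩
  apply hA
  refine ⟨c, ?_⟩
  apply comp_injective hB
  rw [hc]
  simp [comp]

lemma comp_assoc (A : RatFunc ℂ) {B C : RatFunc ℂ} (hB : NC B) (hC : NC C) :
    comp (comp A B) C = comp A (comp B C) := by
  have h : (phi C hC).comp (phi B hB) = phi (comp B C) (nc_comp hB hC) := by
    apply algHom_ext_X
    rw [phi_X, AlgHom.comp_apply, phi_X, phi_apply]
  have h2 := congrArg (fun k => k A) h
  simp only [AlgHom.comp_apply, phi_apply] at h2
  exact h2

lemma comp_X (A : RatFunc ℂ) : comp A RatFunc.X = A := by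
  simp only [comp, RatFunc.eval]
  have h1 : ∀ p : ℂ[X], p.eval₂ RatFunc.C RatFunc.X = algebraMap ℂ[X] (RatFunc ℂ) p := by
    intro p
    have := RatFunc.aeval_X_left_eq_algebraMap (K := ℂ) p
    simpa [Polynomial.aeval_def] using this
  rw [h1, h1, RatFunc.num_div_denom]

lemma X_comp (A : RatFunc ℂ) : comp RatFunc.X A = A := by
  simp [comp]

lemma nc_X : NC (RatFunc.X : RatFunc ℂ) := by
  rintro ⟨c, hc⟩
  have := RatFunc.transcendental_X (K := ℂ)
  rw [hc] at this
  exact this (isAlgebraic_algebraMap c)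

lemma nc_of_deg {A : RatFunc ℂ} (h : 1 ≤ deg A) : NC A := by
  rintro ⟨c, rfl⟩
  simp [deg] at h

lemma deg_pos {A : RatFunc ℂ} (h : NC A) : 1 ≤ deg A := by
  by_contra hc
  have h0 : deg A = 0 := by omega
  simp only [deg, Nat.max_eq_zero_iff] at h0
  exact h ((RatFunc.eq_C_iff A).2 h0)

lemma phi_fieldRange (B : RatFunc ℂ) (h : NC B) :
    (⊤ : IntermediateField ℂ (RatFunc ℂ)).map (phi B h) = ℂ⟮B⟯ := by
  rw [← RatFunc.adjoin_X, IntermediateField.adjoin_map]
  simp [phi_X]

lemma phi_adjoin (A B : RatFunc ℂ) (h : NC B) :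
    (ℂ⟮A⟯).map (phi B h) = ℂ⟮comp A B⟯ := by
  rw [IntermediateField.adjoin_map]
  simp [phi_apply]

lemma deg_comp {A B : RatFunc ℂ} (hB : NC B) : deg (comp A B) = deg A * deg B := by
  unfold deg
  rw [← RatFunc.finrank_eq_max_natDegree, ← RatFunc.finrank_eq_max_natDegree,
    ← RatFunc.finrank_eq_max_natDegree]
  have hle : ℂ⟮comp A B⟯ ≤ ℂ⟮B⟯ := by
    rw [← phi_adjoin A B hB, ← phi_fieldRange B hB]
    exact IntermediateField.map_mono _ le_top
  rw [← IntermediateField.relfinrank_mul_finrank_top hle]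
  congr 1
  rw [← phi_adjoin A B hB, ← phi_fieldRange B hB, IntermediateField.relfinrank_map_map,
    IntermediateField.relfinrank_top_right]

/-- The monoid of nonconstant rational functions under composition. -/
def NCRat : Type := {A : RatFunc ℂ // NC A}

noncomputable instance : Monoid NCRat where
  mul A B := ⟨comp A.1 B.1, nc_comp A.2 B.2⟩
  one := ⟨RatFunc.X, nc_X⟩
  mul_assoc A B C := Subtype.ext (comp_assoc A.1 B.2 C.2)
  one_mul A := Subtype.ext (X_comp A.1)
  mul_one A := Subtype.ext (comp_X A.1)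

lemma NCRat.coe_mul (A B : NCRat) : (A * B).1 = comp A.1 B.1 := rfl
lemma NCRat.coe_one : (1 : NCRat).1 = RatFunc.X := rfl

lemma NCRat.coe_pow (A : NCRat) (n : ℕ) : (A ^ n).1 = iter A.1 n := by
  induction n with
  | zero => rfl
  | succ n ih => rw [pow_succ', NCRat.coe_mul, ih]; simp only [iter, Function.iterate_succ_apply']

lemma NCRat.right_cancel {A B C : NCRat} (h : A * C = B * C) : A = B :=
  Subtype.ext (comp_injective C.2 (congrArg Subtype.val h))

/-- degree as a monoid hom -/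
noncomputable def NCRat.degHom : NCRat →* ℕ where
  toFun A := deg A.1
  map_one' := by rw [NCRat.coe_one]; simp [deg]
  map_mul' A B := deg_comp B.2

end Pool.Agent.Helper65
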