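import Mathlib

/-!
# Base definitions for MP_9c370f (2 => 3)
`C2 = ℂ × ℂ`, the wedge `wd`, lifts of rational maps, Green functions.
The word harmonic always refers to Mathlib's `InnerProductSpace.HarmonicAt / HarmonicOnNhd`.
-/

open Complex Metric Set Filter Topology InnerProductSpace

namespace Pool.Agent.Helper65

/-- The plane `ℂ²` (with the sup norm). -/
abbrev C2 := ℂ × ℂ

/-- The wedge product; `wd v w = 0` says that `v` and `w` are parallel. -/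
def wd (v w : C2) : ℂ := v.1 * w.2 - v.2 * w.1

/-- `f` is a lift to `ℂ²` of a rational map of degree `d`. -/
structure IsLift (d : ℕ) (f : C2 → C2) : Prop where
  diff : Differentiable ℂ f
  hom : ∀ (t : ℂ) (v : C2), f (t • v) = t ^ d • f v
  nz : ∀ v, v ≠ 0 → f v ≠ 0
  fac : ∀ ξ : C2, ξ ≠ 0 → ∃ (κ : ℂ) (η : Fin d → C2), κ ≠ 0 ∧ (∀ i, ‖η i‖ = 1) ∧
    ∀ v, wd (f v) ξ = κ * ∏ i, wd v (η i)

/-- An escape-rate type function on `ℂ² ∖ 0`. -/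
structure IsGreen (G : C2 → ℝ) : Prop where
  cont : ContinuousOn G {0}ᶜ
  hom : ∀ (t : ℂ) (v : C2), t ≠ 0 → v ≠ 0 → G (t • v) = G v + Real.log ‖t‖

/-- `G ∘ f = d G + const`. -/
def GInv (G : C2 → ℝ) (d : ℕ) (f : C2 → C2) : Prop :=
  ∃ k : ℝ, ∀ v, v ≠ 0 → G (f v) = d * G v + k

/-- `G` in the affine chart. -/
def gu (G : C2 → ℝ) (z : ℂ) : ℝ := G (z, 1)

/-- No `ξ ∈ Ξ ∖ 0` is a totally ramified value of `f`. -/
def NTR (d : ℕ) (f : C2 → C2) (Ξ : Set C2) : Prop :=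
  ∀ ξ ∈ Ξ, ξ ≠ 0 → ¬ ∃ (κ : ℂ) (η : C2), ∀ v, wd (f v) ξ = κ * (wd v η) ^ d

/-- `Ξ` is a closed cone, backward invariant under `f`. -/
structure BackInv (f : C2 → C2) (Ξ : Set C2) : Prop where
  closed : IsClosed Ξ
  cone : ∀ (t : ℂ) (ξ : C2), ξ ∈ Ξ → t • ξ ∈ Ξ
  back : ∀ (η ξ : C2), η ≠ 0 → ξ ∈ Ξ → ξ ≠ 0 → wd (f η) ξ = 0 → η ∈ Ξ

/-- Preimages under the iterates of `f` of all targets in `Ξ` enter every disc on which the
potential `gu G` is not harmonic, at all large times. -/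
def Mixing (G : C2 → ℝ) (f : C2 → C2) (Ξ : Set C2) : Prop :=
  ∀ (z : ℂ) (r : ℝ), 0 < r → ¬ HarmonicOnNhd (gu G) (ball z r) →
    ∃ n0 : ℕ, ∀ n ≥ n0, ∀ ξ ∈ Ξ, ξ ≠ 0 → ∃ z' ∈ ball z r, wd (f^[n] (z', 1)) ξ = 0

/-- `G` is harmonic along holomorphic curves away from `Ξ`. -/
def SuppIn (G : C2 → ℝ) (Ξ : Set C2) : Prop :=
  ∀ (φ : ℂ → C2) (x : ℂ), AnalyticAt ℂ φ x → φ x ≠ 0 → φ x ∉ Ξ → HarmonicAt (fun z => G (φ z)) x

/-- The group of translations which are symmetries of `g` modulo harmonic functions. -/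
def Tr (g : ℂ → ℝ) : Set ℂ := {c | HarmonicOnNhd (fun z => g (z + c) - g z) univ}

/-- A potential on `ℂ` with a dilation symmetry. -/
structure SymG (g : ℂ → ℝ) (lam : ℂ) (w : ℝ) : Prop where
  cont : Continuous g
  nh : ¬ HarmonicAt g 0
  hl : 1 < ‖lam‖
  hw : 1 < w
  sc : HarmonicOnNhd (fun z => g (lam * z) - w * g z) univ

/-- Global Poincaré linearisation `h : ℂ → ℂ² ∖ 0` of the lift `F` (degree `w`) at a repelling
fixed point with multiplier `lam`, with a homoclinic return `δ` and the density of the backward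
orbits. -/
structure LinData (G : C2 → ℝ) (F : C2 → C2) (w : ℕ) (h : ℂ → C2) (lam : ℂ) : Prop where
  green : IsGreen G
  lift : IsLift w F
  ginv : GInv G w F
  hw : 2 ≤ w
  diff : Differentiable ℂ h
  nz : ∀ z, h z ≠ 0
  hl : 1 < ‖lam‖
  fe : ∀ z, wd (F (h z)) (h (lam * z)) = 0
  imm : wd (h 0) (deriv h 0) ≠ 0
  nh : ¬ HarmonicAt (fun z => G (h z)) 0
  ret : ∃ δ : ℂ → ℂ, AnalyticAt ℂ δ 0 ∧ δ 0 ≠ 0 ∧ deriv δ 0 ≠ 0 ∧
    ∀ᶠ z in 𝓝 (0 : ℂ), wd (h (δ z)) (h z) = 0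
  mix : ∀ (c : ℂ) (r : ℝ), 0 < r → ¬ HarmonicOnNhd (fun z => G (h z)) (ball c r) →
    ∀ (v : C2), (∃ x, ¬ HarmonicAt (fun z => G (h z)) x ∧ v = h x) ∨
      (∃ (b : ℕ) (B : C2 → C2) (x : ℂ), 1 ≤ b ∧ IsLift b B ∧ GInv G b B ∧
        ¬ HarmonicAt (fun z => G (h z)) x ∧ v = B (h x)) →
    ∃ n0 : ℕ, ∀ n ≥ n0, ∃ z ∈ ball c r, wd (h (lam ^ n * z)) v = 0

end Pool.Agent.Helper65
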