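import Mathlib
import Pool.Agent.Helper65.RatComp

/-!
Values of rational functions at points, and the local rigidity lemma.
-/

open Polynomial Filter Topology

namespace Pool.Agent.Helper65

/-- `A` is regular at `z` with value `a`. -/
def Val (z : ℂ) (A : RatFunc ℂ) (a : ℂ) : Prop :=
  ∃ P Q : ℂ[X], Q.eval z ≠ 0 ∧ A = algebraMap ℂ[X] (RatFunc ℂ) P / algebraMap ℂ[X] (RatFunc ℂ) Q ∧
    P.eval z = a * Q.eval z

lemma amap_ne_zero {Q : ℂ[X]} (h : Q ≠ 0) : algebraMap ℂ[X] (RatFunc ℂ) Q ≠ 0 :=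
  RatFunc.algebraMap_ne_zero h

lemma ne_zero_of_eval {Q : ℂ[X]} {z : ℂ} (h : Q.eval z ≠ 0) : Q ≠ 0 := by
  rintro rfl; simp at h

lemma Val.unique {z : ℂ} {A : RatFunc ℂ} {a b : ℂ} (h1 : Val z A a) (h2 : Val z A b) : a = b := by
  obtain ⟨P, Q, hQ, hA, hP⟩ := h1
  obtain ⟨P', Q', hQ', hA', hP'⟩ := h2
  have h : algebraMap ℂ[X] (RatFunc ℂ) (P * Q') = algebraMap ℂ[X] (RatFunc ℂ) (P' * Q) := by
    rw [map_mul, map_mul]
    have := hA.symm.trans hA'
    rwa [div_eq_div_iff (amap_ne_zero (ne_zero_of_eval hQ)) (amap_ne_zero (ne_zero_of_eval hQ'))] at this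
  have h' := RatFunc.algebraMap_injective ℂ h
  have h'' := congrArg (Polynomial.eval z) h'
  rw [eval_mul, eval_mul, hP, hP'] at h''
  have : (a - b) * (Q.eval z * Q'.eval z) = 0 := by linear_combination h''
  rcases mul_eq_zero.1 this with h | h
  · exact sub_eq_zero.1 h
  · exact absurd h (mul_ne_zero hQ hQ')

lemma Val.add {z : ℂ} {A B : RatFunc ℂ} {a b : ℂ} (h1 : Val z A a) (h2 : Val z B b) :
    Val z (A + B) (a + b) := by
  obtain ⟨P, Q, hQ, rfl, hP⟩ := h1
  obtain ⟨P', Q', hQ', rfl, hP'⟩ := h2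
  refine ⟨P * Q' + P' * Q, Q * Q', by rw [eval_mul]; exact mul_ne_zero hQ hQ', ?_, ?_⟩
  · have := amap_ne_zero (ne_zero_of_eval hQ)
    have := amap_ne_zero (ne_zero_of_eval hQ')
    simp only [map_add, map_mul]
    field_simp
  · simp only [eval_add, eval_mul, hP, hP']; ring

lemma Val.mul {z : ℂ} {A B : RatFunc ℂ} {a b : ℂ} (h1 : Val z A a) (h2 : Val z B b) :
    Val z (A * B) (a * b) := by
  obtain ⟨P, Q, hQ, rfl, hP⟩ := h1
  obtain ⟨P', Q', hQ', rfl, hP'⟩ := h2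
  refine ⟨P * P', Q * Q', by rw [eval_mul]; exact mul_ne_zero hQ hQ', ?_, ?_⟩
  · have := amap_ne_zero (ne_zero_of_eval hQ)
    have := amap_ne_zero (ne_zero_of_eval hQ')
    simp only [map_mul]
    field_simp
  · simp only [eval_mul, hP, hP']; ring

lemma Val.div {z : ℂ} {A B : RatFunc ℂ} {a b : ℂ} (h1 : Val z A a) (h2 : Val z B b) (hb : b ≠ 0) :
    Val z (A / B) (a / b) := by
  obtain ⟨P, Q, hQ, rfl, hP⟩ := h1
  obtain ⟨P', Q', hQ', rfl, hP'⟩ := h2
  have hP0 : P'.eval z ≠ 0 := by rw [hP']; exact mul_ne_zero hb hQ'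
  refine ⟨P * Q', Q * P', by rw [eval_mul]; exact mul_ne_zero hQ hP0, ?_, ?_⟩
  · have := amap_ne_zero (ne_zero_of_eval hQ)
    have := amap_ne_zero (ne_zero_of_eval hQ')
    have := amap_ne_zero (ne_zero_of_eval hP0)
    simp only [map_mul]
    field_simp
  · simp only [eval_mul, hP, hP']; field_simp

lemma Val.const (z c : ℂ) : Val z (RatFunc.C c) c :=
  ⟨Polynomial.C c, 1, by simp, by simp, by simp⟩

lemma Val.X (z : ℂ) : Val z RatFunc.X z := ⟨Polynomial.X, 1, by simp, by simp, by simp⟩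

lemma Val.poly {z : ℂ} {B : RatFunc ℂ} {b : ℂ} (h : Val z B b) (P : ℂ[X]) :
    Val z (P.eval₂ RatFunc.C B) (P.eval b) := by
  induction P using Polynomial.induction_on' with
  | add p q hp hq => rw [eval₂_add, eval_add]; exact hp.add hq
  | monomial n a =>
    rw [eval₂_monomial, eval_monomial]
    refine (Val.const z a).mul ?_
    induction n with
    | zero => simpa using Val.const z 1
    | succ n ih => rw [pow_succ, pow_succ]; exact ih.mul h

lemma phi_poly (B : RatFunc ℂ) (h : NC B) (P : ℂ[X]) :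
    phi B h (algebraMap ℂ[X] (RatFunc ℂ) P) = P.eval₂ RatFunc.C B := by
  have e1 : (phi B h).comp (Algebra.algHom ℂ ℂ[X] (RatFunc ℂ)) = Polynomial.aeval B := by
    apply Polynomial.algHom_ext
    show phi B h (algebraMap ℂ[X] (RatFunc ℂ) Polynomial.X) = _
    rw [RatFunc.algebraMap_X, phi_X, aeval_X]
  have := congrArg (fun (k : ℂ[X] →ₐ[ℂ] RatFunc ℂ) => k P) e1
  rw [Polynomial.aeval_def] at this
  exact this

lemma comp_mk (B : RatFunc ℂ) (h : NC B) (P Q : ℂ[X]) :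
    comp (algebraMap ℂ[X] (RatFunc ℂ) P / algebraMap ℂ[X] (RatFunc ℂ) Q) B
      = P.eval₂ RatFunc.C B / Q.eval₂ RatFunc.C B := by
  rw [← phi_apply B h, map_div₀, phi_poly, phi_poly]

lemma Val.comp {z : ℂ} {A B : RatFunc ℂ} {a b : ℂ} (hB : NC B) (h1 : Val z B b) (h2 : Val b A a) :
    Val z (comp A B) a := by
  obtain ⟨P, Q, hQ, rfl, hP⟩ := h2
  rw [comp_mk B hB]
  have := (h1.poly P).div (h1.poly Q) hQ
  rwa [hP, mul_div_assoc, div_self hQ, mul_one] at this

/-- regularity -/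
def reg (A : RatFunc ℂ) (z : ℂ) : Prop := A.denom.eval z ≠ 0

/-- value -/
noncomputable def ev (A : RatFunc ℂ) (z : ℂ) : ℂ := A.num.eval z / A.denom.eval z

lemma reg.val {A : RatFunc ℂ} {z : ℂ} (h : reg A z) : Val z A (ev A z) := by
  refine ⟨A.num, A.denom, h, (RatFunc.num_div_denom A).symm, ?_⟩
  unfold ev; exact (div_mul_cancel₀ _ h).symm

lemma Val.reg {A : RatFunc ℂ} {z a : ℂ} (h : Val z A a) : reg A z := by
  obtain ⟨P, Q, hQ, hA, hP⟩ := h
  have hd : A.denom ∣ Q := (RatFunc.denom_dvd (ne_zero_of_eval hQ)).2 ⟨P, hA⟩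
  obtain ⟨R, rfl⟩ := hd
  intro h0
  apply hQ
  rw [eval_mul, h0, zero_mul]

lemma Val.ev_eq {A : RatFunc ℂ} {z a : ℂ} (h : Val z A a) : ev A z = a :=
  h.reg.val.unique h

lemma reg_eventually {A : RatFunc ℂ} {z : ℂ} (h : reg A z) : ∀ᶠ w in 𝓝 z, reg A w :=
  (A.denom.continuous.continuousAt).eventually_ne h

lemma ev_analyticAt {A : RatFunc ℂ} {z : ℂ} (h : reg A z) : AnalyticAt ℂ (ev A) z := by
  unfold ev
  exact (AnalyticOnNhd.eval_polynomial A.num z (Set.mem_univ z)).div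
    (AnalyticOnNhd.eval_polynomial A.denom z (Set.mem_univ z)) h

lemma ev_comp_eventually {A B : RatFunc ℂ} (hB : NC B) {p : ℂ} (rB : reg B p)
    (rA : reg A (ev B p)) : ∀ᶠ z in 𝓝 p, ev (comp A B) z = ev A (ev B z) := by
  have h1 := reg_eventually rB
  have h2 : ∀ᶠ z in 𝓝 p, reg A (ev B z) :=
    (ev_analyticAt rB).continuousAt.eventually (reg_eventually rA)
  filter_upwards [h1, h2] with z hz1 hz2
  exact (Val.comp hB hz1.val hz2.val).ev_eq

lemma reg_comp {A B : RatFunc ℂ} (hB : NC B) {p : ℂ} (rB : reg B p)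
    (rA : reg A (ev B p)) : reg (comp A B) p := (Val.comp hB rB.val rA.val).reg

lemma ev_comp {A B : RatFunc ℂ} (hB : NC B) {p : ℂ} (rB : reg B p)
    (rA : reg A (ev B p)) : ev (comp A B) p = ev A (ev B p) := (Val.comp hB rB.val rA.val).ev_eq

lemma deriv_ev_comp {A B : RatFunc ℂ} (hB : NC B) {p : ℂ} (rB : reg B p)
    (rA : reg A (ev B p)) : deriv (ev (comp A B)) p = deriv (ev A) (ev B p) * deriv (ev B) p := by
  rw [Filter.EventuallyEq.deriv_eq (ev_comp_eventually hB rB rA)]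
  exact deriv_comp p (ev_analyticAt rA).differentiableAt (ev_analyticAt rB).differentiableAt

/-- two rational functions that agree near a point are equal. -/
lemma eq_of_ev_eventuallyEq {A B : RatFunc ℂ} {p : ℂ} (rA : reg A p) (rB : reg B p)
    (h : ∀ᶠ z in 𝓝 p, ev A z = ev B z) : A = B := by
  have hpoly : A.num * B.denom = B.num * A.denom := by
    apply Polynomial.eq_of_infinite_eval_eq
    have : ∀ᶠ z in 𝓝 p, z ∈ {x | eval x (A.num * B.denom) = eval x (B.num * A.denom)} := by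
      filter_upwards [h, reg_eventually rA, reg_eventually rB] with z hz h1 h2
      show eval z (A.num * B.denom) = eval z (B.num * A.denom)
      simp only [eval_mul]
      unfold ev at hz
      rwa [div_eq_div_iff h1 h2] at hz
    exact infinite_of_mem_nhds p this
  rw [← RatFunc.num_div_denom A, ← RatFunc.num_div_denom B,
    div_eq_div_iff (amap_ne_zero A.denom_ne_zero) (amap_ne_zero B.denom_ne_zero),
    ← map_mul, ← map_mul, hpoly]

/-- If `B(p) = b` and `b` is a pole of `A`, then `p` is a pole of `A ∘ B`. -/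
lemma not_reg_comp {A B : RatFunc ℂ} (hB : NC B) {p b : ℂ} (hb : Val p B b)
    (hA : ¬ reg A b) : ¬ reg (comp A B) p := by
  intro h
  have hA0 : A.denom.eval b = 0 := by simpa [reg] using hA
  have hnum : A.num.eval b ≠ 0 := by
    intro h0
    obtain ⟨u, v, huv⟩ := RatFunc.isCoprime_num_denom A
    have := congrArg (Polynomial.eval b) huv
    simp [h0, hA0] at this
  have h1 : comp A B = A.num.eval₂ RatFunc.C B / A.denom.eval₂ RatFunc.C B := rfl
  have hden : A.denom.eval₂ RatFunc.C B ≠ 0 := by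
    rw [← phi_poly B hB]
    intro h0
    have := (map_eq_zero (phi B hB)).1 h0
    exact amap_ne_zero A.denom_ne_zero this
  have h2 : A.num.eval₂ RatFunc.C B = comp A B * A.denom.eval₂ RatFunc.C B := by
    rw [h1]; field_simp
  have v1 := hb.poly A.num
  have v2 := h.val.mul (hb.poly A.denom)
  rw [← h2] at v2
  have := v1.unique v2
  rw [hA0, mul_zero] at this
  exact hnum this

/-! ### Local rigidity -/

lemma tendsto_comp_diff {y φ w : ℂ → ℂ} {p c σ : ℂ} {k : ℕ}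
    (h : Tendsto (fun z => (y z - φ z) / (z - p) ^ k) (𝓝[≠] p) (𝓝 c))
    (hw : HasDerivAt w σ p) (hwp : w p = p) (hσ : σ ≠ 0) :
    Tendsto (fun z => (y (w z) - φ (w z)) / (z - p) ^ k) (𝓝[≠] p) (𝓝 (c * σ ^ k)) := by
  have h1 : Tendsto w (𝓝[≠] p) (𝓝[≠] p) := by
    have := hw.tendsto_nhdsNE hσ
    rwa [hwp] at this
  have h2 := h.comp h1
  have h3 := (hasDerivAt_iff_tendsto_slope.1 hw)
  have h4 : Tendsto (fun z => (slope w p z) ^ k) (𝓝[≠] p) (𝓝 (σ ^ k)) := h3.pow k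
  have h5 := h2.mul h4
  refine h5.congr' ?_
  have h6 : ∀ᶠ z in 𝓝[≠] p, w z ≠ p := h1.eventually self_mem_nhdsWithin
  filter_upwards [h6, self_mem_nhdsWithin] with z hz hzp
  have hzp' : z - p ≠ 0 := sub_ne_zero.2 hzp
  have hz' : w z - p ≠ 0 := sub_ne_zero.2 hz
  simp only [Function.comp_apply, slope, vsub_eq_sub, smul_eq_mul, hwp]
  rw [mul_pow, inv_pow]
  field_simp

lemma tendsto_diff_comp {φ u v : ℂ → ℂ} {p c ρ : ℂ} {k : ℕ}
    (h : Tendsto (fun z => (u z - v z) / (z - p) ^ k) (𝓝[≠] p) (𝓝 c))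
    (hφ : HasStrictDerivAt φ ρ p) (hu : Tendsto u (𝓝[≠] p) (𝓝 p))
    (hv : Tendsto v (𝓝[≠] p) (𝓝 p)) :
    Tendsto (fun z => (φ (u z) - φ (v z)) / (z - p) ^ k) (𝓝[≠] p) (𝓝 (ρ * c)) := by
  have h1 : (fun z => φ (u z) - φ (v z) - (u z - v z) * ρ) =o[𝓝[≠] p] fun z => u z - v z := by
    have := hφ.hasStrictFDerivAt.isLittleO.comp_tendsto (hu.prodMk_nhds hv)
    simpa [Function.comp_def] using this
  have h2 : (fun z => u z - v z) =O[𝓝[≠] p] fun z => (z - p) ^ k := by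
    refine Asymptotics.isBigO_of_div_tendsto_nhds ?_ c h
    filter_upwards [self_mem_nhdsWithin] with z hz h0
    exact absurd h0 (pow_ne_zero _ (sub_ne_zero.2 hz))
  have h3 := h1.trans_isBigO h2
  have h4 := h3.tendsto_div_nhds_zero
  have h5 := h4.add (h.mul_const ρ)
  rw [zero_add, mul_comm c ρ] at h5
  refine h5.congr' ?_
  filter_upwards with z
  ring

lemma local_rigidity {y φ : ℂ → ℂ} {p ρ : ℂ} (hy : AnalyticAt ℂ y p) (hφ : AnalyticAt ℂ φ p)
    (hyp : y p = p) (hφp : φ p = p) (hyd : deriv y p = ρ) (hφd : deriv φ p = ρ) (hρ : ρ ≠ 0)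
    (hcomm : ∀ᶠ z in 𝓝 p, y (φ z) = φ (y z)) {l : ℕ} (hl : 1 ≤ l)
    (hpow : ∀ᶠ z in 𝓝 p, φ^[l] (y^[l] z) = φ^[l] (φ^[l] z)) :
    ∀ᶠ z in 𝓝 p, y z = φ z := by
  by_contra hne
  have hD : AnalyticAt ℂ (fun z => y z - φ z) p := hy.sub hφ
  have hne' : ¬ ∀ᶠ z in 𝓝 p, (fun z => y z - φ z) z = 0 := by
    intro h
    apply hne
    filter_upwards [h] with z hz
    exact sub_eq_zero.1 hz
  obtain ⟨k, g, hg, hg0, hgz⟩ := hD.exists_eventuallyEq_pow_smul_nonzero_iff.2 hne'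
  set c := g p with hc
  have hlim : Tendsto (fun z => (y z - φ z) / (z - p) ^ k) (𝓝[≠] p) (𝓝 c) := by
    have h1 : Tendsto g (𝓝[≠] p) (𝓝 c) := hg.continuousAt.tendsto.mono_left nhdsWithin_le_nhds
    refine h1.congr' ?_
    filter_upwards [hgz.filter_mono nhdsWithin_le_nhds, self_mem_nhdsWithin] with z hz hzp
    have : (z - p) ^ k ≠ 0 := pow_ne_zero _ (sub_ne_zero.2 hzp)
    simp only [hz, smul_eq_mul]
    field_simp
  have hyD : HasStrictDerivAt y ρ p := hyd ▸ hy.hasStrictDerivAt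
  have hφD : HasStrictDerivAt φ ρ p := hφd ▸ hφ.hasStrictDerivAt
  have tend : ∀ {f : ℂ → ℂ} {σ : ℂ}, HasStrictDerivAt f σ p → f p = p →
      Tendsto f (𝓝[≠] p) (𝓝 p) := by
    intro f σ hf hfp
    have := hf.hasDerivAt.continuousAt.tendsto.mono_left (nhdsWithin_le_nhds (s := {p}ᶜ))
    rwa [hfp] at this
  -- claim 1
  have hk : c * ρ ^ k = ρ * c := by
    have h1 := tendsto_comp_diff hlim hφD.hasDerivAt hφp hρ
    have h2 := tendsto_diff_comp hlim hφD (tend hyD hyp) (tend hφD hφp)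
    refine tendsto_nhds_unique h1 (h2.congr' ?_)
    filter_upwards [hcomm.filter_mono nhdsWithin_le_nhds] with z hz
    rw [hz]
  have hk' : ρ ^ k = ρ := by
    have : c * (ρ ^ k - ρ) = 0 := by linear_combination hk
    rcases mul_eq_zero.1 this with h | h
    · exact absurd h hg0
    · exact sub_eq_zero.1 h
  have hyl : ∀ n : ℕ, HasStrictDerivAt (y^[n]) (ρ ^ n) p := fun n => HasStrictDerivAt.iterate p hyD hyp n
  have hφl : ∀ n : ℕ, HasStrictDerivAt (φ^[n]) (ρ ^ n) p := fun n => HasStrictDerivAt.iterate p hφD hφp n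
  have hyfix : ∀ n : ℕ, y^[n] p = p := fun n => Function.iterate_fixed hyp n
  have hφfix : ∀ n : ℕ, φ^[n] p = p := fun n => Function.iterate_fixed hφp n
  have hlim2 : ∀ n : ℕ, Tendsto (fun z => (y^[n] z - φ^[n] z) / (z - p) ^ k) (𝓝[≠] p)
      (𝓝 (n * c * ρ ^ n / ρ)) := by
    intro n
    induction n with
    | zero => simp
    | succ n ih =>
      have h1 := tendsto_comp_diff hlim (hyl n).hasDerivAt (hyfix n) (pow_ne_zero n hρ)
      have h2 := tendsto_diff_comp ih hφD (tend (hyl n) (hyfix n)) (tend (hφl n) (hφfix n))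
      have h3 := h1.add h2
      have e : c * (ρ ^ n) ^ k + ρ * (n * c * ρ ^ n / ρ) = ((n + 1 : ℕ) : ℂ) * c * ρ ^ (n + 1) / ρ := by
        rw [← pow_mul, mul_comm n k, pow_mul, hk']
        push_cast
        field_simp
        ring
      rw [e] at h3
      refine h3.congr' ?_
      filter_upwards with z
      rw [Function.iterate_succ_apply', Function.iterate_succ_apply']
      ring
  have h1 := tendsto_diff_comp (hlim2 l) (hφl l) (tend (hyl l) (hyfix l)) (tend (hφl l) (hφfix l))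
  have h2 : Tendsto (fun z => (φ^[l] (y^[l] z) - φ^[l] (φ^[l] z)) / (z - p) ^ k) (𝓝[≠] p) (𝓝 0) := by
    refine tendsto_const_nhds.congr' ?_
    filter_upwards [hpow.filter_mono nhdsWithin_le_nhds] with z hz
    rw [hz]; simp
  have h3 := tendsto_nhds_unique h1 h2
  have hl0 : (l : ℂ) ≠ 0 := by exact_mod_cast (by omega : l ≠ 0)
  have : ρ ^ l * (l * c * ρ ^ l / ρ) ≠ 0 := by
    have := pow_ne_zero l hρ
    refine mul_ne_zero this (div_ne_zero (mul_ne_zero (mul_ne_zero hl0 hg0) this) hρ)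
  exact this h3

end Pool.Agent.Helper65
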