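import Mathlib
import Pool.Agent.Helper65.Base

/-! Elementary facts on `wd`, `IsLift`, `IsGreen`. -/

open Complex Metric Set Filter Topology InnerProductSpace

namespace Pool.Agent.Helper65

lemma wd_self (v : C2) : wd v v = 0 := by simp [wd]; ring

lemma wd_swap (v w : C2) : wd v w = - wd w v := by simp [wd]; ring

lemma wd_smul_left (t : ℂ) (v w : C2) : wd (t • v) w = t * wd v w := by
  simp [wd]; ring

lemma wd_smul_right (t : ℂ) (v w : C2) : wd v (t • w) = t * wd v w := by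
  simp [wd]; ring

lemma wd_add_left (a b w : C2) : wd (a + b) w = wd a w + wd b w := by simp [wd]; ring
lemma wd_add_right (a b w : C2) : wd w (a + b) = wd w a + wd w b := by simp [wd]; ring
lemma wd_sub_left (a b w : C2) : wd (a - b) w = wd a w - wd b w := by simp [wd]; ring
lemma wd_sub_right (a b w : C2) : wd w (a - b) = wd w a - wd w b := by simp [wd]; ring
@[simp] lemma wd_zero_left (w : C2) : wd 0 w = 0 := by simp [wd]
@[simp] lemma wd_zero_right (w : C2) : wd w 0 = 0 := by simp [wd]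

lemma wd_eq_zero_comm {v w : C2} : wd v w = 0 ↔ wd w v = 0 := by
  rw [wd_swap, neg_eq_zero]

/-- Plücker identity. -/
lemma wd_plucker (a b c : C2) : wd a c • b = wd a b • c + wd b c • a := by
  ext <;> simp [wd] <;> ring

lemma par_iff {v w : C2} (hw : w ≠ 0) : wd v w = 0 ↔ ∃ t : ℂ, v = t • w := by
  constructor
  · intro h
    by_cases h1 : w.1 = 0
    · have h2 : w.2 ≠ 0 := by
        intro h2; exact hw (Prod.ext h1 h2)
      refine ⟨v.2 / w.2, ?_⟩
      have hv : v.1 = 0 := by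
        simp [wd, h1] at h
        tauto
      ext
      · simp [hv, h1]
      · simp [h2]
    · refine ⟨v.1 / w.1, ?_⟩
      ext
      · simp [h1]
      · simp only [wd] at h
        simp only [Prod.smul_snd, smul_eq_mul]
        field_simp
        linear_combination -h
  · rintro ⟨t, rfl⟩
    rw [wd_smul_left, wd_self, mul_zero]

lemma par_iff' {v w : C2} (hv : v ≠ 0) (hw : w ≠ 0) :
    wd v w = 0 ↔ ∃ t : ℂ, t ≠ 0 ∧ v = t • w := by
  rw [par_iff hw]
  constructor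
  · rintro ⟨t, rfl⟩
    exact ⟨t, fun h => hv (by simp [h]), rfl⟩
  · rintro ⟨t, -, h⟩
    exact ⟨t, h⟩

lemma par_trans {a b c : C2} (hb : b ≠ 0) (h1 : wd a b = 0) (h2 : wd b c = 0) : wd a c = 0 := by
  have := wd_plucker a b c
  rw [h1, h2, zero_smul, zero_smul, add_zero] at this
  rcases smul_eq_zero.1 this with h | h
  · exact h
  · exact absurd h hb

lemma norm_wd_le (v w : C2) : ‖wd v w‖ ≤ 2 * ‖v‖ * ‖w‖ := by
  have h1 : ‖v.1‖ ≤ ‖v‖ := norm_fst_le v
  have h2 : ‖v.2‖ ≤ ‖v‖ := norm_snd_le v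
  have h3 : ‖w.1‖ ≤ ‖w‖ := norm_fst_le w
  have h4 : ‖w.2‖ ≤ ‖w‖ := norm_snd_le w
  calc ‖wd v w‖ ≤ ‖v.1 * w.2‖ + ‖v.2 * w.1‖ := norm_sub_le _ _
    _ = ‖v.1‖ * ‖w.2‖ + ‖v.2‖ * ‖w.1‖ := by rw [norm_mul, norm_mul]
    _ ≤ ‖v‖ * ‖w‖ + ‖v‖ * ‖w‖ := by gcongr
    _ = 2 * ‖v‖ * ‖w‖ := by ring

lemma pt_ne_zero (z : ℂ) : ((z, 1) : C2) ≠ 0 := by
  intro h
  exact one_ne_zero (congrArg Prod.snd h)

lemma ne_zero_of_fst {v : C2} (h : v.1 ≠ 0) : v ≠ 0 := fun e => h (by simp [e])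
lemma ne_zero_of_snd {v : C2} (h : v.2 ≠ 0) : v ≠ 0 := fun e => h (by simp [e])

lemma fst_or_snd {v : C2} (h : v ≠ 0) : v.1 ≠ 0 ∨ v.2 ≠ 0 := by
  by_contra hc
  push Not at hc
  exact h (Prod.ext hc.1 hc.2)

lemma differentiable_wd {f g : ℂ → C2} (hf : Differentiable ℂ f) (hg : Differentiable ℂ g) :
    Differentiable ℂ (fun z => wd (f z) (g z)) := by
  unfold wd
  fun_prop

lemma continuous_wd : Continuous (fun p : C2 × C2 => wd p.1 p.2) := by
  unfold wd
  fun_prop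

lemma analyticAt_wd {f g : ℂ → C2} {x : ℂ} (hf : AnalyticAt ℂ f x) (hg : AnalyticAt ℂ g x) :
    AnalyticAt ℂ (fun z => wd (f z) (g z)) x := by
  have h1 : AnalyticAt ℂ (fun z => (f z).1) x :=
    (ContinuousLinearMap.fst ℂ ℂ ℂ).analyticAt (f x) |>.comp hf
  have h2 : AnalyticAt ℂ (fun z => (f z).2) x :=
    (ContinuousLinearMap.snd ℂ ℂ ℂ).analyticAt (f x) |>.comp hf
  have h3 : AnalyticAt ℂ (fun z => (g z).1) x :=
    (ContinuousLinearMap.fst ℂ ℂ ℂ).analyticAt (g x) |>.comp hg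
  have h4 : AnalyticAt ℂ (fun z => (g z).2) x :=
    (ContinuousLinearMap.snd ℂ ℂ ℂ).analyticAt (g x) |>.comp hg
  exact (h1.mul h4).sub (h2.mul h3)

lemma analyticAt_fst {f : ℂ → C2} {x : ℂ} (hf : AnalyticAt ℂ f x) :
    AnalyticAt ℂ (fun z => (f z).1) x :=
  (ContinuousLinearMap.fst ℂ ℂ ℂ).analyticAt (f x) |>.comp hf

lemma analyticAt_snd {f : ℂ → C2} {x : ℂ} (hf : AnalyticAt ℂ f x) :
    AnalyticAt ℂ (fun z => (f z).2) x :=
  (ContinuousLinearMap.snd ℂ ℂ ℂ).analyticAt (f x) |>.comp hf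

/-! ### lifts -/

lemma IsLift.zero {d : ℕ} (hd : 1 ≤ d) {f : C2 → C2} (hf : IsLift d f) : f 0 = 0 := by
  have := hf.hom 0 0
  simpa [zero_pow (by omega : d ≠ 0)] using this

lemma isLift_comp {a b : ℕ} {f g : C2 → C2} (hf : IsLift a f) (hg : IsLift b g) :
    IsLift (a * b) (fun v => f (g v)) := by
  refine ⟨hf.diff.comp hg.diff, ?_, ?_, ?_⟩
  · intro t v
    show f (g (t • v)) = _
    rw [hg.hom, hf.hom, ← pow_mul, mul_comm b a]
  · intro v hv
    exact hf.nz _ (hg.nz _ hv)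
  · intro ξ hξ
    obtain ⟨κ, η, hκ, hη, h⟩ := hf.fac ξ hξ
    have hη0 : ∀ i, η i ≠ 0 := fun i e => by simpa [e] using hη i
    choose κ' η' hκ' hη' h' using fun i => hg.fac (η i) (hη0 i)
    refine ⟨κ * ∏ i, κ' i, fun k => η' (finProdFinEquiv.symm k).1 (finProdFinEquiv.symm k).2, ?_, ?_, ?_⟩
    · exact mul_ne_zero hκ (Finset.prod_ne_zero_iff.2 fun i _ => hκ' i)
    · intro k
      exact hη' _ _
    · intro v
      show wd (f (g v)) ξ = _
      rw [h, mul_assoc]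
      congr 1
      have e1 : ∀ i, wd (g v) (η i) = κ' i * ∏ j, wd v (η' i j) := fun i => h' i v
      rw [Finset.prod_congr rfl fun i _ => e1 i, Finset.prod_mul_distrib]
      congr 1
      have e2 := Fintype.prod_equiv (finProdFinEquiv (m := a) (n := b)).symm
        (fun k => wd v (η' (finProdFinEquiv.symm k).1 (finProdFinEquiv.symm k).2))
        (fun p => wd v (η' p.1 p.2)) (fun k => rfl)
      rw [e2, Fintype.prod_prod_type]

lemma isLift_id : IsLift 1 (fun v => v) := by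
  refine ⟨differentiable_id, by simp, by simp, ?_⟩
  intro ξ hξ
  refine ⟨(‖ξ‖ : ℂ), fun _ => ((‖ξ‖ : ℂ)⁻¹) • ξ, by simpa using hξ, ?_, ?_⟩
  · intro _
    rw [norm_smul]
    simp [hξ]
  · intro v
    have : (‖ξ‖ : ℂ) ≠ 0 := by simpa using hξ
    simp only [Finset.univ_unique, Fin.default_eq_zero, Fin.isValue, Finset.prod_const,
      Finset.card_singleton, pow_one, wd_smul_right]
    field_simp

lemma isLift_iterate {d : ℕ} {f : C2 → C2} (hf : IsLift d f) (n : ℕ) :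
    IsLift (d ^ n) (f^[n]) := by
  induction n with
  | zero => exact isLift_id
  | succ n ih =>
    rw [Function.iterate_succ', pow_succ, mul_comm]
    have := isLift_comp hf ih
    exact this

lemma isLift_smul {d : ℕ} {f : C2 → C2} (hf : IsLift d f) {c : ℂ} (hc : c ≠ 0) :
    IsLift d (fun v => c • f v) := by
  refine ⟨hf.diff.const_smul c, ?_, ?_, ?_⟩
  · intro t v
    show c • f (t • v) = _
    rw [hf.hom, smul_comm]
  · intro v hv
    exact smul_ne_zero hc (hf.nz v hv)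
  · intro ξ hξ
    obtain ⟨κ, η, hκ, hη, h⟩ := hf.fac ξ hξ
    refine ⟨c * κ, η, mul_ne_zero hc hκ, hη, ?_⟩
    intro v
    rw [wd_smul_left, h, mul_assoc]

/-- two-sided norm bound -/
lemma IsLift.bounds {d : ℕ} {f : C2 → C2} (hf : IsLift d f) :
    ∃ m M : ℝ, 0 < m ∧ 0 < M ∧ ∀ v : C2, m * ‖v‖ ^ d ≤ ‖f v‖ ∧ ‖f v‖ ≤ M * ‖v‖ ^ d := by
  have hc : IsCompact (sphere (0 : C2) 1) := isCompact_sphere 0 1
  have hne : (sphere (0 : C2) 1).Nonempty := ⟨(1, 0), by simp [Prod.norm_def]⟩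
  have hcont : ContinuousOn (fun v => ‖f v‖) (sphere (0 : C2) 1) :=
    hf.diff.continuous.norm.continuousOn
  obtain ⟨v1, hv1, h1⟩ := hc.exists_isMinOn hne hcont
  obtain ⟨v2, hv2, h2⟩ := hc.exists_isMaxOn hne hcont
  have hv10 : v1 ≠ 0 := by
    rintro rfl; simp at hv1
  have hv20 : v2 ≠ 0 := by
    rintro rfl; simp at hv2
  refine ⟨‖f v1‖, ‖f v2‖, norm_pos_iff.2 (hf.nz _ hv10), norm_pos_iff.2 (hf.nz _ hv20), ?_⟩
  intro v
  by_cases hv : v = 0
  · subst hv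
    rcases Nat.eq_zero_or_pos d with hd | hd
    · subst hd
      have e : ∀ u, f u = f 0 := by
        intro u
        have := hf.hom 0 u
        simpa using this.symm
      simp [e v1, e v2]
    · rw [hf.zero hd]; simp [zero_pow hd.ne']
  · have hn : 0 < ‖v‖ := norm_pos_iff.2 hv
    set u : C2 := ((‖v‖ : ℂ)⁻¹) • v with hu
    have hun : ‖u‖ = 1 := by
      rw [hu, norm_smul]; simp [hn.ne']
    have hvu : v = (‖v‖ : ℂ) • u := by
      rw [hu, smul_smul, mul_inv_cancel₀ (by exact_mod_cast hn.ne'), one_smul]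
    have hfv : ‖f v‖ = ‖v‖ ^ d * ‖f u‖ := by
      conv_lhs => rw [hvu]
      rw [hf.hom, norm_smul, norm_pow]
      simp
    have hus : u ∈ sphere (0 : C2) 1 := by simpa using hun
    have a1 : ‖f v1‖ ≤ ‖f u‖ := h1 hus
    have a2 : ‖f u‖ ≤ ‖f v2‖ := h2 hus
    rw [hfv]
    constructor
    · rw [mul_comm]; gcongr
    · rw [mul_comm]; gcongr

/-! ### Green functions -/

lemma IsGreen.bound {G : C2 → ℝ} (hG : IsGreen G) :
    ∃ C : ℝ, 0 ≤ C ∧ ∀ v : C2, v ≠ 0 → |G v - Real.log ‖v‖| ≤ C := by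
  have hc : IsCompact (sphere (0 : C2) 1) := isCompact_sphere 0 1
  have hcont : ContinuousOn G (sphere (0 : C2) 1) := hG.cont.mono (by
    intro v hv
    simp only [mem_compl_iff, mem_singleton_iff]
    rintro rfl
    simp at hv)
  obtain ⟨C, hC⟩ := hc.exists_bound_of_continuousOn hcont
  refine ⟨max C 0, le_max_right _ _, ?_⟩
  intro v hv
  have hn : 0 < ‖v‖ := norm_pos_iff.2 hv
  have hn' : (‖v‖ : ℂ) ≠ 0 := by exact_mod_cast hn.ne'
  set u : C2 := ((‖v‖ : ℂ)⁻¹) • v with hu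
  have hun : ‖u‖ = 1 := by
    rw [hu, norm_smul]; simp [hn.ne']
  have hvu : v = (‖v‖ : ℂ) • u := by
    rw [hu, smul_smul, mul_inv_cancel₀ hn', one_smul]
  have hu0 : u ≠ 0 := by
    intro h; rw [h] at hun; simp at hun
  have : G v - Real.log ‖v‖ = G u := by
    conv_lhs => rw [hvu]
    rw [hG.hom _ _ hn' hu0, norm_smul, hun]
    simp
  rw [this]
  exact (hC u (by simpa using hun)).trans (le_max_left _ _)

lemma GInv.comp {G : C2 → ℝ} {a b : ℕ} {f g : C2 → C2} (hf : GInv G a f) (hg : GInv G b g)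
    (hnz : ∀ v, v ≠ 0 → g v ≠ 0) : GInv G (a * b) (fun v => f (g v)) := by
  obtain ⟨k, hk⟩ := hf
  obtain ⟨l, hl⟩ := hg
  refine ⟨a * l + k, fun v hv => ?_⟩
  rw [hk _ (hnz v hv), hl v hv]
  push_cast
  ring

lemma iterate_nz {f : C2 → C2} (hnz : ∀ v, v ≠ 0 → f v ≠ 0) (n : ℕ) :
    ∀ v, v ≠ 0 → f^[n] v ≠ 0 := by
  induction n with
  | zero => intro v hv; simpa
  | succ n ih =>
    intro v hv
    rw [Function.iterate_succ_apply']
    exact hnz _ (ih v hv)

lemma GInv.iterate {G : C2 → ℝ} {a : ℕ} {f : C2 → C2} (hf : GInv G a f)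
    (hnz : ∀ v, v ≠ 0 → f v ≠ 0) (n : ℕ) : GInv G (a ^ n) (f^[n]) := by
  induction n with
  | zero => exact ⟨0, fun v _ => by simp⟩
  | succ n ih =>
    rw [Function.iterate_succ', pow_succ, mul_comm]
    have := GInv.comp hf ih (iterate_nz hnz n)
    exact this

end Pool.Agent.Helper65
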