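import Mathlib
import Pool.Agent.Helper65.Base
import Pool.Agent.Helper65.Wd
import Pool.Agent.Helper65.RatComp
import Pool.Agent.Helper65.RatVal

/-! Homogenised lifts of rational functions. -/

open Polynomial

namespace Pool.Agent.Helper65

/-- homogenisation of degree `d` -/
noncomputable def homP (d : ℕ) (p : Polynomial ℂ) (v : C2) : ℂ :=
  ∑ k ∈ Finset.range (d + 1), p.coeff k * v.1 ^ k * v.2 ^ (d - k)

/-- the lift of a rational function -/
noncomputable def RLift (A : RatFunc ℂ) (v : C2) : C2 :=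
  (homP (deg A) A.num v, homP (deg A) A.denom v)

lemma homP_of_snd_ne {d : ℕ} {p : ℂ[X]} (hp : p.natDegree ≤ d) {v : C2} (hv : v.2 ≠ 0) :
    homP d p v = v.2 ^ d * p.eval (v.1 / v.2) := by
  rw [homP, Polynomial.eval_eq_sum_range' (Nat.lt_succ_of_le hp), Finset.mul_sum]
  apply Finset.sum_congr rfl
  intro k hk
  have hk' : k ≤ d := by simpa [Nat.lt_succ_iff] using hk
  have : v.2 ^ d = v.2 ^ (d - k) * v.2 ^ k := by rw [← pow_add]; congr 1; omega
  rw [this, div_pow]
  field_simp

lemma homP_one_right {d : ℕ} {p : ℂ[X]} (hp : p.natDegree ≤ d) (z : ℂ) :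
    homP d p (z, 1) = p.eval z := by
  rw [homP_of_snd_ne hp (by simp)]
  simp

lemma homP_of_snd_eq {d : ℕ} {p : ℂ[X]} {v : C2} (hv : v.2 = 0) :
    homP d p v = p.coeff d * v.1 ^ d := by
  rw [homP, Finset.sum_range_succ, Finset.sum_eq_zero]
  · simp
  · intro k hk
    have hk' : k < d := by simpa using hk
    rw [hv, zero_pow (by omega), mul_zero]

lemma homP_smul (d : ℕ) (p : ℂ[X]) (t : ℂ) (v : C2) : homP d p (t • v) = t ^ d * homP d p v := by
  simp only [homP, Finset.mul_sum]
  apply Finset.sum_congr rfl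
  intro k hk
  have hk' : k ≤ d := by simpa [Nat.lt_succ_iff] using hk
  have : t ^ d = t ^ k * t ^ (d - k) := by rw [← pow_add]; congr 1; omega
  simp only [Prod.smul_fst, Prod.smul_snd, smul_eq_mul, this, mul_pow]
  ring

lemma homP_diff (d : ℕ) (p : ℂ[X]) : Differentiable ℂ (homP d p) := by
  unfold homP
  fun_prop

lemma homP_mul {a b : ℕ} {p q : ℂ[X]} (hp : p.natDegree ≤ a) (hq : q.natDegree ≤ b) (v : C2) :
    homP (a + b) (p * q) v = homP a p v * homP b q v := by
  by_cases hv : v.2 = 0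
  · rw [homP_of_snd_eq hv, homP_of_snd_eq hv, homP_of_snd_eq hv,
      Polynomial.coeff_mul_add_eq_of_natDegree_le hp hq]
    ring
  · have hpq : (p * q).natDegree ≤ a + b := Polynomial.natDegree_mul_le_of_le hp hq
    rw [homP_of_snd_ne hpq hv, homP_of_snd_ne hp hv, homP_of_snd_ne hq hv, Polynomial.eval_mul]
    ring

lemma homP_lin (d : ℕ) (a b : ℂ) (p q : ℂ[X]) (v : C2) :
    homP d (C a * p - C b * q) v = a * homP d p v - b * homP d q v := by
  simp only [homP, Finset.mul_sum, ← Finset.sum_sub_distrib]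
  apply Finset.sum_congr rfl
  intro k _
  simp
  ring

/-- a binary form splits -/
lemma homP_factor : ∀ (d : ℕ) (p : ℂ[X]), p ≠ 0 → p.natDegree ≤ d →
    ∃ (κ : ℂ) (η : Fin d → C2), κ ≠ 0 ∧ (∀ i, ‖η i‖ = 1) ∧
      ∀ v, homP d p v = κ * ∏ i, wd v (η i) := by
  have key : ∀ (d : ℕ) (q : ℂ[X]) (ℓ : C2 → ℂ) (w : C2), w ≠ 0 → (∀ v, ℓ v = wd v w) →
      (∃ (κ : ℂ) (η : Fin d → C2), κ ≠ 0 ∧ (∀ i, ‖η i‖ = 1) ∧
      ∀ v, homP d q v = κ * ∏ i, wd v (η i)) →
      ∀ P : C2 → ℂ, (∀ v, P v = ℓ v * homP d q v) →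
      ∃ (κ : ℂ) (η : Fin (d + 1) → C2), κ ≠ 0 ∧ (∀ i, ‖η i‖ = 1) ∧
      ∀ v, P v = κ * ∏ i, wd v (η i) := by
    rintro d q ℓ w hw hℓ ⟨κ, η, hκ, hη, h⟩ P hP
    have hn : (‖w‖ : ℂ) ≠ 0 := by simpa using hw
    refine ⟨(‖w‖ : ℂ) * κ, Fin.cons (((‖w‖ : ℂ)⁻¹) • w) η, mul_ne_zero hn hκ, ?_, ?_⟩
    · intro i
      refine Fin.cases ?_ (fun j => ?_) i
      · simp only [Fin.cons_zero]
        rw [norm_smul]
        simp [hw]
      · simpa using hη j
    · intro v
      rw [hP, h, hℓ, Fin.prod_univ_succ]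
      simp only [Fin.cons_zero, Fin.cons_succ, wd_smul_right]
      field_simp
  intro d
  induction d with
  | zero =>
    intro p hp hd
    refine ⟨p.coeff 0, fun i => i.elim0, ?_, fun i => i.elim0, ?_⟩
    · rw [Polynomial.eq_C_of_natDegree_le_zero hd] at hp
      intro h
      apply hp
      simp [h]
    · intro v
      simp [homP]
  | succ d ih =>
    intro p hp hd
    by_cases hlt : p.natDegree ≤ d
    · -- factor `v.2`
      refine key d p (fun v => -v.2 * (-1)) (0 + ((-1 : ℂ), (0:ℂ))) ?_ ?_ (ih p hp hlt) _ ?_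
      · intro h
        have := congrArg Prod.fst h
        simp at this
      · intro v
        simp [wd]
      · intro v
        simp only [homP]
        rw [Finset.sum_range_succ, Polynomial.coeff_eq_zero_of_natDegree_lt (by omega),
          Finset.mul_sum]
        simp only [zero_mul, add_zero]
        apply Finset.sum_congr rfl
        intro k hk
        have hk' : k ≤ d := by simpa [Nat.lt_succ_iff] using hk
        rw [show d + 1 - k = (d - k) + 1 by omega, pow_succ]
        ring
    · have hdeg : p.natDegree = d + 1 := by omega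
      have h0 : 0 < p.degree := by
        rw [← Polynomial.natDegree_pos_iff_degree_pos]; omega
      obtain ⟨r, hr⟩ := Complex.exists_root h0
      obtain ⟨q, hq⟩ := Polynomial.dvd_iff_isRoot.2 hr
      have hq0 : q ≠ 0 := by
        rintro rfl; simp at hq; exact hp hq
      have hqd : q.natDegree ≤ d := by
        have := congrArg natDegree hq
        rw [Polynomial.natDegree_mul (Polynomial.X_sub_C_ne_zero r) hq0,
          Polynomial.natDegree_X_sub_C] at this
        omega
      refine key d q (fun v => wd v (r, 1)) (r, 1) (pt_ne_zero r) (fun _ => rfl) (ih q hq0 hqd) _ ?_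
      intro v
      rw [hq, add_comm d 1, homP_mul (by simp) hqd]
      congr 1
      simp [homP, Finset.sum_range_succ, wd]
      ring

lemma natDegree_num_le (A : RatFunc ℂ) : A.num.natDegree ≤ deg A := le_max_left _ _
lemma natDegree_denom_le (A : RatFunc ℂ) : A.denom.natDegree ≤ deg A := le_max_right _ _

lemma RLift_pt (A : RatFunc ℂ) (z : ℂ) : RLift A (z, 1) = (A.num.eval z, A.denom.eval z) := by
  rw [RLift, homP_one_right (natDegree_num_le A), homP_one_right (natDegree_denom_le A)]

lemma wd_RLift (A : RatFunc ℂ) (v ξ : C2) :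
    wd (RLift A v) ξ = homP (deg A) (C ξ.2 * A.num - C ξ.1 * A.denom) v := by
  rw [homP_lin]
  simp [wd, RLift]
  ring

lemma lin_ne_zero {A : RatFunc ℂ} (hA : 1 ≤ deg A) {ξ : C2} (hξ : ξ ≠ 0) :
    (C ξ.2 * A.num - C ξ.1 * A.denom) ≠ 0 := by
  intro h
  by_cases h2 : ξ.2 = 0
  · have h1 : ξ.1 ≠ 0 := by
      rcases fst_or_snd hξ with h1 | h1
      · exact h1
      · exact absurd h2 h1
    rw [h2] at h
    simp only [map_zero, zero_mul, zero_sub, neg_eq_zero, mul_eq_zero, C_eq_zero, h1, false_or] at h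
    exact A.denom_ne_zero h
  · apply nc_of_deg hA
    refine ⟨ξ.1 / ξ.2, ?_⟩
    have h3 : A.num = C (ξ.1 / ξ.2) * A.denom := by
      have : C ξ.2 * A.num = C ξ.2 * (C (ξ.1 / ξ.2) * A.denom) := by
        rw [← mul_assoc, ← C_mul, mul_div_cancel₀ _ h2]
        exact sub_eq_zero.1 h
      exact mul_left_cancel₀ (by simpa using h2) this
    rw [← RatFunc.num_div_denom A, h3, map_mul, mul_div_assoc, div_self, mul_one]
    · rfl
    · exact RatFunc.algebraMap_ne_zero A.denom_ne_zero

theorem isLift_RLift {A : RatFunc ℂ} (hA : 1 ≤ deg A) : IsLift (deg A) (RLift A) := by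
  refine ⟨?_, ?_, ?_, ?_⟩
  · exact (homP_diff _ _).prodMk (homP_diff _ _)
  · intro t v
    simp only [RLift, homP_smul]
    rfl
  · intro v hv h
    have h1 : homP (deg A) A.num v = 0 := congrArg Prod.fst h
    have h2 : homP (deg A) A.denom v = 0 := congrArg Prod.snd h
    by_cases hv2 : v.2 = 0
    · have hv1 : v.1 ≠ 0 := by
        rcases fst_or_snd hv with h1 | h1
        · exact h1
        · exact absurd hv2 h1
      rw [homP_of_snd_eq hv2] at h1 h2
      have h3 : A.num.coeff (deg A) = 0 := by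
        rcases mul_eq_zero.1 h1 with h | h
        · exact h
        · exact absurd h (pow_ne_zero _ hv1)
      have h4 : A.denom.coeff (deg A) = 0 := by
        rcases mul_eq_zero.1 h2 with h | h
        · exact h
        · exact absurd h (pow_ne_zero _ hv1)
      rcases max_choice A.num.natDegree A.denom.natDegree with h | h
      · have e : deg A = A.num.natDegree := h
        rw [e] at h3 hA
        rw [Polynomial.coeff_natDegree, Polynomial.leadingCoeff_eq_zero] at h3
        rw [h3] at hA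
        simp at hA
      · have e : deg A = A.denom.natDegree := h
        rw [e] at h4
        rw [Polynomial.coeff_natDegree, Polynomial.leadingCoeff_eq_zero] at h4
        exact A.denom_ne_zero h4
    · rw [homP_of_snd_ne (natDegree_num_le A) hv2] at h1
      rw [homP_of_snd_ne (natDegree_denom_le A) hv2] at h2
      have h3 : A.num.eval (v.1 / v.2) = 0 := by
        rcases mul_eq_zero.1 h1 with h | h
        · exact absurd h (pow_ne_zero _ hv2)
        · exact h
      have h4 : A.denom.eval (v.1 / v.2) = 0 := by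
        rcases mul_eq_zero.1 h2 with h | h
        · exact absurd h (pow_ne_zero _ hv2)
        · exact h
      obtain ⟨a, b, hab⟩ := RatFunc.isCoprime_num_denom A
      have := congrArg (eval (v.1 / v.2)) hab
      simp [h3, h4] at this
  · intro ξ hξ
    have hdeg : (C ξ.2 * A.num - C ξ.1 * A.denom).natDegree ≤ deg A := by
      refine (Polynomial.natDegree_sub_le _ _).trans (max_le ?_ ?_)
      · exact (Polynomial.natDegree_C_mul_le _ _).trans (natDegree_num_le A)
      · exact (Polynomial.natDegree_C_mul_le _ _).trans (natDegree_denom_le A)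
    obtain ⟨κ, η, hκ, hη, h⟩ := homP_factor (deg A) _ (lin_ne_zero hA hξ) hdeg
    refine ⟨κ, η, hκ, hη, fun v => ?_⟩
    rw [wd_RLift, h]

/-- two parallel lifts of the same degree differ by a constant -/
theorem lift_unique {d : ℕ} {f g : C2 → C2} (hf : IsLift d f) (hg : IsLift d g)
    (h : ∀ v, wd (f v) (g v) = 0) : ∃ c : ℂ, c ≠ 0 ∧ ∀ v, f v = c • g v := by
  have hgp : ∀ z : ℂ, g (z, 1) ≠ 0 := fun z => hg.nz _ (pt_ne_zero z)
  have hfp : ∀ z : ℂ, f (z, 1) ≠ 0 := fun z => hf.nz _ (pt_ne_zero z)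
  have hc : ∀ z : ℂ, ∃ c : ℂ, c ≠ 0 ∧ f (z, 1) = c • g (z, 1) := fun z =>
    (par_iff' (hfp z) (hgp z)).1 (h _)
  choose c hc0 hc1 using hc
  have hFd : Differentiable ℂ (fun z : ℂ => f (z, 1)) :=
    hf.diff.comp (differentiable_id.prodMk (differentiable_const 1))
  have hGd : Differentiable ℂ (fun z : ℂ => g (z, 1)) :=
    hg.diff.comp (differentiable_id.prodMk (differentiable_const 1))
  have hdiff : Differentiable ℂ c := by
    intro z
    rcases fst_or_snd (hgp z) with h1 | h1
    · have e : c =ᶠ[nhds z] fun x => (f (x, 1)).1 / (g (x, 1)).1 := by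
        have : ∀ᶠ x in nhds z, (g (x, 1)).1 ≠ 0 := by
          have hcont : ContinuousAt (fun x : ℂ => (g (x, 1)).1) z :=
            (hGd.continuous.fst).continuousAt
          exact hcont.eventually_ne h1
        filter_upwards [this] with x hx
        rw [hc1 x]
        simp [hx]
      rw [e.differentiableAt_iff]
      exact ((hFd z).fst).div ((hGd z).fst) h1
    · have e : c =ᶠ[nhds z] fun x => (f (x, 1)).2 / (g (x, 1)).2 := by
        have : ∀ᶠ x in nhds z, (g (x, 1)).2 ≠ 0 := by
          have hcont : ContinuousAt (fun x : ℂ => (g (x, 1)).2) z :=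
            (hGd.continuous.snd).continuousAt
          exact hcont.eventually_ne h1
        filter_upwards [this] with x hx
        rw [hc1 x]
        simp [hx]
      rw [e.differentiableAt_iff]
      exact ((hFd z).snd).div ((hGd z).snd) h1
  obtain ⟨m, M, hm, hM, hb⟩ := hf.bounds
  obtain ⟨m', M', hm', hM', hb'⟩ := hg.bounds
  have hbd : ∀ z, ‖c z‖ ≤ M / m' := by
    intro z
    have hp : 0 < ‖((z, 1) : C2)‖ := norm_pos_iff.2 (pt_ne_zero z)
    have h1 := (hb (z, 1)).2
    have h2 := (hb' (z, 1)).1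
    rw [hc1 z, norm_smul] at h1
    rw [le_div_iff₀ hm']
    have hp' : 0 < ‖((z, 1) : C2)‖ ^ d := pow_pos hp d
    have : ‖c z‖ * m' * ‖((z, 1) : C2)‖ ^ d ≤ M * ‖((z, 1) : C2)‖ ^ d := by
      calc ‖c z‖ * m' * ‖((z, 1) : C2)‖ ^ d = ‖c z‖ * (m' * ‖((z, 1) : C2)‖ ^ d) := by ring
        _ ≤ ‖c z‖ * ‖g (z, 1)‖ := by gcongr
        _ ≤ _ := h1
    exact le_of_mul_le_mul_right this hp'
  have hconst : ∀ z, c z = c 0 := by
    intro z
    apply hdiff.apply_eq_apply_of_bounded
    rw [isBounded_iff_forall_norm_le]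
    exact ⟨M / m', by rintro _ ⟨x, rfl⟩; exact hbd x⟩
  refine ⟨c 0, hc0 0, ?_⟩
  have hne : ∀ v : C2, v.2 ≠ 0 → f v = c 0 • g v := by
    intro v hv
    have e : v = v.2 • ((v.1 / v.2, 1) : C2) := by
      ext
      · simp; field_simp
      · simp
    rw [e, hf.hom, hg.hom, hc1, hconst, smul_comm]
  have hcl : IsClosed {v : C2 | f v = c 0 • g v} :=
    isClosed_eq hf.diff.continuous (by have := hg.diff.continuous; fun_prop)
  have hdense : Dense {v : C2 | v.2 ≠ 0} := by
    have h1 : Dense ({0}ᶜ : Set ℂ) := dense_compl_singleton 0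
    have h2 : {v : C2 | v.2 ≠ 0} = Set.univ ×ˢ ({0}ᶜ : Set ℂ) := by
      ext v; simp
    rw [h2]
    exact dense_univ.prod h1
  intro v
  have : closure {v : C2 | v.2 ≠ 0} ⊆ {v : C2 | f v = c 0 • g v} :=
    hcl.closure_subset_iff.2 hne
  rw [hdense.closure_eq] at this
  exact this (Set.mem_univ v)

end Pool.Agent.Helper65
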