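import Mathlib
import Pool.Agent.Helper65.Base
import Pool.Agent.Helper65.Wd
import Pool.Agent.Helper65.Lift

/-! Composition of lifts, Green functions, parallel curves. -/

open Polynomial Filter Topology InnerProductSpace Metric

namespace Pool.Agent.Helper65

lemma RLift_pt_reg {A : RatFunc ℂ} {z : ℂ} (h : reg A z) :
    RLift A (z, 1) = A.denom.eval z • ((ev A z, 1) : C2) := by
  rw [RLift_pt]
  have h' : A.denom.eval z ≠ 0 := h
  ext
  · simp only [ev, Prod.smul_mk, smul_eq_mul]; field_simp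
  · simp

lemma RLift_of_snd_ne {d : ℕ} {f : C2 → C2} (hf : IsLift d f) {v : C2} (hv : v.2 ≠ 0) :
    f v = v.2 ^ d • f (v.1 / v.2, 1) := by
  have e : v = v.2 • ((v.1 / v.2, 1) : C2) := by
    ext
    · simp; field_simp
    · simp
  conv_lhs => rw [e]
  rw [hf.hom]

lemma dense_snd_ne : Dense {v : C2 | v.2 ≠ 0} := by
  have h1 : Dense ({0}ᶜ : Set ℂ) := dense_compl_singleton 0
  have h2 : {v : C2 | v.2 ≠ 0} = Set.univ ×ˢ ({0}ᶜ : Set ℂ) := by
    ext v; simp
  rw [h2]
  exact dense_univ.prod h1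

/-- Two lifts which are parallel on a dense set of the affine chart are parallel. -/
lemma par_of_dense {a b : ℕ} {f g : C2 → C2} (hf : IsLift a f) (hg : IsLift b g) {U : Set ℂ}
    (hU : Dense U) (h : ∀ z ∈ U, wd (f (z, 1)) (g (z, 1)) = 0) (v : C2) : wd (f v) (g v) = 0 := by
  have h1 : ∀ z : ℂ, wd (f (z, 1)) (g (z, 1)) = 0 := by
    have hcl : IsClosed {z : ℂ | wd (f (z, 1)) (g (z, 1)) = 0} := by
      apply isClosed_eq _ continuous_const
      have := hf.diff.continuous
      have := hg.diff.continuous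
      unfold wd
      fun_prop
    intro z
    have : closure U ⊆ {z : ℂ | wd (f (z, 1)) (g (z, 1)) = 0} := hcl.closure_subset_iff.2 h
    rw [hU.closure_eq] at this
    exact this (Set.mem_univ z)
  have h2 : ∀ v : C2, v.2 ≠ 0 → wd (f v) (g v) = 0 := by
    intro v hv
    rw [RLift_of_snd_ne hf hv, RLift_of_snd_ne hg hv, wd_smul_left, wd_smul_right, h1]
    simp
  have hcl : IsClosed {v : C2 | wd (f v) (g v) = 0} := by
    apply isClosed_eq _ continuous_const
    have := hf.diff.continuous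
    have := hg.diff.continuous
    unfold wd
    fun_prop
  have : closure {v : C2 | v.2 ≠ 0} ⊆ {v : C2 | wd (f v) (g v) = 0} :=
    hcl.closure_subset_iff.2 h2
  rw [dense_snd_ne.closure_eq] at this
  exact this (Set.mem_univ v)

lemma finite_fibre {B : RatFunc ℂ} (hB : 1 ≤ deg B) (r : ℂ) :
    {z : ℂ | B.num.eval z = r * B.denom.eval z}.Finite := by
  have h := lin_ne_zero hB (ξ := (r, 1)) (pt_ne_zero r)
  apply (Polynomial.finite_setOfPred_isRoot h).subset
  intro z hz
  simp only [Set.mem_ofPred_eq] at hz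
  show IsRoot _ z
  simp [IsRoot.def, hz]

lemma finite_bad {A B : RatFunc ℂ} (hB : 1 ≤ deg B) :
    {z : ℂ | ¬ (reg B z ∧ reg A (ev B z))}.Finite := by
  have h1 : {z : ℂ | B.denom.eval z = 0}.Finite := Polynomial.finite_setOfPred_isRoot B.denom_ne_zero
  have h2 : {r : ℂ | A.denom.eval r = 0}.Finite := Polynomial.finite_setOfPred_isRoot A.denom_ne_zero
  have h3 : (⋃ r ∈ {r : ℂ | A.denom.eval r = 0}, {z : ℂ | B.num.eval z = r * B.denom.eval z}).Finite :=
    h2.biUnion fun r _ => finite_fibre hB r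
  apply (h1.union h3).subset
  intro z hz
  simp only [Set.mem_ofPred_eq, not_and_or, reg, not_not] at hz
  rcases hz with hz | hz
  · exact Or.inl hz
  · by_cases hz1 : B.denom.eval z = 0
    · exact Or.inl hz1
    · right
      simp only [Set.mem_iUnion, Set.mem_ofPred_eq]
      refine ⟨ev B z, hz, ?_⟩
      unfold ev
      field_simp

theorem RLift_comp {A B : RatFunc ℂ} (hA : 1 ≤ deg A) (hB : 1 ≤ deg B) :
    ∃ c : ℂ, c ≠ 0 ∧ ∀ v, RLift A (RLift B v) = c • RLift (comp A B) v := by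
  have hd : deg (comp A B) = deg A * deg B := deg_comp (nc_of_deg hB)
  have h1 : IsLift (deg A * deg B) (fun v => RLift A (RLift B v)) :=
    isLift_comp (isLift_RLift hA) (isLift_RLift hB)
  have hAB : 1 ≤ deg (comp A B) := by rw [hd]; exact Nat.mul_pos hA hB
  have h2 : IsLift (deg A * deg B) (RLift (comp A B)) := by
    rw [← hd]; exact isLift_RLift hAB
  apply lift_unique h1 h2
  apply par_of_dense h1 h2 (U := {z : ℂ | reg B z ∧ reg A (ev B z)})
  · have := (finite_bad (A := A) hB).countable.dense_compl ℂ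
    convert this using 1
    ext z; simp
  · rintro z ⟨rB, rA⟩
    have hc := ev_comp (nc_of_deg hB) rB rA
    have rAB := reg_comp (nc_of_deg hB) rB rA
    show wd (RLift A (RLift B (z, 1))) (RLift (comp A B) (z, 1)) = 0
    rw [RLift_pt_reg rB, (isLift_RLift hA).hom, RLift_pt_reg rA, RLift_pt_reg rAB, hc]
    simp only [wd_smul_left, wd_smul_right, wd_self, mul_zero]

theorem eq_of_RLift_par {A B : RatFunc ℂ} {U : Set ℂ}
    (hU : U.Infinite) (h : ∀ z ∈ U, wd (RLift A (z, 1)) (RLift B (z, 1)) = 0) : A = B := by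
  have hpoly : A.num * B.denom = A.denom * B.num := by
    apply Polynomial.eq_of_infinite_eval_eq
    apply hU.mono
    intro z hz
    have := h z hz
    rw [RLift_pt, RLift_pt] at this
    simp only [wd] at this
    simp only [Set.mem_ofPred_eq, eval_mul]
    linear_combination this
  rw [← RatFunc.num_div_denom A, ← RatFunc.num_div_denom B]
  rw [div_eq_div_iff (RatFunc.algebraMap_ne_zero A.denom_ne_zero)
    (RatFunc.algebraMap_ne_zero B.denom_ne_zero), ← map_mul, ← map_mul, hpoly, mul_comm]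

/-- existence of the Green function of a lift -/
theorem exists_green {d : ℕ} (hd : 2 ≤ d) {f : C2 → C2} (hf : IsLift d f) :
    ∃ G : C2 → ℝ, IsGreen G ∧ ∀ v, v ≠ 0 → G (f v) = d * G v := by
  obtain ⟨m, M, hm, hM, hb⟩ := hf.bounds
  have hd0 : (0 : ℝ) < d := by exact_mod_cast (by omega : 0 < d)
  have hd1 : (1 : ℝ) < d := by exact_mod_cast (by omega : 1 < d)
  set φ : C2 → ℝ := fun v => Real.log ‖f v‖ - d * Real.log ‖v‖ with hφ
  set K : ℝ := max |Real.log m| |Real.log M| with hK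
  have hφb : ∀ v, v ≠ 0 → |φ v| ≤ K := by
    intro v hv
    have hn : 0 < ‖v‖ := norm_pos_iff.2 hv
    have hnd : 0 < ‖v‖ ^ d := pow_pos hn d
    have hfn : 0 < ‖f v‖ := norm_pos_iff.2 (hf.nz v hv)
    obtain ⟨h1, h2⟩ := hb v
    have e1 : Real.log m + d * Real.log ‖v‖ ≤ Real.log ‖f v‖ := by
      have := Real.log_le_log (by positivity) h1
      rwa [Real.log_mul hm.ne' hnd.ne', Real.log_pow] at this
    have e2 : Real.log ‖f v‖ ≤ Real.log M + d * Real.log ‖v‖ := by
      have := Real.log_le_log hfn h2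
      rwa [Real.log_mul hM.ne' hnd.ne', Real.log_pow] at this
    rw [abs_le]
    constructor
    · have : -K ≤ Real.log m := by
        have := neg_abs_le (Real.log m)
        have := le_max_left |Real.log m| |Real.log M|
        linarith
      simp only [hφ]; linarith
    · have : Real.log M ≤ K := (le_abs_self _).trans (le_max_right _ _)
      simp only [hφ]; linarith
  have hφc : ContinuousOn φ {0}ᶜ := by
    intro v hv
    have hv' : v ≠ 0 := hv
    apply ContinuousAt.continuousWithinAt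
    have h1 : ContinuousAt (fun v => ‖f v‖) v := hf.diff.continuous.norm.continuousAt
    have h2 : ContinuousAt (fun v : C2 => ‖v‖) v := continuous_norm.continuousAt
    exact (h1.log (norm_ne_zero_iff.2 (hf.nz v hv'))).sub
      (continuousAt_const.mul (h2.log (norm_ne_zero_iff.2 hv')))
  have hφh : ∀ (t : ℂ) v, t ≠ 0 → v ≠ 0 → φ (t • v) = φ v := by
    intro t v ht hv
    have htn : ‖t‖ ≠ 0 := norm_ne_zero_iff.2 ht
    simp only [hφ, hf.hom, norm_smul, norm_pow]
    rw [Real.log_mul (pow_ne_zero _ htn) (norm_ne_zero_iff.2 (hf.nz v hv)), Real.log_pow,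
      Real.log_mul htn (norm_ne_zero_iff.2 hv)]
    ring
  have hit : ∀ n v, v ≠ 0 → f^[n] v ≠ 0 := fun n => iterate_nz hf.nz n
  have hterm : ∀ (n : ℕ) v, v ≠ 0 → ‖φ (f^[n] v) / d ^ (n + 1)‖ ≤ K * (1 / d) ^ n := by
    intro n v hv
    have hK0 : 0 ≤ K := (abs_nonneg _).trans (le_max_left _ _)
    rw [Real.norm_eq_abs, abs_div, abs_of_pos (pow_pos hd0 _)]
    calc |φ (f^[n] v)| / d ^ (n + 1) ≤ K / d ^ (n + 1) := by
          gcongr
          exact hφb _ (hit n v hv)
      _ ≤ K / d ^ n := by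
          apply div_le_div_of_nonneg_left hK0 (pow_pos hd0 _)
          exact pow_le_pow_right₀ hd1.le (Nat.le_succ n)
      _ = K * (1 / d) ^ n := by rw [one_div, inv_pow]; rfl
  have hsum : Summable (fun n : ℕ => K * (1 / (d : ℝ)) ^ n) := by
    apply Summable.mul_left
    apply summable_geometric_of_lt_one (by positivity)
    rw [div_lt_one hd0]; exact hd1
  have hsumm : ∀ v, v ≠ 0 → Summable (fun n : ℕ => φ (f^[n] v) / d ^ (n + 1)) := by
    intro v hv
    exact Summable.of_norm_bounded hsum (fun n => hterm n v hv)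
  refine ⟨fun v => Real.log ‖v‖ + ∑' n : ℕ, φ (f^[n] v) / d ^ (n + 1), ⟨?_, ?_⟩, ?_⟩
  · apply ContinuousOn.add
    · intro v hv
      have hv' : v ≠ 0 := hv
      exact (continuous_norm.continuousAt.log (norm_ne_zero_iff.2 hv')).continuousWithinAt
    · apply continuousOn_tsum _ hsum
      · intro n v hv
        exact hterm n v hv
      · intro n
        apply ContinuousOn.div_const
        apply hφc.comp
        · exact (hf.diff.continuous.iterate n).continuousOn
        · intro v hv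
          exact hit n v hv
  · intro t v ht hv
    have e : ∀ n, φ (f^[n] (t • v)) = φ (f^[n] v) := by
      intro n
      rw [(isLift_iterate hf n).hom, hφh _ _ (pow_ne_zero _ ht) (hit n v hv)]
    simp only [e, norm_smul]
    rw [Real.log_mul (norm_ne_zero_iff.2 ht) (norm_ne_zero_iff.2 hv)]
    ring
  · intro v hv
    have e1 : ∑' n : ℕ, φ (f^[n] v) / (d : ℝ) ^ (n + 1)
        = φ v / d + (∑' n : ℕ, φ (f^[n] (f v)) / (d : ℝ) ^ (n + 1)) / d := by
      rw [(hsumm v hv).tsum_eq_zero_add]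
      congr 1
      · simp
      · rw [← tsum_div_const]
        congr 1
        ext n
        rw [Function.iterate_succ_apply, pow_succ (d : ℝ) (n + 1)]
        field_simp
    have e2 : φ v = Real.log ‖f v‖ - d * Real.log ‖v‖ := rfl
    simp only
    rw [e1, e2]
    field_simp
    ring

/-! ### parallel curves -/

lemma exists_ratio {φ ψ : ℂ → C2} {x : ℂ} (hφ : AnalyticAt ℂ φ x) (hψ : AnalyticAt ℂ ψ x)
    (hφ0 : φ x ≠ 0) (hψ0 : ψ x ≠ 0) (h : ∀ᶠ z in 𝓝 x, wd (φ z) (ψ z) = 0) :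
    ∃ m : ℂ → ℂ, AnalyticAt ℂ m x ∧ m x ≠ 0 ∧ ∀ᶠ z in 𝓝 x, φ z = m z • ψ z := by
  have hne : ∀ᶠ z in 𝓝 x, ψ z ≠ 0 := hψ.continuousAt.eventually_ne hψ0
  rcases fst_or_snd hψ0 with h1 | h1
  · refine ⟨fun z => (φ z).1 / (ψ z).1, (analyticAt_fst hφ).div (analyticAt_fst hψ) h1, ?_, ?_⟩
    · have hx := h.self_of_nhds
      obtain ⟨t, ht, e⟩ := (par_iff' hφ0 hψ0).1 hx
      simp only
      rw [e]
      simp [h1, ht]
    · have : ∀ᶠ z in 𝓝 x, (ψ z).1 ≠ 0 := (analyticAt_fst hψ).continuousAt.eventually_ne h1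
      filter_upwards [this, h, hne] with z hz hz1 hz2
      obtain ⟨t, e⟩ := (par_iff hz2).1 hz1
      rw [e]
      simp [hz]
  · refine ⟨fun z => (φ z).2 / (ψ z).2, (analyticAt_snd hφ).div (analyticAt_snd hψ) h1, ?_, ?_⟩
    · have hx := h.self_of_nhds
      obtain ⟨t, ht, e⟩ := (par_iff' hφ0 hψ0).1 hx
      simp only
      rw [e]
      simp [h1, ht]
    · have : ∀ᶠ z in 𝓝 x, (ψ z).2 ≠ 0 := (analyticAt_snd hψ).continuousAt.eventually_ne h1
      filter_upwards [this, h, hne] with z hz hz1 hz2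
      obtain ⟨t, e⟩ := (par_iff hz2).1 hz1
      rw [e]
      simp [hz]

lemma green_par {G : C2 → ℝ} (hG : IsGreen G) {φ ψ : ℂ → C2} {x : ℂ} (hφ : AnalyticAt ℂ φ x)
    (hψ : AnalyticAt ℂ ψ x) (hφ0 : φ x ≠ 0) (hψ0 : ψ x ≠ 0)
    (h : ∀ᶠ z in 𝓝 x, wd (φ z) (ψ z) = 0) :
    HarmonicAt (fun z => G (φ z) - G (ψ z)) x := by
  obtain ⟨m, hm, hm0, e⟩ := exists_ratio hφ hψ hφ0 hψ0 h
  have h1 : (fun z => G (φ z) - G (ψ z)) =ᶠ[𝓝 x] fun z => Real.log ‖m z‖ := by
    have hne : ∀ᶠ z in 𝓝 x, ψ z ≠ 0 := hψ.continuousAt.eventually_ne hψ0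
    have hne' : ∀ᶠ z in 𝓝 x, m z ≠ 0 := hm.continuousAt.eventually_ne hm0
    filter_upwards [e, hne, hne'] with z hz hz1 hz2
    rw [hz, hG.hom _ _ hz2 hz1]
    ring
  rw [harmonicAt_congr_nhds h1]
  exact hm.harmonicAt_log_norm hm0

/-- global ratio of parallel entire curves -/
lemma exists_ratio_entire {φ ψ : ℂ → C2} (hφ : Differentiable ℂ φ) (hψ : Differentiable ℂ ψ)
    (hφ0 : ∀ z, φ z ≠ 0) (hψ0 : ∀ z, ψ z ≠ 0) (h : ∀ z, wd (φ z) (ψ z) = 0) :
    ∃ m : ℂ → ℂ, Differentiable ℂ m ∧ (∀ z, m z ≠ 0) ∧ ∀ z, φ z = m z • ψ z := by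
  choose m hm0 hm using fun z => (par_iff' (hφ0 z) (hψ0 z)).1 (h z)
  refine ⟨m, ?_, hm0, hm⟩
  intro x
  obtain ⟨m', hm', -, e⟩ := exists_ratio (hφ.analyticAt x) (hψ.analyticAt x) (hφ0 x) (hψ0 x)
    (Eventually.of_forall h)
  have : m =ᶠ[𝓝 x] m' := by
    filter_upwards [e] with z hz
    have h2 : m z • ψ z = m' z • ψ z := by rw [← hm z, ← hz]
    exact smul_left_injective ℂ (hψ0 z) h2
  exact (this.differentiableAt_iff).2 hm'.differentiableAt

end Pool.Agent.Helper65
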