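import Mathlib

/-! Quantitative inverse functions on discs and branches for converging sequences. -/

open Complex Metric Set Filter Topology
open scoped NNReal

namespace Pool.Agent.Helper65

lemma inv_disc {K : ℂ → ℂ} {ζ a : ℂ} {r : ℝ} (hr : 0 < r) (ha : a ≠ 0)
    (hK : DifferentiableOn ℂ K (ball ζ r)) (hd : ∀ x ∈ ball ζ r, ‖deriv K x - a‖ ≤ ‖a‖ / 4) :
    InjOn K (ball ζ r) ∧ ∃ g : ℂ → ℂ, DifferentiableOn ℂ g (ball (K ζ) (‖a‖ * r / 4)) ∧
      MapsTo g (ball (K ζ) (‖a‖ * r / 4)) (ball ζ r) ∧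
      (∀ y ∈ ball (K ζ) (‖a‖ * r / 4), K (g y) = y) ∧
      (∀ x ∈ ball ζ r, K x ∈ ball (K ζ) (‖a‖ * r / 4) → g (K x) = x) := by
  have hapos : 0 < ‖a‖ := norm_pos_iff.2 ha
  set K1 : ℂ → ℂ := fun x => a⁻¹ * K x with hK1
  have hdiff : ∀ x ∈ ball ζ r, DifferentiableAt ℂ K x := fun x hx =>
    (hK x hx).differentiableAt (isOpen_ball.mem_nhds hx)
  have happ : ApproximatesLinearOn K1 ((ContinuousLinearEquiv.refl ℂ ℂ : ℂ ≃L[ℂ] ℂ) : ℂ →L[ℂ] ℂ)
      (ball ζ r) (1 / 4 : ℝ≥0) := by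
    intro x hx y hy
    have h := (convex_ball ζ r).norm_image_sub_le_of_norm_deriv_le (𝕜 := ℂ)
      (f := fun x => K1 x - x) (C := 1 / 4) (x := y) (y := x)
      (fun z hz => ((hdiff z hz).const_mul _).sub differentiableAt_id) ?_ hy hx
    · have e : K1 x - K1 y - ((ContinuousLinearEquiv.refl ℂ ℂ : ℂ ≃L[ℂ] ℂ) : ℂ →L[ℂ] ℂ) (x - y)
          = (K1 x - x) - (K1 y - y) := by
        simp only [ContinuousLinearEquiv.coe_coe, ContinuousLinearEquiv.coe_refl', id_eq]
        ring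
      rw [e]
      have h2 : ((1 / 4 : ℝ≥0) : ℝ) = 1 / 4 := by norm_num
      rw [h2]
      exact h
    · intro z hz
      have e : deriv (fun x => K1 x - x) z = a⁻¹ * (deriv K z - a) := by
        have h1 : HasDerivAt (fun x => K1 x - x) (a⁻¹ * deriv K z - 1) z :=
          ((hdiff z hz).hasDerivAt.const_mul _).sub (hasDerivAt_id z)
        rw [h1.deriv]
        field_simp
      rw [e, norm_mul, norm_inv]
      calc ‖a‖⁻¹ * ‖deriv K z - a‖ ≤ ‖a‖⁻¹ * (‖a‖ / 4) := by
            gcongr; exact hd z hz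
        _ = 1 / 4 := by field_simp
  have hN : ‖(((ContinuousLinearEquiv.refl ℂ ℂ).symm : ℂ ≃L[ℂ] ℂ) : ℂ →L[ℂ] ℂ)‖₊ = 1 := by
    have : (((ContinuousLinearEquiv.refl ℂ ℂ).symm : ℂ ≃L[ℂ] ℂ) : ℂ →L[ℂ] ℂ)
        = ContinuousLinearMap.id ℂ ℂ := rfl
    rw [this]
    ext
    simp
  have hc : Subsingleton ℂ ∨ (1 / 4 : ℝ≥0) <
      ‖(((ContinuousLinearEquiv.refl ℂ ℂ).symm : ℂ ≃L[ℂ] ℂ) : ℂ →L[ℂ] ℂ)‖₊⁻¹ := by
    right
    rw [hN, inv_one]
    have : ((1 / 4 : ℝ≥0) : ℝ) < ((1 : ℝ≥0) : ℝ) := by norm_num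
    exact_mod_cast this
  set P := happ.toOpenPartialHomeomorph K1 (ball ζ r) hc isOpen_ball with hP
  have hPcoe : ∀ x, P x = K1 x := fun x => rfl
  have hPs : P.source = ball ζ r := rfl
  have htarget : ball (K1 ζ) (r / 4) ⊆ P.target := by
    have h1 := happ.closedBall_subset_target hc isOpen_ball (b := ζ) (ε := r / 2) (by positivity)
      (closedBall_subset_ball (by linarith))
    refine Subset.trans ?_ h1
    apply (ball_subset_closedBall).trans
    apply closedBall_subset_closedBall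
    rw [hN]
    have : ((1 / 4 : ℝ≥0) : ℝ) = 1 / 4 := by norm_num
    push_cast
    norm_num
    linarith
  have hinj1 : InjOn K1 (ball ζ r) := happ.injOn hc
  refine ⟨?_, fun y => P.symm (a⁻¹ * y), ?_, ?_, ?_, ?_⟩
  · intro x hx y hy hxy
    apply hinj1 hx hy
    simp only [hK1, hxy]
  all_goals
    have hmem : ∀ y ∈ ball (K ζ) (‖a‖ * r / 4), a⁻¹ * y ∈ P.target := by
      intro y hy
      apply htarget
      rw [mem_ball, dist_eq_norm] at hy ⊢
      have : a⁻¹ * y - K1 ζ = a⁻¹ * (y - K ζ) := by simp only [hK1]; ring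
      rw [this, norm_mul, norm_inv]
      calc ‖a‖⁻¹ * ‖y - K ζ‖ < ‖a‖⁻¹ * (‖a‖ * r / 4) := by gcongr
        _ = r / 4 := by field_simp
  · intro y hy
    have h1 := hmem y hy
    have h2 : P.symm (a⁻¹ * y) ∈ ball ζ r := P.map_target h1
    have h3 : HasDerivAt P (a⁻¹ * deriv K (P.symm (a⁻¹ * y))) (P.symm (a⁻¹ * y)) :=
      ((hdiff _ h2).hasDerivAt.const_mul _)
    have hne : a⁻¹ * deriv K (P.symm (a⁻¹ * y)) ≠ 0 := by
      apply mul_ne_zero (inv_ne_zero ha)
      intro h0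
      have := hd _ h2
      rw [h0, zero_sub, norm_neg] at this
      linarith
    have h4 := P.hasDerivAt_symm h1 hne h3
    have h5 : DifferentiableAt ℂ (fun y => P.symm (a⁻¹ * y)) y :=
      DifferentiableAt.comp (f := fun y => a⁻¹ * y) y h4.differentiableAt
        (differentiableAt_id.const_mul _)
    exact h5.differentiableWithinAt
  · intro y hy
    exact P.map_target (hmem y hy)
  · intro y hy
    have h1 := P.right_inv (hmem y hy)
    rw [hPcoe] at h1
    simp only [hK1] at h1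
    have := mul_left_cancel₀ (inv_ne_zero ha) h1
    exact this
  · intro x hx hy
    have h1 := P.left_inv (x := x) (by rw [hPs]; exact hx)
    rw [hPcoe] at h1
    exact h1

/-- inverse branches along a uniformly convergent sequence -/
lemma inv_branches {H : ℕ → ℂ → ℂ} {H0 : ℂ → ℂ} {ζ : ℂ} {r : ℝ} (hr : 0 < r)
    (hH : ∀ᶠ k in atTop, DifferentiableOn ℂ (H k) (ball ζ r))
    (hlim : TendstoUniformlyOn H H0 atTop (ball ζ r)) (hd : deriv H0 ζ ≠ 0) :
    ∃ η > 0, ∀ᶠ k in atTop, ∃ g : ℂ → ℂ, DifferentiableOn ℂ g (ball (H0 ζ) η) ∧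
      MapsTo g (ball (H0 ζ) η) (ball ζ r) ∧ ∀ y ∈ ball (H0 ζ) η, H k (g y) = y := by
  have hH' : ∀ᶠ k in atTop, DifferentiableOn ℂ (H k) (ball ζ r) := hH
  have hlim' : TendstoLocallyUniformlyOn H H0 atTop (ball ζ r) := hlim.tendstoLocallyUniformlyOn
  have hH0 : DifferentiableOn ℂ H0 (ball ζ r) := hlim'.differentiableOn hH' isOpen_ball
  set a := deriv H0 ζ with ha
  have hapos : 0 < ‖a‖ := norm_pos_iff.2 hd
  have hcont : ContinuousAt (deriv H0) ζ :=
    (hH0.analyticOnNhd isOpen_ball ζ (mem_ball_self hr)).deriv.continuousAt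
  obtain ⟨r0, hr0, hb0⟩ := Metric.continuousAt_iff.1 hcont (‖a‖ / 8) (by positivity)
  set r1 := min (r0 / 2) (r / 2) with hr1
  have hr1pos : 0 < r1 := lt_min (by positivity) (by positivity)
  have hsub : closedBall ζ r1 ⊆ ball ζ r := closedBall_subset_ball (by
    have := min_le_right (r0 / 2) (r / 2); linarith)
  have hderiv : TendstoUniformlyOn (deriv ∘ H) (deriv H0) atTop (closedBall ζ r1) := by
    have h1 := hlim'.deriv hH' isOpen_ball
    rw [tendstoLocallyUniformlyOn_iff_forall_isCompact isOpen_ball] at h1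
    exact h1 _ hsub (isCompact_closedBall ζ r1)
  rw [Metric.tendstoUniformlyOn_iff] at hderiv
  have e1 := hderiv (‖a‖ / 8) (by positivity)
  rw [Metric.tendstoUniformlyOn_iff] at hlim
  have e2 := hlim (‖a‖ * r1 / 8) (by positivity)
  refine ⟨‖a‖ * r1 / 8, by positivity, ?_⟩
  filter_upwards [e1, e2, hH'] with k h1 h2 h3
  have hsub' : ball ζ r1 ⊆ ball ζ r := ball_subset_closedBall.trans hsub
  obtain ⟨-, g, hg1, hg2, hg3, -⟩ := inv_disc (K := H k) (ζ := ζ) (a := a) hr1pos hd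
    (h3.mono hsub') (by
      intro x hx
      have a1 : dist (deriv H0 x) (deriv (H k) x) < ‖a‖ / 8 := h1 x (ball_subset_closedBall hx)
      have a2 : dist (deriv H0 x) a < ‖a‖ / 8 := by
        apply hb0
        rw [mem_ball] at hx
        have := min_le_left (r0 / 2) (r / 2)
        linarith
      rw [dist_eq_norm] at a1 a2
      have : deriv (H k) x - a = (deriv H0 x - a) - (deriv H0 x - deriv (H k) x) := by ring
      rw [this]
      have := norm_sub_le (deriv H0 x - a) (deriv H0 x - deriv (H k) x)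
      linarith)
  have hballs : ball (H0 ζ) (‖a‖ * r1 / 8) ⊆ ball (H k ζ) (‖a‖ * r1 / 4) := by
    apply ball_subset_ball'
    have := h2 ζ (mem_ball_self hr)
    linarith
  exact ⟨g, hg1.mono hballs, fun y hy => hsub' (hg2 (hballs hy)), fun y hy => hg3 y (hballs hy)⟩

/-- continuity of composition for uniform convergence, near a compact set of values -/
lemma tendstoUniformlyOn_comp_of_continuousOn {E F : Type*} [NormedAddCommGroup E] [ProperSpace E]
    [PseudoMetricSpace F] {f : ℕ → ℂ → E} {h : ℂ → E} {S : Set ℂ} {K : Set E} {δ : ℝ}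
    (hδ : 0 < δ) {Ψ : E → F} (hK : IsCompact K) (hΨ : ContinuousOn Ψ K)
    (hlim : TendstoUniformlyOn f h atTop S) (hh : ∀ x ∈ S, closedBall (h x) δ ⊆ K) :
    TendstoUniformlyOn (fun k x => Ψ (f k x)) (fun x => Ψ (h x)) atTop S := by
  have huc := hK.uniformContinuousOn_of_continuous hΨ
  rw [Metric.uniformContinuousOn_iff] at huc
  rw [Metric.tendstoUniformlyOn_iff] at hlim ⊢
  intro ε hε
  obtain ⟨η, hη, h1⟩ := huc ε hε
  filter_upwards [hlim (min η δ) (lt_min hη hδ)] with k hk x hx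
  have h2 := hk x hx
  have h3 : dist (h x) (f k x) < η := lt_of_lt_of_le h2 (min_le_left _ _)
  have h4 : dist (h x) (f k x) < δ := lt_of_lt_of_le h2 (min_le_right _ _)
  apply h1 _ (hh x hx (mem_closedBall_self hδ.le)) _ _ h3
  apply hh x hx
  rw [mem_closedBall, dist_comm]
  exact h4.le

end Pool.Agent.Helper65
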