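import Pool.Agent.Helper65.HLink
import Pool.Agent.Helper59.FamE
import Pool.Agent.Helper17.Dyn.Sym4

/-! The finiteness alternative (modules F and S put together). -/

open Complex Metric Set Filter Topology InnerProductSpace

namespace Pool.Agent.Helper65

theorem relation_of_no_tr {G : C2 → ℝ} {F : C2 → C2} {w : ℕ} {h : ℂ → C2} {lam : ℂ}
    (D : LinData G F w h lam) (hT : ∀ c ∈ Tr (fun z => G (h z)), c = 0) {b1 b2 : ℕ}
    (hb1 : 2 ≤ b1) (hb2 : 2 ≤ b2) {B1 B2 : C2 → C2} (h1 : IsLift b1 B1) (h2 : IsLift b2 B2)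
    (hG1 : GInv G b1 B1) (hG2 : GInv G b2 B2) :
    ∃ i j n : ℕ, 1 ≤ j ∧ 1 ≤ n ∧ ∀ v, v ≠ 0 → wd (B1^[i + j] v) (B1^[i] (B2^[n] v)) = 0 := by
  have hmontel : Helper59.Fam.MontelStmt := fun f c R M hd hb => montel f hd hb
  have htr : Helper59.Fam.TrStmt (fun z => G (h z)) := by
    intro δ hδ hδ0 hδ' hδg β hβ hβ' s hs hβg ρ hρ σ hσ hσ1 hσ2 t ht hσg
    exact Helper17.Dyn.exists_tr (Helper59.Fam.symG D) hδ hδ0 hδ' hδg hβ hβ' hs hβg hρ hσ hσ1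
      hσ2 ht hσg
  have hfin := Helper59.Fam.finStmt hmontel D hT htr
  exact Helper59.Fam.relation_core D hfin hb1 hb2 ⟨by omega, h1, hG1⟩ ⟨by omega, h2, hG2⟩

end Pool.Agent.Helper65
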