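import Pool.Agent.Helper65.Base
import Pool.Agent.Helper56.Harm.D
import Pool.Agent.Helper56.Harm.L1
import Pool.Agent.Helper56.Harm.Strip

/-! Links to the harmonic toolkit of helper56. -/

namespace Pool.Agent.Helper65

export Pool.Agent.Helper56.Harm (harmonicAt_comp harmonic_of_unif harmonic_of_L1 harmonic_of_avg
  harmonicAt_of_punctured montel exists_zoom exists_strip)

end Pool.Agent.Helper65
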