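import Mathlib
import Pool.Agent.Helper65.Base
import Pool.Agent.Helper65.Wd
import Pool.Agent.Helper65.Green
import Pool.Agent.Helper65.HLink

/-! Holomorphic curves in `ℂ² ∖ 0`. -/

open Complex Metric Set Filter Topology InnerProductSpace

namespace Pool.Agent.Helper65

/-- swap coordinates -/
def sw (v : C2) : C2 := (v.2, v.1)

lemma wd_sw (v w : C2) : wd (sw v) (sw w) = - wd v w := by simp [wd, sw]

lemma analyticAt_sw {φ : ℂ → C2} {x : ℂ} (hφ : AnalyticAt ℂ φ x) :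
    AnalyticAt ℂ (fun z => sw (φ z)) x :=
  (analyticAt_snd hφ).prod (analyticAt_fst hφ)

lemma hasDerivAt_fst {φ : ℂ → C2} {x : ℂ} {φ' : C2} (hφ : HasDerivAt φ φ' x) :
    HasDerivAt (fun z => (φ z).1) φ'.1 x :=
  (ContinuousLinearMap.fst ℂ ℂ ℂ).hasFDerivAt.comp_hasDerivAt x hφ

lemma hasDerivAt_snd {φ : ℂ → C2} {x : ℂ} {φ' : C2} (hφ : HasDerivAt φ φ' x) :
    HasDerivAt (fun z => (φ z).2) φ'.2 x :=
  (ContinuousLinearMap.snd ℂ ℂ ℂ).hasFDerivAt.comp_hasDerivAt x hφ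

lemma deriv_fst {φ : ℂ → C2} {x : ℂ} (hφ : DifferentiableAt ℂ φ x) :
    deriv (fun z => (φ z).1) x = (deriv φ x).1 :=
  (hasDerivAt_fst hφ.hasDerivAt).deriv

lemma deriv_snd {φ : ℂ → C2} {x : ℂ} (hφ : DifferentiableAt ℂ φ x) :
    deriv (fun z => (φ z).2) x = (deriv φ x).2 :=
  (hasDerivAt_snd hφ.hasDerivAt).deriv

/-- affine coordinate of a curve -/
noncomputable def aff (φ : ℂ → C2) (z : ℂ) : ℂ := (φ z).1 / (φ z).2

lemma aff_analyticAt {φ : ℂ → C2} {x : ℂ} (hφ : AnalyticAt ℂ φ x) (h2 : (φ x).2 ≠ 0) :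
    AnalyticAt ℂ (aff φ) x := (analyticAt_fst hφ).div (analyticAt_snd hφ) h2

lemma aff_hasDerivAt {φ : ℂ → C2} {x : ℂ} (hφ : DifferentiableAt ℂ φ x) (h2 : (φ x).2 ≠ 0) :
    HasDerivAt (aff φ) (- wd (φ x) (deriv φ x) / (φ x).2 ^ 2) x := by
  have h := (hasDerivAt_fst hφ.hasDerivAt).div (hasDerivAt_snd hφ.hasDerivAt) h2
  have e : - wd (φ x) (deriv φ x) / (φ x).2 ^ 2 =
      ((deriv φ x).1 * (φ x).2 - (φ x).1 * (deriv φ x).2) / (φ x).2 ^ 2 := by
    rw [wd]; ring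
  rw [e]
  exact h

lemma deriv_aff {φ : ℂ → C2} {x : ℂ} (hφ : DifferentiableAt ℂ φ x) (h2 : (φ x).2 ≠ 0) :
    deriv (aff φ) x = - wd (φ x) (deriv φ x) / (φ x).2 ^ 2 := (aff_hasDerivAt hφ h2).deriv

lemma aff_par {φ : ℂ → C2} {z : ℂ} (h2 : (φ z).2 ≠ 0) : φ z = (φ z).2 • ((aff φ z, 1) : C2) := by
  ext
  · simp only [aff, Prod.smul_mk, smul_eq_mul]; field_simp
  · simp

lemma eventually_snd_ne {φ : ℂ → C2} {x : ℂ} (hφ : AnalyticAt ℂ φ x) (h2 : (φ x).2 ≠ 0) :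
    ∀ᶠ z in 𝓝 x, (φ z).2 ≠ 0 := (analyticAt_snd hφ).continuousAt.eventually_ne h2

lemma par_const_aux {φ : ℂ → C2} {x : ℂ} (hφ : AnalyticAt ℂ φ x) (h2 : (φ x).2 ≠ 0)
    (h : ∀ᶠ z in 𝓝 x, wd (φ z) (deriv φ z) = 0) : ∀ᶠ z in 𝓝 x, wd (φ z) (φ x) = 0 := by
  have h1 : ∀ᶠ z in 𝓝 x, HasDerivAt (aff φ) 0 z := by
    filter_upwards [hφ.eventually_analyticAt, eventually_snd_ne hφ h2, h] with z hz hz2 hz3
    have := aff_hasDerivAt hz.differentiableAt hz2
    rwa [hz3, neg_zero, zero_div] at this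
  obtain ⟨r, hr, hb⟩ := Metric.eventually_nhds_iff_ball.1 (h1.and (eventually_snd_ne hφ h2))
  have hconst : ∀ z ∈ ball x r, aff φ z = aff φ x := by
    intro z hz
    apply (convex_ball x r).is_const_of_fderivWithin_eq_zero (𝕜 := ℂ) (f := aff φ)
      (s := ball x r) _ _ hz (mem_ball_self hr)
    · intro y hy
      exact (hb y hy).1.differentiableAt.differentiableWithinAt
    · intro y hy
      rw [fderivWithin_of_isOpen isOpen_ball hy]
      have := (hb y hy).1.hasFDerivAt.fderiv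
      rw [this]
      ext
      simp
  filter_upwards [ball_mem_nhds x hr] with z hz
  rw [aff_par (hb z hz).2, aff_par (hb x (mem_ball_self hr)).2, hconst z hz]
  simp only [wd_smul_left, wd_smul_right, wd_self, mul_zero]

/-- if the Wronskian vanishes near `x`, the curve is locally constant in the projective line -/
lemma par_const_of_wronskian {φ : ℂ → C2} {x : ℂ} (hφ : AnalyticAt ℂ φ x) (h0 : φ x ≠ 0)
    (h : ∀ᶠ z in 𝓝 x, wd (φ z) (deriv φ z) = 0) : ∀ᶠ z in 𝓝 x, wd (φ z) (φ x) = 0 := by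
  rcases fst_or_snd h0 with h1 | h2
  · have hs : ∀ᶠ z in 𝓝 x, wd (sw (φ z)) (deriv (fun z => sw (φ z)) z) = 0 := by
      filter_upwards [h, hφ.eventually_analyticAt] with z hz hz2
      have e : deriv (fun z => sw (φ z)) z = sw (deriv φ z) := by
        have : HasDerivAt (fun z => sw (φ z)) (sw (deriv φ z)) z :=
          (hasDerivAt_snd hz2.differentiableAt.hasDerivAt).prodMk
            (hasDerivAt_fst hz2.differentiableAt.hasDerivAt)
        exact this.deriv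
      rw [e, wd_sw, hz, neg_zero]
    have := par_const_aux (φ := fun z => sw (φ z)) (analyticAt_sw hφ) h1 hs
    filter_upwards [this] with z hz
    rw [wd_sw, neg_eq_zero] at hz
    exact hz
  · exact par_const_aux hφ h2 h

lemma harmonicAt_of_par_const {G : C2 → ℝ} (hG : IsGreen G) {φ : ℂ → C2} {x : ℂ}
    (hφ : AnalyticAt ℂ φ x) (h0 : φ x ≠ 0) {ξ : C2} (hξ : ξ ≠ 0)
    (h : ∀ᶠ z in 𝓝 x, wd (φ z) ξ = 0) : HarmonicAt (fun z => G (φ z)) x := by
  have h1 := green_par hG hφ (analyticAt_const (v := ξ)) h0 hξ h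
  have h2 := h1.add (harmonicAt_const (x := x) (G ξ))
  refine (harmonicAt_congr_nhds ?_).1 h2
  filter_upwards with z
  simp

lemma wronskian_ne_of_not_harmonic {G : C2 → ℝ} (hG : IsGreen G) {φ : ℂ → C2} {x : ℂ}
    (hφ : AnalyticAt ℂ φ x) (h0 : φ x ≠ 0) (hn : ¬ HarmonicAt (fun z => G (φ z)) x) :
    ∃ᶠ z in 𝓝 x, wd (φ z) (deriv φ z) ≠ 0 := by
  rw [Filter.Frequently]
  intro h
  apply hn
  apply harmonicAt_of_par_const hG hφ h0 h0
  apply par_const_of_wronskian hφ h0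
  filter_upwards [h] with z hz
  simpa using hz

lemma harmonicAt_green_snd {G : C2 → ℝ} (hG : IsGreen G) {φ : ℂ → C2} {x : ℂ}
    (hφ : AnalyticAt ℂ φ x) (h2 : (φ x).2 ≠ 0) :
    HarmonicAt (fun z => G (φ z) - gu G (aff φ z)) x := by
  have h1 : AnalyticAt ℂ (fun z => ((aff φ z, 1) : C2)) x :=
    (aff_analyticAt hφ h2).prod analyticAt_const
  apply green_par hG hφ h1 (ne_zero_of_snd h2) (pt_ne_zero _)
  filter_upwards [eventually_snd_ne hφ h2] with z hz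
  rw [aff_par hz]
  simp only [wd_smul_left]
  simp [aff, wd]

lemma harmonicAt_iff_of_sub {u v : ℂ → ℝ} {x : ℂ} (h : HarmonicAt (fun z => u z - v z) x) :
    HarmonicAt u x ↔ HarmonicAt v x := by
  constructor
  · intro hu
    have := hu.sub h
    refine (harmonicAt_congr_nhds ?_).1 this
    filter_upwards with z
    simp
  · intro hv
    have := hv.add h
    refine (harmonicAt_congr_nhds ?_).1 this
    filter_upwards with z
    simp

lemma not_harmonicAt_aff {G : C2 → ℝ} (hG : IsGreen G) {φ : ℂ → C2} {x : ℂ}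
    (hφ : AnalyticAt ℂ φ x) (h2 : (φ x).2 ≠ 0) (hn : ¬ HarmonicAt (fun z => G (φ z)) x) :
    ¬ HarmonicAt (gu G) (aff φ x) := by
  intro h
  apply hn
  rw [harmonicAt_iff_of_sub (harmonicAt_green_snd hG hφ h2)]
  exact harmonicAt_comp h (aff_analyticAt hφ h2)

lemma continuousAt_green {G : C2 → ℝ} (hG : IsGreen G) {φ : ℂ → C2} {x : ℂ}
    (hφ : ContinuousAt φ x) (h0 : φ x ≠ 0) : ContinuousAt (fun z => G (φ z)) x := by
  have h1 : ContinuousAt G (φ x) := hG.cont.continuousAt (isOpen_compl_singleton.mem_nhds h0)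
  exact ContinuousAt.comp (f := φ) h1 hφ

/-- Good points: an immersed affine point where `G ∘ φ` is not harmonic. -/
lemma exists_good_point {G : C2 → ℝ} (hG : IsGreen G) {φ : ℂ → C2} {c : ℂ} {R : ℝ}
    (hφ : DifferentiableOn ℂ φ (ball c R)) (h0 : ∀ z ∈ ball c R, φ z ≠ 0)
    (hn : ¬ HarmonicOnNhd (fun z => G (φ z)) (ball c R)) :
    ∃ x ∈ ball c R, ¬ HarmonicAt (fun z => G (φ z)) x ∧ wd (φ x) (deriv φ x) ≠ 0 ∧
      (φ x).2 ≠ 0 := by
  by_contra hcon
  push Not at hcon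
  apply hn
  have han : AnalyticOnNhd ℂ φ (ball c R) := hφ.analyticOnNhd isOpen_ball
  have hW : AnalyticOnNhd ℂ (fun z => wd (φ z) (deriv φ z)) (ball c R) := fun z hz =>
    analyticAt_wd (han z hz) (han z hz).deriv
  have h2 : AnalyticOnNhd ℂ (fun z => (φ z).2) (ball c R) := fun z hz => analyticAt_snd (han z hz)
  have hpre : IsPreconnected (ball c R) := (convex_ball c R).isPreconnected
  -- if one of the two functions vanishes near a point then `G ∘ φ` is harmonic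
  by_cases hWz : ∃ z0 ∈ ball c R, (fun z => wd (φ z) (deriv φ z)) =ᶠ[𝓝 z0] 0
  · obtain ⟨z0, hz0, hz0'⟩ := hWz
    have hz := hW.eqOn_zero_of_preconnected_of_eventuallyEq_zero hpre hz0 hz0'
    intro x hx
    apply harmonicAt_of_par_const hG (han x hx) (h0 x hx) (h0 x hx)
    apply par_const_of_wronskian (han x hx) (h0 x hx)
    filter_upwards [isOpen_ball.mem_nhds hx] with z hz1
    exact hz hz1
  by_cases h2z : ∃ z0 ∈ ball c R, (fun z => (φ z).2) =ᶠ[𝓝 z0] 0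
  · obtain ⟨z0, hz0, hz0'⟩ := h2z
    have hz := h2.eqOn_zero_of_preconnected_of_eventuallyEq_zero hpre hz0 hz0'
    intro x hx
    apply harmonicAt_of_par_const hG (han x hx) (h0 x hx) (ξ := (1, 0)) (by simp)
    filter_upwards [isOpen_ball.mem_nhds hx] with z hz1
    have : (φ z).2 = 0 := hz hz1
    simp [wd, this]
  push Not at hWz h2z
  intro x hx
  apply harmonicAt_of_punctured (continuousAt_green hG (han x hx).continuousAt (h0 x hx))
  have e1 := ((hW x hx).eventually_eq_zero_or_eventually_ne_zero).resolve_left (hWz x hx)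
  have e2 := ((h2 x hx).eventually_eq_zero_or_eventually_ne_zero).resolve_left (h2z x hx)
  have e3 : ∀ᶠ z in 𝓝[≠] x, z ∈ ball c R :=
    mem_nhdsWithin_of_mem_nhds (isOpen_ball.mem_nhds hx)
  filter_upwards [e1, e2, e3] with z hz1 hz2 hz3
  by_contra hz4
  exact hz2 (hcon z hz3 hz4 hz1)

/-- local surjectivity -/
lemma exists_ball_subset_image {a : ℂ → ℂ} {x : ℂ} (ha : AnalyticAt ℂ a x) (ha' : deriv a x ≠ 0)
    {U : Set ℂ} (hU : U ∈ 𝓝 x) : ∃ r > 0, ball (a x) r ⊆ a '' U := by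
  have h1 : HasStrictDerivAt a (deriv a x) x := ha.hasStrictDerivAt
  have h2 := h1.map_nhds_eq ha'
  have h3 : a '' U ∈ 𝓝 (a x) := by
    rw [← h2]
    exact image_mem_map hU
  obtain ⟨r, hr, h⟩ := Metric.mem_nhds_iff.1 h3
  exact ⟨r, hr, h⟩

/-- Mixing along curves. -/
lemma mixing_curve {G : C2 → ℝ} (hG : IsGreen G) {d : ℕ} {f : C2 → C2} (hf : IsLift d f)
    {Ξ : Set C2} (hM : Mixing G f Ξ) {φ : ℂ → C2} {c : ℂ} {R : ℝ}
    (hφ : DifferentiableOn ℂ φ (ball c R)) (h0 : ∀ z ∈ ball c R, φ z ≠ 0)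
    (hn : ¬ HarmonicOnNhd (fun z => G (φ z)) (ball c R)) :
    ∃ n0 : ℕ, ∀ n ≥ n0, ∀ ξ ∈ Ξ, ξ ≠ 0 → ∃ z ∈ ball c R, wd (f^[n] (φ z)) ξ = 0 ∧
      wd (φ z) (deriv φ z) ≠ 0 ∧ (φ z).2 ≠ 0 := by
  obtain ⟨x, hx, hxn, hxW, hx2⟩ := exists_good_point hG hφ h0 hn
  have han : AnalyticAt ℂ φ x := hφ.analyticOnNhd isOpen_ball x hx
  have hda : deriv (aff φ) x ≠ 0 := by
    rw [deriv_aff han.differentiableAt hx2]
    exact div_ne_zero (neg_ne_zero.2 hxW) (pow_ne_zero _ hx2)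
  have hU : {z | z ∈ ball c R ∧ wd (φ z) (deriv φ z) ≠ 0 ∧ (φ z).2 ≠ 0} ∈ 𝓝 x := by
    have e1 : ∀ᶠ z in 𝓝 x, wd (φ z) (deriv φ z) ≠ 0 :=
      (analyticAt_wd han han.deriv).continuousAt.eventually_ne hxW
    filter_upwards [isOpen_ball.mem_nhds hx, e1, eventually_snd_ne han hx2] with z h1 h2 h3
    exact ⟨h1, h2, h3⟩
  obtain ⟨r, hr, hsub⟩ := exists_ball_subset_image (aff_analyticAt han hx2) hda hU
  have hun := not_harmonicAt_aff hG han hx2 hxn
  have hnot : ¬ HarmonicOnNhd (gu G) (ball (aff φ x) r) := fun h => hun (h _ (mem_ball_self hr))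
  obtain ⟨n0, hn0⟩ := hM _ r hr hnot
  refine ⟨n0, fun n hn ξ hξ hξ0 => ?_⟩
  obtain ⟨z', hz', hw⟩ := hn0 n hn ξ hξ hξ0
  obtain ⟨z, ⟨hz1, hz2, hz3⟩, rfl⟩ := hsub hz'
  refine ⟨z, hz1, ?_, hz2, hz3⟩
  rw [aff_par hz3, (isLift_iterate hf n).hom, wd_smul_left, hw, mul_zero]

lemma countable_of_local {Z : Set ℂ} (h : ∀ x : ℂ, ∀ᶠ z in 𝓝[≠] x, z ∉ Z) : Z.Countable := by
  have h1 : ∀ x : ℂ, ({z | z ∉ Z} ∪ {x}) ∈ 𝓝 x := by
    intro x
    have := h x
    rw [eventually_nhdsWithin_iff] at this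
    filter_upwards [this] with z hz
    by_cases hzx : z = x
    · right; exact hzx
    · left; exact hz hzx
  obtain ⟨s, hs, hcov⟩ := TopologicalSpace.countable_cover_nhds h1
  apply hs.mono
  intro z hz
  have : z ∈ ⋃ x ∈ s, ({z | z ∉ Z} ∪ {x}) := by rw [hcov]; exact mem_univ z
  simp only [mem_iUnion] at this
  obtain ⟨x, hx, hzx⟩ := this
  rcases hzx with h | h
  · exact absurd hz h
  · rw [mem_singleton_iff] at h; rwa [h]

lemma countable_zeros {a : ℂ → ℂ} (ha : Differentiable ℂ a) (h : ∃ z, a z ≠ 0) :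
    {z | a z = 0}.Countable := by
  have han : AnalyticOnNhd ℂ a univ := fun z _ => ha.analyticAt z
  apply countable_of_local
  intro x
  rcases (ha.analyticAt x).eventually_eq_zero_or_eventually_ne_zero with h1 | h1
  · exfalso
    obtain ⟨z, hz⟩ := h
    exact hz (han.eqOn_zero_of_preconnected_of_eventuallyEq_zero isPreconnected_univ
      (mem_univ x) h1 (mem_univ z))
  · filter_upwards [h1] with z hz
    exact hz

end Pool.Agent.Helper65
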