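import Mathlib
import Pool.Agent.Helper65.InvDisc

/-! Local analytic inverses and Koenigs linearisation. -/

open Complex Metric Set Filter Topology

namespace Pool.Agent.Helper65

/-- local analytic inverse -/
lemma exists_local_inv {K : ℂ → ℂ} {x : ℂ} (hK : AnalyticAt ℂ K x) (hd : deriv K x ≠ 0) :
    ∃ g : ℂ → ℂ, AnalyticAt ℂ g (K x) ∧ g (K x) = x ∧ deriv g (K x) ≠ 0 ∧
      (∀ᶠ y in 𝓝 (K x), K (g y) = y) ∧ ∀ᶠ z in 𝓝 x, g (K z) = z := by
  have hpos : 0 < ‖deriv K x‖ := norm_pos_iff.2 hd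
  have h1 : ∀ᶠ z in 𝓝 x, AnalyticAt ℂ K z := hK.eventually_analyticAt
  have h2 : ∀ᶠ z in 𝓝 x, ‖deriv K z - deriv K x‖ ≤ ‖deriv K x‖ / 4 := by
    have hc := hK.deriv.continuousAt
    have := Metric.continuousAt_iff'.1 hc (‖deriv K x‖ / 4) (by positivity)
    filter_upwards [this] with z hz
    rw [dist_eq_norm] at hz
    exact hz.le
  obtain ⟨r, hr, hb⟩ := Metric.eventually_nhds_iff_ball.1 (h1.and h2)
  obtain ⟨-, g, hg1, hg2, hg3, hg4⟩ := inv_disc (K := K) (ζ := x) (a := deriv K x) hr hd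
    (fun z hz => (hb z hz).1.differentiableAt.differentiableWithinAt) (fun z hz => (hb z hz).2)
  have hρ : 0 < ‖deriv K x‖ * r / 4 := by positivity
  have hgan : AnalyticAt ℂ g (K x) := hg1.analyticAt (ball_mem_nhds _ hρ)
  have hleft : ∀ᶠ z in 𝓝 x, g (K z) = z := by
    have e1 : ∀ᶠ z in 𝓝 x, K z ∈ ball (K x) (‖deriv K x‖ * r / 4) :=
      hK.continuousAt (ball_mem_nhds _ hρ)
    filter_upwards [ball_mem_nhds x hr, e1] with z hz1 hz2
    exact hg4 z hz1 hz2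
  have hgx : g (K x) = x := hleft.self_of_nhds
  refine ⟨g, hgan, hgx, ?_, ?_, hleft⟩
  · intro h0
    have e1 : HasDerivAt (fun z => g (K z)) (deriv g (K x) * deriv K x) x :=
      hgan.differentiableAt.hasDerivAt.comp x hK.differentiableAt.hasDerivAt
    have e2 : HasDerivAt (fun z => g (K z)) 1 x :=
      (hasDerivAt_id x).congr_of_eventuallyEq hleft
    have := e1.unique e2
    rw [h0, zero_mul] at this
    exact one_ne_zero this.symm
  · filter_upwards [ball_mem_nhds _ hρ] with y hy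
    exact hg3 y hy

/-- Koenigs linearisation at `0` -/
lemma koenigs0 {G : ℂ → ℂ} (hG : AnalyticAt ℂ G 0) (hG0 : G 0 = 0) (hμ0 : deriv G 0 ≠ 0)
    (hμ1 : ‖deriv G 0‖ < 1) :
    ∃ φ : ℂ → ℂ, AnalyticAt ℂ φ 0 ∧ φ 0 = 0 ∧ deriv φ 0 = 1 ∧
      ∀ᶠ y in 𝓝 (0 : ℂ), φ (G y) = deriv G 0 * φ y := by
  set μ := deriv G 0 with hμ
  have hμpos : 0 < ‖μ‖ := norm_pos_iff.2 hμ0
  set κ := (‖μ‖ + Real.sqrt ‖μ‖) / 2 with hκ
  have hs1 : ‖μ‖ < Real.sqrt ‖μ‖ := Real.lt_sqrt_of_sq_lt (by nlinarith)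
  have hs2 : Real.sqrt ‖μ‖ < 1 := by
    rw [Real.sqrt_lt' one_pos]; simpa using hμ1
  have hκ1 : ‖μ‖ < κ := by rw [hκ]; linarith
  have hκ2 : κ < Real.sqrt ‖μ‖ := by rw [hκ]; linarith
  have hκ3 : κ < 1 := by linarith
  have hκ0 : 0 < κ := by linarith
  have hκ4 : κ ^ 2 < ‖μ‖ := by
    calc κ ^ 2 < (Real.sqrt ‖μ‖) ^ 2 := by gcongr
      _ = ‖μ‖ := Real.sq_sqrt hμpos.le
  clear_value κ
  -- slope function
  set S : ℂ → ℂ := dslope G 0 with hS
  have hSan : AnalyticAt ℂ S 0 := by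
    obtain ⟨ps, hps⟩ := hG
    exact ⟨_, hps.has_fpower_series_dslope_fslope⟩
  have hS0 : S 0 = μ := dslope_same G 0
  have hGS : ∀ y, G y = y * S y := by
    intro y
    have := sub_smul_dslope G 0 y
    rw [hG0, sub_zero, sub_zero, smul_eq_mul] at this
    exact this.symm
  obtain ⟨C, hC⟩ : ∃ C : ℝ, ∀ᶠ y in 𝓝 (0 : ℂ), ‖S y - μ‖ ≤ C * ‖y‖ := by
    have h1 := hSan.differentiableAt.isBigO_sub
    obtain ⟨C, hC⟩ := h1.bound
    refine ⟨C, ?_⟩
    filter_upwards [hC] with y hy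
    rw [hS0] at hy
    simpa using hy
  have h2 : ∀ᶠ y in 𝓝 (0 : ℂ), ‖S y‖ < κ := by
    have := hSan.continuousAt.norm
    rw [ContinuousAt, hS0] at this
    exact this.eventually (gt_mem_nhds hκ1)
  obtain ⟨r, hr, hb⟩ := Metric.eventually_nhds_iff_ball.1
    ((hC.and h2).and hG.eventually_analyticAt)
  have hC0 : 0 ≤ max C 0 := le_max_right _ _
  -- iterates
  have hit : ∀ (n : ℕ), ∀ y ∈ ball (0 : ℂ) r, G^[n] y ∈ ball (0 : ℂ) r ∧ ‖G^[n] y‖ ≤ κ ^ n * ‖y‖ := by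
    intro n
    induction n with
    | zero => intro y hy; simpa using hy
    | succ n ih =>
      intro y hy
      obtain ⟨i1, i2⟩ := ih y hy
      rw [Function.iterate_succ_apply', hGS]
      have i3 := (hb _ i1).1.2.le
      have i4 : ‖G^[n] y * S (G^[n] y)‖ ≤ κ ^ (n + 1) * ‖y‖ := by
        rw [norm_mul]
        calc ‖G^[n] y‖ * ‖S (G^[n] y)‖ ≤ (κ ^ n * ‖y‖) * κ := by gcongr
          _ = κ ^ (n + 1) * ‖y‖ := by ring
      refine ⟨?_, i4⟩
      rw [mem_ball, dist_eq_norm, sub_zero] at hy ⊢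
      calc ‖G^[n] y * S (G^[n] y)‖ ≤ κ ^ (n + 1) * ‖y‖ := i4
        _ ≤ 1 * ‖y‖ := by gcongr; exact pow_le_one₀ hκ0.le hκ3.le
        _ < r := by rw [one_mul]; exact hy
  have hitd : ∀ n : ℕ, DifferentiableOn ℂ (G^[n]) (ball 0 r) := by
    intro n
    induction n with
    | zero => exact differentiableOn_id
    | succ n ih =>
      rw [Function.iterate_succ']
      intro y hy
      have := (hb _ (hit n y hy).1).2.differentiableAt
      exact (DifferentiableAt.comp (f := G^[n]) y this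
        ((ih y hy).differentiableAt (isOpen_ball.mem_nhds hy))).differentiableWithinAt
  set q := κ ^ 2 / ‖μ‖ with hq
  have hq1 : q < 1 := by rw [hq, div_lt_one hμpos]; exact hκ4
  have hq0 : 0 ≤ q := by positivity
  set term : ℕ → ℂ → ℂ := fun n y => (μ ^ (n + 1))⁻¹ * G^[n + 1] y - (μ ^ n)⁻¹ * G^[n] y with hterm
  have hbound : ∀ (n : ℕ), ∀ y ∈ ball (0 : ℂ) r,
      ‖term n y‖ ≤ (max C 0 / ‖μ‖ * ‖y‖ ^ 2) * q ^ n := by
    intro n y hy
    obtain ⟨i1, i2⟩ := hit n y hy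
    have e : term n y = (μ ^ (n + 1))⁻¹ * (G^[n] y * (S (G^[n] y) - μ)) := by
      simp only [hterm, Function.iterate_succ_apply' G n y]
      rw [hGS (G^[n] y), pow_succ]
      field_simp
    rw [e, norm_mul, norm_mul, norm_inv, norm_pow]
    have i3 : ‖S (G^[n] y) - μ‖ ≤ max C 0 * ‖G^[n] y‖ := by
      refine (hb _ i1).1.1.trans ?_
      gcongr
      exact le_max_left _ _
    calc (‖μ‖ ^ (n + 1))⁻¹ * (‖G^[n] y‖ * ‖S (G^[n] y) - μ‖)
        ≤ (‖μ‖ ^ (n + 1))⁻¹ * ((κ ^ n * ‖y‖) * (max C 0 * (κ ^ n * ‖y‖))) := by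
          gcongr
          exact i3.trans (by gcongr)
      _ = (max C 0 / ‖μ‖ * ‖y‖ ^ 2) * q ^ n := by
          have e2 : q ^ n = (κ ^ n) ^ 2 / ‖μ‖ ^ n := by
            rw [hq, div_pow, ← pow_mul, ← pow_mul, mul_comm 2 n]
          rw [e2, pow_succ]
          field_simp
  have hsumq : Summable (fun n : ℕ => (max C 0 / ‖μ‖ * r ^ 2) * q ^ n) :=
    (summable_geometric_of_lt_one hq0 hq1).mul_left _
  have hbound2 : ∀ (n : ℕ), ∀ y ∈ ball (0 : ℂ) r, ‖term n y‖ ≤ (max C 0 / ‖μ‖ * r ^ 2) * q ^ n := by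
    intro n y hy
    refine (hbound n y hy).trans ?_
    rw [mem_ball, dist_eq_norm, sub_zero] at hy
    gcongr
  have htd : ∀ n : ℕ, DifferentiableOn ℂ (term n) (ball 0 r) := fun n =>
    ((hitd (n + 1)).const_mul _).sub ((hitd n).const_mul _)
  have hsd : DifferentiableOn ℂ (fun y => ∑' n, term n y) (ball 0 r) :=
    differentiableOn_tsum_of_summable_norm hsumq htd isOpen_ball hbound2
  have hsm : ∀ y ∈ ball (0 : ℂ) r, Summable (fun n => term n y) := fun y hy =>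
    Summable.of_norm_bounded hsumq (fun n => hbound2 n y hy)
  set φ : ℂ → ℂ := fun y => y + ∑' n, term n y with hφ
  have hφd : DifferentiableOn ℂ φ (ball 0 r) := differentiableOn_id.add hsd
  have hφan : AnalyticAt ℂ φ 0 := hφd.analyticAt (ball_mem_nhds 0 hr)
  -- pointwise limit
  have hlim : ∀ y ∈ ball (0 : ℂ) r, Tendsto (fun n : ℕ => (μ ^ n)⁻¹ * G^[n] y) atTop (𝓝 (φ y)) := by
    intro y hy
    have h1 := (hsm y hy).hasSum.tendsto_sum_nat
    have h2 : ∀ n : ℕ, ∑ i ∈ Finset.range n, term i y = (μ ^ n)⁻¹ * G^[n] y - y := by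
      intro n
      have := Finset.sum_range_sub (fun n => (μ ^ n)⁻¹ * G^[n] y) n
      simpa [hterm] using this
    simp only [h2] at h1
    have h3 := h1.const_add y
    simpa [hφ] using h3
  have hbd : ∀ y ∈ ball (0 : ℂ) r, ‖φ y - y‖ ≤ (max C 0 / ‖μ‖ * (1 - q)⁻¹) * ‖y‖ ^ 2 := by
    intro y hy
    have h1 : HasSum (fun n : ℕ => (max C 0 / ‖μ‖ * ‖y‖ ^ 2) * q ^ n)
        ((max C 0 / ‖μ‖ * ‖y‖ ^ 2) * (1 - q)⁻¹) :=
      (hasSum_geometric_of_lt_one hq0 hq1).mul_left _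
    have h2 := tsum_of_norm_bounded h1 (fun n => hbound n y hy)
    have e : φ y - y = ∑' n, term n y := by simp [hφ]
    rw [e]
    calc _ ≤ _ := h2
      _ = _ := by ring
  have hφ0 : φ 0 = 0 := by
    have := hbd 0 (mem_ball_self hr)
    simpa using this
  have hderiv : HasDerivAt φ 1 0 := by
    rw [hasDerivAt_iff_isLittleO]
    have h1 : (fun y : ℂ => φ y - y) =O[𝓝 0] fun y => ‖y‖ ^ 2 := by
      apply Asymptotics.IsBigO.of_bound (max C 0 / ‖μ‖ * (1 - q)⁻¹)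
      filter_upwards [ball_mem_nhds (0 : ℂ) hr] with y hy
      simpa using hbd y hy
    have h2 : (fun y : ℂ => ‖y‖ ^ 2) =o[𝓝 0] fun y => y := by
      have := Asymptotics.isLittleO_norm_pow_id (E' := ℂ) (n := 2) (by norm_num)
      exact this
    have h3 := h1.trans_isLittleO h2
    refine (h3.congr_left ?_).congr_right ?_
    · intro y; simp [hφ0]
    · intro y; simp
  refine ⟨φ, hφan, hφ0, hderiv.deriv, ?_⟩
  filter_upwards [ball_mem_nhds (0 : ℂ) hr] with y hy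
  have hGy : G y ∈ ball (0 : ℂ) r := by simpa using (hit 1 y hy).1
  have h1 := hlim (G y) hGy
  have h2 := ((hlim y hy).comp (tendsto_add_atTop_nat 1)).const_mul μ
  refine tendsto_nhds_unique h1 (h2.congr ?_)
  intro n
  simp only [Function.comp_apply, Function.iterate_succ_apply, pow_succ]
  field_simp

/-- Koenigs linearisation -/
theorem koenigs {g : ℂ → ℂ} {p : ℂ} (hg : AnalyticAt ℂ g p) (hgp : g p = p)
    (hμ0 : deriv g p ≠ 0) (hμ1 : ‖deriv g p‖ < 1) :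
    ∃ L : ℂ → ℂ, AnalyticAt ℂ L 0 ∧ L 0 = p ∧ deriv L 0 ≠ 0 ∧
      ∀ᶠ z in 𝓝 (0 : ℂ), g (L z) = L (deriv g p * z) := by
  set μ := deriv g p with hμ
  set G : ℂ → ℂ := fun y => g (p + y) - p with hG
  have hshift : AnalyticAt ℂ (fun y : ℂ => p + y) 0 := by fun_prop
  have hGan : AnalyticAt ℂ G 0 := by
    have h1 : AnalyticAt ℂ g ((fun y : ℂ => p + y) 0) := by simpa using hg
    exact (AnalyticAt.comp (f := fun y : ℂ => p + y) h1 hshift).sub analyticAt_const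
  have hG0 : G 0 = 0 := by simp [hG, hgp]
  have hGd : deriv G 0 = μ := by
    have h1 : HasDerivAt g μ (p + 0) := by rw [add_zero]; exact hg.differentiableAt.hasDerivAt
    have h2 : HasDerivAt (fun y : ℂ => p + y) 1 0 := (hasDerivAt_id 0).const_add p
    have h3 := (h1.comp (0 : ℂ) h2).sub_const p
    rw [mul_one] at h3
    exact h3.deriv
  obtain ⟨φ, hφ, hφ0, hφd, hφG⟩ := koenigs0 hGan hG0 (by rw [hGd]; exact hμ0) (by rw [hGd]; exact hμ1)
  rw [hGd] at hφG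
  obtain ⟨L0, hL0, hL00, hL0d, hr, hl⟩ := exists_local_inv hφ (by rw [hφd]; exact one_ne_zero)
  rw [hφ0] at hL0 hL00 hL0d hr
  refine ⟨fun z => p + L0 z, analyticAt_const.add hL0, by simp [hL00], ?_, ?_⟩
  · rw [deriv_const_add]
    exact hL0d
  · have hL0c : Tendsto L0 (𝓝 0) (𝓝 0) := by
      have := hL0.continuousAt.tendsto
      rwa [hL00] at this
    have hGc : Tendsto G (𝓝 0) (𝓝 0) := by
      have := hGan.continuousAt.tendsto
      rwa [hG0] at this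
    filter_upwards [hr, hL0c.eventually hφG, (hGc.comp hL0c).eventually hl] with z h1 h2 h3
    have h4 : G (L0 z) = L0 (μ * z) := by
      have h5 : L0 (φ (G (L0 z))) = G (L0 z) := h3
      rw [h2, h1] at h5
      exact h5.symm
    have h6 : g (p + L0 z) = p + G (L0 z) := by simp [hG]
    rw [h6, h4]

end Pool.Agent.Helper65
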