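import Mathlib
import Pool.Agent.Helper65.Curve
import Pool.Agent.Helper65.InvLoc

/-! Global Poincaré function. -/

open Complex Metric Set Filter Topology InnerProductSpace

namespace Pool.Agent.Helper65

/-- Taylor polynomial with remainder, as an entire function -/
lemma exists_taylor {ℓ : ℂ → ℂ} (hℓ : AnalyticAt ℂ ℓ 0) (K : ℕ) :
    ∃ Q : ℂ → ℂ, Differentiable ℂ Q ∧ ∃ C : ℝ, ∀ᶠ z in 𝓝 (0 : ℂ), ‖ℓ z - Q z‖ ≤ C * ‖z‖ ^ K := by
  obtain ⟨p, hp⟩ := hℓ
  refine ⟨fun z => p.partialSum K z, ?_, ?_⟩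
  · unfold FormalMultilinearSeries.partialSum
    apply Differentiable.fun_sum
    intro i _
    have e : (fun z : ℂ => (p i) (fun _ => z)) = fun z => z ^ i • p.coeff i := by
      ext z
      exact p.apply_eq_pow_smul_coeff
    rw [e]
    fun_prop
  · have h := hp.isBigO_sub_partialSum_pow K
    obtain ⟨C, hC⟩ := h.bound
    refine ⟨C, ?_⟩
    filter_upwards [hC] with z hz
    simpa using hz

/-- the cohomological equation `θ z = w θ (μ z) + (ℓ - Q) z` -/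
lemma exists_theta {ℓ : ℂ → ℂ} (hℓ : AnalyticAt ℂ ℓ 0) {μ : ℂ} (hμ0 : μ ≠ 0) (hμ1 : ‖μ‖ < 1) (w : ℝ)
    (hw : 0 ≤ w) :
    ∃ (Q θ : ℂ → ℂ), Differentiable ℂ Q ∧ AnalyticAt ℂ θ 0 ∧
      ∀ᶠ z in 𝓝 (0 : ℂ), θ z = w * θ (μ * z) + (ℓ z - Q z) := by
  have hμpos : 0 < ‖μ‖ := norm_pos_iff.2 hμ0
  obtain ⟨K, hK⟩ : ∃ K : ℕ, w * ‖μ‖ ^ K < 1 := by
    have h1 : Tendsto (fun K : ℕ => w * ‖μ‖ ^ K) atTop (𝓝 (w * 0)) :=
      (tendsto_pow_atTop_nhds_zero_of_lt_one (norm_nonneg _) hμ1).const_mul _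
    rw [mul_zero] at h1
    exact (h1.eventually (gt_mem_nhds one_pos)).exists
  obtain ⟨Q, hQ, C, hC⟩ := exists_taylor hℓ K
  obtain ⟨r, hr, hb⟩ := Metric.eventually_nhds_iff_ball.1 (hC.and hℓ.eventually_analyticAt)
  set q := w * ‖μ‖ ^ K with hq
  have hq0 : 0 ≤ q := by positivity
  have hC' : 0 ≤ max C 0 := le_max_right _ _
  have hmem : ∀ (n : ℕ), ∀ z ∈ ball (0 : ℂ) r, μ ^ n * z ∈ ball (0 : ℂ) r := by
    intro n z hz
    rw [mem_ball, dist_eq_norm, sub_zero] at hz ⊢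
    rw [norm_mul, norm_pow]
    calc ‖μ‖ ^ n * ‖z‖ ≤ 1 * ‖z‖ := by gcongr; exact pow_le_one₀ (norm_nonneg _) hμ1.le
      _ < r := by rw [one_mul]; exact hz
  set term : ℕ → ℂ → ℂ := fun n z => (w : ℂ) ^ n * (ℓ (μ ^ n * z) - Q (μ ^ n * z)) with hterm
  have hbound : ∀ (n : ℕ), ∀ z ∈ ball (0 : ℂ) r, ‖term n z‖ ≤ (max C 0 * r ^ K) * q ^ n := by
    intro n z hz
    have h1 := (hb _ (hmem n z hz)).1
    simp only [hterm]
    rw [norm_mul, norm_pow, Complex.norm_real, Real.norm_eq_abs, abs_of_nonneg hw]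
    rw [mem_ball, dist_eq_norm, sub_zero] at hz
    calc w ^ n * ‖ℓ (μ ^ n * z) - Q (μ ^ n * z)‖ ≤ w ^ n * (max C 0 * (‖μ‖ ^ n * r) ^ K) := by
          gcongr
          refine h1.trans ?_
          have : ‖μ ^ n * z‖ ≤ ‖μ‖ ^ n * r := by
            rw [norm_mul, norm_pow]; gcongr
          gcongr
          exact le_max_left _ _
      _ = (max C 0 * r ^ K) * q ^ n := by
          rw [hq, mul_pow, mul_pow, ← pow_mul, ← pow_mul, mul_comm n K]
          ring
  have hsum : Summable (fun n : ℕ => (max C 0 * r ^ K) * q ^ n) :=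
    (summable_geometric_of_lt_one hq0 hK).mul_left _
  have htd : ∀ n : ℕ, DifferentiableOn ℂ (term n) (ball 0 r) := by
    intro n z hz
    have e1 : DifferentiableAt ℂ (fun z : ℂ => μ ^ n * z) z := by fun_prop
    have e2 : DifferentiableAt ℂ (fun z : ℂ => ℓ (μ ^ n * z)) z :=
      DifferentiableAt.comp (f := fun z : ℂ => μ ^ n * z) z
        (hb _ (hmem n z hz)).2.differentiableAt e1
    have e3 : DifferentiableAt ℂ (fun z : ℂ => Q (μ ^ n * z)) z :=
      DifferentiableAt.comp (f := fun z : ℂ => μ ^ n * z) z (hQ _) e1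
    exact ((e2.sub e3).const_mul _).differentiableWithinAt
  have hsd : DifferentiableOn ℂ (fun z => ∑' n, term n z) (ball 0 r) :=
    differentiableOn_tsum_of_summable_norm hsum htd isOpen_ball hbound
  refine ⟨Q, fun z => ∑' n, term n z, hQ, hsd.analyticAt (ball_mem_nhds 0 hr), ?_⟩
  filter_upwards [ball_mem_nhds (0 : ℂ) hr] with z hz
  have hsm : Summable (fun n => term n z) := Summable.of_norm_bounded hsum (fun n => hbound n z hz)
  rw [hsm.tsum_eq_zero_add, add_comm, ← tsum_mul_left]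
  congr 1
  · congr 1
    ext n
    simp only [hterm]
    rw [pow_succ (w : ℂ), pow_succ μ]
    ring_nf
  · simp [hterm]

/-- extension by the functional equation -/
lemma extend_global {w : ℕ} {F : C2 → C2} (hF : IsLift w F) {μ : ℂ} (hμ0 : μ ≠ 0)
    (hμ1 : ‖μ‖ < 1) {Q : ℂ → ℂ} (hQ : Differentiable ℂ Q) {h0 : ℂ → C2} {r : ℝ} (hr : 0 < r)
    (hd : DifferentiableOn ℂ h0 (ball 0 r)) (hnz : ∀ z ∈ ball (0 : ℂ) r, h0 z ≠ 0)
    (he : ∀ z ∈ ball (0 : ℂ) r, F (h0 (μ * z)) = Complex.exp (Q z) • h0 z) :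
    ∃ h : ℂ → C2, Differentiable ℂ h ∧ (∀ z, h z ≠ 0) ∧
      (∀ z, F (h (μ * z)) = Complex.exp (Q z) • h z) ∧ ∀ z ∈ ball (0 : ℂ) r, h z = h0 z := by
  have hμpos : 0 < ‖μ‖ := norm_pos_iff.2 hμ0
  let H : ℕ → ℂ → C2 := fun n => Nat.rec h0 (fun _ Hn z => Complex.exp (-Q z) • F (Hn (μ * z))) n
  have H0 : H 0 = h0 := rfl
  have HS : ∀ n z, H (n + 1) z = Complex.exp (-Q z) • F (H n (μ * z)) := fun n z => rfl
  have hmul : ∀ (n : ℕ) (z : ℂ), z ∈ ball (0 : ℂ) (r / ‖μ‖ ^ (n + 1)) → μ * z ∈ ball (0 : ℂ) (r / ‖μ‖ ^ n) := by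
    intro n z hz
    rw [mem_ball, dist_eq_norm, sub_zero] at hz ⊢
    rw [norm_mul]
    rw [lt_div_iff₀ (pow_pos hμpos _)] at hz ⊢
    calc ‖μ‖ * ‖z‖ * ‖μ‖ ^ n = ‖z‖ * ‖μ‖ ^ (n + 1) := by ring
      _ < r := hz
  have hdn : ∀ n, DifferentiableOn ℂ (H n) (ball 0 (r / ‖μ‖ ^ n)) ∧
      ∀ z ∈ ball (0 : ℂ) (r / ‖μ‖ ^ n), H n z ≠ 0 := by
    intro n
    induction n with
    | zero =>
      rw [pow_zero, div_one, H0]
      exact ⟨hd, hnz⟩
    | succ n ih =>
      constructor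
      · intro z hz
        have h1 := hmul n z hz
        have e1 : DifferentiableAt ℂ (H n) (μ * z) :=
          (ih.1 _ h1).differentiableAt (isOpen_ball.mem_nhds h1)
        have e2 : DifferentiableAt ℂ (fun z : ℂ => H n (μ * z)) z :=
          DifferentiableAt.comp (f := fun z : ℂ => μ * z) z e1 (by fun_prop)
        have e3 : DifferentiableAt ℂ (fun z : ℂ => F (H n (μ * z))) z :=
          DifferentiableAt.comp (f := fun z : ℂ => H n (μ * z)) z (hF.diff _) e2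
        have e4 : DifferentiableAt ℂ (fun z : ℂ => Complex.exp (-Q z)) z := (hQ z).neg.cexp
        exact (e4.smul e3).differentiableWithinAt
      · intro z hz
        rw [HS]
        exact smul_ne_zero (Complex.exp_ne_zero _) (hF.nz _ (ih.2 _ (hmul n z hz)))
  have hcons : ∀ n, ∀ z ∈ ball (0 : ℂ) (r / ‖μ‖ ^ n), H (n + 1) z = H n z := by
    intro n
    induction n with
    | zero =>
      intro z hz
      rw [pow_zero, div_one] at hz
      rw [HS, H0, he z hz, smul_smul, ← Complex.exp_add]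
      simp
    | succ n ih =>
      intro z hz
      rw [HS (n + 1), ih _ (hmul n z hz), ← HS]
  have hmono : ∀ n m, n ≤ m → ball (0 : ℂ) (r / ‖μ‖ ^ n) ⊆ ball (0 : ℂ) (r / ‖μ‖ ^ m) := by
    intro n m hnm
    apply ball_subset_ball
    apply div_le_div_of_nonneg_left hr.le (pow_pos hμpos _)
    exact pow_le_pow_of_le_one hμpos.le hμ1.le hnm
  have hcons2 : ∀ n m, n ≤ m → ∀ z ∈ ball (0 : ℂ) (r / ‖μ‖ ^ n), H m z = H n z := by
    intro n m hnm
    induction m, hnm using Nat.le_induction with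
    | base => intro z _; rfl
    | succ m hnm ih =>
      intro z hz
      rw [hcons m z (hmono n m hnm hz), ih z hz]
  have hex : ∀ z : ℂ, ∃ n : ℕ, z ∈ ball (0 : ℂ) (r / ‖μ‖ ^ n) := by
    intro z
    have h1 : Tendsto (fun n : ℕ => ‖z‖ * ‖μ‖ ^ n) atTop (𝓝 (‖z‖ * 0)) :=
      (tendsto_pow_atTop_nhds_zero_of_lt_one (norm_nonneg _) hμ1).const_mul _
    rw [mul_zero] at h1
    obtain ⟨n, hn⟩ := (h1.eventually (gt_mem_nhds hr)).exists
    refine ⟨n, ?_⟩
    rw [mem_ball, dist_eq_norm, sub_zero, lt_div_iff₀ (pow_pos hμpos _)]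
    exact hn
  choose N hN using hex
  set h : ℂ → C2 := fun z => H (N z) z with hh
  have hval : ∀ n, ∀ z ∈ ball (0 : ℂ) (r / ‖μ‖ ^ n), h z = H n z := by
    intro n z hz
    rcases le_total n (N z) with hle | hle
    · exact hcons2 _ _ hle z hz
    · exact (hcons2 _ _ hle z (hN z)).symm
  refine ⟨h, ?_, fun z => (hdn (N z)).2 z (hN z), ?_, ?_⟩
  · intro z
    have h1 : h =ᶠ[𝓝 z] H (N z) := by
      filter_upwards [isOpen_ball.mem_nhds (hN z)] with x hx
      exact hval _ x hx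
    exact h1.differentiableAt_iff.2
      (((hdn (N z)).1 z (hN z)).differentiableAt (isOpen_ball.mem_nhds (hN z)))
  · intro z
    have h1 : z ∈ ball (0 : ℂ) (r / ‖μ‖ ^ (N z + 1)) := hmono _ _ (Nat.le_succ _) (hN z)
    rw [hval (N z + 1) z h1, HS, hval (N z) (μ * z) (hmul _ _ h1), smul_smul, ← Complex.exp_add]
    simp
  · intro z hz
    have := hval 0 z (by simpa using hz)
    rw [this, H0]

/-- local logarithm -/
lemma exists_local_log {m : ℂ → ℂ} {x : ℂ} (hm : AnalyticAt ℂ m x) (h0 : m x ≠ 0) :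
    ∃ ℓ : ℂ → ℂ, AnalyticAt ℂ ℓ x ∧ ∀ᶠ z in 𝓝 x, Complex.exp (ℓ z) = m z := by
  refine ⟨fun z => Complex.log (m z / m x) + Complex.log (m x), ?_, ?_⟩
  · apply AnalyticAt.add _ analyticAt_const
    apply AnalyticAt.clog
    · exact hm.div analyticAt_const h0
    · rw [div_self h0]; exact Complex.one_mem_slitPlane
  · filter_upwards [hm.continuousAt.eventually_ne h0] with z hz
    rw [Complex.exp_add, Complex.exp_log (div_ne_zero hz h0), Complex.exp_log h0]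
    field_simp

end Pool.Agent.Helper65
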