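import Mathlib
import Pool.Agent.Helper65.Curve

/-! The Julia set of a Green function; generic base points. -/

open Complex Metric Set Filter Topology InnerProductSpace

namespace Pool.Agent.Helper65

lemma diff_pt : Differentiable ℂ (fun z : ℂ => ((z, 1) : C2)) :=
  differentiable_id.prodMk (differentiable_const 1)

lemma continuous_gu {G : C2 → ℝ} (hG : IsGreen G) : Continuous (gu G) := by
  rw [continuous_iff_continuousAt]
  intro x
  exact continuousAt_green hG diff_pt.continuous.continuousAt (pt_ne_zero x)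

lemma green_smul_exp {G : C2 → ℝ} (hG : IsGreen G) {v : C2} (hv : v ≠ 0) (t : ℂ) :
    G (Complex.exp t • v) = G v + t.re := by
  rw [hG.hom _ _ (Complex.exp_ne_zero t) hv, Complex.norm_exp, Real.log_exp]

lemma exists_not_harmonic {G : C2 → ℝ} (hG : IsGreen G) : ∃ x, ¬ HarmonicAt (gu G) x := by
  by_contra hcon
  push Not at hcon
  obtain ⟨F, hF, hre⟩ := HarmonicOnNhd.exists_analyticOnNhd_univ_re_eq (f := gu G)
    (fun x _ => hcon x)
  have hFd : Differentiable ℂ F := fun x => (hF x (mem_univ x)).differentiableAt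
  obtain ⟨C, hC0, hC⟩ := hG.bound
  have hG0 : ∀ z : ℂ, G (Complex.exp (-F z) • ((z, 1) : C2)) = 0 := by
    intro z
    rw [green_smul_exp hG (pt_ne_zero z)]
    have := congrFun hre z
    simp only [gu] at this
    rw [← this]
    simp
  have hnorm : ∀ z : ℂ, ‖Complex.exp (-F z) • ((z, 1) : C2)‖ ≤ Real.exp C := by
    intro z
    have hne : Complex.exp (-F z) • ((z, 1) : C2) ≠ 0 :=
      smul_ne_zero (Complex.exp_ne_zero _) (pt_ne_zero z)
    have h1 := hC _ hne
    rw [hG0, zero_sub, abs_neg] at h1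
    have h2 := (abs_le.1 h1).2
    rwa [Real.log_le_iff_le_exp (norm_pos_iff.2 hne)] at h2
  have hb : ∀ z : ℂ, ‖Complex.exp (-F z)‖ ≤ Real.exp C := by
    intro z
    refine le_trans ?_ (hnorm z)
    have := norm_snd_le (Complex.exp (-F z) • ((z, 1) : C2))
    simpa only [Prod.smul_mk, smul_eq_mul, mul_one] using this
  have hconst : ∀ z, Complex.exp (-F z) = Complex.exp (-F 0) := by
    intro z
    apply (Differentiable.cexp hFd.neg).apply_eq_apply_of_bounded
    rw [isBounded_iff_forall_norm_le]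
    exact ⟨Real.exp C, by rintro _ ⟨x, rfl⟩; exact hb x⟩
  have hb2 : ∀ z : ℂ, ‖z‖ * ‖Complex.exp (-F 0)‖ ≤ Real.exp C := by
    intro z
    refine le_trans ?_ (hnorm z)
    have := norm_fst_le (Complex.exp (-F z) • ((z, 1) : C2))
    rw [hconst z] at this ⊢
    simp only [Prod.smul_mk, smul_eq_mul, norm_mul] at this
    rw [mul_comm]
    exact this
  have hpos : 0 < ‖Complex.exp (-F 0)‖ := norm_pos_iff.2 (Complex.exp_ne_zero _)
  have h1 := hb2 (((Real.exp C + 1) / ‖Complex.exp (-F 0)‖ : ℝ) : ℂ)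
  rw [Complex.norm_real, Real.norm_eq_abs, abs_of_pos (by positivity),
    div_mul_cancel₀ _ hpos.ne'] at h1
  linarith

lemma julia_uncountable {G : C2 → ℝ} (hG : IsGreen G) :
    ¬ {x | ¬ HarmonicAt (gu G) x}.Countable := by
  have hclosed : IsClosed {x | ¬ HarmonicAt (gu G) x} := by
    have := isOpen_setOfPred_harmonicAt (gu G)
    exact this.isClosed_compl
  have hperf : Perfect {x | ¬ HarmonicAt (gu G) x} := by
    refine ⟨hclosed, ?_⟩
    intro x hx
    rw [accPt_iff_frequently]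
    intro h
    apply hx
    apply harmonicAt_of_punctured (continuous_gu hG).continuousAt
    rw [eventually_nhdsWithin_iff]
    filter_upwards [h] with z hz hzx
    by_contra hz2
    exact hz ⟨hzx, hz2⟩
  obtain ⟨x, hx⟩ := exists_not_harmonic hG
  obtain ⟨f, hf, -, hinj⟩ := hperf.exists_nat_bool_injection ⟨x, hx⟩
  intro hc
  have h4 : Cardinal.mk (ℕ → Bool) = Cardinal.continuum := by simp
  have h1 : (range f).Countable := hc.mono hf
  have h2 : Countable (ℕ → Bool) := by
    have : Countable (range f) := h1.to_subtype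
    exact (Set.rangeFactorization_injective.2 hinj).countable
  have h3 := Cardinal.mk_le_aleph0 (α := ℕ → Bool)
  rw [h4] at h3
  exact absurd Cardinal.aleph0_lt_continuum (not_lt.2 h3)

lemma green_iterate {G : C2 → ℝ} {d : ℕ} {f : C2 → C2} (hf : IsLift d f)
    (hGf : ∀ v, v ≠ 0 → G (f v) = d * G v) (n : ℕ) {v : C2} (hv : v ≠ 0) :
    G (f^[n] v) = (d : ℝ) ^ n * G v := by
  induction n with
  | zero => simp
  | succ n ih =>
    rw [Function.iterate_succ_apply', hGf _ (iterate_nz hf.nz n v hv), ih, pow_succ]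
    ring

lemma finite_lin_zero {η : C2} (hη : η ≠ 0) : {z : ℂ | wd (z, 1) η = 0}.Finite := by
  by_cases h2 : η.2 = 0
  · have h1 : η.1 ≠ 0 := by
      rcases fst_or_snd hη with h1 | h1
      · exact h1
      · exact absurd h2 h1
    convert Set.finite_empty (α := ℂ) using 1
    ext z
    simp [wd, h2, h1]
  · apply (Set.finite_singleton (η.1 / η.2)).subset
    intro z hz
    simp only [wd, Set.mem_ofPred_eq, one_mul] at hz
    simp only [mem_singleton_iff]
    field_simp
    linear_combination hz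

lemma finite_preimage {D : ℕ} {f : C2 → C2} (hf : IsLift D f) {ξ : C2} (hξ : ξ ≠ 0) :
    {z : ℂ | wd (f (z, 1)) ξ = 0}.Finite := by
  obtain ⟨κ, η, hκ, hη, h⟩ := hf.fac ξ hξ
  have h1 : (⋃ i, {z : ℂ | wd (z, 1) (η i) = 0}).Finite :=
    Set.finite_iUnion fun i => finite_lin_zero (fun e => by simpa [e] using hη i)
  apply h1.subset
  intro z hz
  simp only [Set.mem_ofPred_eq] at hz
  rw [h] at hz
  rcases mul_eq_zero.1 hz with h2 | h2
  · exact absurd h2 hκ
  · obtain ⟨i, -, hi⟩ := Finset.prod_eq_zero_iff.1 h2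
    exact mem_iUnion.2 ⟨i, hi⟩

lemma diff_curve {D : ℕ} {f : C2 → C2} (hf : IsLift D f) :
    Differentiable ℂ (fun z : ℂ => f (z, 1)) := hf.diff.comp diff_pt

lemma wronskian_lift_ne {D : ℕ} {f : C2 → C2} (hf : IsLift D f) :
    ∃ z : ℂ, wd (f (z, 1)) (deriv (fun z : ℂ => f (z, 1)) z) ≠ 0 := by
  by_contra hcon
  push Not at hcon
  have h1 := par_const_of_wronskian ((diff_curve hf).analyticAt 0) (hf.nz _ (pt_ne_zero 0))
    (Eventually.of_forall hcon)
  have h2 := finite_preimage hf (hf.nz _ (pt_ne_zero 0))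
  have h3 : {z : ℂ | wd (f (z, 1)) (f (0, 1)) = 0} ∈ 𝓝 (0 : ℂ) := h1
  exact (infinite_of_mem_nhds 0 h3) h2

lemma countable_wronskian {D : ℕ} {f : C2 → C2} (hf : IsLift D f) :
    {z : ℂ | wd (f (z, 1)) (deriv (fun z : ℂ => f (z, 1)) z) = 0}.Countable := by
  apply countable_zeros _ (wronskian_lift_ne hf)
  have h := diff_curve hf
  intro z
  exact (analyticAt_wd (h.analyticAt z) (h.analyticAt z).deriv).differentiableAt

lemma countable_postcrit {D : ℕ} {f : C2 → C2} (hf : IsLift D f) :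
    {x : ℂ | ∃ z : ℂ, wd (f (z, 1)) (deriv (fun z : ℂ => f (z, 1)) z) = 0 ∧
      wd (f (z, 1)) (x, 1) = 0}.Countable := by
  apply ((countable_wronskian hf).image (aff (fun z : ℂ => f (z, 1)))).mono
  rintro x ⟨z, hz, hx⟩
  refine ⟨z, hz, ?_⟩
  have h0 := hf.nz _ (pt_ne_zero z)
  simp only [wd, mul_one] at hx
  have h2 : (f (z, 1)).2 ≠ 0 := by
    intro h2
    rcases fst_or_snd h0 with h1 | h1
    · apply h1; rw [h2] at hx; simpa using hx
    · exact h1 h2
  simp only [aff]
  field_simp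
  linear_combination hx

lemma countable_periodic {G : C2 → ℝ} (hG : IsGreen G) {d : ℕ} (hd : 2 ≤ d) {f : C2 → C2}
    (hf : IsLift d f) (hGf : ∀ v, v ≠ 0 → G (f v) = d * G v) {n : ℕ} (hn : 1 ≤ n) :
    {x : ℂ | wd (f^[n] (x, 1)) (x, 1) = 0}.Countable := by
  have hfn := isLift_iterate hf n
  apply countable_zeros (a := fun x : ℂ => wd (f^[n] (x, 1)) (x, 1))
    (differentiable_wd (diff_curve hfn) diff_pt)
  by_contra hcon
  push Not at hcon
  obtain ⟨m, hm, hm0, h⟩ := exists_ratio_entire (diff_curve hfn) diff_pt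
    (fun z => hfn.nz _ (pt_ne_zero z)) pt_ne_zero hcon
  obtain ⟨x, hx⟩ := exists_not_harmonic hG
  apply hx
  have hk : (0 : ℝ) < (d : ℝ) ^ n - 1 := by
    have : (1 : ℝ) < (d : ℝ) ^ n := one_lt_pow₀ (by exact_mod_cast (by omega : 1 < d)) (by omega)
    linarith
  have e : gu G = fun z => ((d : ℝ) ^ n - 1)⁻¹ • Real.log ‖m z‖ := by
    ext z
    have h1 := green_iterate hf hGf n (pt_ne_zero z)
    rw [h z, hG.hom _ _ (hm0 z) (pt_ne_zero z)] at h1
    have h2 : gu G z = G (z, 1) := rfl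
    rw [h2, smul_eq_mul]
    field_simp
    linarith
  rw [e]
  exact ((hm.analyticAt x).harmonicAt_log_norm (hm0 x)).const_smul

/-- A generic point of the Julia set: not periodic, not postcritical. -/
lemma exists_generic_point {G : C2 → ℝ} (hG : IsGreen G) {d : ℕ} (hd : 2 ≤ d) {f : C2 → C2}
    (hf : IsLift d f) (hGf : ∀ v, v ≠ 0 → G (f v) = d * G v) :
    ∃ x : ℂ, ¬ HarmonicAt (gu G) x ∧ (∀ n, 1 ≤ n → wd (f^[n] (x, 1)) (x, 1) ≠ 0) ∧
      ∀ (n : ℕ) (z : ℂ), wd (f^[n] (z, 1)) (x, 1) = 0 →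
        wd (f^[n] (z, 1)) (deriv (fun z : ℂ => f^[n] (z, 1)) z) ≠ 0 := by
  by_contra hcon
  push Not at hcon
  apply julia_uncountable hG
  have h1 : (⋃ n : ℕ, {x : ℂ | wd (f^[n + 1] (x, 1)) (x, 1) = 0}).Countable :=
    Set.countable_iUnion fun n => countable_periodic hG hd hf hGf (by omega)
  have h2 : (⋃ n : ℕ, {x : ℂ | ∃ z : ℂ, wd (f^[n] (z, 1)) (deriv (fun z : ℂ => f^[n] (z, 1)) z) = 0 ∧
      wd (f^[n] (z, 1)) (x, 1) = 0}).Countable :=
    Set.countable_iUnion fun n => countable_postcrit (isLift_iterate hf n)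
  apply (h1.union h2).mono
  intro x hx
  by_cases hp : ∀ n, 1 ≤ n → wd (f^[n] (x, 1)) (x, 1) ≠ 0
  · obtain ⟨n, z, hz, hz'⟩ := hcon x hx hp
    right
    exact mem_iUnion.2 ⟨n, z, hz', hz⟩
  · push Not at hp
    obtain ⟨n, hn, h⟩ := hp
    left
    refine mem_iUnion.2 ⟨n - 1, ?_⟩
    rw [Nat.sub_add_cancel hn]
    exact h

end Pool.Agent.Helper65
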