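import Mathlib
import Pool.Agent.Helper65.Rep1
import Pool.Agent.Helper65.InvDisc

/-! Contracting inverse branches near a generic point of the Julia set. -/

open Complex Metric Set Filter Topology InnerProductSpace

namespace Pool.Agent.Helper65

lemma supp_mem {G : C2 → ℝ} {Ξ : Set C2} (hS : SuppIn G Ξ) {x : ℂ}
    (hx : ¬ HarmonicAt (gu G) x) : ((x, 1) : C2) ∈ Ξ := by
  by_contra h
  exact hx (hS (fun z => (z, 1)) x (diff_pt.analyticAt x) (pt_ne_zero x) h)

lemma affine_analyticAt (a b : ℂ) (x : ℂ) : AnalyticAt ℂ (fun z => a + b * z) x := by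
  fun_prop

/-- renormalised iterates along a zooming sequence -/
theorem exists_zoom_limit {d : ℕ} (hd : 2 ≤ d) {f : C2 → C2} (hf : IsLift d f) {G : C2 → ℝ}
    (hG : IsGreen G) (hGf : ∀ v, v ≠ 0 → G (f v) = d * G v) {x0 : ℂ}
    (hx0 : ¬ HarmonicAt (gu G) x0) :
    ∃ (z : ℕ → ℂ) (ρ : ℕ → ℝ) (n : ℕ → ℕ) (F : ℕ → ℂ → C2) (h : ℂ → C2),
      (∀ k, dist (z k) x0 < 1 / (k + 1)) ∧ (∀ k, 0 < ρ k) ∧ (∀ k, ρ k < 1 / (k + 1)) ∧
      (∀ k, 1 ≤ n k) ∧ (∀ k, DifferentiableOn ℂ (F k) (ball 0 2)) ∧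
      (∀ k, ∀ ζ ∈ ball (0 : ℂ) 2, ∃ t : ℂ, t ≠ 0 ∧ F k ζ = t • f^[n k] (z k + ρ k * ζ, 1)) ∧
      DifferentiableOn ℂ h (ball 0 2) ∧ (∀ ζ ∈ ball (0 : ℂ) 2, h ζ ≠ 0) ∧
      TendstoLocallyUniformlyOn F h atTop (ball 0 2) ∧
      ¬ HarmonicOnNhd (fun ζ => G (h ζ)) (ball 0 1) := by
  have hd1 : (1 : ℝ) < d := by exact_mod_cast (by omega : 1 < d)
  have hd0 : (0 : ℝ) < d := by linarith
  obtain ⟨C, hC0, hC⟩ := hG.bound
  have hcont : ContinuousAt (gu G) x0 := (continuous_gu hG).continuousAt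
  obtain ⟨ε0, hε0, hε0b⟩ := Metric.continuousAt_iff.1 hcont (1 / 2) (by norm_num)
  have hz := exists_zoom (u := gu G) (z0 := x0) (R := 1) one_pos
    (continuous_gu hG).continuousOn hx0
  have hz' : ∀ k : ℕ, ∃ (z : ℂ) (ρ N : ℝ) (n : ℕ) (ψ : ℂ → ℂ), dist z x0 < 1 / (k + 1) ∧ 0 < ρ ∧
      ρ < 1 / (k + 1) ∧
      (∀ v : ℂ → ℝ, HarmonicOnNhd v (ball z ρ) → ∃ z' ∈ ball z ρ, N ≤ |gu G z' - v z'|) ∧
      AnalyticOnNhd ℂ ψ (ball z (2 * ρ)) ∧
      (∀ z' ∈ ball z (2 * ρ), |gu G z' - (ψ z').re| ≤ 40 * N) ∧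
      1 ≤ n ∧ 1 < (d : ℝ) ^ n * N ∧ (d : ℝ) ^ n * N ≤ d := by
    intro k
    have hk : (0 : ℝ) < 1 / (k + 1) := by positivity
    obtain ⟨z, ρ, N, h1, h2, h3, h4, -, h6, v, hv, h7⟩ :=
      hz (min (ε0 / 2) (1 / (k + 1))) (lt_min (by positivity) hk)
    have h1' := lt_of_lt_of_le h1 (min_le_right _ _)
    have h3' := lt_of_lt_of_le h3 (min_le_right _ _)
    have h1'' := lt_of_lt_of_le h1 (min_le_left _ _)
    have h3'' := lt_of_lt_of_le h3 (min_le_left _ _)
    obtain ⟨ψ, hψ, hψ'⟩ := hv.exists_analyticOnNhd_ball_re_eq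
    -- `N < 1`
    have hN : N < 1 := by
      obtain ⟨z', hz', hN⟩ := h6 (fun _ => gu G x0) (fun x _ => harmonicAt_const _)
      have : dist z' x0 < ε0 := by
        have := dist_triangle z' z x0
        rw [mem_ball] at hz'
        linarith
      have := hε0b this
      rw [Real.dist_eq] at this
      linarith
    obtain ⟨m, hm1, hm2⟩ := exists_nat_pow_near (x := 1 / N) (y := (d : ℝ))
      (by rw [le_div_iff₀ h4]; linarith) hd1
    refine ⟨z, ρ, N, m + 1, ψ, h1', h2, h3', h6, hψ, ?_, by omega, ?_, ?_⟩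
    · intro z' hz'
      have := hψ' hz'
      simp only at this
      rw [this]
      exact h7 z' hz'
    · rw [div_lt_iff₀ h4] at hm2
      exact hm2
    · rw [le_div_iff₀ h4] at hm1
      rw [pow_succ]
      calc (d : ℝ) ^ m * d * N = ((d : ℝ) ^ m * N) * d := by ring
        _ ≤ 1 * d := by gcongr
        _ = d := one_mul _
  choose z ρ N n ψ h1 h2 h3 h4 h5 h6 h7 h8 h9 using hz'
  -- the renormalised maps
  set F : ℕ → ℂ → C2 := fun k ζ =>
    Complex.exp (-((d : ℂ) ^ (n k)) * ψ k (z k + ρ k * ζ)) • f^[n k] (z k + ρ k * ζ, 1) with hF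
  have hmem : ∀ k, ∀ ζ ∈ ball (0 : ℂ) 2, z k + ρ k * ζ ∈ ball (z k) (2 * ρ k) := by
    intro k ζ hζ
    rw [mem_ball, dist_eq_norm] at hζ ⊢
    rw [sub_zero] at hζ
    rw [add_sub_cancel_left, norm_mul, Complex.norm_real, Real.norm_eq_abs, abs_of_pos (h2 k)]
    nlinarith [h2 k]
  have hFd : ∀ k, DifferentiableOn ℂ (F k) (ball 0 2) := by
    intro k ζ hζ
    have e1 : DifferentiableAt ℂ (fun ζ : ℂ => z k + ρ k * ζ) ζ := by fun_prop
    have e2 : DifferentiableAt ℂ (fun ζ : ℂ => ψ k (z k + ρ k * ζ)) ζ :=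
      DifferentiableAt.comp (f := fun ζ : ℂ => z k + ρ k * ζ) ζ
        (h5 k _ (hmem k ζ hζ)).differentiableAt e1
    have e3 : DifferentiableAt ℂ (fun ζ : ℂ => f^[n k] (z k + ρ k * ζ, 1)) ζ :=
      DifferentiableAt.comp (f := fun ζ : ℂ => z k + ρ k * ζ) ζ
        (diff_curve (isLift_iterate hf (n k)) _) e1
    exact ((e2.const_mul _).cexp.smul e3).differentiableWithinAt
  have hFG : ∀ k, ∀ ζ, G (F k ζ) =
      (d : ℝ) ^ (n k) * (gu G (z k + ρ k * ζ) - (ψ k (z k + ρ k * ζ)).re) := by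
    intro k ζ
    simp only [hF]
    rw [green_smul_exp hG (iterate_nz hf.nz _ _ (pt_ne_zero _)),
      green_iterate hf hGf _ (pt_ne_zero _)]
    have : (-((d : ℂ) ^ (n k)) * ψ k (z k + ρ k * ζ)).re
        = - (d : ℝ) ^ (n k) * (ψ k (z k + ρ k * ζ)).re := by
      have e : (-((d : ℂ) ^ (n k))) = ((-((d : ℝ) ^ (n k)) : ℝ) : ℂ) := by push_cast; ring
      rw [e, Complex.re_ofReal_mul]
    rw [this]
    simp only [gu]
    ring
  have hFne : ∀ k ζ, F k ζ ≠ 0 := fun k ζ =>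
    smul_ne_zero (Complex.exp_ne_zero _) (iterate_nz hf.nz _ _ (pt_ne_zero _))
  have hFGb : ∀ k, ∀ ζ ∈ ball (0 : ℂ) 2, |G (F k ζ)| ≤ 40 * d := by
    intro k ζ hζ
    rw [hFG, abs_mul, abs_of_pos (pow_pos hd0 _)]
    calc (d : ℝ) ^ (n k) * |gu G (z k + ρ k * ζ) - (ψ k (z k + ρ k * ζ)).re|
        ≤ (d : ℝ) ^ (n k) * (40 * N k) := by
          gcongr
          exact h6 k _ (hmem k ζ hζ)
      _ = 40 * ((d : ℝ) ^ (n k) * N k) := by ring
      _ ≤ 40 * d := by
          have := h9 k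
          linarith
  have hlog : ∀ k, ∀ ζ ∈ ball (0 : ℂ) 2, |Real.log ‖F k ζ‖| ≤ 40 * d + C := by
    intro k ζ hζ
    have e1 := hC _ (hFne k ζ)
    have e2 := hFGb k ζ hζ
    rw [abs_le] at e1 e2 ⊢
    constructor <;> linarith
  have hup : ∀ k, ∀ ζ ∈ ball (0 : ℂ) 2, ‖F k ζ‖ ≤ Real.exp (40 * d + C) := by
    intro k ζ hζ
    have := (abs_le.1 (hlog k ζ hζ)).2
    rwa [Real.log_le_iff_le_exp (norm_pos_iff.2 (hFne k ζ))] at this
  have hlow : ∀ k, ∀ ζ ∈ ball (0 : ℂ) 2, Real.exp (-(40 * d + C)) ≤ ‖F k ζ‖ := by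
    intro k ζ hζ
    have := (abs_le.1 (hlog k ζ hζ)).1
    rwa [Real.le_log_iff_exp_le (norm_pos_iff.2 (hFne k ζ))] at this
  obtain ⟨φ, hφ, h, hh, hlim⟩ := montel F hFd hup
  have hptw : ∀ ζ ∈ ball (0 : ℂ) 2, Tendsto (fun k => F (φ k) ζ) atTop (𝓝 (h ζ)) := by
    intro ζ hζ
    exact hlim.tendsto_at hζ
  have hhlow : ∀ ζ ∈ ball (0 : ℂ) 2, Real.exp (-(40 * d + C)) ≤ ‖h ζ‖ := by
    intro ζ hζ
    exact ge_of_tendsto' (hptw ζ hζ).norm (fun k => hlow (φ k) ζ hζ)
  have hhup : ∀ ζ ∈ ball (0 : ℂ) 2, ‖h ζ‖ ≤ Real.exp (40 * d + C) := by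
    intro ζ hζ
    exact le_of_tendsto' (hptw ζ hζ).norm (fun k => hup (φ k) ζ hζ)
  have hhne : ∀ ζ ∈ ball (0 : ℂ) 2, h ζ ≠ 0 := by
    intro ζ hζ h0
    have := hhlow ζ hζ
    rw [h0, norm_zero] at this
    exact absurd (Real.exp_pos _) (not_lt.2 this)
  have hid : ∀ k, k ≤ φ k := fun k => hφ.id_le k
  refine ⟨fun k => z (φ k), fun k => ρ (φ k), fun k => n (φ k), fun k => F (φ k), h,
    ?_, fun k => h2 _, ?_, fun k => h7 _, fun k => hFd _, ?_, hh, hhne, hlim, ?_⟩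
  · intro k
    refine lt_of_lt_of_le (h1 (φ k)) ?_
    apply one_div_le_one_div_of_le (by positivity)
    have : (k : ℝ) ≤ φ k := by exact_mod_cast hid k
    linarith
  · intro k
    refine lt_of_lt_of_le (h3 (φ k)) ?_
    apply one_div_le_one_div_of_le (by positivity)
    have : (k : ℝ) ≤ φ k := by exact_mod_cast hid k
    linarith
  · intro k ζ _
    exact ⟨_, Complex.exp_ne_zero _, rfl⟩
  · -- the limit potential is not harmonic
    intro hharm
    -- uniform convergence of the potentials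
    have hunif : TendstoUniformlyOn (fun k => F (φ k)) h atTop (closedBall 0 1) := by
      rw [tendstoLocallyUniformlyOn_iff_forall_isCompact isOpen_ball] at hlim
      exact hlim _ (closedBall_subset_ball (by norm_num)) (isCompact_closedBall 0 1)
    set m := Real.exp (-(40 * d + C)) with hm
    set M := Real.exp (40 * d + C) with hM
    have hmpos : 0 < m := Real.exp_pos _
    have hKc : IsCompact {v : C2 | m / 2 ≤ ‖v‖ ∧ ‖v‖ ≤ M + m / 2} := by
      apply (isCompact_closedBall (0 : C2) (M + m / 2)).of_isClosed_subset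
      · exact (isClosed_le continuous_const continuous_norm).inter
          (isClosed_le continuous_norm continuous_const)
      · intro v hv
        simpa using hv.2
    have hGK : ContinuousOn G {v : C2 | m / 2 ≤ ‖v‖ ∧ ‖v‖ ≤ M + m / 2} := by
      apply hG.cont.mono
      intro v hv
      simp only [mem_compl_iff, mem_singleton_iff]
      rintro rfl
      have := hv.1
      rw [norm_zero] at this
      linarith
    have hunifG := tendstoUniformlyOn_comp_of_continuousOn (δ := m / 2) (by positivity) hKc hGK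
      hunif (by
        intro ζ hζ v hv
        have hζ' : ζ ∈ ball (0 : ℂ) 2 := closedBall_subset_ball (by norm_num) hζ
        have a1 := hhlow ζ hζ'
        have a2 := hhup ζ hζ'
        rw [mem_closedBall, dist_eq_norm] at hv
        have a3 := norm_sub_norm_le v (h ζ)
        have a4 := norm_sub_norm_le (h ζ) v
        rw [norm_sub_rev] at a4
        constructor
        · linarith
        · linarith)
    rw [Metric.tendstoUniformlyOn_iff] at hunifG
    obtain ⟨k, hk⟩ := (hunifG 1 one_pos).exists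
    -- comparison function
    set K := φ k with hKdef
    have hρ0 : (ρ K : ℂ) ≠ 0 := by exact_mod_cast (h2 K).ne'
    have hv : HarmonicOnNhd (fun x => (ψ K x).re +
        ((d : ℝ) ^ (n K))⁻¹ • G (h ((-(z K) / ρ K) + (1 / ρ K) * x))) (ball (z K) (ρ K)) := by
      intro x hx
      have hx2 : x ∈ ball (z K) (2 * ρ K) := by
        rw [mem_ball] at hx ⊢
        have := h2 K
        linarith
      have e1 : HarmonicAt (fun x => (ψ K x).re) x := (h5 K x hx2).harmonicAt_re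
      have hmem1 : (-(z K) / ρ K) + (1 / ρ K) * x ∈ ball (0 : ℂ) 1 := by
        rw [mem_ball, dist_eq_norm] at hx ⊢
        rw [sub_zero]
        have : (-(z K) / ρ K) + (1 / ρ K) * x = (x - z K) / (ρ K : ℂ) := by field_simp; ring
        rw [this, norm_div, Complex.norm_real, Real.norm_eq_abs, abs_of_pos (h2 K),
          div_lt_one (h2 K)]
        exact hx
      have e2 := harmonicAt_comp (u := fun ζ => G (h ζ))
        (h := fun x => (-(z K) / ρ K) + (1 / ρ K) * x) (z := x) (hharm _ hmem1)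
        (affine_analyticAt _ _ x)
      exact e1.add (e2.const_smul (c := ((d : ℝ) ^ (n K))⁻¹))
    obtain ⟨z', hz', hN⟩ := h4 K _ hv
    set ζ : ℂ := (-(z K) / ρ K) + (1 / ρ K) * z' with hζdef
    have hζ : ζ ∈ closedBall (0 : ℂ) 1 := by
      rw [mem_ball, dist_eq_norm] at hz'
      rw [mem_closedBall, dist_eq_norm, sub_zero]
      have : ζ = (z' - z K) / (ρ K : ℂ) := by rw [hζdef]; field_simp; ring
      rw [this, norm_div, Complex.norm_real, Real.norm_eq_abs, abs_of_pos (h2 K),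
        div_le_one (h2 K)]
      exact hz'.le
    have hzz : z K + ρ K * ζ = z' := by rw [hζdef]; field_simp; ring
    have h10 := hk ζ hζ
    have h11 := hFG K ζ
    rw [hzz] at h11
    rw [Real.dist_eq] at h10
    have hdn : 0 < (d : ℝ) ^ (n K) := pow_pos hd0 _
    have h12 : gu G z' - ((ψ K z').re + ((d : ℝ) ^ (n K))⁻¹ • G (h ζ))
        = ((d : ℝ) ^ (n K))⁻¹ * (G (F K ζ) - G (h ζ)) := by
      rw [h11, smul_eq_mul]
      field_simp
      ring
    rw [h12, abs_mul, abs_of_pos (inv_pos.2 hdn)] at hN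
    have h13 := h8 K
    have h14 : (d : ℝ) ^ (n K) * N K ≤ |G (F K ζ) - G (h ζ)| := by
      have := mul_le_mul_of_nonneg_left hN hdn.le
      rwa [← mul_assoc, mul_inv_cancel₀ hdn.ne', one_mul] at this
    rw [abs_sub_comm] at h14
    linarith

end Pool.Agent.Helper65
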