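import Mathlib
import Pool.Agent.Helper65.Rep2

/-! Contracting inverse branches near a generic point of the Julia set. -/

open Complex Metric Set Filter Topology InnerProductSpace

namespace Pool.Agent.Helper65

lemma snd_ne_of_par {v : C2} {x : ℂ} (hv : v ≠ 0) (h : wd v (x, 1) = 0) : v.2 ≠ 0 := by
  intro h2
  rcases fst_or_snd hv with h1 | h1
  · apply h1
    simp only [wd, mul_one, h2, zero_mul, sub_zero] at h
    exact h
  · exact h1 h2

lemma div_of_par {v : C2} {x : ℂ} (hv : v ≠ 0) (h : wd v (x, 1) = 0) : v.1 / v.2 = x := by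
  have h2 := snd_ne_of_par hv h
  simp only [wd, mul_one] at h
  field_simp
  linear_combination h

lemma par_of_div {v : C2} {x : ℂ} (h2 : v.2 ≠ 0) (h : v.1 / v.2 = x) : wd v (x, 1) = 0 := by
  rw [div_eq_iff h2] at h
  simp only [wd, mul_one, h]
  ring

theorem exists_branches {d : ℕ} (hd : 2 ≤ d) {f : C2 → C2} (hf : IsLift d f) {G : C2 → ℝ}
    (hG : IsGreen G) (hGf : ∀ v, v ≠ 0 → G (f v) = d * G v) {Ξ : Set C2} (hM : Mixing G f Ξ)
    (hS : SuppIn G Ξ) {x0 : ℂ} (hx0 : ¬ HarmonicAt (gu G) x0)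
    (hpc : ∀ (n : ℕ) (z : ℂ), wd (f^[n] (z, 1)) (x0, 1) = 0 →
        wd (f^[n] (z, 1)) (deriv (fun z : ℂ => f^[n] (z, 1)) z) ≠ 0) :
    ∃ η > 0, ∀ ε > 0, ∃ (N : ℕ) (g : ℂ → ℂ), 1 ≤ N ∧ DifferentiableOn ℂ g (ball x0 η) ∧
      MapsTo g (ball x0 η) (ball x0 ε) ∧ ∀ y ∈ ball x0 η, wd (f^[N] (g y, 1)) (y, 1) = 0 := by
  obtain ⟨z, ρ, n, F, h, hz, hρ, hρ', hn, hFd, hF, hh, hhne, hlim, hnh⟩ :=
    exists_zoom_limit hd hf hG hGf hx0
  have hsub12 : ball (0 : ℂ) 1 ⊆ ball 0 2 := ball_subset_ball (by norm_num)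
  obtain ⟨j, hj⟩ := mixing_curve hG hf hM (hh.mono hsub12) (fun ζ hζ => hhne ζ (hsub12 hζ)) hnh
  obtain ⟨ζ0, hζ0, hpar, hW, h2⟩ := hj j le_rfl (x0, 1) (supp_mem hS hx0) (pt_ne_zero x0)
  have hζ02 : ζ0 ∈ ball (0 : ℂ) 2 := hsub12 hζ0
  have hfj := isLift_iterate hf j
  -- the function `Ψ v = aff (f^j v)`
  set Ψ : C2 → ℂ := fun v => (f^[j] v).1 / (f^[j] v).2 with hΨ
  have hane : (f^[j] (h ζ0)).2 ≠ 0 := snd_ne_of_par (hfj.nz _ (hhne ζ0 hζ02)) hpar
  have hval : Ψ (h ζ0) = x0 := div_of_par (hfj.nz _ (hhne ζ0 hζ02)) hpar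
  have hcontj : Continuous (f^[j]) := hfj.diff.continuous
  have hhan : AnalyticAt ℂ h ζ0 := hh.analyticOnNhd isOpen_ball ζ0 hζ02
  -- neighbourhood of `h ζ0`
  obtain ⟨δ, hδ, hδb⟩ : ∃ δ > 0, ∀ v ∈ closedBall (h ζ0) (2 * δ), (f^[j] v).2 ≠ 0 := by
    have : ∀ᶠ v in 𝓝 (h ζ0), (f^[j] v).2 ≠ 0 :=
      (hcontj.snd).continuousAt.eventually_ne hane
    obtain ⟨s, hs, hb⟩ := Metric.eventually_nhds_iff_ball.1 this
    refine ⟨s / 4, by positivity, fun v hv => hb v ?_⟩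
    rw [mem_closedBall] at hv
    rw [mem_ball]
    linarith
  have hΨc : ContinuousOn Ψ (closedBall (h ζ0) (2 * δ)) := by
    apply ContinuousOn.div
    · exact hcontj.fst.continuousOn
    · exact hcontj.snd.continuousOn
    · exact hδb
  obtain ⟨r, hr, hrb⟩ : ∃ r > 0, ∀ ζ ∈ ball ζ0 r, ζ ∈ ball (0 : ℂ) 1 ∧ h ζ ∈ ball (h ζ0) (δ / 2) := by
    have e1 : ∀ᶠ ζ in 𝓝 ζ0, ζ ∈ ball (0 : ℂ) 1 := isOpen_ball.mem_nhds hζ0
    have e2 : ∀ᶠ ζ in 𝓝 ζ0, h ζ ∈ ball (h ζ0) (δ / 2) :=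
      hhan.continuousAt (ball_mem_nhds _ (by positivity))
    obtain ⟨s, hs, hb⟩ := Metric.eventually_nhds_iff_ball.1 (e1.and e2)
    exact ⟨s, hs, hb⟩
  have hunif : TendstoUniformlyOn F h atTop (closedBall 0 1) := by
    rw [tendstoLocallyUniformlyOn_iff_forall_isCompact isOpen_ball] at hlim
    exact hlim _ (closedBall_subset_ball (by norm_num)) (isCompact_closedBall 0 1)
  have hunif' : TendstoUniformlyOn F h atTop (ball ζ0 r) :=
    hunif.mono (fun ζ hζ => ball_subset_closedBall (hrb ζ hζ).1)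
  have hlimΨ : TendstoUniformlyOn (fun k ζ => Ψ (F k ζ)) (fun ζ => Ψ (h ζ)) atTop (ball ζ0 r) := by
    apply tendstoUniformlyOn_comp_of_continuousOn (δ := δ / 2) (by positivity)
      (isCompact_closedBall (h ζ0) (2 * δ)) hΨc hunif'
    intro ζ hζ v hv
    have := (hrb ζ hζ).2
    rw [mem_ball] at this
    rw [mem_closedBall] at hv ⊢
    have := dist_triangle v (h ζ) (h ζ0)
    linarith
  have hmemev : ∀ᶠ k in atTop, ∀ ζ ∈ ball ζ0 r, F k ζ ∈ closedBall (h ζ0) (2 * δ) := by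
    rw [Metric.tendstoUniformlyOn_iff] at hunif'
    filter_upwards [hunif' (δ / 2) (by positivity)] with k hk ζ hζ
    have hζ1 := (hrb ζ hζ).1
    have a1 := hk ζ hζ
    have a2 := (hrb ζ hζ).2
    rw [mem_ball] at a2
    rw [mem_closedBall]
    have := dist_triangle (F k ζ) (h ζ) (h ζ0)
    rw [dist_comm (h ζ)] at a1
    linarith
  have hdiffev : ∀ᶠ k in atTop, DifferentiableOn ℂ (fun ζ => Ψ (F k ζ)) (ball ζ0 r) := by
    filter_upwards [hmemev] with k hk ζ hζ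
    have hζ1 := (hrb ζ hζ).1
    have hmem := hk ζ hζ
    have hFk : DifferentiableAt ℂ (F k) ζ :=
      (hFd k ζ (hsub12 hζ1)).differentiableAt (isOpen_ball.mem_nhds (hsub12 hζ1))
    have hcomp : DifferentiableAt ℂ (fun ζ => f^[j] (F k ζ)) ζ :=
      DifferentiableAt.comp (f := F k) ζ (hfj.diff _) hFk
    exact (hcomp.fst.div hcomp.snd (hδb _ hmem)).differentiableWithinAt
  -- derivative of the limit
  have hderiv : deriv (fun ζ => Ψ (h ζ)) ζ0 ≠ 0 := by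
    set R : ℂ → ℂ := aff (fun z : ℂ => f^[j] (z, 1)) with hR
    have hpar2 : wd (f^[j] (aff h ζ0, 1)) (x0, 1) = 0 := by
      have e := hpar
      rw [aff_par h2, hfj.hom, wd_smul_left] at e
      exact (mul_eq_zero.1 e).resolve_left (pow_ne_zero _ h2)
    have hRW := hpc j (aff h ζ0) hpar2
    have hR2 : (f^[j] (aff h ζ0, 1)).2 ≠ 0 := snd_ne_of_par (hfj.nz _ (pt_ne_zero _)) hpar2
    have hRd := aff_hasDerivAt (φ := fun z : ℂ => f^[j] (z, 1)) (diff_curve hfj (aff h ζ0)) hR2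
    have hhd := aff_hasDerivAt hhan.differentiableAt h2
    have hcomp : HasDerivAt (fun ζ => R (aff h ζ)) _ ζ0 := hRd.comp ζ0 hhd
    have heq : (fun ζ => Ψ (h ζ)) =ᶠ[𝓝 ζ0] fun ζ => R (aff h ζ) := by
      filter_upwards [eventually_snd_ne hhan h2] with ζ hζ
      simp only [hΨ, hR, aff]
      have e : h ζ = (h ζ).2 • (((h ζ).1 / (h ζ).2, 1) : C2) := aff_par hζ
      conv_lhs => rw [e]
      rw [hfj.hom]
      simp only [Prod.smul_fst, Prod.smul_snd, smul_eq_mul]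
      rw [mul_div_mul_left _ _ (pow_ne_zero _ hζ)]
    rw [heq.deriv_eq, hcomp.deriv]
    apply mul_ne_zero
    · exact div_ne_zero (neg_ne_zero.2 hRW) (pow_ne_zero _ hR2)
    · exact div_ne_zero (neg_ne_zero.2 hW) (pow_ne_zero _ h2)
  obtain ⟨η, hη, hev⟩ := inv_branches hr hdiffev hlimΨ hderiv
  rw [hval] at hev
  refine ⟨η, hη, fun ε hε => ?_⟩
  have hsmall : ∀ᶠ k : ℕ in atTop, 1 / ((k : ℝ) + 1) < ε / 2 := by
    have := tendsto_one_div_add_atTop_nhds_zero_nat (𝕜 := ℝ)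
    exact this.eventually (gt_mem_nhds (by positivity))
  obtain ⟨k, ⟨⟨g, hg1, hg2, hg3⟩, hk⟩, hkm⟩ := ((hev.and hsmall).and hmemev).exists
  refine ⟨j + n k, fun y => z k + ρ k * g y, by have := hn k; omega, ?_, ?_, ?_⟩
  · exact (hg1.const_mul _).const_add _
  · intro y hy
    have a1 := (hrb _ (hg2 hy)).1
    rw [mem_ball, dist_eq_norm, sub_zero] at a1
    rw [mem_ball, dist_eq_norm]
    have e : z k + ρ k * g y - x0 = (z k - x0) + ρ k * g y := by ring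
    rw [e]
    have a2 : ‖(ρ k : ℂ) * g y‖ ≤ ρ k := by
      rw [norm_mul, Complex.norm_real, Real.norm_eq_abs, abs_of_pos (hρ k)]
      have := hρ k
      nlinarith
    have a3 := hz k
    rw [dist_eq_norm] at a3
    have a4 := hρ' k
    have := norm_add_le (z k - x0) (ρ k * g y)
    linarith
  · intro y hy
    have a1 := (hrb _ (hg2 hy)).1
    obtain ⟨t, ht, e⟩ := hF k (g y) (hsub12 a1)
    have e2 := hg3 y hy
    simp only [hΨ] at e2
    have h3 := hδb _ (hkm _ (hg2 hy))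
    rw [e, hfj.hom, ← Function.iterate_add_apply] at e2 h3
    simp only [Prod.smul_fst, Prod.smul_snd, smul_eq_mul] at e2 h3
    rw [mul_div_mul_left _ _ (pow_ne_zero _ ht)] at e2
    exact par_of_div (right_ne_zero_of_mul h3) e2

end Pool.Agent.Helper65
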