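import Mathlib
import Pool.Agent.Helper65.Rep3

/-! A repelling fixed point of an iterate, with homoclinic returns. -/

open Complex Metric Set Filter Topology InnerProductSpace
open scoped NNReal

namespace Pool.Agent.Helper65

lemma par_map {d : ℕ} {f : C2 → C2} (hf : IsLift d f) {v w : C2} (hw : w ≠ 0)
    (h : wd v w = 0) : wd (f v) (f w) = 0 := by
  obtain ⟨t, rfl⟩ := (par_iff hw).1 h
  rw [hf.hom, wd_smul_left, wd_self, mul_zero]

/-- contraction estimates for a branch -/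
lemma branch_lip {g : ℂ → ℂ} {x0 : ℂ} {η : ℝ} (hη : 0 < η)
    (hg : DifferentiableOn ℂ g (ball x0 η)) (hm : MapsTo g (ball x0 η) (ball x0 (η / 8))) :
    (∀ y ∈ closedBall x0 (η / 2), ‖deriv g y‖ ≤ 1 / 2) ∧
    ∀ y ∈ closedBall x0 (η / 2), ∀ y' ∈ closedBall x0 (η / 2), dist (g y) (g y') ≤ 1 / 2 * dist y y' := by
  have hsub : ∀ y ∈ closedBall x0 (η / 2), closedBall y (η / 4) ⊆ ball x0 η := by
    intro y hy z hz
    rw [mem_closedBall] at hy hz
    rw [mem_ball]
    have := dist_triangle z y x0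
    linarith
  have hd : ∀ y ∈ closedBall x0 (η / 2), ‖deriv g y‖ ≤ 1 / 2 := by
    intro y hy
    have h1 : DiffContOnCl ℂ (fun z => g z - x0) (ball y (η / 4)) := by
      apply DifferentiableOn.diffContOnCl
      rw [closure_ball _ (by positivity)]
      exact (hg.mono (hsub y hy)).sub_const _
    have h2 := Complex.norm_deriv_le_of_forall_mem_sphere_norm_le (f := fun z => g z - x0)
      (c := y) (R := η / 4) (C := η / 8) (by positivity) h1 (by
        intro z hz
        have := hm (hsub y hy (sphere_subset_closedBall hz))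
        rw [mem_ball, dist_eq_norm] at this
        exact this.le)
    rw [deriv_sub_const] at h2
    calc ‖deriv g y‖ ≤ η / 8 / (η / 4) := h2
      _ = 1 / 2 := by field_simp; norm_num
  refine ⟨hd, ?_⟩
  intro y hy y' hy'
  have := (convex_closedBall x0 (η / 2)).norm_image_sub_le_of_norm_deriv_le (𝕜 := ℂ) (f := g)
    (C := 1 / 2) (x := y') (y := y) (fun z hz => (hg z (hsub z hz (mem_closedBall_self
      (by positivity)))).differentiableAt (isOpen_ball.mem_nhds (hsub z hz (mem_closedBall_self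
      (by positivity))))) hd hy' hy
  rw [dist_eq_norm, dist_eq_norm]
  exact this

lemma branch_fixed {g : ℂ → ℂ} {x0 : ℂ} {η : ℝ} (hη : 0 < η)
    (hg : DifferentiableOn ℂ g (ball x0 η)) (hm : MapsTo g (ball x0 η) (ball x0 (η / 8))) :
    ∃ p ∈ ball x0 (η / 8), g p = p := by
  have hsub : closedBall x0 (η / 2) ⊆ ball x0 η := closedBall_subset_ball (by linarith)
  have hsub2 : ball x0 (η / 8) ⊆ closedBall x0 (η / 2) :=
    ball_subset_closedBall.trans (closedBall_subset_closedBall (by linarith))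
  have hms : MapsTo g (closedBall x0 (η / 2)) (closedBall x0 (η / 2)) := fun y hy =>
    hsub2 (hm (hsub hy))
  have hlip := (branch_lip hη hg hm).2
  have hcontr : ContractingWith (1 / 2 : ℝ≥0) (hms.restrict g _ _) := by
    refine ⟨by
      have : ((1 / 2 : ℝ≥0) : ℝ) < ((1 : ℝ≥0) : ℝ) := by norm_num
      exact_mod_cast this, ?_⟩
    apply LipschitzWith.of_dist_le_mul
    intro x y
    have := hlip x x.2 y y.2
    have e : (((1 / 2 : ℝ≥0)) : ℝ) = 1 / 2 := by norm_num
    rw [e]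
    exact this
  obtain ⟨p, hp, hp2, -⟩ := hcontr.exists_fixedPoint' (isClosed_closedBall.isComplete) hms
    (mem_closedBall_self (by positivity)) (edist_ne_top x0 _)
  refine ⟨p, ?_, hp2⟩
  have := hm (hsub hp)
  rwa [hp2] at this

lemma branch_iter {d : ℕ} {f : C2 → C2} (hf : IsLift d f) {g : ℂ → ℂ} {x0 : ℂ} {η : ℝ}
    (hη : 0 < η) {N : ℕ} (hg : DifferentiableOn ℂ g (ball x0 η))
    (hm : MapsTo g (ball x0 η) (ball x0 (η / 8)))
    (hp : ∀ y ∈ ball x0 η, wd (f^[N] (g y, 1)) (y, 1) = 0) (m : ℕ) :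
    DifferentiableOn ℂ (g^[m + 1]) (ball x0 η) ∧ MapsTo (g^[m + 1]) (ball x0 η) (ball x0 (η / 8)) ∧
      ∀ y ∈ ball x0 η, wd (f^[N * (m + 1)] (g^[m + 1] y, 1)) (y, 1) = 0 := by
  have hsub : ball x0 (η / 8) ⊆ ball x0 η := ball_subset_ball (by linarith)
  induction m with
  | zero => simpa using ⟨hg, hm, hp⟩
  | succ m ih =>
    obtain ⟨ih1, ih2, ih3⟩ := ih
    rw [Function.iterate_succ']
    refine ⟨hg.comp ih1 (fun y hy => hsub (ih2 hy)), fun y hy => hm (hsub (ih2 hy)), ?_⟩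
    intro y hy
    have e : N * (m + 1 + 1) = N * (m + 1) + N := by ring
    rw [e, Function.iterate_add_apply, Function.comp_apply]
    have h1 := hp _ (hsub (ih2 hy))
    have hfN := isLift_iterate hf (N * (m + 1))
    have h2 := par_map hfN (pt_ne_zero _) h1
    exact par_trans (hfN.nz _ (pt_ne_zero _)) h2 (ih3 y hy)

/-- iterate of a curve: harmonicity transfer -/
lemma harmonicAt_of_branch {d : ℕ} (hd : 2 ≤ d) {f : C2 → C2} (hf : IsLift d f) {G : C2 → ℝ}
    (hG : IsGreen G) (hGf : ∀ v, v ≠ 0 → G (f v) = d * G v) {N : ℕ} {g : ℂ → ℂ} {x : ℂ}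
    (hg : AnalyticAt ℂ g x) (hp : ∀ᶠ y in 𝓝 x, wd (f^[N] (g y, 1)) (y, 1) = 0)
    (hh : HarmonicAt (gu G) (g x)) : HarmonicAt (gu G) x := by
  have hfN := isLift_iterate hf N
  have hφ : AnalyticAt ℂ (fun y => f^[N] (g y, 1)) x := by
    have h1 : AnalyticAt ℂ (fun z : ℂ => f^[N] (z, 1)) (g x) := (diff_curve hfN).analyticAt _
    exact AnalyticAt.comp (f := g) h1 hg
  have h1 := green_par hG hφ (diff_pt.analyticAt x) (hfN.nz _ (pt_ne_zero _)) (pt_ne_zero _) hp
  have h2 : HarmonicAt (fun y => G (f^[N] (g y, 1))) x := by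
    have e : (fun y => G (f^[N] (g y, 1))) = fun y => ((d : ℝ) ^ N) • gu G (g y) := by
      ext y
      rw [green_iterate hf hGf _ (pt_ne_zero _)]
      rfl
    rw [e]
    exact (harmonicAt_comp hh hg).const_smul
  exact (harmonicAt_iff_of_sub h1).1 h2

theorem exists_repelling {d : ℕ} (hd : 2 ≤ d) {f : C2 → C2} (hf : IsLift d f) {G : C2 → ℝ}
    (hG : IsGreen G) (hGf : ∀ v, v ≠ 0 → G (f v) = d * G v) {Ξ : Set C2} (hM : Mixing G f Ξ)
    (hS : SuppIn G Ξ) :
    ∃ (N : ℕ) (g : ℂ → ℂ) (p : ℂ), 1 ≤ N ∧ AnalyticAt ℂ g p ∧ g p = p ∧ ‖deriv g p‖ < 1 ∧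
      (∀ᶠ y in 𝓝 p, wd (f^[N] (g y, 1)) (y, 1) = 0) ∧ ¬ HarmonicAt (gu G) p ∧
      ∀ U ∈ 𝓝 p, ∃ (k : ℕ) (g2 : ℂ → ℂ), AnalyticAt ℂ g2 p ∧ g2 p ∈ U ∧ g2 p ≠ p ∧
        ∀ᶠ y in 𝓝 p, wd (f^[N * k] (g2 y, 1)) (y, 1) = 0 := by
  obtain ⟨x0, hx0, hper, hpc⟩ := exists_generic_point hG hd hf hGf
  obtain ⟨η, hη, hbr⟩ := exists_branches hd hf hG hGf hM hS hx0 hpc
  have hsub8 : ball x0 (η / 8) ⊆ ball x0 η := ball_subset_ball (by linarith)
  obtain ⟨N1, g1, hN1, hg1, hm1, hp1⟩ := hbr (η / 8) (by positivity)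
  obtain ⟨p1, hp1b, hp1f⟩ := branch_fixed hη hg1 hm1
  have hne1 : p1 ≠ x0 := by
    rintro rfl
    have := hp1 p1 (hsub8 hp1b)
    rw [hp1f] at this
    exact hper N1 hN1 this
  have hdist : 0 < dist p1 x0 := dist_pos.2 hne1
  obtain ⟨N2, g2, hN2, hg2, hm2', hp2⟩ := hbr (min (η / 8) (dist p1 x0)) (lt_min (by positivity) hdist)
  have hm2 : MapsTo g2 (ball x0 η) (ball x0 (η / 8)) := fun y hy =>
    ball_subset_ball (min_le_left _ _) (hm2' hy)
  obtain ⟨p2, hp2b, hp2f⟩ := branch_fixed hη hg2 hm2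
  have hne2 : p2 ≠ p1 := by
    rintro rfl
    have := hm2' (hsub8 hp2b)
    rw [hp2f, mem_ball] at this
    exact absurd this (not_lt.2 (min_le_right _ _))
  obtain ⟨m1, rfl⟩ : ∃ m, N1 = m + 1 := ⟨N1 - 1, by omega⟩
  obtain ⟨m2, rfl⟩ : ∃ m, N2 = m + 1 := ⟨N2 - 1, by omega⟩
  obtain ⟨hA1, hA2, hA3⟩ := branch_iter hf hη hg1 hm1 hp1 m2
  obtain ⟨hB1, hB2, hB3⟩ := branch_iter hf hη hg2 hm2 hp2 m1
  rw [mul_comm (m2 + 1)] at hB3
  set N := (m1 + 1) * (m2 + 1) with hN
  set A := g1^[m2 + 1] with hA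
  set B := g2^[m1 + 1] with hB
  have hp1c : p1 ∈ closedBall x0 (η / 2) :=
    closedBall_subset_closedBall (by linarith) (ball_subset_closedBall hp1b)
  have hp2c : p2 ∈ closedBall x0 (η / 2) :=
    closedBall_subset_closedBall (by linarith) (ball_subset_closedBall hp2b)
  have hAp : A p1 = p1 := Function.iterate_fixed hp1f _
  have hBp2 : B p2 = p2 := Function.iterate_fixed hp2f _
  have hBp : B p1 ≠ p1 := by
    intro h
    have h1 := (branch_lip hη hB1 hB2).2 p1 hp1c p2 hp2c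
    rw [h, hBp2] at h1
    have h2 : 0 < dist p1 p2 := dist_pos.2 hne2.symm
    linarith
  have hp1n : ball x0 η ∈ 𝓝 p1 := isOpen_ball.mem_nhds (hsub8 hp1b)
  have hAan : AnalyticAt ℂ A p1 := hA1.analyticAt hp1n
  have hBan : AnalyticAt ℂ B p1 := hB1.analyticAt hp1n
  have hlipA := branch_lip hη hA1 hA2
  refine ⟨N, A, p1, Nat.mul_pos (by omega) (by omega), hAan, hAp, ?_, ?_, ?_, ?_⟩
  · have := hlipA.1 p1 hp1c
    linarith
  · filter_upwards [hp1n] with y hy
    exact hA3 y hy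
  · -- p1 in the Julia set
    intro hharm
    obtain ⟨ε, hε, hb⟩ := Metric.mem_nhds_iff.1 ((hharm.eventually : ∀ᶠ z in 𝓝 p1, _))
    -- iterate A at x0
    have hx0b : x0 ∈ ball x0 η := mem_ball_self hη
    have hconv : ∀ m : ℕ, A^[m] x0 ∈ closedBall x0 (η / 2) ∧
        dist (A^[m] x0) p1 ≤ (1 / 2) ^ m * dist x0 p1 := by
      intro m
      induction m with
      | zero => simp; positivity
      | succ m ih =>
        rw [Function.iterate_succ_apply']
        constructor
        · have : A^[m] x0 ∈ ball x0 η := by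
            have := ih.1
            rw [mem_closedBall] at this
            rw [mem_ball]; linarith
          have := hA2 this
          rw [mem_ball] at this
          rw [mem_closedBall]; linarith
        · have := hlipA.2 _ ih.1 p1 hp1c
          rw [hAp] at this
          calc dist (A (A^[m] x0)) p1 ≤ 1 / 2 * dist (A^[m] x0) p1 := this
            _ ≤ 1 / 2 * ((1 / 2) ^ m * dist x0 p1) := by gcongr; exact ih.2
            _ = (1 / 2) ^ (m + 1) * dist x0 p1 := by ring
    have htend : Tendsto (fun m : ℕ => (1 / 2 : ℝ) ^ m * dist x0 p1) atTop (𝓝 (0 * dist x0 p1)) :=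
      (tendsto_pow_atTop_nhds_zero_of_lt_one (by norm_num) (by norm_num)).mul_const _
    rw [zero_mul] at htend
    obtain ⟨m, hm⟩ := ((htend.eventually (gt_mem_nhds hε)).and (eventually_ge_atTop 1)).exists
    obtain ⟨m', rfl⟩ : ∃ m', m = m' + 1 := ⟨m - 1, by omega⟩
    obtain ⟨hC1, hC2, hC3⟩ := branch_iter hf hη hA1 hA2 hA3 m'
    apply hx0
    apply harmonicAt_of_branch hd hf hG hGf (N := N * (m' + 1)) (g := A^[m' + 1])
      (hC1.analyticAt (isOpen_ball.mem_nhds hx0b))
    · filter_upwards [isOpen_ball.mem_nhds hx0b] with y hy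
      exact hC3 y hy
    · apply hb
      rw [mem_ball]
      exact lt_of_le_of_lt (hconv _).2 hm.1
  · intro U hU
    obtain ⟨ε, hε, hb⟩ := Metric.mem_nhds_iff.1 hU
    have hq : B p1 ∈ ball x0 (η / 8) := hB2 (hsub8 hp1b)
    have hqc : B p1 ∈ closedBall x0 (η / 2) :=
      closedBall_subset_closedBall (by linarith) (ball_subset_closedBall hq)
    have hconv : ∀ m : ℕ, A^[m] (B p1) ∈ closedBall x0 (η / 2) ∧
        dist (A^[m] (B p1)) p1 ≤ (1 / 2) ^ m * dist (B p1) p1 := by
      intro m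
      induction m with
      | zero => simpa using hqc
      | succ m ih =>
        rw [Function.iterate_succ_apply']
        constructor
        · have : A^[m] (B p1) ∈ ball x0 η := by
            have := ih.1
            rw [mem_closedBall] at this
            rw [mem_ball]; linarith
          have := hA2 this
          rw [mem_ball] at this
          rw [mem_closedBall]; linarith
        · have := hlipA.2 _ ih.1 p1 hp1c
          rw [hAp] at this
          calc dist (A (A^[m] (B p1))) p1 ≤ 1 / 2 * dist (A^[m] (B p1)) p1 := this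
            _ ≤ 1 / 2 * ((1 / 2) ^ m * dist (B p1) p1) := by gcongr; exact ih.2
            _ = (1 / 2) ^ (m + 1) * dist (B p1) p1 := by ring
    have htend : Tendsto (fun m : ℕ => (1 / 2 : ℝ) ^ m * dist (B p1) p1) atTop
        (𝓝 (0 * dist (B p1) p1)) :=
      (tendsto_pow_atTop_nhds_zero_of_lt_one (by norm_num) (by norm_num)).mul_const _
    rw [zero_mul] at htend
    obtain ⟨m, hm⟩ := ((htend.eventually (gt_mem_nhds hε)).and (eventually_ge_atTop 1)).exists
    obtain ⟨m', rfl⟩ : ∃ m', m = m' + 1 := ⟨m - 1, by omega⟩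
    obtain ⟨hC1, hC2, hC3⟩ := branch_iter hf hη hA1 hA2 hA3 m'
    refine ⟨m' + 1 + 1, fun y => A^[m' + 1] (B y), ?_, ?_, ?_, ?_⟩
    · have h1 : AnalyticAt ℂ (A^[m' + 1]) (B p1) :=
        hC1.analyticAt (isOpen_ball.mem_nhds (hsub8 hq))
      exact AnalyticAt.comp (f := B) h1 hBan
    · apply hb
      rw [mem_ball]
      exact lt_of_le_of_lt (hconv _).2 hm.1
    · -- injectivity of the branch
      show A^[m' + 1] (B p1) ≠ p1
      intro h
      have h1 := hC3 (B p1) (hsub8 hq)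
      have h2 := hC3 p1 (hsub8 hp1b)
      rw [h] at h1
      rw [Function.iterate_fixed hAp] at h2
      have hfN := isLift_iterate hf (N * (m' + 1))
      have h3 : wd ((B p1, 1) : C2) (p1, 1) = 0 :=
        par_trans (hfN.nz _ (pt_ne_zero p1)) (wd_eq_zero_comm.1 h1) h2
      simp only [wd, mul_one, one_mul] at h3
      exact hBp (sub_eq_zero.1 h3)
    · filter_upwards [hp1n] with y hy
      have e : N * (m' + 1 + 1) = N + N * (m' + 1) := by ring
      have hy2 : B y ∈ ball x0 η := hsub8 (hB2 hy)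
      rw [e, Function.iterate_add_apply]
      have h1 := hC3 (B y) hy2
      have h2 := par_map (isLift_iterate hf N) (pt_ne_zero _) h1
      exact par_trans ((isLift_iterate hf N).nz _ (pt_ne_zero _)) h2 (hB3 y hy)

end Pool.Agent.Helper65
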