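import Mathlib
import Pool.Agent.Helper65.Rep4
import Pool.Agent.Helper65.Ext

/-! Existence of linearisation data. -/

open Complex Metric Set Filter Topology InnerProductSpace

namespace Pool.Agent.Helper65

lemma branch_deriv_ne {D : ℕ} {F : C2 → C2} (hF : IsLift D F) {g : ℂ → ℂ} {p : ℂ}
    (hg : AnalyticAt ℂ g p) (h : ∀ᶠ y in 𝓝 p, wd (F (g y, 1)) (y, 1) = 0) : deriv g p ≠ 0 := by
  have hp := h.self_of_nhds
  have h2 : (F (g p, 1)).2 ≠ 0 := snd_ne_of_par (hF.nz _ (pt_ne_zero _)) hp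
  have hR := aff_hasDerivAt (φ := fun z : ℂ => F (z, 1)) (diff_curve hF (g p)) h2
  have h3 := hR.comp p hg.differentiableAt.hasDerivAt
  have h4 : (aff (fun z : ℂ => F (z, 1)) ∘ g) =ᶠ[𝓝 p] id := by
    filter_upwards [h] with y hy
    simp only [Function.comp_apply, aff, id]
    exact div_of_par (hF.nz _ (pt_ne_zero _)) hy
  have h5 := (hasDerivAt_id p).congr_of_eventuallyEq h4
  have h6 := h3.unique h5
  intro h0
  rw [h0, mul_zero] at h6
  exact zero_ne_one h6

lemma wd_deriv_smul {ψ : ℂ → C2} {s : ℂ → ℂ} {x : ℂ} (hψ : DifferentiableAt ℂ ψ x)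
    (hs : DifferentiableAt ℂ s x) :
    wd (s x • ψ x) (deriv (fun z => s z • ψ z) x) = s x ^ 2 * wd (ψ x) (deriv ψ x) := by
  have h : HasDerivAt (fun z => s z • ψ z) (s x • deriv ψ x + deriv s x • ψ x) x :=
    hs.hasDerivAt.smul hψ.hasDerivAt
  rw [h.deriv, wd_add_right, wd_smul_left, wd_smul_left, wd_smul_right, wd_smul_right, wd_self]
  ring

theorem exists_linData {d : ℕ} (hd : 2 ≤ d) {f : C2 → C2} (hf : IsLift d f) {G : C2 → ℝ}
    (hG : IsGreen G) (hGf : ∀ v, v ≠ 0 → G (f v) = d * G v) {Ξ : Set C2} (hM : Mixing G f Ξ)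
    (hS : SuppIn G Ξ) :
    ∃ (N : ℕ) (h : ℂ → C2) (lam : ℂ), 1 ≤ N ∧ LinData G (f^[N]) (d ^ N) h lam := by
  obtain ⟨N, g, p, hN, hg, hgp, hg1, hpar, hpJ, hret⟩ := exists_repelling hd hf hG hGf hM hS
  have hF : IsLift (d ^ N) (f^[N]) := isLift_iterate hf N
  set F := f^[N] with hFdef
  have hg0 : deriv g p ≠ 0 := branch_deriv_ne hF hg hpar
  obtain ⟨L, hL, hL0, hL', hLg⟩ := koenigs hg hgp hg0 hg1
  set μ := deriv g p with hμ
  have hμpos : 0 < ‖μ‖ := norm_pos_iff.2 hg0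
  have hLc : Tendsto L (𝓝 0) (𝓝 p) := by
    have := hL.continuousAt.tendsto
    rwa [hL0] at this
  have hμc : Tendsto (fun z : ℂ => μ * z) (𝓝 0) (𝓝 0) := by
    have : ContinuousAt (fun z : ℂ => μ * z) 0 := by fun_prop
    have := this.tendsto
    simpa using this
  have hmulan : AnalyticAt ℂ (fun z : ℂ => μ * z) 0 := by fun_prop
  have hLμ : AnalyticAt ℂ (fun z : ℂ => L (μ * z)) 0 := by
    have h1 : AnalyticAt ℂ L ((fun z : ℂ => μ * z) 0) := by simpa using hL
    exact AnalyticAt.comp (f := fun z : ℂ => μ * z) h1 hmulan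
  -- parallel curves near 0
  have hpar0 : ∀ᶠ z in 𝓝 (0 : ℂ), wd (F (L (μ * z), 1)) (L z, 1) = 0 := by
    filter_upwards [hLg, hLc.eventually hpar] with z h1 h2
    rw [← h1]; exact h2
  have hφan : AnalyticAt ℂ (fun z : ℂ => F (L (μ * z), 1)) 0 := by
    have h1 : AnalyticAt ℂ (fun z : ℂ => F (z, 1)) ((fun z : ℂ => L (μ * z)) 0) :=
      (diff_curve hF).analyticAt _
    exact AnalyticAt.comp (f := fun z : ℂ => L (μ * z)) h1 hLμ
  have hψan : AnalyticAt ℂ (fun z : ℂ => ((L z, 1) : C2)) 0 := hL.prod analyticAt_const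
  obtain ⟨m, hm, hm0, hme⟩ := exists_ratio hφan hψan (hF.nz _ (pt_ne_zero _)) (pt_ne_zero _) hpar0
  obtain ⟨ℓ, hℓ, hℓe⟩ := exists_local_log hm hm0
  obtain ⟨Q, θ, hQ, hθ, hθe⟩ := exists_theta hℓ hg0 hg1 ((d ^ N : ℕ) : ℝ) (by positivity)
  obtain ⟨r, hr, hb⟩ := Metric.eventually_nhds_iff_ball.1
    ((hme.and (hℓe.and hθe)).and (hL.eventually_analyticAt.and hθ.eventually_analyticAt))
  set h0 : ℂ → C2 := fun z => Complex.exp (θ z) • ((L z, 1) : C2) with hh0
  have hh0d : DifferentiableOn ℂ h0 (ball 0 r) := by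
    intro z hz
    obtain ⟨-, b1, b2⟩ := hb z hz
    exact (b2.differentiableAt.cexp.smul
      (b1.differentiableAt.prodMk (differentiableAt_const _))).differentiableWithinAt
  have hh0nz : ∀ z ∈ ball (0 : ℂ) r, h0 z ≠ 0 := fun z _ =>
    smul_ne_zero (Complex.exp_ne_zero _) (pt_ne_zero _)
  have hh0e : ∀ z ∈ ball (0 : ℂ) r, F (h0 (μ * z)) = Complex.exp (Q z) • h0 z := by
    intro z hz
    obtain ⟨⟨b1, b2, b3⟩, -, -⟩ := hb z hz
    simp only [hh0]
    rw [hF.hom, b1, ← b2, smul_smul, smul_smul, ← Complex.exp_nat_mul, ← Complex.exp_add,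
      ← Complex.exp_add]
    congr 2
    rw [b3]
    push_cast
    ring
  obtain ⟨h, hhd, hhnz, hhe, hh⟩ := extend_global hF hg0 hg1 hQ hr hh0d hh0nz hh0e
  have hhev : h =ᶠ[𝓝 0] h0 := by
    filter_upwards [ball_mem_nhds (0 : ℂ) hr] with z hz
    exact hh z hz
  have hhL : ∀ z ∈ ball (0 : ℂ) r, wd (h z) (L z, 1) = 0 := by
    intro z hz
    rw [hh z hz, wd_smul_left, wd_self, mul_zero]
  have hfe : ∀ z, wd (F (h z)) (h (μ⁻¹ * z)) = 0 := by
    intro z
    have := hhe (μ⁻¹ * z)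
    rw [← mul_assoc, mul_inv_cancel₀ hg0, one_mul] at this
    rw [this, wd_smul_left, wd_self, mul_zero]
  have hfeN : ∀ (k : ℕ) z, wd (F^[k] (h z)) (h ((μ⁻¹) ^ k * z)) = 0 := by
    intro k
    induction k with
    | zero => intro z; simp [wd_self]
    | succ k ih =>
      intro z
      rw [Function.iterate_succ_apply']
      have h1 := par_map hF (hhnz _) (ih z)
      have h2 := hfe (μ⁻¹ ^ k * z)
      rw [← mul_assoc, ← pow_succ'] at h2
      exact par_trans (hF.nz _ (hhnz _)) h1 h2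
  have hnh : ¬ HarmonicAt (fun z => G (h z)) 0 := by
    intro hharm
    have h1 := green_par hG (hhd.analyticAt 0) hψan (hhnz 0) (pt_ne_zero _) (by
      filter_upwards [ball_mem_nhds (0 : ℂ) hr] with z hz
      exact hhL z hz)
    have h2 : HarmonicAt (fun z => G (L z, 1)) 0 := (harmonicAt_iff_of_sub h1).1 hharm
    obtain ⟨K, hK, hK0, -, hK1, -⟩ := exists_local_inv hL hL'
    rw [hL0] at hK hK0 hK1
    apply hpJ
    have h3 : HarmonicAt (fun y => G (L (K y), 1)) p := by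
      have h4 : HarmonicAt (fun z => G (L z, 1)) (K p) := by rw [hK0]; exact h2
      exact harmonicAt_comp h4 hK
    refine (harmonicAt_congr_nhds ?_).1 h3
    filter_upwards [hK1] with y hy
    simp only [gu]
    rw [hy]
  refine ⟨N, h, μ⁻¹, hN, ?_⟩
  refine ⟨hG, hF, ⟨0, ?_⟩, ?_, hhd, hhnz, ?_, hfe, ?_, hnh, ?_, ?_⟩
  · intro v hv
    rw [green_iterate hf hGf N hv]
    push_cast
    ring
  · calc 2 ≤ d := hd
      _ = d ^ 1 := (pow_one d).symm
      _ ≤ d ^ N := Nat.pow_le_pow_right (by omega) hN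
  · rw [norm_inv]
    exact (one_lt_inv₀ hμpos).2 hg1
  · -- immersion at 0
    have e1 : deriv h 0 = deriv h0 0 := hhev.deriv_eq
    have e2 : h 0 = h0 0 := hhev.eq_of_nhds
    rw [e1, e2]
    have e3 := wd_deriv_smul (ψ := fun z => ((L z, 1) : C2)) (s := fun z => Complex.exp (θ z))
      hψan.differentiableAt hθ.differentiableAt.cexp
    rw [show wd (h0 0) (deriv h0 0) = _ from e3]
    apply mul_ne_zero (pow_ne_zero _ (Complex.exp_ne_zero _))
    have e4 : HasDerivAt (fun z => ((L z, 1) : C2)) ((deriv L 0, 0) : C2) 0 :=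
      hL.differentiableAt.hasDerivAt.prodMk (hasDerivAt_const 0 1)
    rw [e4.deriv]
    simp only [wd, mul_zero, one_mul, zero_sub]
    exact neg_ne_zero.2 hL'
  · -- the return map
    obtain ⟨K, hK, hK0, hKd, hK1, hK2⟩ := exists_local_inv hL hL'
    rw [hL0] at hK hK0 hK1 hKd
    have hU : {y | AnalyticAt ℂ K y ∧ deriv K y ≠ 0 ∧ (∀ᶠ y' in 𝓝 y, L (K y') = y') ∧
        K y ∈ ball (0 : ℂ) r} ∈ 𝓝 p := by
      have a1 := hK.eventually_analyticAt
      have a2 : ∀ᶠ y in 𝓝 p, deriv K y ≠ 0 := hK.deriv.continuousAt.eventually_ne hKd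
      have a3 := hK1.eventually_nhds
      have a4 : ∀ᶠ y in 𝓝 p, K y ∈ ball (0 : ℂ) r := by
        apply hK.continuousAt
        rw [hK0]
        exact ball_mem_nhds 0 hr
      filter_upwards [a1, a2, a3, a4] with y b1 b2 b3 b4
      exact ⟨b1, b2, b3, b4⟩
    obtain ⟨k, g2, hg2, ⟨u1, u2, u3, u4⟩, hg2p, hg2par⟩ := hret _ hU
    have hfNk : IsLift (d ^ (N * k)) (f^[N * k]) := isLift_iterate hf _
    have hg2d : deriv g2 p ≠ 0 := branch_deriv_ne hfNk hg2 hg2par
    have hg2L : AnalyticAt ℂ g2 (L 0) := by rw [hL0]; exact hg2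
    have hgL : AnalyticAt ℂ (fun z => g2 (L z)) 0 := AnalyticAt.comp (f := L) hg2L hL
    have hKgL : AnalyticAt ℂ K ((fun z => g2 (L z)) 0) := by
      show AnalyticAt ℂ K (g2 (L 0))
      rw [hL0]; exact u1
    have hβan : AnalyticAt ℂ (fun z => K (g2 (L z))) 0 :=
      AnalyticAt.comp (f := fun z => g2 (L z)) hKgL hgL
    have hβ0 : K (g2 (L 0)) ≠ 0 := by
      rw [hL0]
      intro h00
      have := u3.self_of_nhds
      rw [h00, hL0] at this
      exact hg2p this.symm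
    have hβd : deriv (fun z => K (g2 (L z))) 0 ≠ 0 := by
      have c1 : HasDerivAt (fun z => g2 (L z)) (deriv g2 p * deriv L 0) 0 := by
        have : HasDerivAt g2 (deriv g2 p) (L 0) := by rw [hL0]; exact hg2.differentiableAt.hasDerivAt
        exact this.comp (0 : ℂ) hL.differentiableAt.hasDerivAt
      have c2 : HasDerivAt K (deriv K (g2 p)) (g2 (L 0)) := by
        rw [hL0]; exact u1.differentiableAt.hasDerivAt
      have c3 := HasDerivAt.comp (h₂ := K) (h := fun z => g2 (L z)) (0 : ℂ) c2 c1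
      have c4 : deriv (fun z => K (g2 (L z))) 0 = deriv K (g2 p) * (deriv g2 p * deriv L 0) :=
        c3.deriv
      rw [c4]
      exact mul_ne_zero u2 (mul_ne_zero hg2d hL')
    refine ⟨fun z => (μ⁻¹) ^ k * K (g2 (L z)), analyticAt_const.mul hβan, ?_, ?_, ?_⟩
    · exact mul_ne_zero (pow_ne_zero _ (inv_ne_zero hg0)) hβ0
    · rw [deriv_const_mul _ hβan.differentiableAt]
      exact mul_ne_zero (pow_ne_zero _ (inv_ne_zero hg0)) hβd
    · have a1 : ∀ᶠ z in 𝓝 (0 : ℂ), L (K (g2 (L z))) = g2 (L z) := by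
        have : Tendsto (fun z => g2 (L z)) (𝓝 0) (𝓝 (g2 p)) := by
          have := hgL.continuousAt.tendsto
          simpa [hL0] using this
        exact this.eventually u3
      have a2 : ∀ᶠ z in 𝓝 (0 : ℂ), K (g2 (L z)) ∈ ball (0 : ℂ) r := by
        apply hβan.continuousAt
        show ball (0 : ℂ) r ∈ 𝓝 (K (g2 (L 0)))
        rw [hL0]
        exact isOpen_ball.mem_nhds u4
      filter_upwards [a1, a2, hLc.eventually hg2par, ball_mem_nhds (0 : ℂ) hr] with z b1 b2 b3 b4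
      -- `h (lam^k β) ∥ F^k (h β) ∥ F^k (L β, 1) = F^k (g2 (L z), 1) ∥ (L z, 1) ∥ h z`
      have c1 := hfeN k (K (g2 (L z)))
      have c2 := hhL _ b2
      have hFk : IsLift ((d ^ N) ^ k) (F^[k]) := isLift_iterate hF k
      have c3 := par_map hFk (pt_ne_zero _) c2
      rw [b1] at c3
      have c4 : wd (F^[k] (g2 (L z), 1)) (L z, 1) = 0 := by
        rw [hFdef, ← Function.iterate_mul]
        exact b3
      have c5 := hhL z b4
      have d1 := par_trans (hFk.nz _ (hhnz _)) (wd_eq_zero_comm.1 c1) c3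
      have d2 := par_trans (hFk.nz _ (pt_ne_zero _)) d1 c4
      exact par_trans (pt_ne_zero _) d2 (wd_eq_zero_comm.1 c5)
  · -- mixing
    intro c R hR hn v hv
    obtain ⟨n0, hn0⟩ := mixing_curve hG hf hM hhd.differentiableOn (fun z _ => hhnz z) hn
    have hvΞ : v ∈ Ξ ∧ v ≠ 0 := by
      rcases hv with ⟨x, hx, rfl⟩ | ⟨b, B, x, hb1, hB, ⟨kB, hkB⟩, hx, rfl⟩
      · refine ⟨?_, hhnz x⟩
        by_contra hcon
        exact hx (hS h x (hhd.analyticAt x) (hhnz x) hcon)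
      · refine ⟨?_, hB.nz _ (hhnz x)⟩
        by_contra hcon
        apply hx
        have hBh : AnalyticAt ℂ (fun z => B (h z)) x :=
          Differentiable.analyticAt (hB.diff.comp hhd) x
        have h1 := hS (fun z => B (h z)) x hBh (hB.nz _ (hhnz x)) hcon
        have h2 : (fun z => G (h z)) = fun z => ((b : ℝ)⁻¹) • (G (B (h z)) - kB) := by
          ext z
          have hb0 : (b : ℝ) ≠ 0 := by exact_mod_cast (by omega : b ≠ 0)
          rw [hkB _ (hhnz z), smul_eq_mul]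
          field_simp
          ring
        rw [h2]
        exact (h1.sub (harmonicAt_const kB)).const_smul
    refine ⟨n0, fun n hn' => ?_⟩
    obtain ⟨z, hz, hw, -, -⟩ := hn0 (N * n) (hn'.le.trans (Nat.le_mul_of_pos_left n hN)) v hvΞ.1 hvΞ.2
    refine ⟨z, hz, ?_⟩
    rw [Function.iterate_mul, ← hFdef] at hw
    have hFn : IsLift ((d ^ N) ^ n) (F^[n]) := isLift_iterate hF n
    exact par_trans (hFn.nz _ (hhnz _)) (wd_eq_zero_comm.1 (hfeN n z)) hw

end Pool.Agent.Helper65
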