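import Mathlib
import Pool.Agent.Helper65.Green
import Pool.Agent.Helper65.FLink

/-! From the relations `A^{i+j} = A^i B^n` to condition 3. -/

open Complex Metric Set Filter Topology InnerProductSpace

namespace Pool.Agent.Helper65

/-- algebra in a monoid with a degree homomorphism -/
lemma power_trick {M : Type*} [Monoid M] {a b : M} {i j n : ℕ} (h : a ^ (i + j) = a ^ i * b ^ n)
    {m : ℕ} (hm : i ≤ m) (c : ℕ) : a ^ (m + c * j) = a ^ m * b ^ (c * n) := by
  induction c with
  | zero => simp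
  | succ c ih =>
    obtain ⟨m', rfl⟩ := Nat.exists_eq_add_of_le hm
    have e1 : i + m' + (c + 1) * j = j + (i + m' + c * j) := by ring
    have e2 : j + (i + m') = m' + (i + j) := by ring
    rw [e1, pow_add, ih, ← mul_assoc, ← pow_add, e2, pow_add a m', h, ← mul_assoc, ← pow_add,
      mul_assoc, ← pow_add, add_comm m' i]
    congr 2
    ring

lemma cond3_of_rel_monoid {M : Type*} [Monoid M] (dg : M →* ℕ) {a b : M} (ha : 2 ≤ dg a)
    (hb : 2 ≤ dg b) (h1 : ∃ i j n : ℕ, 1 ≤ j ∧ 1 ≤ n ∧ a ^ (i + j) = a ^ i * b ^ n)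
    (h2 : ∃ i j n : ℕ, 1 ≤ j ∧ 1 ≤ n ∧ b ^ (i + j) = b ^ i * a ^ n) :
    ∃ k l : ℕ, 1 ≤ k ∧ 1 ≤ l ∧ a ^ (2 * k) = a ^ k * b ^ l ∧ b ^ (2 * l) = b ^ l * a ^ k := by
  obtain ⟨i, j, n, hj, hn, h⟩ := h1
  obtain ⟨i', j', n', hj', hn', h'⟩ := h2
  have d1 : dg a ^ j = dg b ^ n := by
    have := congrArg dg h
    simp only [map_mul, map_pow, pow_add] at this
    exact Nat.eq_of_mul_eq_mul_left (pow_pos (by omega) _) this
  have d2 : dg b ^ j' = dg a ^ n' := by
    have := congrArg dg h'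
    simp only [map_mul, map_pow, pow_add] at this
    exact Nat.eq_of_mul_eq_mul_left (pow_pos (by omega) _) this
  have d3 : j * j' = n' * n := by
    have e : dg a ^ (j * j') = dg a ^ (n' * n) := by
      rw [pow_mul, d1, ← pow_mul, mul_comm n j', pow_mul, d2, ← pow_mul]
    exact Nat.pow_right_injective ha e
  set t := i + i' + 1 with ht
  have hn'j : 1 ≤ n' * j := Nat.mul_pos hn' hj
  have hn'n : 1 ≤ n' * n := Nat.mul_pos hn' hn
  have hk : i ≤ (n' * t) * j := by
    calc i ≤ t := by omega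
      _ = t * 1 := (mul_one t).symm
      _ ≤ t * (n' * j) := Nat.mul_le_mul_left t hn'j
      _ = (n' * t) * j := by ring
  have hl : i' ≤ (n' * t) * n := by
    calc i' ≤ t := by omega
      _ = t * 1 := (mul_one t).symm
      _ ≤ t * (n' * n) := Nat.mul_le_mul_left t hn'n
      _ = (n' * t) * n := by ring
  refine ⟨(n' * t) * j, (n' * t) * n, Nat.mul_pos (Nat.mul_pos hn' (by omega)) hj,
    Nat.mul_pos (Nat.mul_pos hn' (by omega)) hn, ?_, ?_⟩
  · have := power_trick h hk (n' * t)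
    rw [two_mul]
    exact this
  · have := power_trick h' hl (j * t)
    have e1 : j * t * j' = n' * t * n := by
      calc j * t * j' = (j * j') * t := by ring
        _ = (n' * n) * t := by rw [d3]
        _ = n' * t * n := by ring
    have e2 : j * t * n' = n' * t * j := by ring
    rw [e1, e2] at this
    rw [two_mul]
    exact this

lemma RLift_X (v : C2) : RLift RatFunc.X v = v := by
  have h1 : deg (RatFunc.X : RatFunc ℂ) = 1 := by simp [deg]
  unfold RLift
  rw [h1]
  ext
  · simp [homP, Finset.sum_range_succ, Polynomial.coeff_X]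
  · simp [homP, Finset.sum_range_succ, Polynomial.coeff_one]

lemma deg_iter {A : RatFunc ℂ} (hA : 1 ≤ deg A) (n : ℕ) : deg (iter A n) = deg A ^ n := by
  have := map_pow NCRat.degHom ⟨A, nc_of_deg hA⟩ n
  have e : NCRat.degHom (⟨A, nc_of_deg hA⟩ ^ n : NCRat) = deg (iter A n) := by
    show deg ((⟨A, nc_of_deg hA⟩ ^ n : NCRat).1) = _
    rw [NCRat.coe_pow]
  rw [e] at this
  exact this

lemma iter_succ (A : RatFunc ℂ) (n : ℕ) : iter A (n + 1) = comp A (iter A n) := by
  simp only [iter, Function.iterate_succ_apply']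

lemma RLift_iter {A : RatFunc ℂ} (hA : 1 ≤ deg A) (n : ℕ) :
    ∃ c : ℂ, c ≠ 0 ∧ ∀ v, (RLift A)^[n] v = c • RLift (iter A n) v := by
  induction n with
  | zero =>
    refine ⟨1, one_ne_zero, fun v => ?_⟩
    simp only [Function.iterate_zero, id, one_smul]
    exact (RLift_X v).symm
  | succ n ih =>
    obtain ⟨c, hc, h⟩ := ih
    obtain ⟨c', hc', h'⟩ := RLift_comp (A := A) (B := iter A n) hA (by
      rw [deg_iter hA]; exact Nat.one_le_pow _ _ hA)
    refine ⟨c ^ deg A * c', mul_ne_zero (pow_ne_zero _ hc) hc', fun v => ?_⟩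
    rw [Function.iterate_succ_apply', h, (isLift_RLift hA).hom, h', iter_succ, smul_smul]

/-- relations between lifts give relations between rational functions -/
lemma iter_rel_of_par {A B : RatFunc ℂ} (hA : 1 ≤ deg A) (hB : 1 ≤ deg B) {i j n : ℕ}
    (h : ∀ v, v ≠ 0 → wd ((RLift A)^[i + j] v) ((RLift A)^[i] ((RLift B)^[n] v)) = 0) :
    iter A (i + j) = comp (iter A i) (iter B n) := by
  obtain ⟨c1, hc1, h1⟩ := RLift_iter hA (i + j)
  obtain ⟨c2, hc2, h2⟩ := RLift_iter hA i
  obtain ⟨c3, hc3, h3⟩ := RLift_iter hB n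
  have hdi : 1 ≤ deg (iter A i) := by rw [deg_iter hA]; exact Nat.one_le_pow _ _ hA
  have hdn : 1 ≤ deg (iter B n) := by rw [deg_iter hB]; exact Nat.one_le_pow _ _ hB
  obtain ⟨c4, hc4, h4⟩ := RLift_comp hdi hdn
  apply eq_of_RLift_par (U := univ) Set.infinite_univ
  intro z _
  have := h (z, 1) (pt_ne_zero z)
  rw [h1, h3, (isLift_iterate (isLift_RLift hA) i).hom, h2, h4] at this
  simp only [wd_smul_left, wd_smul_right] at this
  have e1 := (mul_eq_zero.1 this).resolve_left (pow_ne_zero _ hc3)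
  have e2 := (mul_eq_zero.1 e1).resolve_left hc2
  have e3 := (mul_eq_zero.1 e2).resolve_left hc4
  exact (mul_eq_zero.1 e3).resolve_left hc1

end Pool.Agent.Helper65
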