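import Mathlib
import Pool.Agent.Helper65.Rep1
import Pool.Agent.Helper65.Rel3
import Pool.Agent.Helper56.Equi.E

/-! The common Green function when some element of `S` has no totally ramified value. -/

open Complex Metric Set Filter Topology InnerProductSpace

namespace Pool.Agent.Helper65

lemma exists_wd_ne {d : ℕ} {f : C2 → C2} (hf : IsLift d f) {ξ : C2} (hξ : ξ ≠ 0) :
    ∃ z : ℂ, wd (f (z, 1)) ξ ≠ 0 := by
  by_contra hcon
  push Not at hcon
  have h := finite_preimage hf hξ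
  have : {z : ℂ | wd (f (z, 1)) ξ = 0} = univ := by
    ext z; simp [hcon z]
  rw [this] at h
  exact Set.infinite_univ h

lemma exists_root {d : ℕ} (hd : 1 ≤ d) {f : C2 → C2} (hf : IsLift d f) {ξ : C2} (hξ : ξ ≠ 0) :
    ∃ v : C2, v ≠ 0 ∧ wd (f v) ξ = 0 := by
  obtain ⟨κ, η, hκ, hη, h⟩ := hf.fac ξ hξ
  have h0 : η ⟨0, by omega⟩ ≠ 0 := fun e => by
    have := hη ⟨0, by omega⟩
    rw [e, norm_zero] at this
    exact zero_ne_one this
  refine ⟨η ⟨0, by omega⟩, h0, ?_⟩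
  rw [h]
  apply mul_eq_zero_of_right
  exact Finset.prod_eq_zero (Finset.mem_univ ⟨0, by omega⟩) (wd_self _)

lemma ntr_comp {C V : RatFunc ℂ} (hC : 1 ≤ deg C) (hV : 1 ≤ deg V)
    (h : NTR (deg C) (RLift C) univ) : NTR (deg (comp C V)) (RLift (comp C V)) univ := by
  have hfL := isLift_RLift hC
  have hgL := isLift_RLift hV
  have hd : deg (comp C V) = deg C * deg V := deg_comp (nc_of_deg hV)
  have hCV : 1 ≤ deg (comp C V) := by rw [hd]; exact Nat.mul_pos hC hV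
  obtain ⟨c, hc, hcomp⟩ := RLift_comp hC hV
  rintro ξ - hξ ⟨κ, η, hκη⟩
  -- nonvanishing of the data
  obtain ⟨z, hz⟩ := exists_wd_ne (isLift_RLift hCV) hξ
  have hκ : κ ≠ 0 := by
    rintro rfl
    rw [hκη, zero_mul] at hz
    exact hz rfl
  have hη : η ≠ 0 := by
    rintro rfl
    rw [hκη, wd_zero_right, zero_pow (by omega), mul_zero] at hz
    exact hz rfl
  have hzero : ∀ v : C2, wd (RLift C (RLift V v)) ξ = 0 → wd v η = 0 := by
    intro v hv
    rw [hcomp, wd_smul_left, hκη] at hv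
    have h1 := (mul_eq_zero.1 hv).resolve_left hc
    have h2 := (mul_eq_zero.1 h1).resolve_left hκ
    exact (pow_eq_zero_iff (by omega)).1 h2
  obtain ⟨κ1, ηs, hκ1, hηs, hfac⟩ := hfL.fac ξ hξ
  have hζ : RLift V η ≠ 0 := hgL.nz _ hη
  have hpar : ∀ i, ∃ t : ℂ, ηs i = t • RLift V η := by
    intro i
    have hi0 : ηs i ≠ 0 := fun e => by
      have := hηs i
      rw [e, norm_zero] at this
      exact zero_ne_one this
    obtain ⟨v, hv0, hv⟩ := exists_root hV hgL hi0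
    have h1 : wd (RLift C (RLift V v)) ξ = 0 := by
      rw [hfac]
      exact mul_eq_zero_of_right _ (Finset.prod_eq_zero (Finset.mem_univ i) hv)
    have h2 := hzero v h1
    obtain ⟨t, rfl⟩ := (par_iff hη).1 h2
    rw [hgL.hom, wd_smul_left] at hv
    have ht : t ≠ 0 := fun e => hv0 (by rw [e, zero_smul])
    have h3 := (mul_eq_zero.1 hv).resolve_left (pow_ne_zero _ ht)
    exact (par_iff hζ).1 (wd_eq_zero_comm.1 h3)
  choose t ht using hpar
  apply h ξ (mem_univ _) hξ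
  refine ⟨κ1 * ∏ i, t i, RLift V η, fun v => ?_⟩
  rw [hfac]
  have : ∀ i, wd v (ηs i) = t i * wd v (RLift V η) := fun i => by rw [ht i, wd_smul_right]
  rw [Finset.prod_congr rfl fun i _ => this i, Finset.prod_mul_distrib, Finset.prod_const,
    Finset.card_univ, Fintype.card_fin]
  ring

lemma iter_mem {S : Set (RatFunc ℂ)} (hcomp : ∀ A ∈ S, ∀ B ∈ S, comp A B ∈ S) {A : RatFunc ℂ}
    (hA : A ∈ S) {n : ℕ} (hn : 1 ≤ n) : iter A n ∈ S := by
  induction n, hn using Nat.le_induction with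
  | base => rw [iter_succ]; simp only [iter, Function.iterate_zero, id, comp_X]; exact hA
  | succ n _ ih => rw [iter_succ]; exact hcomp _ hA _ ih

theorem base_of_ntr {S : Set (RatFunc ℂ)} (hcomp : ∀ A ∈ S, ∀ B ∈ S, comp A B ∈ S)
    (hdeg : ∀ A ∈ S, 2 ≤ deg A) (hrev : ∀ A ∈ S, ∀ B ∈ S, ∃ X ∈ S, ∃ Y ∈ S, comp X A = comp Y B)
    {C : RatFunc ℂ} (hC : C ∈ S) (hN : NTR (deg C) (RLift C) univ) :
    ∃ (d : ℕ) (f : C2 → C2) (G : C2 → ℝ) (Ξ : Set C2), 2 ≤ d ∧ IsLift d f ∧ IsGreen G ∧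
     (∀ v, v ≠ 0 → G (f v) = d * G v) ∧ Mixing G f Ξ ∧ SuppIn G Ξ ∧
     ∀ V ∈ S, GInv G (deg V) (RLift V) := by
  have h1 : ∀ A ∈ S, 1 ≤ deg A := fun A hA => le_trans one_le_two (hdeg A hA)
  have hfL := isLift_RLift (h1 C hC)
  obtain ⟨G, hG, hGf⟩ := exists_green (hdeg C hC) hfL
  refine ⟨deg C, RLift C, G, univ, hdeg C hC, hfL, hG, hGf, ?_, ?_, ?_⟩
  · exact Helper56.Equi.mixing_of_ntr (hdeg C hC) hfL hG hGf
      ⟨isClosed_univ, fun _ _ _ => mem_univ _, fun _ _ _ _ _ _ => mem_univ _⟩ hN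
  · intro φ x _ _ h
    exact absurd (mem_univ _) h
  · intro V hV
    have hCV := hcomp C hC V hV
    have hgL := isLift_RLift (h1 V hV)
    have hcvL := isLift_RLift (h1 _ hCV)
    have hd : deg (comp C V) = deg C * deg V := deg_comp (nc_of_deg (h1 V hV))
    obtain ⟨G', hG', hGf'⟩ := exists_green (hdeg _ hCV) hcvL
    have hN' := ntr_comp (h1 C hC) (h1 V hV) hN
    obtain ⟨c0, hc0⟩ := Helper56.Equi.green_eq_of_common (hdeg C hC) (hdeg _ hCV) hfL hcvL hG hG'
      hGf hGf' hN hN' (by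
        intro n
        rcases Nat.eq_zero_or_pos n with hn | hn
        · subst hn
          exact ⟨1, 1, fun v => v, fun v => v, le_rfl, le_rfl, isLift_id, isLift_id, fun v => rfl⟩
        · obtain ⟨X, hX, Y, hY, hXY⟩ := hrev _ (iter_mem hcomp hC hn) _ (iter_mem hcomp hCV hn)
          obtain ⟨a1, ha1, e1⟩ := RLift_iter (h1 C hC) n
          obtain ⟨a2, ha2, e2⟩ := RLift_comp (h1 X hX) (h1 _ (iter_mem hcomp hC hn))
          obtain ⟨b1, hb1, e3⟩ := RLift_iter (h1 _ hCV) n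
          obtain ⟨b2, hb2, e4⟩ := RLift_comp (h1 Y hY) (h1 _ (iter_mem hcomp hCV hn))
          have hne : a1 ^ deg X * a2 ≠ 0 := mul_ne_zero (pow_ne_zero _ ha1) ha2
          have hne' : b1 ^ deg Y * b2 ≠ 0 := mul_ne_zero (pow_ne_zero _ hb1) hb2
          refine ⟨deg X, deg Y, fun v => ((b1 ^ deg Y * b2) / (a1 ^ deg X * a2)) • RLift X v,
            RLift Y, h1 X hX, h1 Y hY, isLift_smul (isLift_RLift (h1 X hX)) (div_ne_zero hne' hne),
            isLift_RLift (h1 Y hY), fun v => ?_⟩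
          show ((b1 ^ deg Y * b2) / (a1 ^ deg X * a2)) • RLift X ((RLift C)^[n] v) = _
          rw [e1, e3, (isLift_RLift (h1 X hX)).hom, (isLift_RLift (h1 Y hY)).hom, e2, e4, hXY,
            smul_smul, smul_smul, smul_smul]
          congr 1
          field_simp)
    obtain ⟨c, hc, hcv⟩ := RLift_comp (h1 C hC) (h1 V hV)
    have hdC : (deg C : ℝ) ≠ 0 := by
      have := h1 C hC
      exact_mod_cast (by omega : deg C ≠ 0)
    refine ⟨(Real.log ‖c‖ - deg C * deg V * c0 + c0) / deg C, fun v hv => ?_⟩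
    have e1 := hGf (RLift V v) (hgL.nz v hv)
    rw [hcv, hG.hom _ _ hc (hcvL.nz v hv), hc0 _ (hcvL.nz v hv), hGf' v hv, hd] at e1
    have e2 := hc0 v hv
    have e3 : G' v = G v - c0 := by linarith
    rw [e3] at e1
    field_simp
    push_cast at e1
    linarith

end Pool.Agent.Helper65
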