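import Mathlib
import Pool.Agent.Helper65.RatVal

/-!
Local data at a noncritical fixed point of a rational function.
-/

open Polynomial Filter Topology

namespace Pool.Agent.Helper65

/-- Abstract local data attached to `F`: an action of the centralizer of `F` on a finite set,
with a multiplicative cocycle, and a rigidity property at a base point. -/
structure LocalData (F : NCRat) where
  P : Type
  fin : Finite P
  act : NCRat → P → P
  lam : NCRat → P → ℂ
  p0 : P
  act_mul : ∀ U V : NCRat, Commute U F → Commute V F → ∀ p, act (U * V) p = act U (act V p)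
  lam_mul : ∀ U V : NCRat, Commute U F → Commute V F → ∀ p,
    lam (U * V) p = lam U (act V p) * lam V p
  act_F : ∀ p, act F p = p
  lam_F : lam F p0 ≠ 0
  rigid : ∀ Y Φ : NCRat, Commute Y F → Commute Φ F → Commute Y Φ → act Y p0 = p0 →
    act Φ p0 = p0 → lam Y p0 = lam Φ p0 → lam Φ p0 ≠ 0 → ∀ l : ℕ, 1 ≤ l →
    Φ ^ l * Y ^ l = Φ ^ l * Φ ^ l → Y = Φ

/-- `F` is regular at infinity, i.e. `F(∞) ≠ ∞`. -/
def RegInf (F : RatFunc ℂ) : Prop := ∃ a, Val 0 (comp F RatFunc.X⁻¹) a

lemma nc_Xinv : NC (RatFunc.X⁻¹ : RatFunc ℂ) := by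
  rintro ⟨c, hc⟩
  apply nc_X
  refine ⟨c⁻¹, ?_⟩
  rw [map_inv₀, ← hc, inv_inv]

/-- If `U` has a pole at `p` then `U = X⁻¹ ∘ V` with `V(p) = 0`. -/
lemma exists_inv_of_not_reg {U : RatFunc ℂ} (hU : NC U) {p : ℂ} (h : ¬ reg U p) :
    NC U⁻¹ ∧ Val p U⁻¹ 0 ∧ comp RatFunc.X⁻¹ U⁻¹ = U := by
  have hV : NC U⁻¹ := by
    rintro ⟨c, hc⟩
    apply hU
    refine ⟨c⁻¹, ?_⟩
    rw [map_inv₀, ← hc, inv_inv]
  have hd : U.denom.eval p = 0 := by simpa [reg] using h
  have hn : U.num.eval p ≠ 0 := by
    intro h0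
    obtain ⟨u, v, huv⟩ := RatFunc.isCoprime_num_denom U
    have := congrArg (Polynomial.eval p) huv
    simp [h0, hd] at this
  refine ⟨hV, ⟨U.denom, U.num, hn, ?_, ?_⟩, ?_⟩
  · conv_lhs => rw [← RatFunc.num_div_denom U]
    rw [inv_div]
  · rw [hd]; simp
  · rw [← phi_apply _ hV, map_inv₀, phi_X, inv_inv]

lemma regInf_comp_pole {F U : RatFunc ℂ} (hF : RegInf F) (hU : NC U) {p : ℂ} (h : ¬ reg U p) :
    reg (comp F U) p := by
  obtain ⟨hV, hval, hc⟩ := exists_inv_of_not_reg hU h
  obtain ⟨a, ha⟩ := hF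
  have h1 := Val.comp hV hval ha
  rw [comp_assoc F nc_Xinv hV, hc] at h1
  exact h1.reg

/-- fixed points in the finite plane -/
def FixPt (F : RatFunc ℂ) : Set ℂ := {z | Val z F z}

/-- A function commuting with `F` is regular at each finite fixed point of `F` and maps it to
a finite fixed point, provided `F(∞) ≠ ∞`. -/
lemma commute_fix {F U : RatFunc ℂ} (hF : NC F) (hU : NC U) (hinf : RegInf F)
    (hc : comp U F = comp F U) {p : ℂ} (hp : Val p F p) : reg U p ∧ Val (ev U p) F (ev U p) := by
  have h1 : reg U p := by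
    by_contra h
    have h2 := not_reg_comp hF hp h
    rw [hc] at h2
    exact h2 (regInf_comp_pole hinf hU h)
  refine ⟨h1, ?_⟩
  have h3 : Val p (comp U F) (ev U p) := Val.comp hF hp h1.val
  have h4 : reg F (ev U p) := by
    by_contra h
    have h5 := not_reg_comp hU h1.val h
    rw [← hc] at h5
    exact h5 h3.reg
  have h6 : Val p (comp F U) (ev F (ev U p)) := Val.comp hU h1.val h4.val
  rw [← hc] at h6
  have := h6.unique h3
  have h7 := h4.val
  rwa [this] at h7

lemma natDegree_le_of_regInf {F : RatFunc ℂ} (hinf : RegInf F) :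
    F.num.natDegree ≤ F.denom.natDegree := by
  by_contra hlt
  push Not at hlt
  obtain ⟨a, ha⟩ := hinf
  have hF0 : F ≠ 0 := by
    rintro rfl
    simp at hlt
  have hX : (RatFunc.X : RatFunc ℂ) ≠ 0 := RatFunc.X_ne_zero
  -- P(1/X) * X^n = P.reverse(X)
  have key : ∀ P : ℂ[X], P.eval₂ RatFunc.C (RatFunc.X⁻¹ : RatFunc ℂ) * RatFunc.X ^ P.natDegree
      = P.reverse.eval₂ RatFunc.C RatFunc.X := by
    intro P
    have hinv : Invertible (RatFunc.X⁻¹ : RatFunc ℂ) := invertibleOfNonzero (inv_ne_zero hX)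
    have h := Polynomial.eval₂_reverse_mul_pow (RatFunc.C : ℂ →+* RatFunc ℂ) (RatFunc.X⁻¹) P
    rw [invOf_eq_inv, inv_inv] at h
    rw [← h, mul_assoc, ← mul_pow, inv_mul_cancel₀ hX, one_pow, mul_one]
  have hval : ∀ P : ℂ[X], Val 0 (P.reverse.eval₂ RatFunc.C RatFunc.X) P.leadingCoeff := by
    intro P
    have := (Val.X 0).poly P.reverse
    rwa [← Polynomial.coeff_zero_eq_eval_zero, Polynomial.coeff_zero_reverse] at this
  have hden : F.denom.eval₂ RatFunc.C (RatFunc.X⁻¹ : RatFunc ℂ) ≠ 0 := by
    rw [← phi_poly _ nc_Xinv]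
    intro h0
    exact amap_ne_zero F.denom_ne_zero ((map_eq_zero (phi _ nc_Xinv)).1 h0)
  have h1 : comp F RatFunc.X⁻¹ = F.num.eval₂ RatFunc.C RatFunc.X⁻¹ / F.denom.eval₂ RatFunc.C RatFunc.X⁻¹ := rfl
  set m := F.denom.natDegree with hm
  set n := F.num.natDegree with hn
  have h2 : comp F RatFunc.X⁻¹ * RatFunc.X ^ (n - m) * F.denom.reverse.eval₂ RatFunc.C RatFunc.X
      = F.num.reverse.eval₂ RatFunc.C RatFunc.X := by
    rw [← key, ← key, h1, ← hm, ← hn]
    have : (RatFunc.X : RatFunc ℂ) ^ n = RatFunc.X ^ (n - m) * RatFunc.X ^ m := by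
      rw [← pow_add]; congr 1; omega
    rw [this]
    generalize F.num.eval₂ RatFunc.C (RatFunc.X⁻¹ : RatFunc ℂ) = u
    generalize F.denom.eval₂ RatFunc.C (RatFunc.X⁻¹ : RatFunc ℂ) = v at hden
    field_simp
  have hXpow : Val 0 ((RatFunc.X : RatFunc ℂ) ^ (n - m)) 0 := by
    have h3 := (Val.X 0).poly ((Polynomial.X : ℂ[X]) ^ (n - m))
    rw [eval₂_pow, eval₂_X, eval_pow, eval_X, zero_pow (by omega)] at h3
    exact h3
  have h4 := (ha.mul hXpow).mul (hval F.denom)
  rw [h2, mul_zero, zero_mul] at h4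
  have h5 := (hval F.num).unique h4
  rw [Polynomial.leadingCoeff_eq_zero, RatFunc.num_eq_zero_iff] at h5
  exact hF0 h5

/-- the fixed point polynomial -/
noncomputable def fixPoly (F : RatFunc ℂ) : ℂ[X] := F.num - X * F.denom

lemma fixPoly_natDegree {F : RatFunc ℂ} (hinf : RegInf F) :
    (fixPoly F).natDegree = F.denom.natDegree + 1 := by
  unfold fixPoly
  have h1 : (X * F.denom).natDegree = F.denom.natDegree + 1 := by
    rw [natDegree_X_mul F.denom_ne_zero]
  rw [← h1]
  apply natDegree_sub_eq_right_of_natDegree_lt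
  rw [h1]
  have := natDegree_le_of_regInf hinf
  omega

lemma fixPoly_ne_zero {F : RatFunc ℂ} (hinf : RegInf F) : fixPoly F ≠ 0 := by
  intro h
  have := fixPoly_natDegree hinf
  rw [h] at this
  simp at this

lemma denom_ne_of_fixPoly {F : RatFunc ℂ} {z : ℂ} (h : (fixPoly F).eval z = 0) :
    F.denom.eval z ≠ 0 := by
  intro h0
  have h1 : F.num.eval z = 0 := by
    simp only [fixPoly, eval_sub, eval_mul, eval_X, h0, mul_zero, sub_zero] at h
    exact h
  obtain ⟨u, v, huv⟩ := RatFunc.isCoprime_num_denom F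
  have := congrArg (Polynomial.eval z) huv
  simp [h0, h1] at this

lemma fixPt_iff {F : RatFunc ℂ} {z : ℂ} : Val z F z ↔ (fixPoly F).eval z = 0 := by
  constructor
  · intro h
    have h1 : F.num.eval z / F.denom.eval z = z := h.ev_eq
    have h2 : F.denom.eval z ≠ 0 := h.reg
    rw [div_eq_iff h2] at h1
    simp only [fixPoly, eval_sub, eval_mul, eval_X, h1, sub_self]
  · intro h
    have h2 := denom_ne_of_fixPoly h
    have hr : reg F z := h2
    have h3 : ev F z = z := by
      unfold ev
      rw [div_eq_iff h2]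
      simp only [fixPoly, eval_sub, eval_mul, eval_X] at h
      exact sub_eq_zero.1 h
    have := hr.val
    rwa [h3] at this

lemma fixPt_finite {F : RatFunc ℂ} (hinf : RegInf F) : (FixPt F).Finite := by
  have h : FixPt F ⊆ (fixPoly F).rootSet ℂ := by
    intro z hz
    rw [Polynomial.mem_rootSet]
    refine ⟨fixPoly_ne_zero hinf, ?_⟩
    have := fixPt_iff.1 hz
    simpa using this
  exact (Polynomial.rootSet_finite _ _).subset h

lemma deriv_ev {F : RatFunc ℂ} {z : ℂ} (h : reg F z) :
    deriv (ev F) z = (F.num.derivative.eval z * F.denom.eval z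
      - F.num.eval z * F.denom.derivative.eval z) / (F.denom.eval z) ^ 2 := by
  have h1 := (F.num.hasDerivAt z).div (F.denom.hasDerivAt z) h
  exact h1.deriv

/-- Existence of a finite fixed point with nonzero multiplier. -/
lemma exists_noncritical_fix {F : RatFunc ℂ} (hdeg : 1 ≤ deg F) (hinf : RegInf F) :
    ∃ z, Val z F z ∧ deriv (ev F) z ≠ 0 := by
  by_contra hcon
  push Not at hcon
  set R := fixPoly F with hR
  set D := F.denom.natDegree with hD
  have hnd : F.num.natDegree ≤ D := natDegree_le_of_regInf hinf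
  have hD1 : 1 ≤ D := by
    unfold deg at hdeg
    rw [max_eq_right hnd] at hdeg
    exact hdeg
  -- at every root `R' + Q = 0`
  have hroot : ∀ z, R.eval z = 0 → R.derivative.eval z + F.denom.eval z = 0 := by
    intro z hz
    have hv := fixPt_iff.2 hz
    have hd := hcon z hv
    rw [deriv_ev hv.reg] at hd
    have hQ : F.denom.eval z ≠ 0 := denom_ne_of_fixPoly hz
    rw [div_eq_zero_iff] at hd
    rcases hd with hd | hd
    · have hP : F.num.eval z = z * F.denom.eval z := by
        simp only [hR, fixPoly, eval_sub, eval_mul, eval_X] at hz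
        exact sub_eq_zero.1 hz
      rw [hP] at hd
      have h3 : F.denom.eval z * (F.num.derivative.eval z - z * F.denom.derivative.eval z) = 0 := by
        linear_combination hd
      rcases mul_eq_zero.1 h3 with h4 | h4
      · exact absurd h4 hQ
      · simp only [hR, fixPoly, derivative_sub, derivative_mul, derivative_X, eval_sub, eval_add,
          eval_mul, eval_one, eval_X]
        linear_combination h4
    · exact absurd hd (pow_ne_zero 2 hQ)
  have hR0 : R ≠ 0 := fixPoly_ne_zero hinf
  have hnodup : R.roots.Nodup := by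
    rw [Multiset.nodup_iff_count_le_one]
    intro z
    by_contra hc
    push Not at hc
    rw [count_roots] at hc
    have h1 := (one_lt_rootMultiplicity_iff_isRoot hR0).1 hc
    have h2 := hroot z h1.1
    have h3 : R.derivative.eval z = 0 := h1.2
    rw [h3, zero_add] at h2
    exact denom_ne_of_fixPoly h1.1 h2
  have hcard : R.roots.toFinset.card = D + 1 := by
    rw [Multiset.toFinset_card_of_nodup hnodup, ← fixPoly_natDegree hinf]
    exact IsAlgClosed.card_roots_eq_natDegree
  have hzero : R.derivative + F.denom = 0 := by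
    apply Polynomial.eq_zero_of_natDegree_lt_card_of_eval_eq_zero' _ R.roots.toFinset
    · intro z hz
      rw [Multiset.mem_toFinset, mem_roots hR0] at hz
      rw [eval_add]
      exact hroot z hz
    · rw [hcard]
      have h1 : R.derivative.natDegree ≤ D := by
        have := natDegree_derivative_le R
        rw [fixPoly_natDegree hinf] at this
        omega
      have := natDegree_add_le R.derivative F.denom
      omega
  have hcoef := congrArg (fun p => coeff p D) hzero
  simp only [coeff_add, coeff_derivative, coeff_zero, hR, fixPoly, coeff_sub, coeff_X_mul] at hcoef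
  have hP0 : F.num.coeff (D + 1) = 0 := coeff_eq_zero_of_natDegree_lt (by omega)
  rw [hP0] at hcoef
  have hlc : F.denom.coeff D ≠ 0 := by
    rw [hD]; exact leadingCoeff_ne_zero.2 F.denom_ne_zero
  have h5 : F.denom.coeff D * (D : ℂ) = 0 := by linear_combination -hcoef
  rcases mul_eq_zero.1 h5 with h6 | h6
  · exact hlc h6
  · have : D = 0 := by exact_mod_cast h6
    omega

end Pool.Agent.Helper65
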