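import Mathlib
import Pool.Agent.Helper65.RatLocal

/-!
Construction of `LocalData` for every rational function of degree at least two.
-/

open Polynomial Filter Topology

namespace Pool.Agent.Helper65

lemma comm_comp {U F : NCRat} (h : Commute U F) : comp U.1 F.1 = comp F.1 U.1 :=
  congrArg Subtype.val h.eq

section
variable {F : NCRat} (hinf : RegInf F.1)
include hinf

lemma reg_of_comm {U : NCRat} (h : Commute U F) {p : ℂ} (hp : p ∈ FixPt F.1) : reg U.1 p :=
  (commute_fix F.2 U.2 hinf (comm_comp h) hp).1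

lemma mem_of_comm {U : NCRat} (h : Commute U F) {p : ℂ} (hp : p ∈ FixPt F.1) :
    ev U.1 p ∈ FixPt F.1 :=
  (commute_fix F.2 U.2 hinf (comm_comp h) hp).2

end

open Classical in
/-- action on fixed points -/
noncomputable def actFix (F : NCRat) (U : NCRat) (p : FixPt F.1) : FixPt F.1 :=
  if h : ev U.1 p ∈ FixPt F.1 then ⟨ev U.1 p, h⟩ else p

lemma actFix_coe {F U : NCRat} (hinf : RegInf F.1) (h : Commute U F) (p : FixPt F.1) :
    ((actFix F U p : FixPt F.1) : ℂ) = ev U.1 p := by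
  unfold actFix
  rw [dif_pos (mem_of_comm hinf h p.2)]

lemma ev_pow_eventually {Y : NCRat} {p : ℂ} (hr : reg Y.1 p) (hy : ev Y.1 p = p) (n : ℕ) :
    (∀ᶠ z in 𝓝 p, ev (Y ^ n).1 z = (ev Y.1)^[n] z) ∧ reg (Y ^ n).1 p ∧ ev (Y ^ n).1 p = p := by
  induction n with
  | zero =>
    refine ⟨?_, ?_, ?_⟩
    · filter_upwards with z
      rw [pow_zero, NCRat.coe_one]
      simp [ev]
    · rw [pow_zero, NCRat.coe_one]; simp [reg]
    · rw [pow_zero, NCRat.coe_one]; simp [ev]
  | succ n ih =>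
    obtain ⟨h1, h2, h3⟩ := ih
    have hr' : reg Y.1 (ev (Y ^ n).1 p) := by rw [h3]; exact hr
    refine ⟨?_, ?_, ?_⟩
    · filter_upwards [h1, ev_comp_eventually (Y ^ n).2 h2 hr'] with z hz1 hz2
      rw [pow_succ', NCRat.coe_mul, hz2, hz1, Function.iterate_succ_apply']
    · rw [pow_succ', NCRat.coe_mul]
      exact reg_comp (Y ^ n).2 h2 hr'
    · rw [pow_succ', NCRat.coe_mul, ev_comp (Y ^ n).2 h2 hr', h3, hy]

lemma ev_pow_mul_pow {Φ Y : NCRat} {p : ℂ} (hrΦ : reg Φ.1 p) (hΦ : ev Φ.1 p = p)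
    (hr : reg Y.1 p) (hy : ev Y.1 p = p) (l : ℕ) :
    ∀ᶠ z in 𝓝 p, ev (Φ ^ l * Y ^ l).1 z = (ev Φ.1)^[l] ((ev Y.1)^[l] z) := by
  obtain ⟨h1, h2, h3⟩ := ev_pow_eventually hr hy l
  obtain ⟨g1, g2, g3⟩ := ev_pow_eventually hrΦ hΦ l
  have hc := ev_comp_eventually (A := (Φ ^ l).1) (Y ^ l).2 h2 (by rw [h3]; exact g2)
  have hcont : Tendsto (ev (Y ^ l).1) (𝓝 p) (𝓝 p) := by
    have := (ev_analyticAt h2).continuousAt.tendsto
    rwa [h3] at this
  filter_upwards [h1, hc, hcont.eventually g1] with z hz1 hz2 hz3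
  rw [NCRat.coe_mul, hz2, hz3, hz1]

/-- Local data when `F(∞) ≠ ∞`. -/
lemma exists_localData_of_regInf (F : NCRat) (hdeg : 1 ≤ deg F.1) (hinf : RegInf F.1) :
    Nonempty (LocalData F) := by
  obtain ⟨z0, hz0, hz0'⟩ := exists_noncritical_fix hdeg hinf
  refine ⟨{ P := FixPt F.1
            fin := (fixPt_finite hinf).to_subtype
            act := actFix F
            lam := fun U p => deriv (ev U.1) p
            p0 := ⟨z0, hz0⟩
            act_mul := ?_
            lam_mul := ?_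
            act_F := ?_
            lam_F := hz0'
            rigid := ?_ }⟩
  · intro U V hU hV p
    apply Subtype.ext
    rw [actFix_coe hinf (hU.mul_left hV), actFix_coe hinf hU, actFix_coe hinf hV, NCRat.coe_mul]
    exact ev_comp V.2 (reg_of_comm hinf hV p.2)
      (reg_of_comm hinf hU (mem_of_comm hinf hV p.2))
  · intro U V hU hV p
    rw [actFix_coe hinf hV, NCRat.coe_mul]
    exact deriv_ev_comp V.2 (reg_of_comm hinf hV p.2)
      (reg_of_comm hinf hU (mem_of_comm hinf hV p.2))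
  · intro p
    apply Subtype.ext
    rw [actFix_coe hinf (Commute.refl F)]
    have : Val p.1 F.1 p.1 := p.2
    exact this.ev_eq
  · intro Y Φ hY hΦ hYΦ hYp hΦp hlam hne l hl hpow
    have hYr : reg Y.1 z0 := reg_of_comm hinf hY hz0
    have hΦr : reg Φ.1 z0 := reg_of_comm hinf hΦ hz0
    have hYe : ev Y.1 z0 = z0 := by
      have := congrArg Subtype.val hYp
      rwa [actFix_coe hinf hY] at this
    have hΦe : ev Φ.1 z0 = z0 := by
      have := congrArg Subtype.val hΦp
      rwa [actFix_coe hinf hΦ] at this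
    have key : ∀ᶠ z in 𝓝 z0, ev Y.1 z = ev Φ.1 z := by
      refine local_rigidity (ev_analyticAt hYr) (ev_analyticAt hΦr) hYe hΦe hlam rfl hne ?_ hl ?_
      · have h1 := ev_comp_eventually (A := Y.1) Φ.2 hΦr (by rw [hΦe]; exact hYr)
        have h2 := ev_comp_eventually (A := Φ.1) Y.2 hYr (by rw [hYe]; exact hΦr)
        filter_upwards [h1, h2] with z hz1 hz2
        rw [← hz1, ← hz2, comm_comp hYΦ]
      · have h1 := ev_pow_mul_pow hΦr hΦe hYr hYe l
        have h2 := ev_pow_mul_pow hΦr hΦe hΦr hΦe l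
        filter_upwards [h1, h2] with z hz1 hz2
        rw [← hz1, ← hz2, hpow]
    exact Subtype.ext (eq_of_ev_eventuallyEq hYr hΦr key)

/-- transport of local data along conjugation. -/
lemma LocalData.conj {F φ ψ : NCRat} (h1 : φ * ψ = 1) (D : LocalData (ψ * F * φ)) :
    Nonempty (LocalData F) := by
  have h2 : ψ * φ = 1 := by
    apply NCRat.right_cancel (C := ψ)
    rw [mul_assoc, h1, mul_one, one_mul]
  have hmul : ∀ U V : NCRat, ψ * (U * V) * φ = (ψ * U * φ) * (ψ * V * φ) := by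
    intro U V
    calc ψ * (U * V) * φ = ψ * U * (1 * V * φ) := by simp only [one_mul, mul_assoc]
      _ = ψ * U * (φ * ψ * V * φ) := by rw [h1]
      _ = (ψ * U * φ) * (ψ * V * φ) := by simp only [mul_assoc]
  have hcomm : ∀ {U V : NCRat}, Commute U V → Commute (ψ * U * φ) (ψ * V * φ) := by
    intro U V h
    show (ψ * U * φ) * (ψ * V * φ) = (ψ * V * φ) * (ψ * U * φ)
    rw [← hmul, ← hmul, h.eq]
  have hpow : ∀ (U : NCRat) (n : ℕ), ψ * U ^ n * φ = (ψ * U * φ) ^ n := by
    intro U n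
    induction n with
    | zero => rw [pow_zero, pow_zero, mul_one, h2]
    | succ n ih => rw [pow_succ, pow_succ, hmul, ih]
  have hinj : ∀ {U V : NCRat}, ψ * U * φ = ψ * V * φ → U = V := by
    intro U V h
    have h3 : φ * (ψ * U * φ) * ψ = φ * (ψ * V * φ) * ψ := by rw [h]
    have e : ∀ W : NCRat, φ * (ψ * W * φ) * ψ = W := by
      intro W
      calc φ * (ψ * W * φ) * ψ = (φ * ψ) * W * (φ * ψ) := by simp only [mul_assoc]
        _ = W := by rw [h1, one_mul, mul_one]
    rwa [e, e] at h3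
  refine ⟨{ P := D.P
            fin := D.fin
            act := fun U p => D.act (ψ * U * φ) p
            lam := fun U p => D.lam (ψ * U * φ) p
            p0 := D.p0
            act_mul := ?_
            lam_mul := ?_
            act_F := D.act_F
            lam_F := D.lam_F
            rigid := ?_ }⟩
  · intro U V hU hV p
    show D.act (ψ * (U * V) * φ) p = _
    rw [hmul]
    exact D.act_mul _ _ (hcomm hU) (hcomm hV) p
  · intro U V hU hV p
    show D.lam (ψ * (U * V) * φ) p = _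
    rw [hmul]
    exact D.lam_mul _ _ (hcomm hU) (hcomm hV) p
  · intro Y Φ hY hΦ hYΦ hYp hΦp hlam hne l hl hpw
    apply hinj
    refine D.rigid _ _ (hcomm hY) (hcomm hΦ) (hcomm hYΦ) hYp hΦp hlam hne l hl ?_
    rw [← hpow, ← hpow, ← hmul, ← hmul, hpw]

/-- the Möbius map `z ↦ c + 1/z`. -/
noncomputable def mobRD (c : ℂ) : RatFunc ℂ := RatFunc.C c + RatFunc.X⁻¹

/-- its inverse `z ↦ 1/(z-c)`. -/
noncomputable def mobInv (c : ℂ) : RatFunc ℂ := (RatFunc.X - RatFunc.C c)⁻¹

lemma nc_add_C {A : RatFunc ℂ} (h : NC A) (c : ℂ) : NC (RatFunc.C c + A) := by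
  rintro ⟨d, hd⟩
  exact h ⟨d - c, by rw [map_sub, ← hd]; ring⟩

lemma nc_inv {A : RatFunc ℂ} (h : NC A) : NC A⁻¹ := by
  rintro ⟨c, hc⟩
  exact h ⟨c⁻¹, by rw [map_inv₀, ← hc, inv_inv]⟩

lemma nc_mobRD (c : ℂ) : NC (mobRD c) := nc_add_C nc_Xinv c

lemma nc_mobInv (c : ℂ) : NC (mobInv c) := by
  apply nc_inv
  have := nc_add_C nc_X (-c)
  rwa [map_neg, neg_add_eq_sub] at this

lemma mob_mobInv (c : ℂ) : comp (mobRD c) (mobInv c) = RatFunc.X := by
  rw [← phi_apply _ (nc_mobInv c), mobRD, map_add, map_inv₀, phi_X]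
  have h1 : phi (mobInv c) (nc_mobInv c) (RatFunc.C c) = RatFunc.C c := by
    rw [phi_apply]; simp [comp]
  have h2 : (mobInv c)⁻¹ = RatFunc.X - RatFunc.C c := inv_inv _
  rw [h1, h2]
  ring

lemma regInf_conj {F : RatFunc ℂ} (hF : NC F) {c b : ℂ} (hb : Val c F b) (hbc : b ≠ c) :
    RegInf (comp (comp (mobInv c) F) (mobRD c)) := by
  refine ⟨(b - c)⁻¹, ?_⟩
  rw [comp_assoc _ (nc_mobRD c) nc_Xinv]
  have h1 : comp (mobRD c) RatFunc.X⁻¹ = RatFunc.C c + RatFunc.X := by
    rw [← phi_apply _ nc_Xinv, mobRD, map_add, map_inv₀, phi_X, inv_inv]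
    congr 1
    rw [phi_apply]; simp [comp]
  rw [h1, comp_assoc _ hF (nc_add_C nc_X c)]
  have h2 : Val 0 (RatFunc.C c + RatFunc.X) c := by
    have := (Val.const 0 c).add (Val.X 0)
    rwa [add_zero] at this
  have h3 : Val 0 (comp F (RatFunc.C c + RatFunc.X)) b := Val.comp (nc_add_C nc_X c) h2 hb
  have h4 : Val b (mobInv c) (b - c)⁻¹ := by
    have h5 : Val b (RatFunc.X - RatFunc.C c) (b - c) := by
      have := (Val.X b).add (Val.const b (-c))
      rwa [map_neg, ← sub_eq_add_neg, ← sub_eq_add_neg] at this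
    have h6 := (Val.const b 1).div h5 (sub_ne_zero.2 hbc)
    rw [map_one] at h6
    simpa [mobInv] using h6
  exact Val.comp (nc_comp hF (nc_add_C nc_X c)) h3 h4

/-- there is a point where `F` is finite and not fixed -/
lemma exists_nonfixed {F : RatFunc ℂ} (hdeg : 2 ≤ deg F) : ∃ c b, Val c F b ∧ b ≠ c := by
  by_contra hcon
  push Not at hcon
  have hFX : F = RatFunc.X := by
    have hfin : (F.denom.rootSet ℂ).Finite := Polynomial.rootSet_finite _ _
    obtain ⟨c, hc⟩ : ∃ c, c ∉ F.denom.rootSet ℂ := (hfin.infinite_compl).nonempty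
    have hreg : ∀ z, z ∉ F.denom.rootSet ℂ → reg F z := by
      intro z hz h0
      apply hz
      rw [Polynomial.mem_rootSet]
      exact ⟨F.denom_ne_zero, by simpa using h0⟩
    have hX : ∀ z, reg (RatFunc.X : RatFunc ℂ) z := by intro z; simp [reg]
    refine eq_of_ev_eventuallyEq (hreg c hc) (hX c) ?_
    filter_upwards [reg_eventually (hreg c hc)] with z hz
    rw [hcon z _ hz.val]
    simp [ev]
  rw [hFX] at hdeg
  simp [deg] at hdeg

theorem exists_localData (F : NCRat) (hdeg : 2 ≤ deg F.1) : Nonempty (LocalData F) := by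
  obtain ⟨c, b, hb, hbc⟩ := exists_nonfixed hdeg
  let φ : NCRat := ⟨mobRD c, nc_mobRD c⟩
  let ψ : NCRat := ⟨mobInv c, nc_mobInv c⟩
  have h1 : φ * ψ = 1 := Subtype.ext (mob_mobInv c)
  have hinf : RegInf (ψ * F * φ).1 := regInf_conj F.2 hb hbc
  have hd : 1 ≤ deg (ψ * F * φ).1 := deg_pos (ψ * F * φ).2
  obtain ⟨D⟩ := exists_localData_of_regInf (ψ * F * φ) hd hinf
  exact D.conj h1

end Pool.Agent.Helper65
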