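import Mathlib

/-!
Abstract semigroup arguments: the congruence `T a = T b`, almost commuting elements,
Foelner sets and invariant means.
-/

open Filter Topology

namespace Pool.Agent.Helper65

section Abs

variable {M : Type*} [Monoid M]

/-- condition 3 in a monoid. -/
def C3 (S : Set M) : Prop :=
  ∀ A ∈ S, ∀ B ∈ S, ∃ k l : ℕ, 1 ≤ k ∧ 1 ≤ l ∧ A ^ (2 * k) = A ^ k * B ^ l ∧
    B ^ (2 * l) = B ^ l * A ^ k

/-- the congruence. -/
def Eqv (S : Set M) (a b : M) : Prop := ∃ T ∈ S, T * a = T * b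

structure SHyp (S : Set M) : Prop where
  mul_mem : ∀ a ∈ S, ∀ b ∈ S, a * b ∈ S
  rc : ∀ a b c : M, a * c = b * c → a = b
  c3 : C3 S
  ne : S.Nonempty

variable {S : Set M}

lemma SHyp.pow_mem (h : SHyp S) {a : M} (ha : a ∈ S) : ∀ {n : ℕ}, 1 ≤ n → a ^ n ∈ S := by
  intro n hn
  induction n, hn using Nat.le_induction with
  | base => simpa using ha
  | succ n _ ih => rw [pow_succ]; exact h.mul_mem _ ih _ ha

lemma SHyp.mul_pow_mem (h : SHyp S) {a b : M} (ha : a ∈ S) (hb : b ∈ S) (n : ℕ) :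
    a * b ^ n ∈ S := by
  rcases Nat.eq_zero_or_pos n with rfl | hn
  · simpa using ha
  · exact h.mul_mem _ ha _ (h.pow_mem hb hn)

/-- Every `T ∈ S` right-divides a power of `F`. -/
lemma SHyp.dvd_pow (h : SHyp S) {F T : M} (hF : F ∈ S) (hT : T ∈ S) :
    ∃ k : ℕ, 1 ≤ k ∧ ∃ X ∈ S, X * T = F ^ (2 * k) := by
  obtain ⟨k, l, hk, hl, h1, _⟩ := h.c3 F hF T hT
  refine ⟨k, hk, F ^ k * T ^ (l - 1), h.mul_pow_mem (h.pow_mem hF hk) hT _, ?_⟩
  rw [h1, mul_assoc, ← pow_succ, Nat.sub_add_cancel hl]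

lemma SHyp.reversible (h : SHyp S) {a b : M} (ha : a ∈ S) (hb : b ∈ S) :
    ∃ X ∈ S, ∃ Y ∈ S, X * a = Y * b := by
  obtain ⟨k, hk, X, hX, hX'⟩ := h.dvd_pow ha hb
  refine ⟨a ^ (2 * k - 1), h.pow_mem ha (by omega), X, hX, ?_⟩
  rw [hX', ← pow_succ]
  congr 1
  omega

lemma SHyp.refl (h : SHyp S) (a : M) : Eqv S a a := by
  obtain ⟨T, hT⟩ := h.ne
  exact ⟨T, hT, rfl⟩

lemma Eqv.symm {a b : M} (e : Eqv S a b) : Eqv S b a := by
  obtain ⟨T, hT, h⟩ := e
  exact ⟨T, hT, h.symm⟩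

lemma SHyp.trans (h : SHyp S) {a b c : M} (e1 : Eqv S a b) (e2 : Eqv S b c) : Eqv S a c := by
  obtain ⟨T, hT, h1⟩ := e1
  obtain ⟨T', hT', h2⟩ := e2
  obtain ⟨X, hX, Y, hY, hXY⟩ := h.reversible hT hT'
  refine ⟨X * T, h.mul_mem _ hX _ hT, ?_⟩
  calc X * T * a = X * (T * a) := mul_assoc _ _ _
    _ = X * (T * b) := by rw [h1]
    _ = (X * T) * b := (mul_assoc _ _ _).symm
    _ = (Y * T') * b := by rw [hXY]
    _ = Y * (T' * b) := mul_assoc _ _ _
    _ = Y * (T' * c) := by rw [h2]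
    _ = (Y * T') * c := (mul_assoc _ _ _).symm
    _ = X * T * c := by rw [hXY]

lemma Eqv.mul_right {a b : M} (e : Eqv S a b) (c : M) : Eqv S (a * c) (b * c) := by
  obtain ⟨T, hT, h⟩ := e
  exact ⟨T, hT, by rw [← mul_assoc, ← mul_assoc, h]⟩

lemma SHyp.mul_left (h : SHyp S) {a b c : M} (hc : c ∈ S) (e : Eqv S a b) :
    Eqv S (c * a) (c * b) := by
  obtain ⟨T, hT, h1⟩ := e
  obtain ⟨X, hX, Y, hY, hXY⟩ := h.reversible hc hT
  refine ⟨X, hX, ?_⟩
  rw [← mul_assoc, ← mul_assoc, hXY, mul_assoc, mul_assoc, h1]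

lemma SHyp.cancel_left (h : SHyp S) {a b c : M} (hc : c ∈ S) (e : Eqv S (c * a) (c * b)) :
    Eqv S a b := by
  obtain ⟨T, hT, h1⟩ := e
  exact ⟨T * c, h.mul_mem _ hT _ hc, by rw [mul_assoc, mul_assoc, h1]⟩

lemma SHyp.cancel_right (h : SHyp S) {a b c : M} (e : Eqv S (a * c) (b * c)) : Eqv S a b := by
  obtain ⟨T, hT, h1⟩ := e
  exact ⟨T, hT, h.rc _ _ c (by rw [mul_assoc, mul_assoc, h1])⟩

lemma SHyp.fine_pairs (h : SHyp S) (P : Finset (M × M)) :
    ∃ T ∈ S, ∀ x ∈ P, Eqv S x.1 x.2 → T * x.1 = T * x.2 := by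
  classical
  induction P using Finset.induction_on with
  | empty => obtain ⟨T, hT⟩ := h.ne; exact ⟨T, hT, by simp⟩
  | insert x P hx ih =>
    obtain ⟨T, hT, hTP⟩ := ih
    by_cases hxe : Eqv S x.1 x.2
    · obtain ⟨T', hT', he⟩ := hxe
      obtain ⟨X, hX, Y, hY, hXY⟩ := h.reversible hT hT'
      refine ⟨X * T, h.mul_mem _ hX _ hT, ?_⟩
      intro y hy hye
      rw [Finset.mem_insert] at hy
      rcases hy with rfl | hy
      · rw [hXY, mul_assoc, mul_assoc, he]
      · rw [mul_assoc, mul_assoc, hTP y hy hye]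
    · refine ⟨T, hT, ?_⟩
      intro y hy hye
      rw [Finset.mem_insert] at hy
      rcases hy with rfl | hy
      · exact absurd hye hxe
      · exact hTP y hy hye

lemma SHyp.fine (h : SHyp S) {W : Set M} (hW : W.Finite) :
    ∃ T ∈ S, ∀ a ∈ W, ∀ b ∈ W, Eqv S a b → T * a = T * b := by
  classical
  obtain ⟨T, hT, h1⟩ := h.fine_pairs (hW.toFinset ×ˢ hW.toFinset)
  refine ⟨T, hT, fun a ha b hb e => h1 (a, b) ?_ e⟩
  simp [ha, hb]

lemma SHyp.eqv_pow (h : SHyp S) {F B : M} (hF : F ∈ S)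
    (e : Eqv S F B) {n : ℕ} (hn : 1 ≤ n) :
    Eqv S (F ^ n) (B ^ n) := by
  induction n, hn using Nat.le_induction with
  | base => simpa using e
  | succ n hn ih =>
    rw [pow_succ', pow_succ']
    exact h.trans (h.mul_left hF ih) (e.mul_right _)

lemma SHyp.exists_root (h : SHyp S) (𝒜 : Finset M) (h𝒜 : ∀ A ∈ 𝒜, A ∈ S) :
    ∃ F ∈ S, ∀ A ∈ 𝒜, ∃ k : ℕ, 1 ≤ k ∧ Eqv S F (A ^ k) := by
  classical
  induction 𝒜 using Finset.induction_on with
  | empty => obtain ⟨F, hF⟩ := h.ne; exact ⟨F, hF, by simp⟩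
  | insert B 𝒜 hB ih =>
    obtain ⟨F, hF, h1⟩ := ih (fun A hA => h𝒜 A (Finset.mem_insert_of_mem hA))
    have hBS : B ∈ S := h𝒜 B (Finset.mem_insert_self _ _)
    obtain ⟨r, l, hr, hl, h2, _⟩ := h.c3 F hF B hBS
    refine ⟨F ^ r, h.pow_mem hF hr, ?_⟩
    intro A hA
    rw [Finset.mem_insert] at hA
    rcases hA with rfl | hA
    · refine ⟨l, hl, F ^ r, h.pow_mem hF hr, ?_⟩
      rw [← h2, ← pow_add]; congr 1; omega
    · obtain ⟨k, hk, e⟩ := h1 A hA
      refine ⟨k * r, Nat.mul_pos hk hr, ?_⟩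
      rw [pow_mul]
      exact h.eqv_pow hF e hr

lemma SHyp.exists_comm (h : SHyp S) (𝒜 : Finset M) (h𝒜 : ∀ A ∈ 𝒜, A ∈ S) :
    ∃ F ∈ S, ∀ A ∈ 𝒜, Commute F (F * A) := by
  classical
  obtain ⟨F, hF, h1⟩ := h.exists_root 𝒜 h𝒜
  -- `F A ~ A F`
  have h2 : ∀ A ∈ 𝒜, Eqv S (F * A) (A * F) := by
    intro A hA
    obtain ⟨k, hk, e⟩ := h1 A hA
    have e1 : Eqv S (F * A) (A ^ k * A) := e.mul_right A
    have e2 : Eqv S (A * F) (A * A ^ k) := h.mul_left (h𝒜 A hA) e
    rw [← pow_succ] at e1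
    rw [← pow_succ'] at e2
    exact h.trans e1 e2.symm
  obtain ⟨T, hT, h3⟩ := h.fine_pairs (𝒜.image (fun A => (F * A, A * F)))
  obtain ⟨k, hk, X, hX, hXT⟩ := h.dvd_pow hF hT
  set N := 2 * k with hN
  have h4 : ∀ A ∈ 𝒜, F ^ N * A * F = F ^ (N + 1) * A := by
    intro A hA
    have h5 := h3 (F * A, A * F) (Finset.mem_image_of_mem _ hA) (h2 A hA)
    calc F ^ N * A * F = X * (T * (A * F)) := by rw [← hXT]; simp only [mul_assoc]
      _ = X * (T * (F * A)) := by rw [h5]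
      _ = (X * T) * F * A := by simp only [mul_assoc]
      _ = F ^ (N + 1) * A := by rw [hXT, pow_succ]
  have h6 : ∀ A ∈ 𝒜, ∀ j : ℕ, F ^ N * A * F ^ j = F ^ (N + j) * A := by
    intro A hA j
    induction j with
    | zero => simp
    | succ j ih =>
      calc F ^ N * A * F ^ (j + 1) = (F ^ N * A * F) * F ^ j := by
            rw [pow_succ' F j]; simp only [mul_assoc]
        _ = F ^ (N + 1) * A * F ^ j := by rw [h4 A hA]
        _ = F * (F ^ N * A * F ^ j) := by rw [pow_succ' F N]; simp only [mul_assoc]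
        _ = F * (F ^ (N + j) * A) := by rw [ih]
        _ = F ^ (N + (j + 1)) * A := by rw [← mul_assoc, ← pow_succ']; rfl
  refine ⟨F ^ N, h.pow_mem hF (by omega), ?_⟩
  intro A hA
  show F ^ N * (F ^ N * A) = F ^ N * A * F ^ N
  rw [h6 A hA N, ← mul_assoc, ← pow_add]

lemma prod_map_mul_left {ι : Type*} {F : M} {A : ι → M} (hc : ∀ i, Commute F (F * A i))
    (w : List ι) : (w.map (fun i => F * A i)).prod = F ^ w.length * (w.map A).prod := by
  induction w with
  | nil => simp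
  | cons i w ih =>
    have h1 : F * A i * F ^ w.length = F ^ w.length * (F * A i) :=
      ((hc i).symm.pow_right w.length).eq
    rw [List.map_cons, List.prod_cons, ih, List.map_cons, List.prod_cons, List.length_cons,
      ← mul_assoc, h1, pow_succ]
    simp only [mul_assoc]

end Abs

/-! ### growth -/

lemma exists_slow_growth (f : ℕ → ℕ) (h1 : 1 ≤ f 1) (C q : ℕ) (hC : ∀ m, f m ≤ C * (m + 1) ^ q)
    {ε : ℝ} (hε : 0 < ε) : ∃ m, 1 ≤ m ∧ (f (m + 1) : ℝ) ≤ (1 + ε) * f m := by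
  by_contra hcon
  push Not at hcon
  have h2 : ∀ m, (1 + ε) ^ m ≤ (f (m + 1) : ℝ) := by
    intro m
    induction m with
    | zero => simpa using (by exact_mod_cast h1 : (1 : ℝ) ≤ f 1)
    | succ m ih =>
      have := hcon (m + 1) (by omega)
      calc (1 + ε) ^ (m + 1) = (1 + ε) * (1 + ε) ^ m := by rw [pow_succ']
        _ ≤ (1 + ε) * f (m + 1) := by
            apply mul_le_mul_of_nonneg_left ih (by linarith)
        _ ≤ f (m + 1 + 1) := this.le
  have hr : 1 < 1 + ε := by linarith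
  have h3 : ∀ m : ℕ, (1 : ℝ) ≤ C * (1 + ε) ^ 2 * (((m + 2 : ℕ) : ℝ) ^ q / (1 + ε) ^ (m + 2)) := by
    intro m
    have h4 := h2 m
    have h5 : (f (m + 1) : ℝ) ≤ C * ((m + 2 : ℕ) : ℝ) ^ q := by
      have := hC (m + 1)
      have h6 : ((f (m + 1) : ℕ) : ℝ) ≤ ((C * (m + 1 + 1) ^ q : ℕ) : ℝ) := by exact_mod_cast this
      push_cast at h6 ⊢
      convert h6 using 3
      ring
    have hp : (0 : ℝ) < (1 + ε) ^ m := by positivity
    have : C * (1 + ε) ^ 2 * (((m + 2 : ℕ) : ℝ) ^ q / (1 + ε) ^ (m + 2))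
        = C * ((m + 2 : ℕ) : ℝ) ^ q / (1 + ε) ^ m := by
      rw [pow_add]; field_simp
    rw [this, le_div_iff₀ hp, one_mul]
    exact h4.trans h5
  have h7 : Tendsto (fun m : ℕ => C * (1 + ε) ^ 2 * (((m + 2 : ℕ) : ℝ) ^ q / (1 + ε) ^ (m + 2)))
      atTop (𝓝 (C * (1 + ε) ^ 2 * 0)) := by
    apply Tendsto.const_mul
    exact (tendsto_pow_const_div_const_pow_of_one_lt q hr).comp (tendsto_add_atTop_nat 2)
  rw [mul_zero] at h7
  have := ge_of_tendsto' h7 h3
  linarith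

/-! ### Foelner implies amenable -/

section Mean

variable {M : Type*} [Mul M]

/-- Foelner condition. -/
def Foelner (S : Set M) : Prop :=
  ∀ (𝒜 : Finset M), (∀ A ∈ 𝒜, A ∈ S) → ∀ ε : ℝ, 0 < ε →
    ∃ E : Set M, E.Finite ∧ E.Nonempty ∧ E ⊆ S ∧
      ∀ A ∈ 𝒜, (((fun w => w * A) '' E \ E).ncard : ℝ) ≤ ε * E.ncard

/-- right amenability of a sub(semi)group-like set. -/
def RAmen (S : Set M) : Prop :=
  ∃ μ : Set M → ℝ, (∀ T, 0 ≤ μ T) ∧ μ S = 1 ∧
    (∀ T U, Disjoint T U → μ (T ∪ U) = μ T + μ U) ∧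
    ∀ T, T ⊆ S → ∀ A ∈ S, μ {W ∈ S | W * A ∈ T} = μ T

lemma rAmen_of_foelner {S : Set M} (hrc : ∀ a b c : M, a * c = b * c → a = b)
    (hF : Foelner S) : RAmen S := by
  classical
  -- index set
  let I := Finset S × ℕ
  have hex : ∀ i : I, ∃ E : Set M, E.Finite ∧ E.Nonempty ∧ E ⊆ S ∧
      ∀ A ∈ i.1, (((fun w => w * (A : M)) '' E \ E).ncard : ℝ) ≤ (1 / ((i.2 : ℝ) + 1)) * E.ncard := by
    intro i
    obtain ⟨E, h1, h2, h3, h4⟩ := hF (i.1.image (fun A : S => (A : M)))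
      (by intro A hA; rw [Finset.mem_image] at hA; obtain ⟨B, _, rfl⟩ := hA; exact B.2)
      (1 / ((i.2 : ℝ) + 1)) (by positivity)
    exact ⟨E, h1, h2, h3, fun A hA => h4 A (Finset.mem_image_of_mem _ hA)⟩
  choose E hEfin hEne hES hEA using hex
  have hcard : ∀ i, 0 < (E i).ncard := fun i => (Set.ncard_pos (hEfin i)).2 (hEne i)
  let r : I → Set M → ℝ := fun i T => ((T ∩ E i).ncard : ℝ) / (E i).ncard
  have hr0 : ∀ i T, 0 ≤ r i T := fun i T => by positivity
  have hr1 : ∀ i T, r i T ≤ 1 := by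
    intro i T
    rw [div_le_one (by exact_mod_cast hcard i)]
    exact_mod_cast Set.ncard_le_ncard Set.inter_subset_right (hEfin i)
  have : Nonempty I := ⟨(∅, 0)⟩
  let U : Ultrafilter I := Ultrafilter.of atTop
  have hU : (U : Filter I) ≤ atTop := Ultrafilter.of_le atTop
  have hlim : ∀ T : Set M, ∃ x : ℝ, x ∈ Set.Icc (0 : ℝ) 1 ∧ Tendsto (fun i => r i T) U (𝓝 x) := by
    intro T
    have hc : IsCompact (Set.Icc (0 : ℝ) 1) := isCompact_Icc
    have := hc.ultrafilter_le_nhds (U.map (fun i => r i T))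
      (by
        rw [Ultrafilter.coe_map, le_principal_iff, mem_map]
        filter_upwards with i
        exact ⟨hr0 i T, hr1 i T⟩)
    obtain ⟨x, hx, hx'⟩ := this
    exact ⟨x, hx, hx'⟩
  choose μ hμ01 hμ using hlim
  refine ⟨μ, fun T => (hμ01 T).1, ?_, ?_, ?_⟩
  · have h1 : Tendsto (fun i => r i S) U (𝓝 1) := by
      refine tendsto_const_nhds.congr' ?_
      filter_upwards with i
      have : S ∩ E i = E i := Set.inter_eq_right.2 (hES i)
      simp only [r, this]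
      rw [div_self]
      exact_mod_cast (hcard i).ne'
    exact tendsto_nhds_unique (hμ S) h1
  · intro T V hTV
    have h1 := (hμ T).add (hμ V)
    refine tendsto_nhds_unique (hμ (T ∪ V)) (h1.congr' ?_)
    filter_upwards with i
    simp only [r]
    rw [← add_div]
    congr 1
    rw [Set.union_inter_distrib_right, Set.ncard_union_eq
      (hTV.mono Set.inter_subset_left Set.inter_subset_left)
      ((hEfin i).subset Set.inter_subset_right) ((hEfin i).subset Set.inter_subset_right)]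
    push_cast; ring
  · intro T hT A hA
    -- compare `{W ∈ S | W A ∈ T}` with `T`
    have key : ∀ i : I, (⟨A, hA⟩ : S) ∈ i.1 →
        |r i {W ∈ S | W * A ∈ T} - r i T| ≤ 1 / ((i.2 : ℝ) + 1) := by
      intro i hi
      have hA' := hEA i ⟨A, hA⟩ hi
      simp only at hA'
      set f : M → M := fun w => w * A with hf
      have hfinj : Function.Injective f := fun a b hab => hrc a b A hab
      -- |{W ∈ E : W A ∈ T}| = |T ∩ f '' E|
      have e1 : ({W ∈ S | W * A ∈ T} ∩ E i).ncard = (T ∩ f '' (E i)).ncard := by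
        rw [← Set.ncard_image_of_injective _ hfinj]
        congr 1
        ext x
        constructor
        · rintro ⟨w, ⟨⟨_, hw⟩, hwE⟩, rfl⟩
          exact ⟨hw, w, hwE, rfl⟩
        · rintro ⟨hx, w, hwE, rfl⟩
          exact ⟨w, ⟨⟨hES i hwE, hx⟩, hwE⟩, rfl⟩
      have hfE : (f '' E i).Finite := (hEfin i).image f
      have ecard : (f '' E i).ncard = (E i).ncard := Set.ncard_image_of_injective _ hfinj
      have e3 : (E i \ f '' E i).ncard = (f '' E i \ E i).ncard := by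
        have a1 := Set.ncard_sdiff_add_ncard (E i) (f '' E i) (hEfin i) hfE
        have a2 := Set.ncard_sdiff_add_ncard (f '' E i) (E i) hfE (hEfin i)
        rw [Set.union_comm] at a2
        omega
      have e4 : (T ∩ f '' E i).ncard ≤ (T ∩ E i).ncard + (f '' E i \ E i).ncard := by
        refine (Set.ncard_le_ncard (t := (T ∩ E i) ∪ (f '' E i \ E i)) ?_ ?_).trans
          (Set.ncard_union_le _ _)
        · intro x hx
          by_cases hxE : x ∈ E i
          · exact Or.inl ⟨hx.1, hxE⟩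
          · exact Or.inr ⟨hx.2, hxE⟩
        · exact ((hEfin i).subset Set.inter_subset_right).union (hfE.subset Set.sdiff_subset)
      have e5 : (T ∩ E i).ncard ≤ (T ∩ f '' E i).ncard + (E i \ f '' E i).ncard := by
        refine (Set.ncard_le_ncard (t := (T ∩ f '' E i) ∪ (E i \ f '' E i)) ?_ ?_).trans
          (Set.ncard_union_le _ _)
        · intro x hx
          by_cases hxE : x ∈ f '' E i
          · exact Or.inl ⟨hx.1, hxE⟩
          · exact Or.inr ⟨hx.2, hxE⟩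
        · exact (hfE.subset Set.inter_subset_right).union ((hEfin i).subset Set.sdiff_subset)
      have hn : (0 : ℝ) < (E i).ncard := by exact_mod_cast hcard i
      simp only [r]
      rw [e1, ← sub_div, abs_div, abs_of_pos hn, div_le_iff₀ hn]
      refine le_trans ?_ hA'
      rw [abs_le]
      constructor
      · have : ((T ∩ E i).ncard : ℝ) ≤ (T ∩ f '' E i).ncard + (f '' E i \ E i).ncard := by
          rw [← e3]; exact_mod_cast e5
        linarith
      · have : ((T ∩ f '' E i).ncard : ℝ) ≤ (T ∩ E i).ncard + (f '' E i \ E i).ncard := by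
          exact_mod_cast e4
        linarith
    have h1 := ((hμ {W ∈ S | W * A ∈ T}).sub (hμ T)).abs
    have h2 : Tendsto (fun i : I => 1 / ((i.2 : ℝ) + 1)) U (𝓝 0) := by
      have h3 : Tendsto (fun i : I => i.2) atTop atTop := by
        rw [tendsto_atTop]
        intro b
        have : ∀ᶠ i in (atTop : Filter I), ((∅ : Finset S), b) ≤ i := eventually_ge_atTop _
        filter_upwards [this] with i hi
        exact hi.2
      exact ((tendsto_one_div_add_atTop_nhds_zero_nat).comp h3).mono_left hU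
    have h4 : ∀ᶠ i in (U : Filter I), |r i {W ∈ S | W * A ∈ T} - r i T| ≤ 1 / ((i.2 : ℝ) + 1) := by
      apply hU
      have : ∀ᶠ i in (atTop : Filter I), (({⟨A, hA⟩} : Finset S), 0) ≤ i := eventually_ge_atTop _
      filter_upwards [this] with i hi
      apply key
      exact hi.1 (Finset.mem_singleton_self _)
    have h5 := le_of_tendsto_of_tendsto h1 h2 h4
    have h6 : μ {W ∈ S | W * A ∈ T} - μ T = 0 := by
      rw [← abs_eq_zero]
      exact le_antisymm h5 (abs_nonneg _)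
    linarith

end Mean

end Pool.Agent.Helper65
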