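import Mathlib
import Pool.Agent.Helper65.RatData
import Pool.Agent.Helper65.SemiAbs

/-!
Condition 3 implies the Foelner condition.
-/

open Filter Topology

namespace Pool.Agent.Helper65

section
variable {S : Set NCRat} (h : SHyp S) (hdeg : ∀ A ∈ S, 2 ≤ deg A.1)

lemma LocalData.pow {F : NCRat} (D : LocalData F) (n : ℕ) (hn : 1 ≤ n) :
    (∀ p, D.act (F ^ n) p = p) ∧ D.lam (F ^ n) D.p0 = (D.lam F D.p0) ^ n := by
  induction n, hn using Nat.le_induction with
  | base =>
    refine ⟨fun p => ?_, ?_⟩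
    · rw [pow_one]; exact D.act_F p
    · rw [pow_one, pow_one]
  | succ n hn ih =>
    have c1 : Commute F F := Commute.refl F
    have c2 : Commute (F ^ n) F := c1.pow_left n
    refine ⟨fun p => ?_, ?_⟩
    · rw [pow_succ, D.act_mul _ _ c2 c1, D.act_F, ih.1]
    · rw [pow_succ, D.lam_mul _ _ c2 c1, D.act_F, ih.2, pow_succ]

lemma deg_mul (A B : NCRat) : deg (A * B).1 = deg A.1 * deg B.1 := deg_comp B.2

lemma deg_pow (A : NCRat) (n : ℕ) : deg (A ^ n).1 = deg A.1 ^ n := by
  have := map_pow NCRat.degHom A n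
  exact this

include h hdeg in
/-- key rigidity: same degree, same image of the base point, same multiplier. -/
lemma eqv_of_data {F : NCRat} (hF : F ∈ S) (D : LocalData F) {U V : NCRat} (hU : U ∈ S)
    (hV : V ∈ S) (cU : Commute U F) (cV : Commute V F) (hact : D.act U D.p0 = D.act V D.p0)
    (hlam : D.lam U D.p0 = D.lam V D.p0) (hd : deg U.1 = deg V.1) : Eqv S U V := by
  obtain ⟨k, s, hk, hs, h1, _⟩ := h.c3 F hF U hU
  set X := F ^ k * U ^ (s - 1) with hX
  have hXS : X ∈ S := h.mul_pow_mem (h.pow_mem hF hk) hU _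
  have hXU : X * U = F ^ (2 * k) := by
    rw [h1, hX, mul_assoc, ← pow_succ, Nat.sub_add_cancel hs]
  have cF : Commute F F := Commute.refl F
  have cX : Commute X F := (cF.pow_left k).mul_left (cU.pow_left _)
  set Φ := F ^ (2 * k) with hΦ
  set Y := X * V with hY
  have hYS : Y ∈ S := h.mul_mem _ hXS _ hV
  have cY : Commute Y F := cX.mul_left cV
  have cΦ : Commute Φ F := cF.pow_left _
  have cYΦ : Commute Y Φ := cY.pow_right _
  have actΦ : D.act Φ D.p0 = D.p0 := (D.pow (2 * k) (by omega)).1 _
  have lamΦ : D.lam Φ D.p0 = (D.lam F D.p0) ^ (2 * k) := (D.pow (2 * k) (by omega)).2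
  have lamΦ0 : D.lam Φ D.p0 ≠ 0 := by rw [lamΦ]; exact pow_ne_zero _ D.lam_F
  have actY : D.act Y D.p0 = D.p0 := by
    rw [hY, D.act_mul _ _ cX cV, ← hact, ← D.act_mul _ _ cX cU, hXU, actΦ]
  have lamY : D.lam Y D.p0 = D.lam Φ D.p0 := by
    rw [hY, D.lam_mul _ _ cX cV, ← hact, ← hlam, ← D.lam_mul _ _ cX cU, hXU]
  have degY : deg Y.1 = deg Φ.1 := by
    rw [hY, deg_mul, ← hd, ← deg_mul, hXU]
  obtain ⟨k', l', hk', hl', h2, _⟩ := h.c3 F hF Y hYS
  have hDF : 2 ≤ deg F.1 := hdeg F hF
  have hk'eq : k' = 2 * k * l' := by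
    have h3 := congrArg (fun A : NCRat => deg A.1) h2
    simp only [deg_mul, deg_pow, degY, hΦ] at h3
    rw [← pow_mul, ← pow_add] at h3
    have := Nat.pow_right_injective hDF h3
    omega
  have hFk' : F ^ k' = Φ ^ l' := by rw [hk'eq, hΦ, ← pow_mul]
  have h4 : Φ ^ l' * Y ^ l' = Φ ^ l' * Φ ^ l' := by
    rw [← hFk', ← h2, ← pow_add]
    congr 1
    omega
  have h5 := D.rigid Y Φ cY cΦ cYΦ actY actΦ lamY lamΦ0 l' hl' h4
  refine ⟨X, hXS, ?_⟩
  rw [hXU]
  exact h5.symm

section words
variable {ι : Type} (A : ι → NCRat) {F : NCRat} (D : LocalData F)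

/-- state after reading a word from the right: end point and content. -/
noncomputable def run (w : List ι) : D.P × Multiset (ι × D.P) :=
  w.foldr (fun i s => (D.act (F * A i) s.1, (i, s.1) ::ₘ s.2)) (D.p0, 0)

lemma run_cons (i : ι) (w : List ι) :
    run A D (i :: w) = (D.act (F * A i) (run A D w).1, (i, (run A D w).1) ::ₘ (run A D w).2) := rfl

lemma run_card (w : List ι) : Multiset.card (run A D w).2 = w.length := by
  induction w with
  | nil => rfl
  | cons i w ih => rw [run_cons]; simp [ih]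

variable (hc : ∀ i, Commute F (F * A i))
include hc

lemma comm_prod (w : List ι) : Commute (w.map (fun i => F * A i)).prod F := by
  induction w with
  | nil => simp
  | cons i w ih => rw [List.map_cons, List.prod_cons]; exact (hc i).symm.mul_left ih

lemma run_act (w : List ι) (hw : w ≠ []) :
    D.act (w.map (fun i => F * A i)).prod D.p0 = (run A D w).1 := by
  induction w with
  | nil => exact absurd rfl hw
  | cons i w ih =>
    rw [List.map_cons, List.prod_cons, run_cons]
    by_cases hw' : w = []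
    · subst hw'; simp [run]
    · rw [D.act_mul _ _ (hc i).symm (comm_prod A hc w), ih hw']

lemma run_lam (w : List ι) (hw : w ≠ []) :
    D.lam (w.map (fun i => F * A i)).prod D.p0
      = ((run A D w).2.map (fun x => D.lam (F * A x.1) x.2)).prod := by
  induction w with
  | nil => exact absurd rfl hw
  | cons i w ih =>
    rw [List.map_cons, List.prod_cons, run_cons]
    by_cases hw' : w = []
    · subst hw'; simp [run]
    · rw [D.lam_mul _ _ (hc i).symm (comm_prod A hc w), ih hw', run_act A D hc w hw']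
      simp

omit hc in
lemma run_deg (w : List ι) :
    deg (w.map (fun i => F * A i)).prod.1
      = ((run A D w).2.map (fun x => deg (F * A x.1).1)).prod := by
  induction w with
  | nil =>
    simp only [List.map_nil, List.prod_nil, run, List.foldr_nil, Multiset.map_zero,
      Multiset.prod_zero, NCRat.coe_one]
    simp [deg]
  | cons i w ih =>
    rw [List.map_cons, List.prod_cons, run_cons, deg_mul, ih]
    simp

end words

lemma prod_mem_of_ne_nil {ι : Type} {A : ι → NCRat} (hA : ∀ i, A i ∈ S)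
    (hmul : ∀ a ∈ S, ∀ b ∈ S, a * b ∈ S) (w : List ι) (hw : w ≠ []) :
    (w.map A).prod ∈ S := by
  induction w with
  | nil => exact absurd rfl hw
  | cons i w ih =>
    rw [List.map_cons, List.prod_cons]
    by_cases hw' : w = []
    · subst hw'; simpa using hA i
    · exact hmul _ (hA i) _ (ih hw')

include h hdeg in
lemma eqv_of_run {ι : Type} {A : ι → NCRat} (hA : ∀ i, A i ∈ S) {F : NCRat} (hF : F ∈ S)
    (hc : ∀ i, Commute F (F * A i)) (D : LocalData F) {w w' : List ι} (hw : w ≠ [])
    (hrun : run A D w = run A D w') : Eqv S (w.map A).prod (w'.map A).prod := by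
  have hlen : w.length = w'.length := by rw [← run_card A D w, ← run_card A D w', hrun]
  have hw' : w' ≠ [] := by
    intro h0
    rw [h0] at hlen
    exact hw (List.length_eq_zero_iff.1 hlen)
  have hFA : ∀ i, F * A i ∈ S := fun i => h.mul_mem _ hF _ (hA i)
  have e : Eqv S (w.map (fun i => F * A i)).prod (w'.map (fun i => F * A i)).prod := by
    refine eqv_of_data h hdeg hF D (prod_mem_of_ne_nil hFA h.mul_mem w hw)
      (prod_mem_of_ne_nil hFA h.mul_mem w' hw') (comm_prod A hc w) (comm_prod A hc w') ?_ ?_ ?_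
    · rw [run_act A D hc w hw, run_act A D hc w' hw', hrun]
    · rw [run_lam A D hc w hw, run_lam A D hc w' hw', hrun]
    · rw [run_deg A D w, run_deg A D w', hrun]
  rw [prod_map_mul_left hc, prod_map_mul_left hc, hlen] at e
  have hlen' : 1 ≤ w'.length := List.length_pos_iff.2 hw'
  exact h.cancel_left (h.pow_mem hF hlen') e

/-- products of nonempty words of length at most `m`. -/
def words {ι : Type} (A : ι → NCRat) (m : ℕ) : Set NCRat :=
  {x | ∃ w : List ι, w ≠ [] ∧ w.length ≤ m ∧ x = (w.map A).prod}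

lemma words_finite {ι : Type} [Finite ι] (A : ι → NCRat) (m : ℕ) : (words A m).Finite := by
  have h1 : {w : List ι | w.length ≤ m}.Finite := List.finite_length_le ι m
  refine (h1.image (fun w => (w.map A).prod)).subset ?_
  rintro x ⟨w, _, hw, rfl⟩
  exact ⟨w, hw, rfl⟩

lemma words_mono {ι : Type} (A : ι → NCRat) {m n : ℕ} (hmn : m ≤ n) : words A m ⊆ words A n := by
  rintro x ⟨w, h1, h2, rfl⟩
  exact ⟨w, h1, h2.trans hmn, rfl⟩

/-- the setoid of the congruence -/
def eqvSetoid (h : SHyp S) : Setoid NCRat where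
  r := Eqv S
  iseqv := ⟨h.refl, fun e => e.symm, fun e1 e2 => h.trans e1 e2⟩

/-- number of classes of words of length at most `m`. -/
noncomputable def classCount (h : SHyp S) {ι : Type} (A : ι → NCRat) (m : ℕ) : ℕ :=
  ((Quotient.mk (eqvSetoid h)) '' words A m).ncard

lemma classCount_eq {ι : Type} [Finite ι] (A : ι → NCRat) {m : ℕ} {W : Set NCRat}
    (hW : words A m ⊆ W) {T : NCRat} (hT : T ∈ S)
    (hfine : ∀ a ∈ W, ∀ b ∈ W, Eqv S a b → T * a = T * b) :
    ((fun w => T * w) '' words A m).ncard = classCount h A m := by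
  classical
  unfold classCount
  -- define a map from `T * words` to classes
  have hfin := words_finite A m
  apply Set.ncard_congr (fun x (hx : x ∈ (fun w => T * w) '' words A m) =>
    Quotient.mk (eqvSetoid h) hx.choose)
  · intro x hx
    exact ⟨hx.choose, hx.choose_spec.1, rfl⟩
  · intro x y hx hy hxy
    have h1 : Eqv S hx.choose hy.choose := Quotient.exact hxy
    have h2 := hfine _ (hW hx.choose_spec.1) _ (hW hy.choose_spec.1) h1
    rw [← hx.choose_spec.2, ← hy.choose_spec.2]
    exact h2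
  · rintro c ⟨w, hw, rfl⟩
    have hx : T * w ∈ (fun w => T * w) '' words A m := ⟨w, hw, rfl⟩
    refine ⟨T * w, hx, ?_⟩
    apply Quotient.sound
    show Eqv S hx.choose w
    exact ⟨T, hT, hx.choose_spec.2⟩

include hdeg in
lemma classCount_le {ι : Type} [Finite ι] {A : ι → NCRat} (hA : ∀ i, A i ∈ S) :
    ∃ C q : ℕ, ∀ m, classCount h A m ≤ C * (m + 1) ^ q := by
  classical
  have _ : Fintype ι := Fintype.ofFinite ι
  obtain ⟨F, hF, hc'⟩ := h.exists_comm (Finset.univ.image A) (by
    intro B hB
    rw [Finset.mem_image] at hB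
    obtain ⟨i, _, rfl⟩ := hB
    exact hA i)
  have hc : ∀ i, Commute F (F * A i) := fun i => hc' _ (Finset.mem_image_of_mem _ (Finset.mem_univ i))
  obtain ⟨D⟩ := exists_localData F (hdeg F hF)
  have := D.fin
  have _ : Fintype D.P := Fintype.ofFinite D.P
  refine ⟨Fintype.card D.P, Fintype.card (ι × D.P), fun m => ?_⟩
  -- code of a word
  let J := D.P × ((ι × D.P) → Fin (m + 1))
  let code : List ι → J := fun w =>
    ((run A D w).1, fun x => Fin.ofNat (m + 1) ((run A D w).2.count x))
  have hcode : ∀ w w' : List ι, w.length ≤ m → w'.length ≤ m → code w = code w' →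
      run A D w = run A D w' := by
    intro w w' hw hw' he
    have e1 : (run A D w).1 = (run A D w').1 := congrArg (fun j : J => j.1) he
    have e2 : (run A D w).2 = (run A D w').2 := by
      apply Multiset.ext.2
      intro x
      have e3 := congrFun (congrArg (fun j : J => j.2) he) x
      have e4 := congrArg Fin.val e3
      simp only [code, Fin.val_ofNat] at e4
      have l1 : (run A D w).2.count x < m + 1 := by
        have := Multiset.count_le_card x (run A D w).2
        rw [run_card] at this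
        omega
      have l2 : (run A D w').2.count x < m + 1 := by
        have := Multiset.count_le_card x (run A D w').2
        rw [run_card] at this
        omega
      rwa [Nat.mod_eq_of_lt l1, Nat.mod_eq_of_lt l2] at e4
    exact Prod.ext e1 e2
  -- map codes to classes
  let g : J → Quotient (eqvSetoid h) := fun j =>
    if hj : ∃ w : List ι, w ≠ [] ∧ w.length ≤ m ∧ code w = j
    then Quotient.mk (eqvSetoid h) (hj.choose.map A).prod
    else Quotient.mk (eqvSetoid h) 1
  have hsub : (Quotient.mk (eqvSetoid h)) '' words A m ⊆ g '' Set.univ := by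
    rintro c ⟨x, ⟨w, hw, hwm, rfl⟩, rfl⟩
    have hj : ∃ w' : List ι, w' ≠ [] ∧ w'.length ≤ m ∧ code w' = code w := ⟨w, hw, hwm, rfl⟩
    refine ⟨code w, trivial, ?_⟩
    simp only [g]
    rw [dif_pos hj]
    apply Quotient.sound
    show Eqv S _ _
    exact eqv_of_run h hdeg hA hF hc D hj.choose_spec.1
      (hcode _ _ hj.choose_spec.2.1 hwm hj.choose_spec.2.2)
  have hJ : Fintype.card J = Fintype.card D.P * (m + 1) ^ Fintype.card (ι × D.P) := by
    simp [J, Fintype.card_prod]
  calc classCount h A m ≤ (g '' Set.univ).ncard :=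
        Set.ncard_le_ncard hsub (Set.toFinite _)
    _ ≤ (Set.univ : Set J).ncard := Set.ncard_image_le (Set.toFinite _)
    _ = Fintype.card J := by rw [Set.ncard_univ, Nat.card_eq_fintype_card]
    _ = _ := hJ

include h hdeg in
theorem foelner_of_c3 : Foelner S := by
  classical
  intro 𝒜 h𝒜 ε hε
  obtain ⟨B0, hB0⟩ := h.ne
  -- index type: the elements of insert B0 𝒜
  let 𝒜' : Finset NCRat := insert B0 𝒜
  have h𝒜' : ∀ A ∈ 𝒜', A ∈ S := by
    intro A hA
    rw [Finset.mem_insert] at hA
    rcases hA with rfl | hA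
    · exact hB0
    · exact h𝒜 A hA
  let A : 𝒜' → NCRat := fun i => i.1
  have hA : ∀ i, A i ∈ S := fun i => h𝒜' _ i.2
  obtain ⟨C, q, hC⟩ := classCount_le h hdeg hA
  have hone : 1 ≤ classCount h A 1 := by
    unfold classCount
    rw [Nat.one_le_iff_ne_zero, ← Nat.pos_iff_ne_zero, Set.ncard_pos ((words_finite A 1).image _)]
    refine ⟨_, ⟨A ⟨B0, Finset.mem_insert_self _ _⟩, ⟨[⟨B0, Finset.mem_insert_self _ _⟩], ?_, ?_, ?_⟩, rfl⟩⟩
    · simp
    · simp
    · simp
  obtain ⟨m, hm, hgrow⟩ := exists_slow_growth (classCount h A) hone C q hC hε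
  obtain ⟨T, hT, hfine⟩ := h.fine (words_finite A (m + 1))
  have hWm : words A m ⊆ words A (m + 1) := words_mono A (Nat.le_succ m)
  have hE := classCount_eq h A hWm hT hfine
  have hE' := classCount_eq h A (Set.Subset.refl (words A (m + 1))) hT hfine
  set E : Set NCRat := (fun w => T * w) '' words A m with hEdef
  set E' : Set NCRat := (fun w => T * w) '' words A (m + 1) with hE'def
  have hEfin : E.Finite := (words_finite A m).image _
  have hE'fin : E'.Finite := (words_finite A (m + 1)).image _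
  have hEE' : E ⊆ E' := Set.image_mono hWm
  refine ⟨E, hEfin, ?_, ?_, ?_⟩
  · refine ⟨_, ⟨A ⟨B0, Finset.mem_insert_self _ _⟩, ⟨[⟨B0, Finset.mem_insert_self _ _⟩], ?_, ?_, ?_⟩, rfl⟩⟩
    · simp
    · simpa using hm
    · simp
  · rintro x ⟨w, ⟨l, hl, _, rfl⟩, rfl⟩
    exact h.mul_mem _ hT _ (prod_mem_of_ne_nil hA h.mul_mem l hl)
  · intro B hB
    have hBmem : B ∈ 𝒜' := Finset.mem_insert_of_mem hB
    have hsub : (fun w => w * B) '' E \ E ⊆ E' \ E := by
      rintro x ⟨⟨y, ⟨w, ⟨l, hl, hlm, rfl⟩, rfl⟩, rfl⟩, hx⟩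
      refine ⟨?_, hx⟩
      refine ⟨(l.map A).prod * B, ⟨l ++ [⟨B, hBmem⟩], ?_, ?_, ?_⟩, ?_⟩
      · simp
      · simp; omega
      · rw [List.map_append, List.prod_append]; simp [A]
      · simp only [mul_assoc]
    have h1 : ((fun w => w * B) '' E \ E).ncard ≤ (E' \ E).ncard :=
      Set.ncard_le_ncard hsub (hE'fin.subset Set.sdiff_subset)
    have h2 : (E' \ E).ncard + E.ncard = E'.ncard := by
      rw [Set.ncard_sdiff_add_ncard_of_subset hEE' hE'fin]
    have h3 : ((E' \ E).ncard : ℝ) = (classCount h A (m + 1) : ℝ) - classCount h A m := by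
      rw [← hE, ← hE', ← h2]; push_cast; ring
    have h4 : (((fun w => w * B) '' E \ E).ncard : ℝ) ≤ ((E' \ E).ncard : ℝ) := by exact_mod_cast h1
    rw [hE]
    calc (((fun w => w * B) '' E \ E).ncard : ℝ) ≤ (classCount h A (m + 1) : ℝ) - classCount h A m := by
          rw [← h3]; exact h4
      _ ≤ ε * classCount h A m := by linarith

include h hdeg in
theorem rAmen_of_c3 : RAmen S :=
  rAmen_of_foelner h.rc (foelner_of_c3 h hdeg)

end

end Pool.Agent.Helper65
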