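import Mathlib
import Pool.Agent.Helper65.SemiMain

/-!
Transfer to sets of rational functions.
-/

namespace Pool.Agent.Helper65

/-- Main theorem: condition 3 implies right amenability, stated with all notions unfolded. -/
theorem main_c3 (S : Set (RatFunc ℂ)) (hne : S.Nonempty)
    (hS : ∀ A ∈ S, ∀ B ∈ S, comp A B ∈ S) (hdeg : ∀ A ∈ S, 2 ≤ deg A)
    (h3 : ∀ A ∈ S, ∀ B ∈ S, ∃ k l : ℕ, 1 ≤ k ∧ 1 ≤ l ∧
      iter A (2 * k) = comp (iter A k) (iter B l) ∧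
      iter B (2 * l) = comp (iter B l) (iter A k)) :
    ∃ μ : Set (RatFunc ℂ) → ℝ, (∀ T, T ⊆ S → 0 ≤ μ T) ∧ μ S = 1 ∧
      (∀ T U, T ⊆ S → U ⊆ S → Disjoint T U → μ (T ∪ U) = μ T + μ U) ∧
      ∀ T, T ⊆ S → ∀ A ∈ S, μ {W | W ∈ S ∧ comp W A ∈ T} = μ T := by
  have hnc : ∀ A ∈ S, NC A := fun A hA => nc_of_deg (le_trans (by norm_num) (hdeg A hA))
  let S' : Set NCRat := {A | A.1 ∈ S}
  have hyp : SHyp S' := by
    refine ⟨fun a ha b hb => hS _ ha _ hb, fun a b c h => NCRat.right_cancel h, ?_, ?_⟩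
    · intro A hA B hB
      obtain ⟨k, l, hk, hl, h1, h2⟩ := h3 A.1 hA B.1 hB
      refine ⟨k, l, hk, hl, Subtype.ext ?_, Subtype.ext ?_⟩
      · rw [NCRat.coe_pow, NCRat.coe_mul, NCRat.coe_pow, NCRat.coe_pow, h1]
      · rw [NCRat.coe_pow, NCRat.coe_mul, NCRat.coe_pow, NCRat.coe_pow, h2]
    · obtain ⟨A, hA⟩ := hne
      exact ⟨⟨A, hnc A hA⟩, hA⟩
  obtain ⟨μ, h0, h1, hadd, hinv⟩ := rAmen_of_c3 hyp (fun A hA => hdeg A.1 hA)
  let pull : Set (RatFunc ℂ) → Set NCRat := fun T => {A | A.1 ∈ T}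
  refine ⟨fun T => μ (pull T), fun T _ => h0 _, h1, ?_, ?_⟩
  · intro T U _ _ hTU
    have : Disjoint (pull T) (pull U) := by
      rw [Set.disjoint_left] at hTU ⊢
      intro A hA hA'
      exact hTU hA hA'
    exact hadd (pull T) (pull U) this
  · intro T hT A hA
    exact hinv (pull T) (fun W hW => hT hW) ⟨A, hnc A hA⟩ hA

end Pool.Agent.Helper65
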