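import Mathlib
import Pool.Agent.Helper65.Rel3
import Pool.Agent.Helper65.SemiFinal

/-! The elementary implications 1 => 2, 3 => 4, 4 => 2. -/

open Set

namespace Pool.Agent.Helper65

/-- composition of a word -/
noncomputable def wordComp (A B : RatFunc ℂ) (w : List Bool) : RatFunc ℂ :=
  w.foldr (fun b X => comp (if b then A else B) X) RatFunc.X

theorem rev_of_amen {S : Set (RatFunc ℂ)} (hcomp : ∀ A ∈ S, ∀ B ∈ S, comp A B ∈ S)
    (h : ∃ μ : Set (RatFunc ℂ) → ℝ, (∀ T, T ⊆ S → 0 ≤ μ T) ∧ μ S = 1 ∧
      (∀ T U, T ⊆ S → U ⊆ S → Disjoint T U → μ (T ∪ U) = μ T + μ U) ∧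
      ∀ T, T ⊆ S → ∀ A ∈ S, μ {W | W ∈ S ∧ comp W A ∈ T} = μ T) :
    ∀ A ∈ S, ∀ B ∈ S, ∃ X ∈ S, ∃ Y ∈ S, comp X A = comp Y B := by
  obtain ⟨μ, h0, h1, hadd, hinv⟩ := h
  intro A hA B hB
  by_contra hcon
  push Not at hcon
  let T : RatFunc ℂ → Set (RatFunc ℂ) := fun C => {V | ∃ X ∈ S, V = comp X C}
  have hT : ∀ C ∈ S, T C ⊆ S := by
    rintro C hC _ ⟨X, hX, rfl⟩
    exact hcomp X hX C hC
  have hμT : ∀ C ∈ S, μ (T C) = 1 := by
    intro C hC
    rw [← hinv (T C) (hT C hC) C hC]
    have : {W | W ∈ S ∧ comp W C ∈ T C} = S := by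
      ext W
      exact ⟨fun h => h.1, fun h => ⟨h, W, h, rfl⟩⟩
    rw [this, h1]
  have hdis : Disjoint (T A) (T B) := by
    rw [Set.disjoint_left]
    rintro _ ⟨X, hX, rfl⟩ ⟨Y, hY, hXY⟩
    exact hcon X hX Y hY hXY
  have hU : T A ∪ T B ⊆ S := union_subset (hT A hA) (hT B hB)
  have e1 := hadd _ _ (hT A hA) (hT B hB) hdis
  have e2 := hadd (T A ∪ T B) (S \ (T A ∪ T B)) hU sdiff_subset disjoint_sdiff_right
  rw [union_sdiff_cancel hU, h1, e1, hμT A hA, hμT B hB] at e2
  have := h0 (S \ (T A ∪ T B)) sdiff_subset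
  linarith

lemma wordComp_cons (A B : RatFunc ℂ) (b : Bool) (w : List Bool) :
    wordComp A B (b :: w) = comp (if b then A else B) (wordComp A B w) := rfl

lemma wordComp_nil (A B : RatFunc ℂ) : wordComp A B [] = RatFunc.X := rfl

lemma wordComp_mem_or {S : Set (RatFunc ℂ)} (hcomp : ∀ A ∈ S, ∀ B ∈ S, comp A B ∈ S)
    {A B : RatFunc ℂ} (hA : A ∈ S) (hB : B ∈ S) (w : List Bool) :
    w = [] ∨ wordComp A B w ∈ S := by
  induction w with
  | nil => exact Or.inl rfl
  | cons b w ih =>
    right
    have hb : (if b then A else B) ∈ S := by cases b <;> simpa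
    rw [wordComp_cons]
    rcases ih with rfl | ih
    · rw [wordComp_nil, comp_X]; exact hb
    · exact hcomp _ hb _ ih

lemma wordComp_deg {A B : RatFunc ℂ} (hA : 1 ≤ deg A) (hB : 1 ≤ deg B) (w : List Bool) :
    1 ≤ deg (wordComp A B w) := by
  induction w with
  | nil => rw [wordComp_nil]; simp [deg]
  | cons b w ih =>
    have hb : 1 ≤ deg (if b then A else B) := by cases b <;> simpa
    rw [wordComp_cons, deg_comp (nc_of_deg ih)]
    exact Nat.mul_pos hb ih

lemma wordComp_append {A B : RatFunc ℂ} (hA : 1 ≤ deg A) (hB : 1 ≤ deg B) (w w' : List Bool) :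
    wordComp A B (w ++ w') = comp (wordComp A B w) (wordComp A B w') := by
  induction w with
  | nil => rw [List.nil_append, wordComp_nil, X_comp]
  | cons b w ih =>
    rw [List.cons_append, wordComp_cons, ih, wordComp_cons, comp_assoc]
    · exact nc_of_deg (wordComp_deg hA hB w)
    · exact nc_of_deg (wordComp_deg hA hB w')

lemma wordComp_replicate_true (A B : RatFunc ℂ) (n : ℕ) :
    wordComp A B (List.replicate n true) = iter A n := by
  induction n with
  | zero => rfl
  | succ n ih => rw [List.replicate_succ, wordComp_cons, ih, iter_succ]; rfl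

lemma wordComp_replicate_false (A B : RatFunc ℂ) (n : ℕ) :
    wordComp A B (List.replicate n false) = iter B n := by
  induction n with
  | zero => rfl
  | succ n ih => rw [List.replicate_succ, wordComp_cons, ih, iter_succ]; rfl

theorem nofree_of_c3 {S : Set (RatFunc ℂ)} (hdeg : ∀ A ∈ S, 2 ≤ deg A)
    (h3 : ∀ A ∈ S, ∀ B ∈ S, ∃ k l : ℕ, 1 ≤ k ∧ 1 ≤ l ∧
      iter A (2 * k) = comp (iter A k) (iter B l) ∧
      iter B (2 * l) = comp (iter B l) (iter A k)) :
    ¬ ∃ A ∈ S, ∃ B ∈ S, ∀ w w' : List Bool, w ≠ [] → w' ≠ [] → w ≠ w' →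
      wordComp A B w ≠ wordComp A B w' := by
  rintro ⟨A, hA, B, hB, h⟩
  obtain ⟨k, l, hk, hl, h1, -⟩ := h3 A hA B hB
  have hA1 : 1 ≤ deg A := le_trans one_le_two (hdeg A hA)
  have hB1 : 1 ≤ deg B := le_trans one_le_two (hdeg B hB)
  apply h (List.replicate (2 * k) true) (List.replicate k true ++ List.replicate l false)
  · intro e
    have := congrArg List.length e
    simp at this
    omega
  · intro e
    have := congrArg List.length e
    simp at this
    omega
  · intro e
    have hmem : false ∈ List.replicate k true ++ List.replicate l false := by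
      rw [List.mem_append]
      right
      rw [List.mem_replicate]
      exact ⟨by omega, rfl⟩
    rw [← e, List.mem_replicate] at hmem
    exact Bool.false_ne_true hmem.2
  · rw [wordComp_replicate_true, wordComp_append hA1 hB1, wordComp_replicate_true,
      wordComp_replicate_false, h1]

theorem rev_of_nofree {S : Set (RatFunc ℂ)} (hcomp : ∀ A ∈ S, ∀ B ∈ S, comp A B ∈ S)
    (hdeg : ∀ A ∈ S, 2 ≤ deg A)
    (h4 : ¬ ∃ A ∈ S, ∃ B ∈ S, ∀ w w' : List Bool, w ≠ [] → w' ≠ [] → w ≠ w' →
      wordComp A B w ≠ wordComp A B w') :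
    ∀ A ∈ S, ∀ B ∈ S, ∃ X ∈ S, ∃ Y ∈ S, comp X A = comp Y B := by
  intro A hA B hB
  by_contra hcon
  push Not at hcon
  apply h4
  have hA1 : 1 ≤ deg A := le_trans one_le_two (hdeg A hA)
  have hB1 : 1 ≤ deg B := le_trans one_le_two (hdeg B hB)
  have hA2 := hdeg A hA
  have hB2 := hdeg B hB
  -- appending on the right
  have hmul : ∀ w : List Bool, ∀ C ∈ S, comp C (wordComp A B w) ∈ S := by
    intro w C hC
    rcases wordComp_mem_or hcomp hA hB w with rfl | h
    · rw [wordComp_nil, comp_X]; exact hC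
    · exact hcomp _ hC _ h
  have hlast : ∀ (w : List Bool) (b : Bool), wordComp A B (w ++ [b]) =
      comp (wordComp A B w) (if b then A else B) := by
    intro w b
    rw [wordComp_append hA1 hB1, wordComp_cons, wordComp_nil, comp_X]
  have hne1 : ∀ (w : List Bool) (b : Bool), wordComp A B (w ++ [b]) ≠ RatFunc.X := by
    intro w b e
    have := congrArg deg e
    have hb1 : 1 ≤ deg (if b then A else B) := by cases b <;> simpa
    have hb2 : 2 ≤ deg (if b then A else B) := by cases b <;> simpa
    rw [hlast, deg_comp (nc_of_deg hb1)] at this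
    have h1 : deg (RatFunc.X : RatFunc ℂ) = 1 := by simp [deg]
    rw [h1] at this
    have := wordComp_deg hA1 hB1 w
    nlinarith
  have key : ∀ w w' : List Bool, wordComp A B w = wordComp A B w' → w = w' := by
    intro w
    induction w using List.reverseRecOn with
    | nil =>
      intro w' h
      rcases List.eq_nil_or_concat' w' with rfl | ⟨u, b, rfl⟩
      · rfl
      · exact absurd h.symm (hne1 u b)
    | append_singleton w b ih =>
      intro w' h
      rcases List.eq_nil_or_concat' w' with rfl | ⟨u, c, rfl⟩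
      · exact absurd h (hne1 w b)
      · rw [hlast, hlast] at h
        have hbc : b = c := by
          by_contra hbc
          have h' : comp (comp A (wordComp A B w)) (if b then A else B) =
              comp (comp A (wordComp A B u)) (if c then A else B) := by
            have hb1 : 1 ≤ deg (if b then A else B) := by cases b <;> simpa
            have hc1 : 1 ≤ deg (if c then A else B) := by cases c <;> simpa
            rw [comp_assoc _ (nc_of_deg (wordComp_deg hA1 hB1 w)) (nc_of_deg hb1), h,
              comp_assoc _ (nc_of_deg (wordComp_deg hA1 hB1 u)) (nc_of_deg hc1)]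
          cases b <;> cases c
          · exact hbc rfl
          · exact hcon _ (hmul u A hA) _ (hmul w A hA) (by simpa using h'.symm)
          · exact hcon _ (hmul w A hA) _ (hmul u A hA) (by simpa using h')
          · exact hbc rfl
        subst hbc
        have hb1 : 1 ≤ deg (if b then A else B) := by cases b <;> simpa
        rw [ih u (comp_injective (nc_of_deg hb1) h)]
  exact ⟨A, hA, B, hB, fun w w' _ _ hne e => hne (key w w' e)⟩

end Pool.Agent.Helper65
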