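import Mathlib
import Pool.Agent.Helper65.Rel3
import Pool.Agent.Helper65.Koe
import Pool.Agent.Helper65.BaseNTR
import Pool.Agent.Helper17.Dyn.Cls4

/-! The main dynamical step: right reversible with a non-special element implies condition 3. -/

open Complex Metric Set Filter Topology InnerProductSpace

namespace Pool.Agent.Helper65

/-- What the construction of a base system has to deliver. -/
def BaseSys (S : Set (RatFunc ℂ)) : Prop :=
  ∃ (d : ℕ) (f : C2 → C2) (G : C2 → ℝ) (Ξ : Set C2), 2 ≤ d ∧ IsLift d f ∧ IsGreen G ∧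
    (∀ v, v ≠ 0 → G (f v) = d * G v) ∧ Mixing G f Ξ ∧ SuppIn G Ξ ∧
    ∀ V ∈ S, GInv G (deg V) (RLift V)

/-- bundling -/
def toNC (A : RatFunc ℂ) (h : 1 ≤ deg A) : NCRat := ⟨A, nc_of_deg h⟩

theorem cond3_of_base {S : Set (RatFunc ℂ)} (hdeg : ∀ A ∈ S, 2 ≤ deg A) (hB : BaseSys S)
    {P : RatFunc ℂ} (hP : P ∈ S) (hPs : ¬ Special P) :
    ∀ A ∈ S, ∀ B ∈ S, ∃ k l : ℕ, 1 ≤ k ∧ 1 ≤ l ∧
      iter A (2 * k) = comp (iter A k) (iter B l) ∧
      iter B (2 * l) = comp (iter B l) (iter A k) := by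
  obtain ⟨d, f, G, Ξ, hd, hf, hG, hGf, hM, hSu, hGI⟩ := hB
  obtain ⟨N, h, lam, hN, D⟩ := exists_linData hd hf hG hGf hM hSu
  have h1 : ∀ A ∈ S, 1 ≤ deg A := fun A hA => le_trans one_le_two (hdeg A hA)
  have hT : ∀ c ∈ Tr (fun z => G (h z)), c = 0 := by
    intro c hc
    by_contra hc0
    exact hPs (Helper17.Dyn.special_of_tr D hc hc0 (hdeg P hP) (hGI P hP))
  have hrel : ∀ A ∈ S, ∀ B ∈ S, ∃ i j n : ℕ, 1 ≤ j ∧ 1 ≤ n ∧
      iter A (i + j) = comp (iter A i) (iter B n) := by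
    intro A hA B hB
    obtain ⟨i, j, n, hj, hn, h⟩ := relation_of_no_tr D hT (hdeg A hA) (hdeg B hB)
      (isLift_RLift (h1 A hA)) (isLift_RLift (h1 B hB)) (hGI A hA) (hGI B hB)
    exact ⟨i, j, n, hj, hn, iter_rel_of_par (h1 A hA) (h1 B hB) h⟩
  intro A hA B hB
  have conv : ∀ (U : RatFunc ℂ) (hU : U ∈ S) (V : RatFunc ℂ) (hV : V ∈ S),
      ∃ i j n : ℕ, 1 ≤ j ∧ 1 ≤ n ∧
      toNC U (h1 U hU) ^ (i + j) = toNC U (h1 U hU) ^ i * toNC V (h1 V hV) ^ n := by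
    intro U hU V hV
    obtain ⟨i, j, n, hj, hn, h⟩ := hrel U hU V hV
    refine ⟨i, j, n, hj, hn, Subtype.ext ?_⟩
    rw [NCRat.coe_mul, NCRat.coe_pow, NCRat.coe_pow, NCRat.coe_pow]
    exact h
  obtain ⟨k, l, hk, hl, e1, e2⟩ := cond3_of_rel_monoid NCRat.degHom
    (a := toNC A (h1 A hA)) (b := toNC B (h1 B hB)) (hdeg A hA) (hdeg B hB)
    (conv A hA B hB) (conv B hB A hA)
  refine ⟨k, l, hk, hl, ?_, ?_⟩
  · have := congrArg Subtype.val e1
    rw [NCRat.coe_mul, NCRat.coe_pow, NCRat.coe_pow, NCRat.coe_pow] at this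
    exact this
  · have := congrArg Subtype.val e2
    rw [NCRat.coe_mul, NCRat.coe_pow, NCRat.coe_pow, NCRat.coe_pow] at this
    exact this

end Pool.Agent.Helper65
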