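import Mathlib
import Pool.Agent.Helper65.HLink
import Pool.Agent.Helper65.Green

/-! Polynomial case: the homogeneous Green function attached to `g`. -/

open Complex Metric Set Filter Topology InnerProductSpace

namespace Pool.Agent.Helper65

/-- homogeneous Green function associated with `g` and the constant `c` at infinity -/
noncomputable def G0 (g : ℂ → ℝ) (c : ℝ) (v : C2) : ℝ :=
  if v.2 = 0 then Real.log ‖v.1‖ + c else Real.log ‖v.2‖ + g (v.1 / v.2)

structure GData (g : ℂ → ℝ) (c : ℝ) : Prop where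
  cont : Continuous g
  nn : ∀ z, 0 ≤ g z
  lim : Tendsto (fun z => g z - Real.log ‖z‖) (cocompact ℂ) (𝓝 c)
  harm : ∀ z, g z ≠ 0 → HarmonicAt g z

lemma G0_of_ne {g : ℂ → ℝ} {c : ℝ} {v : C2} (h : v.2 ≠ 0) :
    G0 g c v = Real.log ‖v.2‖ + g (v.1 / v.2) := by simp [G0, h]

lemma G0_of_eq {g : ℂ → ℝ} {c : ℝ} {v : C2} (h : v.2 = 0) :
    G0 g c v = Real.log ‖v.1‖ + c := by simp [G0, h]

lemma tendsto_div_cocompact {v : C2} (h1 : v.1 ≠ 0) (h2 : v.2 = 0) :
    Tendsto (fun w : C2 => w.1 / w.2) (𝓝[{w | w.2 ≠ 0}] v) (cocompact ℂ) := by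
  rw [← Metric.cobounded_eq_cocompact, ← tendsto_norm_atTop_iff_cobounded]
  have e : (fun w : C2 => ‖w.1 / w.2‖) = fun w => ‖w.1‖ * ‖w.2‖⁻¹ := by
    ext w; rw [norm_div, div_eq_mul_inv]
  rw [e]
  apply Tendsto.pos_mul_atTop (C := ‖v.1‖) (norm_pos_iff.2 h1)
  · exact (continuous_fst.norm.tendsto v).mono_left nhdsWithin_le_nhds
  · apply Filter.Tendsto.comp (tendsto_inv_nhdsGT_zero (𝕜 := ℝ))
    apply tendsto_nhdsWithin_iff.2
    constructor
    · have := (continuous_snd.norm.tendsto v).mono_left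
        (nhdsWithin_le_nhds (s := {w : C2 | w.2 ≠ 0}))
      rw [h2, norm_zero] at this
      exact this
    · filter_upwards [self_mem_nhdsWithin] with w hw
      exact norm_pos_iff.2 hw

lemma isGreen_G0 {g : ℂ → ℝ} {c : ℝ} (h : GData g c) : IsGreen (G0 g c) := by
  constructor
  · intro v hv
    have hv0 : v ≠ 0 := hv
    apply ContinuousAt.continuousWithinAt
    by_cases h2 : v.2 = 0
    · have h1 : v.1 ≠ 0 := by
        intro h1
        exact hv0 (Prod.ext h1 h2)
      have hn1 : ∀ᶠ w in 𝓝 v, w.1 ≠ 0 := continuous_fst.continuousAt.eventually_ne h1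
      have hE : Tendsto (fun w : C2 => if w.2 = 0 then c else g (w.1 / w.2) - Real.log ‖w.1 / w.2‖)
          (𝓝 v) (𝓝 c) := by
        rw [Metric.tendsto_nhds]
        intro ε hε
        have h3 := (Metric.tendsto_nhds.1 (h.lim.comp (tendsto_div_cocompact h1 h2))) ε hε
        rw [eventually_nhdsWithin_iff] at h3
        filter_upwards [h3] with w hw
        split_ifs with hw2
        · simpa using hε
        · exact hw hw2
      have hlog : Tendsto (fun w : C2 => Real.log ‖w.1‖) (𝓝 v) (𝓝 (Real.log ‖v.1‖)) :=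
        (continuous_fst.norm.tendsto v).log (norm_ne_zero_iff.2 h1)
      have := hlog.add hE
      show Tendsto (G0 g c) (𝓝 v) (𝓝 (G0 g c v))
      rw [G0_of_eq h2]
      apply this.congr'
      filter_upwards [hn1] with w hw
      by_cases hw2 : w.2 = 0
      · simp [G0, hw2]
      · simp only [G0, hw2, if_false]
        rw [norm_div, Real.log_div (norm_ne_zero_iff.2 hw) (norm_ne_zero_iff.2 hw2)]
        ring
    · have hn2 : ∀ᶠ w in 𝓝 v, w.2 ≠ 0 := continuous_snd.continuousAt.eventually_ne h2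
      have e : G0 g c =ᶠ[𝓝 v] fun w => Real.log ‖w.2‖ + g (w.1 / w.2) := by
        filter_upwards [hn2] with w hw
        exact G0_of_ne hw
      rw [continuousAt_congr e]
      apply ContinuousAt.add
      · exact (continuous_snd.norm.continuousAt).log (norm_ne_zero_iff.2 h2)
      · exact ContinuousAt.comp (f := fun w : C2 => w.1 / w.2) h.cont.continuousAt
          (continuous_fst.continuousAt.div continuous_snd.continuousAt h2)
  · intro t v ht hv
    by_cases h2 : v.2 = 0
    · have h1 : v.1 ≠ 0 := by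
        intro h1
        exact hv (Prod.ext h1 h2)
      rw [G0_of_eq h2, G0_of_eq (by simp [h2])]
      simp only [Prod.smul_fst, smul_eq_mul, norm_mul]
      rw [Real.log_mul (norm_ne_zero_iff.2 ht) (norm_ne_zero_iff.2 h1)]
      ring
    · rw [G0_of_ne h2, G0_of_ne (by simp [h2, ht])]
      simp only [Prod.smul_fst, Prod.smul_snd, smul_eq_mul, norm_mul]
      rw [Real.log_mul (norm_ne_zero_iff.2 ht) (norm_ne_zero_iff.2 h2), mul_div_mul_left _ _ ht]
      ring

lemma harm_G0 {g : ℂ → ℝ} {c : ℝ} (h : GData g c) {ψ : ℂ → C2} {x : ℂ} (hψ : AnalyticAt ℂ ψ x)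
    (h0 : ψ x ≠ 0) (h1 : (ψ x).2 = 0 ∨ g ((ψ x).1 / (ψ x).2) ≠ 0) :
    HarmonicAt (fun z => G0 g c (ψ z)) x := by
  have a1 := analyticAt_fst hψ
  have a2 := analyticAt_snd hψ
  -- the easy case
  have key : ∀ y, AnalyticAt ℂ ψ y → (ψ y).2 ≠ 0 → g ((ψ y).1 / (ψ y).2) ≠ 0 →
      HarmonicAt (fun z => G0 g c (ψ z)) y := by
    intro y hy hy2 hyg
    have b1 := analyticAt_fst hy
    have b2 := analyticAt_snd hy
    have e : (fun z => G0 g c (ψ z)) =ᶠ[𝓝 y]
        fun z => Real.log ‖(ψ z).2‖ + g ((ψ z).1 / (ψ z).2) := by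
      filter_upwards [b2.continuousAt.eventually_ne hy2] with z hz
      exact G0_of_ne hz
    rw [harmonicAt_congr_nhds e]
    exact (b2.harmonicAt_log_norm hy2).add
      (harmonicAt_comp (h := fun z => (ψ z).1 / (ψ z).2) (h.harm _ hyg) (b1.div b2 hy2))
  by_cases h2 : (ψ x).2 = 0
  · have h1' : (ψ x).1 ≠ 0 := fun e => h0 (Prod.ext e h2)
    rcases a2.eventually_eq_zero_or_eventually_ne_zero with hz | hz
    · have e : (fun z => G0 g c (ψ z)) =ᶠ[𝓝 x] fun z => Real.log ‖(ψ z).1‖ + c := by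
        filter_upwards [hz] with z hz
        exact G0_of_eq hz
      rw [harmonicAt_congr_nhds e]
      exact (a1.harmonicAt_log_norm h1').add (harmonicAt_const _ )
    · apply harmonicAt_of_punctured
      · have hc : ContinuousAt (G0 g c) (ψ x) :=
          ((isGreen_G0 h).cont (ψ x) h0).continuousAt (isOpen_compl_singleton.mem_nhds h0)
        exact ContinuousAt.comp (f := ψ) hc hψ.continuousAt
      · have hg : ∀ᶠ z in cocompact ℂ, g z ≠ 0 := by
          have hlog : Tendsto (fun z : ℂ => Real.log ‖z‖) (cocompact ℂ) atTop :=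
            Real.tendsto_log_atTop.comp (tendsto_norm_cocompact_atTop)
          have := h.lim.add_atTop hlog
          filter_upwards [this.eventually_gt_atTop 0] with z hz
          have : g z = g z - Real.log ‖z‖ + Real.log ‖z‖ := by ring
          rw [this]
          exact hz.ne'
        have hT : Tendsto ψ (𝓝[≠] x) (𝓝[{w | w.2 ≠ 0}] (ψ x)) :=
          tendsto_nhdsWithin_iff.2 ⟨hψ.continuousAt.tendsto.mono_left nhdsWithin_le_nhds, hz⟩
        have hT2 := (tendsto_div_cocompact h1' h2).comp hT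
        have han : ∀ᶠ z in 𝓝[≠] x, AnalyticAt ℂ ψ z :=
          hψ.eventually_analyticAt.filter_mono nhdsWithin_le_nhds
        filter_upwards [hT2.eventually hg, hz, han] with z hz1 hz2 hz3
        exact key z hz3 hz2 hz1
  · exact key x hψ h2 (h1.resolve_left h2)

/-- Invariance for lifts of polynomials. -/
lemma ginv_G0 {g : ℂ → ℝ} {c : ℝ} (h : GData g c) {d : ℕ} {f : C2 → C2} (hf : IsLift d f)
    {q : ℂ → ℂ} (hq : ∀ z, f (z, 1) = (q z, 1)) (hgq : ∀ z, g (q z) = d * g z) :
    ∀ v, v ≠ 0 → G0 g c (f v) = d * G0 g c v := by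
  have hG := isGreen_G0 h
  have h2 : ∀ v : C2, v.2 ≠ 0 → G0 g c (f v) = d * G0 g c v := by
    intro v hv
    have e : v = v.2 • ((v.1 / v.2, 1) : C2) := by
      ext <;> simp; field_simp
    have e2 : f v = v.2 ^ d • ((q (v.1 / v.2), 1) : C2) := by
      conv_lhs => rw [e]
      rw [hf.hom, hq]
    rw [e2, hG.hom _ _ (pow_ne_zero _ hv) (pt_ne_zero _), G0_of_ne hv, G0_of_ne (by simp)]
    simp only [div_one, norm_one, Real.log_one, zero_add, norm_pow, Real.log_pow, hgq]
    ring
  intro v hv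
  by_cases hv2 : v.2 = 0
  · have hne : (𝓝[{w : C2 | w.2 ≠ 0}] v).NeBot :=
      mem_closure_iff_nhdsWithin_neBot.1 (dense_snd_ne v)
    have hc : ContinuousAt (G0 g c) v :=
      (hG.cont v hv).continuousAt (isOpen_compl_singleton.mem_nhds hv)
    have hc' : ContinuousAt (G0 g c) (f v) :=
      (hG.cont (f v) (hf.nz v hv)).continuousAt (isOpen_compl_singleton.mem_nhds (hf.nz v hv))
    have t1 : Tendsto (fun w => G0 g c (f w)) (𝓝[{w : C2 | w.2 ≠ 0}] v) (𝓝 (G0 g c (f v))) :=
      (ContinuousAt.comp (f := f) hc' hf.diff.continuous.continuousAt).tendsto.mono_left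
        nhdsWithin_le_nhds
    have t2 : Tendsto (fun w => (d : ℝ) * G0 g c w) (𝓝[{w : C2 | w.2 ≠ 0}] v)
        (𝓝 (d * G0 g c v)) := (hc.tendsto.mono_left nhdsWithin_le_nhds).const_mul _
    refine tendsto_nhds_unique (t1.congr' ?_) t2
    filter_upwards [self_mem_nhdsWithin] with w hw
    exact h2 w hw
  · exact h2 v hv2

end Pool.Agent.Helper65
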