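import Mathlib
import Pool.Agent.Helper65.BaseNTR
import Pool.Agent.Helper60.RF.ClassAlg

/-! Polynomial case: conjugation to polynomials and the algebra of total ramification. -/

open Complex Metric Set Filter Topology InnerProductSpace

namespace Pool.Agent.Helper65

lemma eq_pow_of_unique_root {P : Polynomial ℂ} {r : ℂ} (h : ∀ z, P.eval z = 0 → z = r) :
    P = Polynomial.C P.leadingCoeff * (Polynomial.X - Polynomial.C r) ^ P.natDegree := by
  have hs := IsAlgClosed.splits P
  have hcard : P.natDegree = Multiset.card P.roots := hs.natDegree_eq_card_roots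
  have hrep : P.roots = Multiset.replicate P.natDegree r := by
    rw [Multiset.eq_replicate]
    refine ⟨hcard.symm, fun z hz => h z ?_⟩
    exact (Polynomial.mem_roots'.1 hz).2
  have := hs.eq_prod_roots
  rw [hrep] at this
  conv_lhs => rw [this]
  simp

/-- total ramification of the second iterate -/
lemma form_of_iter2 {P : Polynomial ℂ} (hP : 2 ≤ P.natDegree) {a b k : ℂ} {n : ℕ} (hn : 1 ≤ n)
    (hk : k ≠ 0) (h : ∀ z, P.eval (P.eval z) = b + k * (z - a) ^ n) :
    P = Polynomial.C P.leadingCoeff * (Polynomial.X - Polynomial.C a) ^ P.natDegree +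
      Polynomial.C a := by
  have hsurj : ∀ w : ℂ, ∃ z, P.eval z = w := by
    intro w
    have hd : (P - Polynomial.C w).degree ≠ 0 := by
      rw [Polynomial.degree_sub_C (by rw [← Polynomial.natDegree_pos_iff_degree_pos]; omega)]
      intro e
      have := Polynomial.natDegree_eq_zero_iff_degree_le_zero.2 e.le
      omega
    obtain ⟨z, hz⟩ := IsAlgClosed.exists_root _ hd
    refine ⟨z, ?_⟩
    have : (P - Polynomial.C w).eval z = 0 := hz
    rw [Polynomial.eval_sub, Polynomial.eval_C, sub_eq_zero] at this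
    exact this
  have hz : ∀ z, P.eval (P.eval z) = b → z = a := by
    intro z hz
    rw [h] at hz
    have h1 : k * (z - a) ^ n = 0 := by linear_combination hz
    have h2 := (mul_eq_zero.1 h1).resolve_left hk
    exact sub_eq_zero.1 ((pow_eq_zero_iff (by omega)).1 h2)
  have hr : ∀ r, P.eval r = b → r = P.eval a := by
    intro r hr
    obtain ⟨z, rfl⟩ := hsurj r
    rw [hz z hr]
  have hb1 : P.eval (P.eval a) = b := by
    obtain ⟨r, hr'⟩ := hsurj b
    rw [← hr r hr', hr']
  set b1 := P.eval a with hb1d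
  have e1 := eq_pow_of_unique_root (P := P - Polynomial.C b) (r := b1) (by
    intro z hz'
    rw [Polynomial.eval_sub, Polynomial.eval_C, sub_eq_zero] at hz'
    exact hr z hz')
  have e2 := eq_pow_of_unique_root (P := P - Polynomial.C b1) (r := a) (by
    intro z hz'
    rw [Polynomial.eval_sub, Polynomial.eval_C, sub_eq_zero] at hz'
    apply hz
    rw [hz', hb1])
  have hdeg : ∀ w : ℂ, (P - Polynomial.C w).natDegree = P.natDegree := fun w =>
    Polynomial.natDegree_sub_C
  have hlc : ∀ w : ℂ, (P - Polynomial.C w).leadingCoeff = P.leadingCoeff := by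
    intro w
    rw [Polynomial.leadingCoeff, hdeg, Polynomial.coeff_sub, Polynomial.coeff_C_of_ne_zero (by omega),
      sub_zero, Polynomial.leadingCoeff]
  rw [hdeg, hlc] at e1 e2
  have hl0 : P.leadingCoeff ≠ 0 := by
    rw [Polynomial.leadingCoeff_ne_zero]
    rintro rfl
    simp at hP
  have hba : b1 = a := by
    have d1 := congrArg (fun Q => (Polynomial.derivative Q).eval b1) e1
    have d2 := congrArg (fun Q => (Polynomial.derivative Q).eval b1) e2
    simp only [Polynomial.derivative_sub, Polynomial.derivative_C, sub_zero,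
      Polynomial.derivative_C_mul, Polynomial.derivative_X_sub_C_pow, Polynomial.eval_mul,
      Polynomial.eval_C, Polynomial.eval_pow, Polynomial.eval_sub, Polynomial.eval_X, sub_self] at d1 d2
    rw [zero_pow (by omega), mul_zero, mul_zero] at d1
    rw [d1] at d2
    have h3 := (mul_eq_zero.1 d2.symm).resolve_left hl0
    have h4 := (mul_eq_zero.1 h3).resolve_left (by
      have : (P.natDegree : ℂ) ≠ 0 := by exact_mod_cast (by omega : P.natDegree ≠ 0)
      exact this)
    exact sub_eq_zero.1 ((pow_eq_zero_iff (by omega)).1 h4)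
  rw [hba] at e2
  conv_lhs => rw [← sub_add_cancel P (Polynomial.C a), e2]

/-- data of the conjugation -/
structure Conj (e : C2) (M Mi : RatFunc ℂ) : Prop where
  dM : deg M = 1
  dMi : deg Mi = 1
  l : comp Mi M = RatFunc.X
  r : comp M Mi = RatFunc.X
  sec : ∀ v, (RLift M v).2 = 0 ↔ wd v e = 0

lemma isLift_m {e e' : C2} (h : wd e' e ≠ 0) : IsLift 1 (fun v => ((wd v e', wd v e) : C2)) := by
  have hnz : ∀ a b : ℂ, (a ≠ 0 ∨ b ≠ 0) → a • e' - b • e ≠ 0 := by
    intro a b hab h0
    have h1 := congrArg (fun v => wd v e) h0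
    have h2 := congrArg (fun v => wd v e') h0
    simp only [wd_sub_left, wd_smul_left, wd_self, mul_zero, sub_zero, wd_zero_left,
      zero_sub] at h1 h2
    have h3 := (mul_eq_zero.1 h1).resolve_right h
    have h4 := (mul_eq_zero.1 (neg_eq_zero.1 h2)).resolve_right (by
      rw [wd_swap]; exact neg_ne_zero.2 h)
    rcases hab with hab | hab
    · exact hab h3
    · exact hab h4
  refine ⟨?_, ?_, ?_, ?_⟩
  · unfold wd
    fun_prop
  · intro t v
    ext <;> simp [wd_smul_left]
  · intro v hv h0
    have h1 : wd v e' = 0 := congrArg Prod.fst h0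
    have h2 : wd v e = 0 := congrArg Prod.snd h0
    have := wd_plucker e' v e
    rw [h2, wd_swap e' v, h1] at this
    simp only [neg_zero, zero_smul, add_zero] at this
    exact hv ((smul_eq_zero.1 this).resolve_left h)
  · intro ξ hξ
    set η : C2 := ξ.2 • e' - ξ.1 • e with hη
    have hη0 : η ≠ 0 := hnz _ _ (fst_or_snd hξ).symm
    have hn : ‖η‖ ≠ 0 := norm_ne_zero_iff.2 hη0
    refine ⟨(‖η‖ : ℂ), fun _ => ((‖η‖ : ℂ))⁻¹ • η, by exact_mod_cast hn, fun _ => ?_, fun v => ?_⟩
    · rw [norm_smul, norm_inv]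
      simp [hn]
    · have hn' : (‖η‖ : ℂ) ≠ 0 := by exact_mod_cast hn
      simp only [Finset.univ_unique, Fin.default_eq_zero, Finset.prod_singleton, wd_smul_right]
      rw [← mul_assoc, mul_inv_cancel₀ hn', one_mul, hη, wd_sub_right, wd_smul_right,
        wd_smul_right]
      simp only [wd]
      ring

lemma exists_conj {e : C2} (he : e ≠ 0) : ∃ M Mi : RatFunc ℂ, Conj e M Mi := by
  obtain ⟨e', he'⟩ : ∃ e' : C2, wd e' e ≠ 0 := by
    rcases fst_or_snd he with h | h
    · exact ⟨(0, 1), by simpa [wd] using h⟩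
    · exact ⟨(1, 0), by simpa [wd] using h⟩
  have hdet : e'.2 * (-e.1) - (-e'.1) * e.2 ≠ 0 := by
    intro h0
    apply he'
    simp only [wd]
    linear_combination h0
  set M := mob e'.2 (-e'.1) e.2 (-e.1) with hM
  have hdM : deg M = 1 := deg_mob hdet
  obtain ⟨Mi, hMi, h1, h2⟩ := exists_mobInv hdM
  refine ⟨M, Mi, hdM, hMi, h1, h2, ?_⟩
  have hLM : IsLift 1 (RLift M) := by
    have := isLift_RLift (A := M) hdM.ge
    rwa [hdM] at this
  have hpoly : M.num * (Polynomial.C e.2 * Polynomial.X + Polynomial.C (-e.1)) =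
      M.denom * (Polynomial.C e'.2 * Polynomial.X + Polynomial.C (-e'.1)) := by
    have hden : (RatFunc.C e.2 * RatFunc.X + RatFunc.C (-e.1) : RatFunc ℂ) ≠ 0 :=
      lin_ne_zero_mob (by
        rcases fst_or_snd he with h | h
        · exact Or.inr (neg_ne_zero.2 h)
        · exact Or.inl h)
    have h3 : algebraMap (Polynomial ℂ) (RatFunc ℂ) M.num /
        algebraMap (Polynomial ℂ) (RatFunc ℂ) M.denom =
        (RatFunc.C e'.2 * RatFunc.X + RatFunc.C (-e'.1)) /
        (RatFunc.C e.2 * RatFunc.X + RatFunc.C (-e.1)) := by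
      rw [RatFunc.num_div_denom]
      rfl
    rw [div_eq_div_iff (RatFunc.algebraMap_ne_zero M.denom_ne_zero) hden] at h3
    apply RatFunc.algebraMap_injective ℂ
    simp only [map_mul, map_add, RatFunc.algebraMap_C, RatFunc.algebraMap_X]
    rw [h3, mul_comm]
  obtain ⟨c, hc, hcm⟩ := lift_unique hLM (isLift_m he')
    (par_of_dense hLM (isLift_m he') (U := univ) dense_univ (by
      intro z _
      rw [RLift_pt]
      have := congrArg (Polynomial.eval z) hpoly
      simp only [Polynomial.eval_mul, Polynomial.eval_add, Polynomial.eval_C,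
        Polynomial.eval_X] at this
      simp only [wd]
      linear_combination this))
  intro v
  rw [hcm]
  simp [hc]

/-- conjugating by `M` turns maps fixing `e` totally into polynomials -/
lemma Conj.poly {e : C2} {M Mi : RatFunc ℂ} (hc : Conj e M Mi) {V : RatFunc ℂ} (hV : 1 ≤ deg V)
    (hfib : ∀ v : C2, v ≠ 0 → (wd (RLift V v) e = 0 → wd v e = 0)) :
    ∃ Q : Polynomial ℂ, comp (algebraMap (Polynomial ℂ) (RatFunc ℂ) Q) M = comp M V := by
  have nM : NC M := nc_of_deg hc.dM.ge
  have nMi : NC Mi := nc_of_deg hc.dMi.ge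
  have nV : NC V := nc_of_deg hV
  set R := comp (comp M V) Mi with hR
  have hRM : comp R M = comp M V := by
    rw [hR, comp_assoc _ nMi nM, hc.l, comp_X]
  have hdMV : deg (comp M V) = deg V := by rw [deg_comp nV, hc.dM, one_mul]
  have hdR : deg R = deg V := by rw [hR, deg_comp nMi, hdMV, hc.dMi, mul_one]
  have hR1 : 1 ≤ deg R := by rw [hdR]; exact hV
  have hLM := isLift_RLift (A := M) hc.dM.ge
  have hLMi := isLift_RLift (A := Mi) hc.dMi.ge
  have hroot : ∀ z : ℂ, R.denom.eval z ≠ 0 := by
    intro z hz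
    obtain ⟨c1, hc1, e1⟩ := RLift_comp (A := M) (B := Mi) hc.dM.ge hc.dMi.ge
    obtain ⟨c2, hc2, e2⟩ := RLift_comp (A := R) (B := M) hR1 hc.dM.ge
    obtain ⟨c3, hc3, e3⟩ := RLift_comp (A := M) (B := V) hc.dM.ge hV
    set v := RLift Mi (z, 1) with hv
    have hv0 : v ≠ 0 := hLMi.nz _ (pt_ne_zero z)
    have hMv : RLift M v = c1 • ((z, 1) : C2) := by rw [hv, e1, hc.r, RLift_X]
    have h2 : (RLift R (RLift M v)).2 = 0 := by
      rw [hMv, (isLift_RLift hR1).hom, RLift_pt]
      simp [hz]
    rw [e2, hRM] at h2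
    have h3 : (RLift (comp M V) v).2 = 0 := by
      simpa [hc2] using h2
    have h4 : (RLift M (RLift V v)).2 = 0 := by
      rw [e3]; simp [h3]
    have h5 := hfib v hv0 ((hc.sec _).1 h4)
    have h6 := (hc.sec v).2 h5
    rw [hMv] at h6
    simp [hc1] at h6
  have hden : R.denom = 1 := by
    have h0 : R.denom.natDegree = 0 := by
      by_contra hne
      have : R.denom.degree ≠ 0 := by
        intro e
        exact hne (Polynomial.natDegree_eq_zero_iff_degree_le_zero.2 e.le)
      obtain ⟨z, hz⟩ := IsAlgClosed.exists_root _ this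
      exact hroot z hz
    exact (RatFunc.monic_denom R : R.denom.Monic).natDegree_eq_zero.1 h0
  refine ⟨R.num, ?_⟩
  have : algebraMap (Polynomial ℂ) (RatFunc ℂ) R.num = R := by
    conv_rhs => rw [← RatFunc.num_div_denom R, hden]
    simp
  rw [this, hRM]

lemma comp_algebraMap_algebraMap {Q : Polynomial ℂ} (hQ : 1 ≤ Q.natDegree) (P : Polynomial ℂ) :
    comp (algebraMap (Polynomial ℂ) (RatFunc ℂ) P) (algebraMap (Polynomial ℂ) (RatFunc ℂ) Q) =
      algebraMap (Polynomial ℂ) (RatFunc ℂ) (P.comp Q) := by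
  rw [comp_algebraMap (nc_of_deg (by rw [deg_algebraMap]; exact hQ))]
  rw [Polynomial.comp, Polynomial.hom_eval₂]
  congr 1

lemma RLift_algebraMap (Q : Polynomial ℂ) (z : ℂ) :
    RLift (algebraMap (Polynomial ℂ) (RatFunc ℂ) Q) (z, 1) = (Q.eval z, 1) := by
  rw [RLift_pt]
  simp

end Pool.Agent.Helper65
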