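import Mathlib
import Pool.Agent.Helper65.PolyA
import Pool.Agent.Helper65.PolyB
import Pool.Agent.Helper65.Main
import Pool.Agent.Helper60.RF.PG3

/-! Polynomial case: the base system. -/

open Complex Metric Set Filter Topology InnerProductSpace

namespace Pool.Agent.Helper65

/-- embedding of polynomials -/
noncomputable abbrev aM (Q : Polynomial ℂ) : RatFunc ℂ := algebraMap (Polynomial ℂ) (RatFunc ℂ) Q

lemma aM_comp {Q : Polynomial ℂ} (hQ : 1 ≤ Q.natDegree) (P : Polynomial ℂ) :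
    comp (aM P) (aM Q) = aM (P.comp Q) := comp_algebraMap_algebraMap hQ P

lemma isGreen_pull {G : C2 → ℝ} (hG : IsGreen G) {m : C2 → C2} (hm : IsLift 1 m) (k : ℝ) :
    IsGreen (fun v => G (m v) + k) := by
  constructor
  · apply ContinuousOn.add _ continuousOn_const
    exact hG.cont.comp hm.diff.continuous.continuousOn (fun v hv => hm.nz v hv)
  · intro t v ht hv
    show G (m (t • v)) + k = _
    rw [hm.hom, pow_one, hG.hom t _ ht (hm.nz v hv)]
    ring

/-- a polynomial conjugate to a power map is special -/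
lemma special_of_pow {M Mi : RatFunc ℂ} {e : C2} (hc : Conj e M Mi) {P : RatFunc ℂ}
    (hP : 2 ≤ deg P) {Q : Polynomial ℂ} (hQ : comp (aM Q) M = comp M P) (hQd : Q.natDegree = deg P)
    {a c : ℂ} (h : Q = Polynomial.C c * (Polynomial.X - Polynomial.C a) ^ Q.natDegree +
      Polynomial.C a) : Special P := by
  have nM : NC M := nc_of_deg hc.dM.ge
  have nMi : NC Mi := nc_of_deg hc.dMi.ge
  have nP : NC P := nc_of_deg (by omega)
  have hc0 : c ≠ 0 := by
    rintro rfl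
    rw [Polynomial.C_0, zero_mul, zero_add] at h
    have := congrArg Polynomial.natDegree h
    rw [Polynomial.natDegree_C] at this
    omega
  have hPMi : comp P Mi = comp Mi (aM Q) := by
    have nQ : NC (aM Q) := nc_of_deg (by rw [deg_algebraMap]; omega)
    have h1 : comp (comp Mi (comp (aM Q) M)) Mi = comp (comp Mi (comp M P)) Mi := by rw [hQ]
    rw [← comp_assoc Mi nM nP, hc.l, X_comp, ← comp_assoc Mi nQ nM,
      comp_assoc (comp Mi (aM Q)) nM nMi, hc.r, comp_X] at h1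
    exact h1.symm
  set T : RatFunc ℂ := aM (Polynomial.X + Polynomial.C a) with hT
  have dT : deg T = 1 := by rw [hT, deg_algebraMap, Polynomial.natDegree_X_add_C]
  have nT : NC T := nc_of_deg dT.ge
  have nQ : NC (aM Q) := nc_of_deg (by rw [deg_algebraMap]; omega)
  have dF : deg (comp Mi T) = 1 := by rw [deg_comp nT, dT, hc.dMi]
  apply special_of_semiconj hP (F := comp Mi T) (Or.inl dF) hc0 (n := (Q.natDegree : ℤ))
  have e1 : (RatFunc.C c * RatFunc.X ^ (Q.natDegree : ℤ) : RatFunc ℂ) =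
      aM (Polynomial.C c * Polynomial.X ^ Q.natDegree) := by
    simp [aM]
  have nE : NC (aM (Polynomial.C c * Polynomial.X ^ Q.natDegree)) := nc_of_deg (by
    rw [deg_algebraMap, Polynomial.natDegree_C_mul_X_pow _ _ hc0]; omega)
  rw [e1, ← comp_assoc P nMi nT, hPMi, comp_assoc Mi nQ nT, comp_assoc Mi nT nE]
  congr 1
  rw [hT, comp_algebraMap_algebraMap (by rw [Polynomial.natDegree_X_add_C]),
    comp_algebraMap_algebraMap (by rw [Polynomial.natDegree_C_mul_X_pow _ _ hc0]; omega)]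
  congr 1
  conv_lhs => rw [h]
  simp

lemma alpha_ne {P2 : Polynomial ℂ} (hP2 : 1 ≤ P2.natDegree) {b k α β : ℂ} {D : ℕ}
    (h : ∀ z, P2.eval z = b + k * (z * α - β) ^ D) : k ≠ 0 ∧ α ≠ 0 := by
  have key : ¬ ∃ b', ∀ z, P2.eval z = b' := by
    rintro ⟨b', hb'⟩
    have : P2 = Polynomial.C b' := Polynomial.funext fun z => by simp [hb']
    rw [this, Polynomial.natDegree_C] at hP2
    omega
  constructor
  · rintro rfl
    exact key ⟨b, fun z => by rw [h, zero_mul, add_zero]⟩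
  · rintro rfl
    exact key ⟨b + k * (-β) ^ D, fun z => by rw [h, mul_zero, zero_sub]⟩

theorem base_of_poly {S : Set (RatFunc ℂ)} (hcomp : ∀ A ∈ S, ∀ B ∈ S, comp A B ∈ S)
    (hdeg : ∀ A ∈ S, 2 ≤ deg A) (hrev : ∀ A ∈ S, ∀ B ∈ S, ∃ X ∈ S, ∃ Y ∈ S, comp X A = comp Y B)
    {P : RatFunc ℂ} (hP : P ∈ S) (hPs : ¬ Special P) {e : C2} (he : e ≠ 0)
    (hfib : ∀ V ∈ S, ∀ v : C2, v ≠ 0 → (wd (RLift V v) e = 0 ↔ wd v e = 0)) : BaseSys S := by
  obtain ⟨M, Mi, hc⟩ := exists_conj he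
  have nM : NC M := nc_of_deg hc.dM.ge
  have nMi : NC Mi := nc_of_deg hc.dMi.ge
  have h1 : ∀ A ∈ S, 1 ≤ deg A := fun A hA => le_trans one_le_two (hdeg A hA)
  have hpoly : ∀ V ∈ S, ∃ Q : Polynomial ℂ, comp (aM Q) M = comp M V := fun V hV =>
    hc.poly (h1 V hV) (fun v hv => (hfib V hV v hv).1)
  have hdQ : ∀ (Q : Polynomial ℂ), ∀ V ∈ S, comp (aM Q) M = comp M V → Q.natDegree = deg V := by
    intro Q V hV hQ
    have := congrArg deg hQ
    rw [deg_comp nM, deg_comp (nc_of_deg (h1 V hV)), hc.dM, deg_algebraMap, mul_one, one_mul] at this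
    exact this
  let S' : Set (Polynomial ℂ) := {Q | ∃ V ∈ S, comp (aM Q) M = comp M V}
  have hS'deg : ∀ V ∈ S', 2 ≤ V.natDegree := by
    rintro Q ⟨V, hV, hQ⟩
    rw [hdQ Q V hV hQ]
    exact hdeg V hV
  have hmul : ∀ Q1 V1 Q2 V2, V1 ∈ S → V2 ∈ S → comp (aM Q1) M = comp M V1 →
      comp (aM Q2) M = comp M V2 → comp (aM (Q1.comp Q2)) M = comp M (comp V1 V2) := by
    intro Q1 V1 Q2 V2 hV1 hV2 e1 e2
    have n1 : NC V1 := nc_of_deg (h1 V1 hV1)
    have n2 : NC V2 := nc_of_deg (h1 V2 hV2)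
    have hq2 : 1 ≤ Q2.natDegree := by rw [hdQ Q2 V2 hV2 e2]; exact h1 V2 hV2
    have nq2 : NC (aM Q2) := nc_of_deg (by rw [deg_algebraMap]; exact hq2)
    rw [← aM_comp hq2, comp_assoc _ nq2 nM, e2, ← comp_assoc _ nM n2, e1,
      comp_assoc _ n1 n2]
  have hS'comp : ∀ A ∈ S', ∀ B ∈ S', A.comp B ∈ S' := by
    rintro Q1 ⟨V1, hV1, e1⟩ Q2 ⟨V2, hV2, e2⟩
    exact ⟨comp V1 V2, hcomp _ hV1 _ hV2, hmul _ _ _ _ hV1 hV2 e1 e2⟩
  have hS'rev : ∀ A ∈ S', ∀ B ∈ S', ∃ X ∈ S', ∃ Y ∈ S', X.comp A = Y.comp B := by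
    rintro Q1 ⟨V1, hV1, e1⟩ Q2 ⟨V2, hV2, e2⟩
    obtain ⟨X, hX, Y, hY, hXY⟩ := hrev V1 hV1 V2 hV2
    obtain ⟨QX, hQX⟩ := hpoly X hX
    obtain ⟨QY, hQY⟩ := hpoly Y hY
    refine ⟨QX, ⟨X, hX, hQX⟩, QY, ⟨Y, hY, hQY⟩, ?_⟩
    apply RatFunc.algebraMap_injective ℂ
    apply comp_injective nM
    rw [hmul QX X Q1 V1 hX hV1 hQX e1, hmul QY Y Q2 V2 hY hV2 hQY e2, hXY]
  obtain ⟨P', hP'⟩ := hpoly P hP
  have hP'S : P' ∈ S' := ⟨P, hP, hP'⟩
  have hP1 : ¬ ∃ a c : ℂ, P' = Polynomial.C c * (Polynomial.X - Polynomial.C a) ^ P'.natDegree +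
      Polynomial.C a := by
    rintro ⟨a, c, h⟩
    exact hPs (special_of_pow hc (hdeg P hP) hP' (hdQ P' P hP hP') h)
  obtain ⟨g, g1, g2, ⟨c, g3⟩, g4, g5⟩ := poly_common hS'deg hS'comp hS'rev hP'S hP1
  have hg : GData g c := ⟨g1, g2, g3, g4⟩
  have hG0 := isGreen_G0 hg
  set P2 := P'.comp P' with hP2
  have hP2S : P2 ∈ S' := hS'comp _ hP'S _ hP'S
  have hD : 2 ≤ P2.natDegree := hS'deg _ hP2S
  set D := P2.natDegree with hDdef
  have hLM : IsLift 1 (RLift M) := by
    have := isLift_RLift (A := M) hc.dM.ge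
    rwa [hc.dM] at this
  have hLMi : IsLift 1 (RLift Mi) := by
    have := isLift_RLift (A := Mi) hc.dMi.ge
    rwa [hc.dMi] at this
  have hLQ : ∀ Q ∈ S', IsLift Q.natDegree (RLift (aM Q)) := by
    intro Q hQ
    have := isLift_RLift (A := aM Q) (by rw [deg_algebraMap]; have := hS'deg Q hQ; omega)
    rwa [deg_algebraMap] at this
  have hgQ : ∀ Q ∈ S', ∀ v, v ≠ 0 → G0 g c (RLift (aM Q) v) = Q.natDegree * G0 g c v := by
    intro Q hQ
    exact ginv_G0 hg (hLQ Q hQ) (q := fun z => Q.eval z) (fun z => RLift_algebraMap Q z)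
      (g5 Q hQ)
  have hF := hLQ P2 hP2S
  have hf : IsLift D (fun v => RLift Mi (RLift (aM P2) (RLift M v))) := by
    have := isLift_comp hLMi (isLift_comp hF hLM)
    simpa using this
  obtain ⟨c1, hc1, e1⟩ := RLift_comp (A := M) (B := Mi) hc.dM.ge hc.dMi.ge
  obtain ⟨c2, hc2, e2⟩ := RLift_comp (A := Mi) (B := M) hc.dMi.ge hc.dM.ge
  rw [hc.r] at e1
  rw [hc.l] at e2
  simp only [RLift_X] at e1 e2
  set k : ℝ := Real.log ‖c1‖ / (D - 1) with hk
  have hD1 : (D : ℝ) - 1 ≠ 0 := by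
    have : (2 : ℝ) ≤ D := by exact_mod_cast hD
    linarith
  have hG := isGreen_pull hG0 hLM k
  have hGf : ∀ v, v ≠ 0 → G0 g c (RLift M (RLift Mi (RLift (aM P2) (RLift M v)))) + k =
      D * (G0 g c (RLift M v) + k) := by
    intro v hv
    have n1 := hLM.nz v hv
    have n2 := hF.nz _ n1
    rw [e1, hG0.hom _ _ hc1 n2, hgQ P2 hP2S _ n1]
    have : Real.log ‖c1‖ = (D - 1) * k := by rw [hk]; field_simp
    rw [this]
    ring
  -- the exceptional set
  let Ξ : Set C2 := {v | v = 0 ∨ Real.exp (G0 g c (RLift M v)) ≤ ‖(RLift M v).2‖}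
  have hΞ1 : ∀ v, v ≠ 0 → v ∈ Ξ → (RLift M v).2 ≠ 0 ∧ g ((RLift M v).1 / (RLift M v).2) = 0 := by
    intro v hv hvΞ
    have h2 : Real.exp (G0 g c (RLift M v)) ≤ ‖(RLift M v).2‖ := hvΞ.resolve_left hv
    have h3 : (RLift M v).2 ≠ 0 := by
      intro h0
      rw [h0, norm_zero] at h2
      exact absurd h2 (not_le.2 (Real.exp_pos _))
    refine ⟨h3, ?_⟩
    rw [G0_of_ne h3, Real.exp_add, Real.exp_log (norm_pos_iff.2 h3)] at h2
    have h4 : Real.exp (g ((RLift M v).1 / (RLift M v).2)) ≤ 1 := by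
      by_contra hcon
      push Not at hcon
      have := mul_lt_mul_of_pos_left hcon (norm_pos_iff.2 h3)
      rw [mul_one] at this
      linarith
    exact le_antisymm (Real.exp_le_one_iff.1 h4) (g2 _)
  have hΞ2 : ∀ v, v ≠ 0 → (RLift M v).2 ≠ 0 → g ((RLift M v).1 / (RLift M v).2) = 0 → v ∈ Ξ := by
    intro v hv h3 h4
    right
    rw [G0_of_ne h3, h4, add_zero, Real.exp_log (norm_pos_iff.2 h3)]
  have hback : BackInv (fun v => RLift Mi (RLift (aM P2) (RLift M v))) Ξ := by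
    refine ⟨?_, ?_, ?_⟩
    · rw [← isOpen_compl_iff, isOpen_iff_mem_nhds]
      intro v hv
      have hv0 : v ≠ 0 := fun h => hv (Or.inl h)
      have hv1 : ‖(RLift M v).2‖ < Real.exp (G0 g c (RLift M v)) := by
        by_contra hcon
        exact hv (Or.inr (not_lt.1 hcon))
      have hcM : ContinuousAt (fun w => G0 g c (RLift M w)) v := by
        have hc' : ContinuousAt (G0 g c) (RLift M v) :=
          (hG0.cont _ (hLM.nz v hv0)).continuousAt
            (isOpen_compl_singleton.mem_nhds (hLM.nz v hv0))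
        exact ContinuousAt.comp (f := RLift M) hc' hLM.diff.continuous.continuousAt
      have hc2' : ContinuousAt (fun w => ‖(RLift M w).2‖) v :=
        (hLM.diff.continuous.snd.norm).continuousAt
      have ev1 : ∀ᶠ w in 𝓝 v, w ≠ 0 := isOpen_compl_singleton.mem_nhds hv0
      have ev2 : ∀ᶠ w in 𝓝 v, ‖(RLift M w).2‖ < Real.exp (G0 g c (RLift M w)) :=
        hc2'.eventually_lt (Real.continuous_exp.continuousAt.comp hcM) hv1
      filter_upwards [ev1, ev2] with w hw1 hw2 hw3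
      rcases hw3 with hw3 | hw3
      · exact hw1 hw3
      · exact absurd hw3 (not_le.2 hw2)
    · intro t ξ hξ
      by_cases ht : t = 0
      · left; rw [ht, zero_smul]
      by_cases hξ0 : ξ = 0
      · left; rw [hξ0, smul_zero]
      obtain ⟨h3, h4⟩ := hΞ1 ξ hξ0 hξ
      apply hΞ2 _ (smul_ne_zero ht hξ0)
      · rw [hLM.hom]; simp [ht, h3]
      · rw [hLM.hom]
        simp only [pow_one, Prod.smul_fst, Prod.smul_snd, smul_eq_mul]
        rw [mul_div_mul_left _ _ ht, h4]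
    · intro η ξ hη hξ hξ0 hpar
      obtain ⟨h3, h4⟩ := hΞ1 ξ hξ0 hξ
      have n1 := hLM.nz η hη
      have n2 := hF.nz _ n1
      have n3 := hLMi.nz _ n2
      obtain ⟨t, ht, e⟩ := (par_iff' n3 hξ0).1 hpar
      have e3 : c1 • RLift (aM P2) (RLift M η) = t • RLift M ξ := by
        rw [← e1, e, hLM.hom, pow_one]
      have h5 : (RLift (aM P2) (RLift M η)).2 ≠ 0 := by
        intro h0
        have := congrArg Prod.snd e3
        simp only [Prod.smul_snd, smul_eq_mul, h0, mul_zero] at this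
        exact (mul_ne_zero ht h3) this.symm
      have h6 : (RLift M η).2 ≠ 0 := by
        intro h0
        have hw : RLift M η = (RLift M η).1 • ((1, 0) : C2) := by
          ext <;> simp [h0]
        apply h5
        rw [hw, hF.hom]
        have : (RLift (aM P2) ((1, 0) : C2)).2 = 0 := by
          show homP _ (aM P2).denom _ = 0
          rw [homP_of_snd_eq (by rfl), deg_algebraMap]
          simp only [aM, RatFunc.denom_algebraMap]
          rw [Polynomial.coeff_one, if_neg (by omega)]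
          ring
        simp [this]
      have h7 : (RLift (aM P2) (RLift M η)).1 / (RLift (aM P2) (RLift M η)).2 =
          (RLift M ξ).1 / (RLift M ξ).2 := by
        have a1 := congrArg Prod.fst e3
        have a2 := congrArg Prod.snd e3
        simp only [Prod.smul_fst, Prod.smul_snd, smul_eq_mul] at a1 a2
        rw [div_eq_div_iff h5 h3]
        have : c1 * ((RLift (aM P2) (RLift M η)).1 * (RLift M ξ).2 -
            (RLift M ξ).1 * (RLift (aM P2) (RLift M η)).2) = 0 := by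
          linear_combination (RLift M ξ).2 * a1 - (RLift M ξ).1 * a2
        have := (mul_eq_zero.1 this).resolve_left hc1
        linear_combination this
      apply hΞ2 η hη h6
      have h8 : (RLift (aM P2) (RLift M η)).1 / (RLift (aM P2) (RLift M η)).2 =
          P2.eval ((RLift M η).1 / (RLift M η).2) := by
        have hw : RLift M η = (RLift M η).2 • (((RLift M η).1 / (RLift M η).2, 1) : C2) := by
          ext
          · simp; field_simp
          · simp
        conv_lhs => rw [hw]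
        rw [hF.hom, RLift_algebraMap]
        simp [h6]
      have h9 := g5 P2 hP2S ((RLift M η).1 / (RLift M η).2)
      rw [← h8, h7, h4] at h9
      have h10 : (P2.natDegree : ℝ) ≠ 0 := by
        have : P2.natDegree ≠ 0 := by omega
        exact_mod_cast this
      exact (mul_eq_zero.1 h9.symm).resolve_left h10
  have hNTR : NTR D (fun v => RLift Mi (RLift (aM P2) (RLift M v))) Ξ := by
    rintro ξ hξ hξ0 ⟨κ, η, hκη⟩
    obtain ⟨h3, -⟩ := hΞ1 ξ hξ0 hξ
    -- linear forms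
    obtain ⟨κ1, ζs, hκ1, hζs, hlin⟩ := hLMi.fac ξ hξ0
    set ζ := ζs 0 with hζ
    have hlin' : ∀ w, wd (RLift Mi w) ξ = κ1 * wd w ζ := by
      intro w
      rw [hlin w]
      simp [hζ]
    have hζ2 : ζ.2 ≠ 0 := by
      have h5 := hlin' (RLift M ξ)
      rw [e2, wd_smul_left, wd_self, mul_zero] at h5
      have h6 := (mul_eq_zero.1 h5.symm).resolve_left hκ1
      intro h7
      have hζ0 : ζ ≠ 0 := fun e => by
        have := hζs 0
        rw [← hζ, e, norm_zero] at this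
        exact zero_ne_one this
      obtain ⟨t, ht⟩ := (par_iff hζ0).1 h6
      apply h3
      rw [ht]
      simp [h7]
    obtain ⟨κ2, ζ', hlin2⟩ : ∃ (κ2 : ℂ) (ζ' : C2), ∀ w, wd (RLift Mi w) η = κ2 * wd w ζ' := by
      by_cases hη : η = 0
      · exact ⟨0, 0, fun w => by rw [hη]; simp⟩
      · obtain ⟨κ2, ζs', -, -, h5⟩ := hLMi.fac η hη
        exact ⟨κ2, ζs' 0, fun w => by rw [h5 w]; simp⟩
    have hfin : ∀ z : ℂ, P2.eval z = ζ.1 / ζ.2 +
        (κ * κ2 ^ D / (c1 ^ D * κ1 * ζ.2)) * (z * ζ'.2 - ζ'.1) ^ D := by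
      intro z
      have h5 := hκη (RLift Mi (z, 1))
      simp only [] at h5
      rw [e1, hF.hom, RLift_algebraMap, hLMi.hom, wd_smul_left, hlin', hlin2] at h5
      simp only [wd, pow_one, one_mul] at h5
      rw [mul_pow] at h5
      field_simp
      linear_combination h5
    obtain ⟨hk0, hα⟩ := alpha_ne (by omega) hfin
    have h6 : ∀ z, P'.eval (P'.eval z) = ζ.1 / ζ.2 +
        (κ * κ2 ^ D / (c1 ^ D * κ1 * ζ.2) * ζ'.2 ^ D) * (z - ζ'.1 / ζ'.2) ^ D := by
      intro z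
      have := hfin z
      rw [hP2, Polynomial.eval_comp] at this
      rw [this]
      have e5 : z * ζ'.2 - ζ'.1 = ζ'.2 * (z - ζ'.1 / ζ'.2) := by
        field_simp
      rw [e5, mul_pow]
      ring
    apply hP1
    exact ⟨_, _, form_of_iter2 (hS'deg _ hP'S) (by omega : 1 ≤ D)
      (mul_ne_zero hk0 (pow_ne_zero _ hα)) h6⟩
  refine ⟨D, _, _, Ξ, hD, hf, hG, hGf, ?_, ?_, ?_⟩
  · exact Helper56.Equi.mixing_of_ntr hD hf hG hGf hback hNTR
  · intro φ x hφ hφ0 hφΞ
    have hMφ : AnalyticAt ℂ (fun z => RLift M (φ z)) x := by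
      rw [Complex.analyticAt_iff_eventually_differentiableAt] at hφ ⊢
      filter_upwards [hφ] with z hz
      exact (hLM.diff (φ z)).comp z hz
    have := harm_G0 hg hMφ (hLM.nz _ hφ0) (by
      by_cases h3 : (RLift M (φ x)).2 = 0
      · exact Or.inl h3
      · exact Or.inr fun h4 => hφΞ (hΞ2 _ hφ0 h3 h4))
    exact this.add (harmonicAt_const _)
  · intro V hV
    obtain ⟨Q, hQ⟩ := hpoly V hV
    have hQS : Q ∈ S' := ⟨V, hV, hQ⟩
    have hQ1 : 1 ≤ deg (aM Q) := by rw [deg_algebraMap]; have := hS'deg Q hQS; omega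
    obtain ⟨c3, hc3, e3⟩ := RLift_comp (A := aM Q) (B := M) hQ1 hc.dM.ge
    obtain ⟨c4, hc4, e4⟩ := RLift_comp (A := M) (B := V) hc.dM.ge (h1 V hV)
    rw [hQ] at e3
    refine ⟨Real.log ‖c4 / c3‖ + k - deg V * k, fun v hv => ?_⟩
    have n1 := hLM.nz v hv
    have n2 := (hLQ Q hQS).nz _ n1
    have e5 : RLift M (RLift V v) = (c4 / c3) • RLift (aM Q) (RLift M v) := by
      rw [e3, e4, smul_smul, div_mul_cancel₀ _ hc3]
    show G0 g c (RLift M (RLift V v)) + k = _
    rw [e5, hG0.hom _ _ (div_ne_zero hc4 hc3) n2, hgQ Q hQS _ n1, hdQ Q V hV hQ]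
    ring

end Pool.Agent.Helper65
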