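import Mathlib
import Pool.Agent.Helper65.Main
import Pool.Agent.Helper65.Known
import Pool.Agent.Helper65.PolyC
import Pool.Agent.Helper17.Dyn.Exc

/-! Putting everything together. -/

open Set

namespace Pool.Agent.Helper65

/-- every right reversible semigroup with a non-special element has a base system -/
theorem exists_base {S : Set (RatFunc ℂ)} (hcomp : ∀ A ∈ S, ∀ B ∈ S, comp A B ∈ S)
    (hdeg : ∀ A ∈ S, 2 ≤ deg A) (hrev : ∀ A ∈ S, ∀ B ∈ S, ∃ X ∈ S, ∃ Y ∈ S, comp X A = comp Y B)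
    {P : RatFunc ℂ} (hP : P ∈ S) (hPs : ¬ Special P) : BaseSys S := by
  by_cases hN : ∃ C ∈ S, NTR (deg C) (RLift C) univ
  · obtain ⟨C, hC, hN⟩ := hN
    exact base_of_ntr hcomp hdeg hrev hC hN
  · push Not at hN
    obtain ⟨e, he, hfib⟩ := Helper17.Dyn.exists_exceptional hcomp hdeg hP hPs hN
    exact base_of_poly hcomp hdeg hrev hP hPs he hfib

theorem tfae_main {S : Set (RatFunc ℂ)} (hne : S.Nonempty)
    (hcomp : ∀ A ∈ S, ∀ B ∈ S, comp A B ∈ S) (hdeg : ∀ A ∈ S, 2 ≤ deg A)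
    {P : RatFunc ℂ} (hP : P ∈ S) (hPs : ¬ Special P) :
    List.TFAE [
      ∃ μ : Set (RatFunc ℂ) → ℝ, (∀ T, T ⊆ S → 0 ≤ μ T) ∧ μ S = 1 ∧
        (∀ T U, T ⊆ S → U ⊆ S → Disjoint T U → μ (T ∪ U) = μ T + μ U) ∧
        ∀ T, T ⊆ S → ∀ A ∈ S, μ {W | W ∈ S ∧ comp W A ∈ T} = μ T,
      ∀ A ∈ S, ∀ B ∈ S, ∃ X ∈ S, ∃ Y ∈ S, comp X A = comp Y B,
      ∀ A ∈ S, ∀ B ∈ S, ∃ k l : ℕ, 1 ≤ k ∧ 1 ≤ l ∧
        iter A (2 * k) = comp (iter A k) (iter B l) ∧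
        iter B (2 * l) = comp (iter B l) (iter A k),
      ¬ ∃ A ∈ S, ∃ B ∈ S, ∀ w w' : List Bool, w ≠ [] → w' ≠ [] → w ≠ w' →
        wordComp A B w ≠ wordComp A B w'] := by
  tfae_have 1 → 2 := rev_of_amen hcomp
  tfae_have 2 → 3 := fun h => cond3_of_base hdeg (exists_base hcomp hdeg h hP hPs) hP hPs
  tfae_have 3 → 4 := nofree_of_c3 hdeg
  tfae_have 4 → 2 := rev_of_nofree hcomp hdeg
  tfae_have 3 → 1 := main_c3 S hne hcomp hdeg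
  tfae_finish

end Pool.Agent.Helper65
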