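import Mathlib
import Pool.Agent.Helper65.Final
import Pool.Agent.Helper59.EPl

/-! Condition 5: a common measure of maximal entropy with a non-special function. -/

open Complex Metric Set Filter Topology MeasureTheory InnerProductSpace

namespace Pool.Agent.Helper65

open Pool.Agent.Helper59.EP

/-- normalised Green function -/
lemma exact_of_ginv {G : C2 → ℝ} (hG : IsGreen G) {d : ℕ} (hd : 2 ≤ d) {f : C2 → C2}
    (h : GInv G d f) : ∃ k : ℝ, IsGreen (fun v => G v + k) ∧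
      ∀ v, v ≠ 0 → G (f v) + k = d * (G v + k) := by
  obtain ⟨c, hc⟩ := h
  have hd1 : (d : ℝ) - 1 ≠ 0 := by
    have : (2 : ℝ) ≤ d := by exact_mod_cast hd
    linarith
  refine ⟨c / (d - 1), ⟨hG.cont.add continuousOn_const, fun t v ht hv => ?_⟩, fun v hv => ?_⟩
  · rw [hG.hom t v ht hv]; ring
  · rw [hc v hv]
    field_simp
    ring

lemma AA_add_const {u : ℂ → ℝ} (hu : Continuous u) (c : ℂ) {R : ℝ} (hR : 0 < R) (k : ℝ) :
    AA c R (fun z => u z + k) = AA c R u + k := by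
  have h := AA_sub_const (c := c) hR (cont_int hu c R) (-k)
  have e : (fun z => u z + k) = fun z => u z - -k := by
    funext z; ring
  have e2 : AA c R (fun z => u z + k) = AA c R u - -k := by
    rw [h, e]
    rfl
  rw [e2, sub_neg_eq_add]

/-- common Green function implies common measure of maximal entropy -/
theorem mme_of_ginv {P X : RatFunc ℂ} (hP : 2 ≤ deg P) (hX : 2 ≤ deg X) {G : C2 → ℝ}
    (hG : IsGreen G) (hGP : GInv G (deg P) (RLift P)) (hGX : GInv G (deg X) (RLift X))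
    {μ : Measure ℂ} (hμ : IsMME P μ) : IsMME X μ := by
  obtain ⟨ν, hν⟩ := exists_mme hX
  obtain ⟨k, hGk, hk⟩ := exact_of_ginv hG hP hGP
  obtain ⟨l, hGl, hl⟩ := exact_of_ginv hG hX hGX
  have := hμ.isProb
  have := hν.isProb
  have hcont : Continuous (gu G) := Helper56.Equi.gu_continuous hG
  have e : μ = ν := by
    apply unique_of_star
    intro c R r hr hrR
    have hR : 0 < R := by linarith
    rw [star hP hGk hk hμ c hr hrR, star hX hGl hl hν c hr hrR]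
    have g1 : gu (fun v => G v + k) = fun z => gu G z + k := rfl
    have g2 : gu (fun v => G v + l) = fun z => gu G z + l := rfl
    rw [g1, g2, AA_add_const hcont c hR, AA_add_const hcont c hr, AA_add_const hcont c hR,
      AA_add_const hcont c hr]
    ring
  rw [e]
  exact hν

/-- condition 5 implies condition 3 -/
theorem cond3_of_share {S : Set (RatFunc ℂ)} (hdeg : ∀ A ∈ S, 2 ≤ deg A) {P : RatFunc ℂ}
    (hP : 2 ≤ deg P) (hPs : ¬ Special P) {μ : Measure ℂ} (hμ : IsMME P μ)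
    (hS : ∀ X ∈ S, IsMME X μ) :
    ∀ A ∈ S, ∀ B ∈ S, ∃ k l : ℕ, 1 ≤ k ∧ 1 ≤ l ∧
      iter A (2 * k) = comp (iter A k) (iter B l) ∧
      iter B (2 * l) = comp (iter B l) (iter A k) := by
  have hP1 : 1 ≤ deg P := by omega
  let SP : Set (RatFunc ℂ) := {A | ∃ n : ℕ, 1 ≤ n ∧ A = iter P n}
  have hPSP : P ∈ SP := ⟨1, le_rfl, (Helper59.EP.iter_one P).symm⟩
  have hbase : BaseSys SP := by
    apply exists_base (P := P) _ _ _ hPSP hPs
    · rintro _ ⟨m, hm, rfl⟩ _ ⟨n, hn, rfl⟩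
      exact ⟨m + n, by omega, (iter_add hP1 m n).symm⟩
    · rintro _ ⟨m, hm, rfl⟩
      rw [Pool.Agent.Helper65.deg_iter hP1]
      calc 2 ≤ deg P := hP
        _ = deg P ^ 1 := (pow_one _).symm
        _ ≤ deg P ^ m := Nat.pow_le_pow_right hP1 hm
    · rintro _ ⟨m, hm, rfl⟩ _ ⟨n, hn, rfl⟩
      exact ⟨iter P n, ⟨n, hn, rfl⟩, iter P m, ⟨m, hm, rfl⟩, by
        rw [← iter_add hP1, ← iter_add hP1, add_comm]⟩
  obtain ⟨d, f, G, Ξ, hd, hf, hG, hGf, hM, hSu, hGI⟩ := hbase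
  obtain ⟨k, hGk, hk⟩ := exact_of_ginv hG hP (hGI P hPSP)
  have hall : ∀ V ∈ insert P S, GInv G (deg V) (RLift V) := by
    rintro V (rfl | hV)
    · exact hGI _ hPSP
    · obtain ⟨c, hc⟩ := ginv_of_mme hP hGk hk hμ (by have := hdeg V hV; omega) (hS V hV)
      refine ⟨c + deg V * k - k, fun v hv => ?_⟩
      have := hc v hv
      linarith
  have hdeg' : ∀ A ∈ insert P S, 2 ≤ deg A := by
    rintro A (rfl | hA)
    · exact hP
    · exact hdeg A hA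
  have := cond3_of_base hdeg' ⟨d, f, G, Ξ, hd, hf, hG, hGf, hM, hSu, hall⟩
    (mem_insert P S) hPs
  exact fun A hA B hB => this A (mem_insert_of_mem _ hA) B (mem_insert_of_mem _ hB)

theorem tfae_five {S : Set (RatFunc ℂ)} (hne : S.Nonempty)
    (hcomp : ∀ A ∈ S, ∀ B ∈ S, comp A B ∈ S) (hdeg : ∀ A ∈ S, 2 ≤ deg A)
    {P : RatFunc ℂ} (hP : P ∈ S) (hPs : ¬ Special P) :
    List.TFAE [
      ∃ μ : Set (RatFunc ℂ) → ℝ, (∀ T, T ⊆ S → 0 ≤ μ T) ∧ μ S = 1 ∧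
        (∀ T U, T ⊆ S → U ⊆ S → Disjoint T U → μ (T ∪ U) = μ T + μ U) ∧
        ∀ T, T ⊆ S → ∀ A ∈ S, μ {W | W ∈ S ∧ comp W A ∈ T} = μ T,
      ∀ A ∈ S, ∀ B ∈ S, ∃ X ∈ S, ∃ Y ∈ S, comp X A = comp Y B,
      ∀ A ∈ S, ∀ B ∈ S, ∃ k l : ℕ, 1 ≤ k ∧ 1 ≤ l ∧
        iter A (2 * k) = comp (iter A k) (iter B l) ∧
        iter B (2 * l) = comp (iter B l) (iter A k),
      ¬ ∃ A ∈ S, ∃ B ∈ S, ∀ w w' : List Bool, w ≠ [] → w' ≠ [] → w ≠ w' →
        wordComp A B w ≠ wordComp A B w',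
      ∃ Q : RatFunc ℂ, 2 ≤ deg Q ∧ ¬ Special Q ∧ ∀ X ∈ S, 2 ≤ deg X ∧
        ∃ μ : Measure ℂ, (∀ ν, IsMME X ν ↔ ν = μ) ∧ (∀ ν, IsMME Q ν ↔ ν = μ)] := by
  tfae_have 1 → 2 := rev_of_amen hcomp
  tfae_have 2 → 3 := fun h => cond3_of_base hdeg (exists_base hcomp hdeg h hP hPs) hP hPs
  tfae_have 3 → 4 := nofree_of_c3 hdeg
  tfae_have 4 → 2 := rev_of_nofree hcomp hdeg
  tfae_have 3 → 1 := main_c3 S hne hcomp hdeg
  tfae_have 2 → 5 := by
    intro h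
    obtain ⟨d, f, G, Ξ, hd, hf, hG, hGf, hM, hSu, hGI⟩ := exists_base hcomp hdeg h hP hPs
    obtain ⟨μ, hμ⟩ := exists_mme (hdeg P hP)
    have key : ∀ X ∈ S, ∀ ν, IsMME X ν ↔ ν = μ := by
      intro X hX ν
      have h1 := mme_of_ginv (hdeg P hP) (hdeg X hX) hG (hGI P hP) (hGI X hX) hμ
      exact ⟨fun hν => unique_mme (hdeg X hX) hν h1, fun e => e ▸ h1⟩
    exact ⟨P, hdeg P hP, hPs, fun X hX => ⟨hdeg X hX, μ, key X hX, key P hP⟩⟩
  tfae_have 5 → 3 := by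
    rintro ⟨Q, hQ, hQs, h⟩
    obtain ⟨μ, hμ⟩ := exists_mme hQ
    apply cond3_of_share hdeg hQ hQs hμ
    intro X hX
    obtain ⟨-, ν, h1, h2⟩ := h X hX
    rw [(h2 μ).1 hμ]
    exact (h1 ν).2 rfl
  tfae_finish

end Pool.Agent.Helper65
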