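import Pool.Agent.Helper71.FreeDefs

namespace Pool.Agent.Helper65.InfInv

open Pool.Agent.Helper71.FreeDefs

universe u v

/-- Names of the variables that are used. -/
inductive V : Type
  | x | y | u
  | a (i : ℕ) | b (i : ℕ) | c (i : ℕ) | e (i : ℕ)

/-- Injection of the names into `ℕ × ℕ`. -/
def code : V → ℕ × ℕ
  | .x => (0, 0)
  | .y => (1, 0)
  | .u => (2, 0)
  | .a i => (3, i)
  | .b i => (4, i)
  | .c i => (5, i)
  | .e i => (6, i)

theorem code_inj : Function.Injective code := by
  intro s t h
  cases s <;> cases t <;> simp_all [code]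

variable {k : Type u} [Field k] {X : Type v} (j : V → X)

/-- The variable with name `s`. -/
noncomputable abbrev vr (k : Type u) [Field k] {X : Type v} (j : V → X) (s : V) :
    FreeAlgebra k X := FreeAlgebra.ι k (j s)

/-- The displacement of the variable named `s` under the `n`-th automorphism. -/
noncomputable def th (k : Type u) [Field k] {X : Type v} (j : V → X) (n : ℕ) :
    V → FreeAlgebra k X
  | .x => 0
  | .y => 0
  | .u => 0
  | .a i => ∑ l ∈ Finset.range (n - i),
      vr k j .x ^ (n - i - 1 - l) * vr k j .y * vr k j .u * vr k j .y * vr k j .x ^ l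
  | .b i => if i ≤ n then -(vr k j .x ^ (n - i) * vr k j .y * vr k j .u) else 0
  | .c i => if i ≤ n then vr k j .u * vr k j .y * vr k j .x ^ (n - i) else 0
  | .e i => if i = n then vr k j .u else 0

/-- The displacement of the variable named `s` under the automorphism with parameter `m`. -/
noncomputable def dis (k : Type u) [Field k] {X : Type v} (j : V → X) (s : V) :
    (ℕ →₀ k) →ₗ[k] FreeAlgebra k X :=
  Finsupp.linearCombination k (fun n => th k j n s)

/-- The endomorphism with parameter `m`. -/
noncomputable def gh (m : ℕ →₀ k) : FreeAlgebra k X →ₐ[k] FreeAlgebra k X :=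
  FreeAlgebra.lift k (fun z => FreeAlgebra.ι k z + Function.extend j (fun s => dis k j s m) 0 z)

variable {j} (hj : Function.Injective j)

include hj in
theorem gh_vr (m : ℕ →₀ k) (s : V) : gh j m (vr k j s) = vr k j s + dis k j s m := by
  simp [gh, vr, hj.extend_apply]

theorem gh_ne (m : ℕ →₀ k) (z : X) (hz : ¬ ∃ s, j s = z) :
    gh j m (FreeAlgebra.ι k z) = FreeAlgebra.ι k z := by
  simp [gh, Function.extend_apply' _ _ _ hz]

theorem dis_x (m : ℕ →₀ k) : dis k j .x m = 0 := by
  simp [dis, th, Finsupp.linearCombination_apply]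

theorem dis_y (m : ℕ →₀ k) : dis k j .y m = 0 := by
  simp [dis, th, Finsupp.linearCombination_apply]

theorem dis_u (m : ℕ →₀ k) : dis k j .u m = 0 := by
  simp [dis, th, Finsupp.linearCombination_apply]

include hj in
theorem gh_th (m : ℕ →₀ k) (n : ℕ) (s : V) : gh j m (th k j n s) = th k j n s := by
  have hx : gh j m (vr k j .x) = vr k j .x := by rw [gh_vr hj, dis_x, add_zero]
  have hy : gh j m (vr k j .y) = vr k j .y := by rw [gh_vr hj, dis_y, add_zero]
  have hu : gh j m (vr k j .u) = vr k j .u := by rw [gh_vr hj, dis_u, add_zero]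
  cases s with
  | x => simp [th]
  | y => simp [th]
  | u => simp [th]
  | a i => simp only [th, map_sum, map_mul, map_pow, hx, hy, hu]
  | b i =>
    simp only [th]
    split_ifs
    · simp only [map_neg, map_mul, map_pow, hx, hy, hu]
    · simp
  | c i =>
    simp only [th]
    split_ifs
    · simp only [map_mul, map_pow, hx, hy, hu]
    · simp
  | e i =>
    simp only [th]
    split_ifs
    · exact hu
    · simp

include hj in
theorem gh_dis (m m' : ℕ →₀ k) (s : V) : gh j m (dis k j s m') = dis k j s m' := by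
  rw [dis, Finsupp.linearCombination_apply, Finsupp.sum, map_sum]
  refine Finset.sum_congr rfl fun n _ => ?_
  rw [map_smul, gh_th hj]

include hj in
theorem gh_comp (m m' : ℕ →₀ k) : (gh j m).comp (gh j m') = gh (k := k) j (m + m') := by
  apply FreeAlgebra.hom_ext
  funext z
  by_cases hz : ∃ s, j s = z
  · obtain ⟨s, rfl⟩ := hz
    have h1 := gh_vr hj (k := k) m s
    have h2 := gh_vr hj (k := k) m' s
    have h3 := gh_vr hj (k := k) (m + m') s
    simp only [Function.comp_apply, AlgHom.comp_apply]
    rw [show FreeAlgebra.ι k (j s) = vr k j s from rfl, h2, map_add, h1, h3, gh_dis hj, map_add,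
      add_assoc]
  · simp only [Function.comp_apply, AlgHom.comp_apply]
    rw [gh_ne m' z hz, gh_ne m z hz, gh_ne _ z hz]

theorem gh_zero : gh (k := k) j 0 = AlgHom.id k (FreeAlgebra k X) := by
  apply FreeAlgebra.hom_ext
  funext z
  by_cases hz : ∃ s, j s = z
  · simp only [Function.comp_apply, gh, FreeAlgebra.lift_ι_apply, AlgHom.id_apply]
    have : (fun s => dis k j s 0) = fun _ => (0 : FreeAlgebra k X) := by
      funext s; simp
    rw [this]
    have : Function.extend j (fun _ => (0 : FreeAlgebra k X)) 0 = 0 := by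
      funext w
      by_cases hw : ∃ s, j s = w
      · simp [Function.extend, hw]
      · simp [Function.extend_apply' _ _ _ hw]
    rw [this]; simp
  · simp only [Function.comp_apply]
    rw [gh_ne 0 z hz]; rfl

/-- The automorphism with parameter `m`. -/
noncomputable def ge (m : ℕ →₀ k) : FreeAlgebra k X ≃ₐ[k] FreeAlgebra k X :=
  AlgEquiv.ofAlgHom (gh j m) (gh j (-m))
    (by rw [gh_comp hj, add_neg_cancel, gh_zero]) (by rw [gh_comp hj, neg_add_cancel, gh_zero])

theorem ge_apply (m : ℕ →₀ k) (f : FreeAlgebra k X) : ge hj m f = gh j m f := rfl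

/-- The homomorphism from the additive group of parameters. -/
noncomputable def gm : Multiplicative (ℕ →₀ k) →* (FreeAlgebra k X ≃ₐ[k] FreeAlgebra k X) where
  toFun m := ge hj m.toAdd
  map_one' := by
    ext f
    rw [ge_apply, toAdd_one, gh_zero]; rfl
  map_mul' m m' := by
    apply AlgEquiv.ext
    intro f
    rw [AlgEquiv.mul_apply, ge_apply, ge_apply, ge_apply, toAdd_mul, ← gh_comp hj]; rfl

/-- The group. -/
noncomputable def grp : Subgroup (FreeAlgebra k X ≃ₐ[k] FreeAlgebra k X) := (gm hj).range

theorem grp_comm : ∀ g ∈ grp (k := k) hj, ∀ h ∈ grp (k := k) hj, g * h = h * g := by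
  rintro _ ⟨m, rfl⟩ _ ⟨m', rfl⟩
  rw [← map_mul, ← map_mul, mul_comm]

theorem grp_exp (p : ℕ) (hp : CharP k p) : ∀ g ∈ grp (k := k) hj, g ^ p = 1 := by
  rintro _ ⟨m, rfl⟩
  rw [← map_pow]
  have : m ^ p = 1 := by
    apply Multiplicative.toAdd.injective
    rw [toAdd_pow, toAdd_one]
    ext n
    simp
  rw [this, map_one]

theorem mem_inv_iff (f : FreeAlgebra k X) :
    f ∈ invariants (grp (k := k) hj) ↔ ∀ m : ℕ →₀ k, gh j m f = f := by
  constructor
  · intro h m
    exact h (ge hj m) ⟨Multiplicative.ofAdd m, rfl⟩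
  · rintro h _ ⟨m, rfl⟩
    exact h m.toAdd

end Pool.Agent.Helper65.InfInv
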