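import Pool.Agent.Helper65.InfInv

namespace Pool.Agent.Helper65.InfInv

open Pool.Agent.Helper71.FreeDefs

universe u v

variable {k : Type u} [Field k] {X : Type v} (j : V → X)

theorem th_a (n i : ℕ) : th k j n (.a i) =
    vr k j .x * th k j n (.a (i + 1)) + vr k j .y * th k j n (.c (i + 1)) := by
  rcases Nat.lt_or_ge i n with h | h
  · obtain ⟨m, rfl⟩ : ∃ m, n = i + 1 + m := ⟨n - (i + 1), by omega⟩
    have e1 : i + 1 + m - i = m + 1 := by omega
    have e2 : i + 1 + m - (i + 1) = m := by omega
    simp only [th, e1, e2]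
    rw [if_pos (by omega), Finset.sum_range_succ, Finset.mul_sum]
    congr 1
    · refine Finset.sum_congr rfl fun l hl => ?_
      have hl' : l < m := Finset.mem_range.1 hl
      rw [show m + 1 - 1 - l = (m - 1 - l) + 1 by omega, pow_succ']
      simp only [mul_assoc]
    · rw [show m + 1 - 1 - m = 0 by omega, pow_zero, one_mul]
      simp only [mul_assoc]
  · simp only [th]
    rw [show n - i = 0 by omega, show n - (i + 1) = 0 by omega, if_neg (by omega)]
    simp

theorem th_b (n i : ℕ) : th k j n (.b i) =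
    vr k j .x * th k j n (.b (i + 1)) - vr k j .y * th k j n (.e i) := by
  simp only [th]
  rcases Nat.lt_trichotomy i n with h | h | h
  · rw [if_pos (by omega), if_pos (by omega), if_neg (by omega), show n - i = n - (i + 1) + 1 by omega,
      pow_succ']
    simp only [mul_assoc, mul_neg, mul_zero, sub_zero]
  · subst h
    rw [if_pos (by omega), if_neg (by omega), if_pos rfl]
    simp
  · rw [if_neg (by omega), if_neg (by omega), if_neg (by omega)]
    simp

theorem th_c (n i : ℕ) : th k j n (.c i) =
    th k j n (.c (i + 1)) * vr k j .x + th k j n (.e i) * vr k j .y := by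
  simp only [th]
  rcases Nat.lt_trichotomy i n with h | h | h
  · rw [if_pos (by omega), if_pos (by omega), if_neg (by omega), show n - i = n - (i + 1) + 1 by omega,
      pow_succ]
    simp only [mul_assoc, zero_mul, add_zero]
  · subst h
    rw [if_pos (by omega), if_neg (by omega), if_pos rfl]
    simp
  · rw [if_neg (by omega), if_neg (by omega), if_neg (by omega)]
    simp

theorem th_r (n i : ℕ) : vr k j .x * th k j n (.a i) - th k j n (.a i) * vr k j .x +
    th k j n (.b i) * vr k j .y + vr k j .y * th k j n (.c i) = 0 := by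
  simp only [th]
  rcases Nat.lt_or_ge n i with h | h
  · rw [if_neg (by omega), if_neg (by omega), show n - i = 0 by omega]
    simp
  · obtain ⟨m, rfl⟩ : ∃ m, n = i + m := ⟨n - i, by omega⟩
    rw [if_pos (by omega), if_pos (by omega), show i + m - i = m by omega, Finset.mul_sum,
      Finset.sum_mul, ← Finset.sum_sub_distrib]
    have key : ∑ l ∈ Finset.range m, (vr k j .x * (vr k j .x ^ (m - 1 - l) * vr k j .y * vr k j .u *
        vr k j .y * vr k j .x ^ l) - vr k j .x ^ (m - 1 - l) * vr k j .y * vr k j .u *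
        vr k j .y * vr k j .x ^ l * vr k j .x) =
        ∑ l ∈ Finset.range m, ((fun l => vr k j .x ^ (m - l) * vr k j .y * vr k j .u *
        vr k j .y * vr k j .x ^ l) l - (fun l => vr k j .x ^ (m - l) * vr k j .y * vr k j .u *
        vr k j .y * vr k j .x ^ l) (l + 1)) := by
      refine Finset.sum_congr rfl fun l hl => ?_
      have hl' : l < m := Finset.mem_range.1 hl
      have e1 : m - l = (m - 1 - l) + 1 := by omega
      have e2 : m - (l + 1) = m - 1 - l := by omega
      simp only [e1, e2]
      rw [pow_succ', pow_succ]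
      simp only [mul_assoc]
    rw [key, Finset.sum_range_sub']
    simp only [Nat.sub_zero, pow_zero, mul_one, Nat.sub_self, one_mul, neg_mul, mul_assoc]
    abel

theorem dis_a (i : ℕ) (m : ℕ →₀ k) : dis k j (.a i) m =
    vr k j .x * dis k j (.a (i + 1)) m + vr k j .y * dis k j (.c (i + 1)) m := by
  simp only [dis, Finsupp.linearCombination_apply, Finsupp.sum, Finset.mul_sum,
    ← Finset.sum_add_distrib]
  refine Finset.sum_congr rfl fun n _ => ?_
  rw [mul_smul_comm, mul_smul_comm, ← smul_add, ← th_a]

theorem dis_b (i : ℕ) (m : ℕ →₀ k) : dis k j (.b i) m =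
    vr k j .x * dis k j (.b (i + 1)) m - vr k j .y * dis k j (.e i) m := by
  simp only [dis, Finsupp.linearCombination_apply, Finsupp.sum, Finset.mul_sum,
    ← Finset.sum_sub_distrib]
  refine Finset.sum_congr rfl fun n _ => ?_
  rw [mul_smul_comm, mul_smul_comm, ← smul_sub, ← th_b]

theorem dis_c (i : ℕ) (m : ℕ →₀ k) : dis k j (.c i) m =
    dis k j (.c (i + 1)) m * vr k j .x + dis k j (.e i) m * vr k j .y := by
  simp only [dis, Finsupp.linearCombination_apply, Finsupp.sum, Finset.sum_mul,
    ← Finset.sum_add_distrib]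
  refine Finset.sum_congr rfl fun n _ => ?_
  rw [smul_mul_assoc, smul_mul_assoc, ← smul_add, ← th_c]

theorem dis_r (i : ℕ) (m : ℕ →₀ k) : vr k j .x * dis k j (.a i) m -
    dis k j (.a i) m * vr k j .x + dis k j (.b i) m * vr k j .y +
    vr k j .y * dis k j (.c i) m = 0 := by
  simp only [dis, Finsupp.linearCombination_apply, Finsupp.sum, Finset.sum_mul, Finset.mul_sum,
    ← Finset.sum_add_distrib, ← Finset.sum_sub_distrib]
  refine Finset.sum_eq_zero fun n _ => ?_
  rw [mul_smul_comm, mul_smul_comm, smul_mul_assoc, smul_mul_assoc, ← smul_sub, ← smul_add,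
    ← smul_add, th_r, smul_zero]

/-- The invariants `r i`. -/
noncomputable def rr (k : Type u) [Field k] {X : Type v} (j : V → X) (i : ℕ) : FreeAlgebra k X :=
  vr k j .x * vr k j (.a i) - vr k j (.a i) * vr k j .x + vr k j (.b i) * vr k j .y +
    vr k j .y * vr k j (.c i)

/-- The invariants `K i`. -/
noncomputable def kk (k : Type u) [Field k] {X : Type v} (j : V → X) (i : ℕ) : FreeAlgebra k X :=
  vr k j (.a i) - vr k j .x * vr k j (.a (i + 1)) - vr k j .y * vr k j (.c (i + 1))

/-- The invariants `B i`. -/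
noncomputable def bb (k : Type u) [Field k] {X : Type v} (j : V → X) (i : ℕ) : FreeAlgebra k X :=
  vr k j (.b i) - vr k j .x * vr k j (.b (i + 1)) + vr k j .y * vr k j (.e i)

/-- The invariants `T i`. -/
noncomputable def tt (k : Type u) [Field k] {X : Type v} (j : V → X) (i : ℕ) : FreeAlgebra k X :=
  vr k j (.c i) - vr k j (.c (i + 1)) * vr k j .x - vr k j (.e i) * vr k j .y

theorem rr_eq (i : ℕ) : rr k j i = vr k j .x * rr k j (i + 1) +
    (vr k j .x * kk k j i - kk k j i * vr k j .x) + bb k j i * vr k j .y +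
    vr k j .y * tt k j i := by
  simp only [rr, kk, bb, tt]
  noncomm_ring

variable {j} (hj : Function.Injective j)

include hj in
theorem inv_x (m : ℕ →₀ k) : gh j m (vr k j .x) = vr k j .x := by
  rw [gh_vr hj, dis_x, add_zero]

include hj in
theorem inv_y (m : ℕ →₀ k) : gh j m (vr k j .y) = vr k j .y := by
  rw [gh_vr hj, dis_y, add_zero]

include hj in
theorem inv_kk (i : ℕ) (m : ℕ →₀ k) : gh j m (kk k j i) = kk k j i := by
  have := dis_a j i m
  simp only [kk, map_sub, map_mul, inv_x hj, inv_y hj]
  rw [gh_vr hj, gh_vr hj, gh_vr hj, this]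
  noncomm_ring

include hj in
theorem inv_bb (i : ℕ) (m : ℕ →₀ k) : gh j m (bb k j i) = bb k j i := by
  have := dis_b j i m
  simp only [bb, map_sub, map_add, map_mul, inv_x hj, inv_y hj]
  rw [gh_vr hj, gh_vr hj, gh_vr hj, this]
  noncomm_ring

include hj in
theorem inv_tt (i : ℕ) (m : ℕ →₀ k) : gh j m (tt k j i) = tt k j i := by
  have := dis_c j i m
  simp only [tt, map_sub, map_add, map_mul, inv_x hj, inv_y hj]
  rw [gh_vr hj, gh_vr hj, gh_vr hj, this]
  noncomm_ring

include hj in
theorem inv_rr (i : ℕ) (m : ℕ →₀ k) : gh j m (rr k j i) = rr k j i := by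
  have := dis_r j i m
  simp only [rr, map_sub, map_add, map_mul, inv_x hj, inv_y hj]
  rw [gh_vr hj, gh_vr hj, gh_vr hj]
  rw [← sub_eq_zero]
  rw [← this]
  noncomm_ring

end Pool.Agent.Helper65.InfInv
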