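import Pool.Agent.Helper65.InfInv2

namespace Pool.Agent.Helper65.InfInv

open Pool.Agent.Helper71.FreeDefs

universe u v

variable {k : Type u} [Field k] {X : Type v} (j : V → X)

/-- The augmentation with `x ↦ t` and all other variables `↦ 0`. -/
noncomputable def ep (k : Type u) [Field k] : V → Polynomial k
  | .x => Polynomial.X
  | _ => 0

/-- Images of the variables under the first representation. -/
def ps (k : Type u) [Field k] : V → Matrix (Fin 3) (Fin 3) k
  | .x => !![1, 0, 0; 0, 0, 0; 0, 0, 1]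
  | .y => !![0, 0, 0; 0, 0, 1; 0, 0, 0]
  | .b _ => !![0, 1, 0; 0, 0, 0; 0, 0, 0]
  | _ => 0

/-- Images of the variables under the second representation. -/
def xs (k : Type u) [Field k] : V → Matrix (Fin 3) (Fin 3) k
  | .x => !![1, 0, 0; 0, 0, 0; 0, 0, 0]
  | .y => !![0, 1, 0; 0, 0, 0; 0, 0, 0]
  | .u => !![0, 0, 0; 0, 0, 1; 0, 0, 0]
  | _ => 0

/-- The augmentation. -/
noncomputable def eps : FreeAlgebra k X →ₐ[k] Polynomial k :=
  FreeAlgebra.lift k (Function.extend j (ep k) 0)

/-- The first representation. -/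
noncomputable def psi : FreeAlgebra k X →ₐ[k] Matrix (Fin 3) (Fin 3) k :=
  FreeAlgebra.lift k (Function.extend j (ps k) 0)

/-- The second representation. -/
noncomputable def xi : FreeAlgebra k X →ₐ[k] Matrix (Fin 3) (Fin 3) k :=
  FreeAlgebra.lift k (Function.extend j (xs k) 0)

variable {j} (hj : Function.Injective j)

include hj in
theorem eps_vr (s : V) : eps j (vr k j s) = ep k s := by
  simp [eps, vr, hj.extend_apply]

include hj in
theorem psi_vr (s : V) : psi j (vr k j s) = ps k s := by
  simp [psi, vr, hj.extend_apply]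

include hj in
theorem xi_vr (s : V) : xi j (vr k j s) = xs k s := by
  simp [xi, vr, hj.extend_apply]

theorem eps_ne (z : X) (hz : ¬ ∃ s, j s = z) : eps j (FreeAlgebra.ι k z) = 0 := by
  simp [eps, Function.extend_apply' _ _ _ hz]

theorem psi_ne (z : X) (hz : ¬ ∃ s, j s = z) : psi j (FreeAlgebra.ι k z) = 0 := by
  simp [psi, Function.extend_apply' _ _ _ hz]

theorem xi_ne (z : X) (hz : ¬ ∃ s, j s = z) : xi j (FreeAlgebra.ι k z) = 0 := by
  simp [xi, Function.extend_apply' _ _ _ hz]

/-- The shape of the two representations. -/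
def Good (j : V → X) (f : FreeAlgebra k X) : Prop :=
  psi j f 1 0 = 0 ∧ psi j f 2 0 = 0 ∧ psi j f 2 1 = 0 ∧ psi j f 2 2 = psi j f 0 0 ∧
  psi j f 0 0 = (eps j f).eval 1 ∧
  xi j f 1 0 = 0 ∧ xi j f 2 0 = 0 ∧ xi j f 2 1 = 0 ∧ xi j f 0 0 = psi j f 0 0 ∧
  xi j f 2 2 = psi j f 1 1

include hj in
theorem good (f : FreeAlgebra k X) : Good j f := by
  induction f using FreeAlgebra.induction with
  | grade0 r =>
    simp only [Good, AlgHom.commutes, Matrix.algebraMap_matrix_apply, Polynomial.algebraMap_eq]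
    simp
  | grade1 z =>
    by_cases hz : ∃ s, j s = z
    · obtain ⟨s, rfl⟩ := hz
      have h1 := eps_vr hj (k := k) s
      have h2 := psi_vr hj (k := k) s
      have h3 := xi_vr hj (k := k) s
      simp only [vr] at h1 h2 h3
      simp only [Good, h1, h2, h3]
      cases s <;> simp [ep, ps, xs]
    · simp only [Good, eps_ne z hz, psi_ne z hz, xi_ne z hz]
      simp
  | mul f g hf hg =>
    obtain ⟨a1, a2, a3, a4, a5, a6, a7, a8, a9, a10⟩ := hf
    obtain ⟨b1, b2, b3, b4, b5, b6, b7, b8, b9, b10⟩ := hg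
    simp only [Good, map_mul, Matrix.mul_apply, Fin.sum_univ_three, Polynomial.eval_mul]
    simp only [a1, a2, a3, a4, a6, a7, a8, a9, a10, b1, b2, b3, b4, b6, b7, b8, b9, b10, a5, b5]
    simp
  | add f g hf hg =>
    obtain ⟨a1, a2, a3, a4, a5, a6, a7, a8, a9, a10⟩ := hf
    obtain ⟨b1, b2, b3, b4, b5, b6, b7, b8, b9, b10⟩ := hg
    simp only [Good, map_add, Matrix.add_apply, Polynomial.eval_add]
    simp only [a1, a2, a3, a4, a6, a7, a8, a9, a10, b1, b2, b3, b4, b6, b7, b8, b9, b10, a5, b5]
    simp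

/-- The matrix unit at `(0, 2)`. -/
def E02 (k : Type u) [Field k] : Matrix (Fin 3) (Fin 3) k := !![0, 0, 1; 0, 0, 0; 0, 0, 0]

theorem xs_pow (n : ℕ) : xs k .x ^ n * xs k .y * xs k .u = E02 k := by
  induction n with
  | zero =>
    ext i l
    fin_cases i <;> fin_cases l <;> simp [xs, E02, Matrix.mul_apply, Fin.sum_univ_three]
  | succ n ih =>
    rw [pow_succ', mul_assoc, mul_assoc, ← mul_assoc (xs k .x ^ n), ih]
    ext i l
    fin_cases i <;> fin_cases l <;> simp [xs, E02, Matrix.mul_apply, Fin.sum_univ_three]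

theorem xs_uy : xs k .u * xs k .y = 0 := by
  ext i l
  fin_cases i <;> fin_cases l <;> simp [xs, Matrix.mul_apply, Fin.sum_univ_three]

include hj in
theorem xi_th (n : ℕ) (s : V) (hn : ∀ i, s = .b i ∨ s = .e i → i < n) :
    xi j (th k j n s) = - (ps k s 0 1 • E02 k) := by
  cases s with
  | x => simp [th, ps]
  | y => simp [th, ps]
  | u => simp [th, ps]
  | a i =>
    simp only [th, map_sum, map_mul, map_pow, xi_vr hj]
    rw [Finset.sum_eq_zero]
    · simp [ps]
    · intro l _
      rw [mul_assoc (xs k .x ^ _ * xs k .y), xs_uy]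
      simp
  | b i =>
    have := hn i (Or.inl rfl)
    simp only [th]
    rw [if_pos (by omega)]
    simp only [map_neg, map_mul, map_pow, xi_vr hj, xs_pow]
    simp [ps]
  | c i =>
    simp only [th]
    split_ifs
    · simp only [map_mul, map_pow, xi_vr hj, xs_uy]
      simp [ps]
    · simp [ps]
  | e i =>
    have := hn i (Or.inr rfl)
    simp only [th]
    rw [if_neg (by omega)]
    simp [ps]

include hj in
theorem gh_single (n : ℕ) (s : V) :
    gh j (Finsupp.single n (1 : k)) (vr k j s) = vr k j s + th k j n s := by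
  rw [gh_vr hj, dis, Finsupp.linearCombination_single, one_smul]

include hj in
theorem asym (f : FreeAlgebra k X) : ∃ N : ℕ, ∀ n, N ≤ n →
    xi j (gh j (Finsupp.single n (1 : k)) f) = xi j f - psi j f 0 1 • E02 k := by
  induction f using FreeAlgebra.induction with
  | grade0 r =>
    refine ⟨0, fun n _ => ?_⟩
    simp only [AlgHom.commutes, Matrix.algebraMap_matrix_apply]
    simp
  | grade1 z =>
    by_cases hz : ∃ s, j s = z
    · obtain ⟨s, rfl⟩ := hz
      have h3 := psi_vr hj (k := k) s
      simp only [vr] at h3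
      have key : ∀ n, (∀ i, s = .b i ∨ s = .e i → i < n) →
          xi j (gh j (Finsupp.single n (1 : k)) (FreeAlgebra.ι k (j s))) =
            xi j (FreeAlgebra.ι k (j s)) - psi j (FreeAlgebra.ι k (j s)) 0 1 • E02 k := by
        intro n hn
        have h1 := gh_single hj (k := k) n s
        simp only [vr] at h1
        rw [h1, map_add, xi_th hj n s hn, h3, sub_eq_add_neg]
      cases s with
      | b i =>
        refine ⟨i + 1, fun n hn => key n ?_⟩
        intro i' h'
        simp at h'
        omega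
      | e i =>
        refine ⟨i + 1, fun n hn => key n ?_⟩
        intro i' h'
        simp at h'
        omega
      | x => exact ⟨0, fun n _ => key n (by simp)⟩
      | y => exact ⟨0, fun n _ => key n (by simp)⟩
      | u => exact ⟨0, fun n _ => key n (by simp)⟩
      | a i => exact ⟨0, fun n _ => key n (by simp)⟩
      | c i => exact ⟨0, fun n _ => key n (by simp)⟩
    · refine ⟨0, fun n _ => ?_⟩
      rw [gh_ne _ z hz, psi_ne z hz]
      simp
  | mul f g hf hg =>
    obtain ⟨N1, h1⟩ := hf
    obtain ⟨N2, h2⟩ := hg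
    refine ⟨max N1 N2, fun n hn => ?_⟩
    rw [map_mul, map_mul, map_mul, map_mul, h1 n (le_trans (le_max_left _ _) hn),
      h2 n (le_trans (le_max_right _ _) hn)]
    obtain ⟨a1, a2, a3, a4, a5, a6, a7, a8, a9, a10⟩ := good hj f
    obtain ⟨b1, b2, b3, b4, b5, b6, b7, b8, b9, b10⟩ := good hj g
    ext i l
    fin_cases i <;> fin_cases l <;>
      simp [E02, Matrix.mul_apply, Fin.sum_univ_three, a6, a7, a8, a9, a10,
        b3, b6, b7, b8, b9, b10]
    ring
  | add f g hf hg =>
    obtain ⟨N1, h1⟩ := hf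
    obtain ⟨N2, h2⟩ := hg
    refine ⟨max N1 N2, fun n hn => ?_⟩
    rw [map_add, map_add, map_add, map_add, h1 n (le_trans (le_max_left _ _) hn),
      h2 n (le_trans (le_max_right _ _) hn), Matrix.add_apply, add_smul]
    abel

include hj in
theorem psi_inv (f : FreeAlgebra k X) (hf : ∀ m : ℕ →₀ k, gh j m f = f) : psi j f 0 1 = 0 := by
  obtain ⟨N, hN⟩ := asym hj f
  have h := hN N le_rfl
  rw [hf] at h
  have h' := congrArg (fun M : Matrix (Fin 3) (Fin 3) k => M 0 2) h
  simp [E02] at h'
  linear_combination h'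

end Pool.Agent.Helper65.InfInv
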