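import Pool.Agent.Helper65.InfInv3

namespace Pool.Agent.Helper65.InfInv

open Pool.Agent.Helper71.FreeDefs

universe u v

variable {k : Type u} [Field k] {X : Type v} {j : V → X} (hj : Function.Injective j)

/-- The target of the universal derivation. -/
abbrev Tg (k : Type u) [Field k] (Y : Type*) : Type _ :=
  TrivSqZeroExt (Polynomial k) (Y →₀ Polynomial k)

/-- The map from free generators encoding the universal derivation. -/
noncomputable def dl (j : V → X) {Y : Type*} (ev : FreeAlgebra k Y →ₐ[k] FreeAlgebra k X) :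
    FreeAlgebra k Y →ₐ[k] Tg k Y :=
  FreeAlgebra.lift k (fun s => TrivSqZeroExt.inl (eps j (ev (FreeAlgebra.ι k s))) +
    TrivSqZeroExt.inr (Finsupp.single s 1))

theorem dl_fst {Y : Type*} (ev : FreeAlgebra k Y →ₐ[k] FreeAlgebra k X) (f : FreeAlgebra k Y) :
    (dl j ev f).fst = eps j (ev f) := by
  have : (TrivSqZeroExt.fstHom k (Polynomial k) (Y →₀ Polynomial k)).comp (dl j ev) =
      (eps j).comp ev := by
    apply FreeAlgebra.hom_ext
    funext s
    simp [dl]
  exact congrArg (fun h : FreeAlgebra k Y →ₐ[k] Polynomial k => h f) this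

/-- The linear map induced by values on generators. -/
noncomputable def lam {Y : Type*} (c : Y → k) : (Y →₀ Polynomial k) →+ k :=
  Finsupp.liftAddHom (fun s => (AddMonoidHom.mulRight (c s)).comp
    ((Polynomial.evalRingHom (1 : k)) : Polynomial k →+ k))

theorem lam_single {Y : Type*} (c : Y → k) (s : Y) (p : Polynomial k) :
    lam c (Finsupp.single s p) = p.eval 1 * c s := by
  simp [lam]

theorem lam_smul {Y : Type*} (c : Y → k) (p : Polynomial k) (q : Y →₀ Polynomial k) :
    lam c (p • q) = p.eval 1 * lam c q := by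
  induction q using Finsupp.induction_linear with
  | zero => simp
  | add a b ha hb => rw [smul_add, map_add, map_add, ha, hb, mul_add]
  | single s a => rw [Finsupp.smul_single, lam_single, lam_single, smul_eq_mul,
      Polynomial.eval_mul, mul_assoc]

include hj in
theorem psi_lam {Y : Type*} (ev : FreeAlgebra k Y →ₐ[k] FreeAlgebra k X)
    (hev : ∀ f, ∀ m : ℕ →₀ k, gh j m (ev f) = ev f) (f : FreeAlgebra k Y) :
    psi j (ev f) 0 2 =
      lam (fun s => psi j (ev (FreeAlgebra.ι k s)) 0 2) (dl j ev f).snd := by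
  induction f using FreeAlgebra.induction with
  | grade0 r =>
    simp only [AlgHom.commutes, Matrix.algebraMap_matrix_apply]
    simp [TrivSqZeroExt.algebraMap_eq_inl']
  | grade1 s =>
    simp [dl, lam_single]
  | mul f g hf hg =>
    have h01 := psi_inv hj (ev f) (hev f)
    obtain ⟨a1, a2, a3, a4, a5, a6, a7, a8, a9, a10⟩ := good hj (ev f)
    obtain ⟨b1, b2, b3, b4, b5, b6, b7, b8, b9, b10⟩ := good hj (ev g)
    rw [map_mul, map_mul, map_mul, TrivSqZeroExt.snd_mul, map_add, op_smul_eq_smul, lam_smul,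
      lam_smul, ← hf, ← hg, dl_fst, dl_fst, ← a5, ← b5, Matrix.mul_apply, Fin.sum_univ_three,
      h01, b4]
    ring
  | add f g hf hg =>
    rw [map_add, map_add, map_add, TrivSqZeroExt.snd_add, map_add, Matrix.add_apply, hf, hg]

include hj in
theorem psi_rr (i : ℕ) : psi j (rr k j i) 0 2 = 1 := by
  simp only [rr, map_add, map_sub, map_mul, psi_vr hj]
  simp [ps]

include hj in
theorem not_free : ¬ IsFree (invariants (grp (k := k) hj)) := by
  rintro ⟨Y, hY⟩
  let S := invariants (grp (k := k) hj)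
  let φ : FreeAlgebra k Y →ₐ[k] S := FreeAlgebra.lift k
    (fun y : Y => (y : (invariants (grp (k := k) hj))))
  let ψ : FreeAlgebra k Y ≃ₐ[k] S := AlgEquiv.ofBijective φ hY
  let ev : FreeAlgebra k Y →ₐ[k] FreeAlgebra k X := S.val.comp φ
  have hev : ∀ f, ∀ m : ℕ →₀ k, gh j m (ev f) = ev f := by
    intro f
    exact (mem_inv_iff hj (ev f)).1 (φ f).2
  have hevs : ∀ r : S, ev (ψ.symm r) = r := by
    intro r
    change ((ψ (ψ.symm r) : S) : FreeAlgebra k X) = r
    rw [AlgEquiv.apply_symm_apply]
  let Δ : S →ₐ[k] Tg k Y := (dl j ev).comp (ψ.symm : S →ₐ[k] FreeAlgebra k Y)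
  have hΔ1 : ∀ r : S, (Δ r).fst = eps j (r : FreeAlgebra k X) := by
    intro r
    change (dl j ev (ψ.symm r)).fst = _
    rw [dl_fst, hevs]
  have hΔ2 : ∀ r : S, psi j (r : FreeAlgebra k X) 0 2 =
      lam (fun s => psi j (ev (FreeAlgebra.ι k s)) 0 2) (Δ r).snd := by
    intro r
    have := psi_lam hj ev hev (ψ.symm r)
    rw [hevs] at this
    exact this
  let x' : S := ⟨vr k j .x, (mem_inv_iff hj _).2 (inv_x hj)⟩
  let y' : S := ⟨vr k j .y, (mem_inv_iff hj _).2 (inv_y hj)⟩
  let r' : ℕ → S := fun i => ⟨rr k j i, (mem_inv_iff hj _).2 (inv_rr hj i)⟩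
  let K' : ℕ → S := fun i => ⟨kk k j i, (mem_inv_iff hj _).2 (inv_kk hj i)⟩
  let B' : ℕ → S := fun i => ⟨bb k j i, (mem_inv_iff hj _).2 (inv_bb hj i)⟩
  let T' : ℕ → S := fun i => ⟨tt k j i, (mem_inv_iff hj _).2 (inv_tt hj i)⟩
  have hrel : ∀ i, r' i = x' * r' (i + 1) + (x' * K' i - K' i * x') + B' i * y' +
      y' * T' i := by
    intro i
    apply Subtype.ext
    exact rr_eq j i
  have ex : (Δ x').fst = Polynomial.X := by
    rw [hΔ1]; exact eps_vr hj .x
  have ey : (Δ y').fst = 0 := by
    rw [hΔ1]; exact eps_vr hj .y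
  have er : ∀ i, (Δ (r' i)).fst = 0 := by
    intro i
    rw [hΔ1]
    change eps j (rr k j i) = 0
    simp only [rr, map_add, map_sub, map_mul, eps_vr hj]
    simp [ep]
  have eB : ∀ i, (Δ (B' i)).fst = 0 := by
    intro i
    rw [hΔ1]
    change eps j (bb k j i) = 0
    simp only [bb, map_add, map_sub, map_mul, eps_vr hj]
    simp [ep]
  have eT : ∀ i, (Δ (T' i)).fst = 0 := by
    intro i
    rw [hΔ1]
    change eps j (tt k j i) = 0
    simp only [tt, map_sub, map_mul, eps_vr hj]
    simp [ep]
  have step : ∀ i, (Δ (r' i)).snd = (Polynomial.X : Polynomial k) • (Δ (r' (i + 1))).snd := by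
    intro i
    rw [hrel i, map_add, map_add, map_add, map_sub, map_mul, map_mul, map_mul, map_mul, map_mul,
      mul_comm (Δ (K' i)) (Δ x'), sub_self, add_zero, TrivSqZeroExt.snd_add,
      TrivSqZeroExt.snd_add, TrivSqZeroExt.snd_mul, TrivSqZeroExt.snd_mul,
      TrivSqZeroExt.snd_mul, ex, ey, er, eB, eT]
    simp
  have pw : ∀ n, (Δ (r' 0)).snd = (Polynomial.X ^ n : Polynomial k) • (Δ (r' n)).snd := by
    intro n
    induction n with
    | zero => simp
    | succ n ih => rw [ih, step n, smul_smul, pow_succ]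
  have hz : (Δ (r' 0)).snd = 0 := by
    ext s d
    rw [pw (d + 1)]
    simp [Polynomial.coeff_X_pow_mul']
  have h1 := hΔ2 (r' 0)
  rw [hz, map_zero] at h1
  have h2 := psi_rr hj (k := k) 0
  change psi j (rr k j 0) 0 2 = 0 at h1
  rw [h1] at h2
  exact zero_ne_one h2

include hj in
theorem fin_moved : ∀ g ∈ grp (k := k) hj,
    {z : X | g (FreeAlgebra.ι k z) ≠ FreeAlgebra.ι k z}.Finite := by
  rintro _ ⟨m, rfl⟩
  change {z : X | gh j m.toAdd (FreeAlgebra.ι k z) ≠ FreeAlgebra.ι k z}.Finite
  generalize m.toAdd = w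
  obtain ⟨N, hN⟩ : ∃ N : ℕ, ∀ n ∈ w.support, n ≤ N :=
    ⟨w.support.sup id, fun n hn => Finset.le_sup (f := id) hn⟩
  have hfin : (j '' (V.a '' Set.Iic N ∪ V.b '' Set.Iic N ∪ V.c '' Set.Iic N ∪
      V.e '' Set.Iic N)).Finite :=
    (((((Set.finite_Iic N).image _).union ((Set.finite_Iic N).image _)).union
      ((Set.finite_Iic N).image _)).union ((Set.finite_Iic N).image _)).image _
  refine hfin.subset ?_
  intro z hz
  by_contra hcon
  apply hz
  by_cases hz' : ∃ s, j s = z
  · obtain ⟨s, rfl⟩ := hz'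
    have hs : s ∉ (V.a '' Set.Iic N ∪ V.b '' Set.Iic N ∪ V.c '' Set.Iic N ∪
      V.e '' Set.Iic N) := fun h => hcon ⟨s, h, rfl⟩
    have h0 : dis k j s w = 0 := by
      rw [dis, Finsupp.linearCombination_apply, Finsupp.sum]
      refine Finset.sum_eq_zero fun n hn => ?_
      have hn' := hN n hn
      have : th k j n s = 0 := by
        cases s with
        | x => rfl
        | y => rfl
        | u => rfl
        | a i =>
          have hi : ¬ i ≤ N := fun h => hs (Or.inl (Or.inl (Or.inl ⟨i, h, rfl⟩)))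
          simp only [th]
          rw [show n - i = 0 by omega]
          simp
        | b i =>
          have hi : ¬ i ≤ N := fun h => hs (Or.inl (Or.inl (Or.inr ⟨i, h, rfl⟩)))
          simp only [th]
          rw [if_neg (by omega)]
        | c i =>
          have hi : ¬ i ≤ N := fun h => hs (Or.inl (Or.inr ⟨i, h, rfl⟩))
          simp only [th]
          rw [if_neg (by omega)]
        | e i =>
          have hi : ¬ i ≤ N := fun h => hs (Or.inr ⟨i, h, rfl⟩)
          simp only [th]
          rw [if_neg (by omega)]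
      rw [this, smul_zero]
    have := gh_vr hj (k := k) w s
    rw [h0, add_zero] at this
    exact this
  · exact gh_ne _ z hz'

theorem exists_emb (X : Type v) [Infinite X] : ∃ j : V → X, Function.Injective j := by
  have h1 : Function.Injective (fun s : V => Nat.pair (code s).1 (code s).2) := by
    intro s t h
    apply code_inj
    have := Nat.pair_eq_pair.1 h
    exact Prod.ext this.1 this.2
  exact ⟨fun s => Infinite.natEmbedding X (Nat.pair (code s).1 (code s).2),
    (Infinite.natEmbedding X).injective.comp h1⟩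

end Pool.Agent.Helper65.InfInv
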