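import Mathlib
import Pool.Agent.Helper65.Final
import Pool.Agent.Helper17.Dyn.Cls2

/-! Strictly periodic form of the Lattès condition. -/

open Complex Metric Set Filter Topology

namespace Pool.Agent.Helper65

lemma cod_of_nhdsNE {P : ℂ → Prop} (h : ∀ x, ∀ᶠ z in 𝓝[≠] x, P z) : ∀ᶠ z in codiscrete ℂ, P z := by
  show {z | P z} ∈ codiscrete ℂ
  rw [mem_codiscrete]
  intro x
  rw [Filter.disjoint_principal_right, compl_compl]
  exact h x

lemma nhdsNE_affine {α β x : ℂ} (hα : α ≠ 0) :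
    Tendsto (fun z => α * z + β) (𝓝[≠] x) (𝓝[≠] (α * x + β)) := by
  apply tendsto_nhdsWithin_iff.2
  constructor
  · have : Continuous fun z : ℂ => α * z + β := by fun_prop
    exact (this.tendsto x).mono_left nhdsWithin_le_nhds
  · filter_upwards [self_mem_nhdsWithin] with z hz h
    apply hz
    have h' : α * z + β = α * x + β := h
    exact mul_left_cancel₀ hα (add_right_cancel h')

lemma exists_zbasis {Λ : AddSubgroup ℂ} (hd : DiscreteTopology Λ)
    (hs : Submodule.span ℝ (Λ : Set ℂ) = ⊤) :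
    ∃ ω : Fin 2 → ℂ, LinearIndependent ℝ ω ∧ (∀ i, ω i ∈ Λ) ∧
      ∀ x ∈ Λ, ∃ m n : ℤ, x = (m : ℂ) * ω 0 + (n : ℂ) * ω 1 := by
  let L : Submodule ℤ ℂ := AddSubgroup.toIntSubmodule Λ
  have hdL : DiscreteTopology L := hd
  have hz : IsZLattice ℝ L := ⟨hs⟩
  have hfree : Module.Free ℤ L := ZLattice.module_free ℝ L
  have hfin : Module.Finite ℤ L := ZLattice.module_finite ℝ L
  have hr : Module.finrank ℤ L = 2 := by
    rw [ZLattice.rank ℝ L]
    exact Complex.finrank_real_complex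
  let b : Module.Basis (Fin 2) ℤ L := Module.finBasisOfFinrankEq ℤ L hr
  refine ⟨fun i => (b i : ℂ), ?_, fun i => (b i).2, ?_⟩
  · have := (b.ofZLatticeBasis ℝ L).linearIndependent
    have e : (fun i => (b i : ℂ)) = ⇑(b.ofZLatticeBasis ℝ L) :=
      funext fun i => (Module.Basis.ofZLatticeBasis_apply ℝ L b i).symm
    rw [e]
    exact this
  · intro x hx
    have h := b.sum_repr (⟨x, hx⟩ : L)
    refine ⟨b.repr ⟨x, hx⟩ 0, b.repr ⟨x, hx⟩ 1, ?_⟩
    have h2 := congrArg (Subtype.val) h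
    rw [Fin.sum_univ_two] at h2
    simp only [Submodule.coe_add, Submodule.coe_smul, zsmul_eq_mul] at h2
    exact h2.symm

open Helper17.Dyn in
/-- a meromorphic function with zero derivative everywhere is constant -/
lemma exists_deriv_ne {θ : ℂ → ℂ} (hm : MeromorphicOn θ univ)
    (hnc : ¬ ∃ c : ℂ, ∀ᶠ z in codiscrete ℂ, θ z = c) : ∃ z, AnalyticAt ℂ θ z ∧ deriv θ z ≠ 0 := by
  by_contra hcon
  push Not at hcon
  have hcod : ∀ᶠ z in codiscrete ℂ, AnalyticAt ℂ θ z := by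
    apply cod_of_nhdsNE
    intro x
    exact (hm x (mem_univ x)).eventually_analyticAt
  set D : Set ℂ := {z | AnalyticAt ℂ θ z} with hD
  have hDo : IsOpen D := isOpen_analyticAt ℂ θ
  have hDc : (Dᶜ).Countable := by
    have h1 : D ∈ codiscrete ℂ := hcod
    have h2 := (mem_codiscrete'.1 h1).2
    exact (HereditarilyLindelofSpace.isLindelof _).countable_of_isDiscrete h2
  have hpre : IsPreconnected D := by
    have := (hDc.isPathConnected_compl_of_one_lt_rank (by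
      rw [Complex.rank_real_complex]; norm_num)).isConnected.isPreconnected
    rwa [compl_compl] at this
  obtain ⟨z0, hz0⟩ : D.Nonempty := by
    obtain ⟨z, hz⟩ := (nhdsNE_of_codiscrete hcod 0).exists
    exact ⟨z, hz⟩
  apply hnc
  refine ⟨θ z0, ?_⟩
  filter_upwards [hcod] with z hz
  exact hDo.is_const_of_deriv_eq_zero hpre
    (fun w hw => (show AnalyticAt ℂ θ w from hw).differentiableAt.differentiableWithinAt)
    (fun w hw => hcon w hw) hz hz0

open Helper17.Dyn in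
/-- Lattès maps in the strictly periodic form -/
theorem lattes_strict {A : RatFunc ℂ} (hA : 1 ≤ deg A) (h : IsLattes A) :
    ∃ (ω₁ ω₂ a b : ℂ) (θ : ℂ → ℂ),
      LinearIndependent ℝ ![ω₁, ω₂] ∧
      (∃ m₁ n₁ m₂ n₂ : ℤ, a * ω₁ = (m₁ : ℂ) * ω₁ + (n₁ : ℂ) * ω₂ ∧
          a * ω₂ = (m₂ : ℂ) * ω₁ + (n₂ : ℂ) * ω₂) ∧
      MeromorphicOn θ Set.univ ∧
      (∀ z : ℂ, θ (z + ω₁) = θ z ∧ θ (z + ω₂) = θ z) ∧
      (∃ z : ℂ, DifferentiableAt ℂ θ z ∧ deriv θ z ≠ 0) ∧
      (∀ᶠ z in Filter.codiscrete ℂ,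
        RatFunc.eval (RingHom.id ℂ) (θ z) A = θ (a * z + b)) := by
  obtain ⟨Λ, Θ, α, β, hd, hs, hα, hm, hnc, hper, hfe⟩ := h
  obtain ⟨ω, hω, hωΛ, hrep⟩ := exists_zbasis hd hs
  set θ := toMeromorphicNFOn Θ univ with hθ
  have hNF : MeromorphicNFOn θ univ := meromorphicNFOn_toMeromorphicNFOn _ _
  have heq : ∀ x, θ =ᶠ[𝓝[≠] x] Θ := fun x =>
    hm.toMeromorphicNFOn_eq_self_on_nhdsNE (mem_univ x)
  have hmθ : MeromorphicOn θ univ := hNF.meromorphicOn
  have hncθ : ¬ ∃ c : ℂ, ∀ᶠ z in codiscrete ℂ, θ z = c := by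
    rintro ⟨c, hc⟩
    apply hnc
    refine ⟨c, cod_of_nhdsNE fun x => ?_⟩
    filter_upwards [nhdsNE_of_codiscrete hc x, heq x] with z h1 h2
    rw [← h2, h1]
  have hperθ : ∀ w ∈ Λ, ∀ z, θ (z + w) = θ z := by
    intro w hw z
    have h1 : MeromorphicNFAt (fun x => θ (x + w)) z :=
      meromorphicNFAt_comp_add_const_iff_meromorphicNFAt.2 (hNF (mem_univ (z + w)))
    have h2 : MeromorphicNFAt θ z := hNF (mem_univ z)
    have h3 : (fun x => θ (x + w)) =ᶠ[𝓝[≠] z] θ := by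
      have ht := nhdsNE_affine (α := 1) (β := w) (x := z) one_ne_zero
      simp only [one_mul] at ht
      filter_upwards [ht.eventually (heq (z + w)), heq z,
        nhdsNE_of_codiscrete (hper w hw) z] with x h3 h4 h5
      rw [h3, h4, h5]
    exact ((h1.eventuallyEq_nhdsNE_iff_eventuallyEq_nhds h2).1 h3).self_of_nhds
  obtain ⟨z0, hz0, hdz0⟩ := exists_deriv_ne hmθ hncθ
  have hα0 : α ≠ 0 := by
    intro hα0
    -- `A ∘ θ` is constant near `z0`
    have h1 : ∀ᶠ z in 𝓝[≠] z0, ev A (θ z) = Θ β := by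
      filter_upwards [nhdsNE_of_codiscrete hfe z0, heq z0] with z h1 h2
      rw [h2, ev, ← eval_eq, h1, hα0, zero_mul, zero_add]
    have hfin : {w : ℂ | ev A w = Θ β}.Finite := by
      have hd0 : {w : ℂ | A.denom.eval w = 0}.Finite :=
        Polynomial.finite_setOfPred_isRoot A.denom_ne_zero
      apply (hd0.union (finite_fibre hA (Θ β))).subset
      intro w hw
      by_cases hr : A.denom.eval w = 0
      · exact Or.inl hr
      · right
        have hw' : A.num.eval w / A.denom.eval w = Θ β := hw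
        show A.num.eval w = Θ β * A.denom.eval w
        rw [← hw']
        field_simp
    have hne : ∀ w : ℂ, ∀ᶠ z in 𝓝[≠] z0, θ z ≠ w := by
      intro w
      rcases hz0.eventually_eq_or_eventually_ne (analyticAt_const (v := w)) with h2 | h2
      · exfalso
        apply hdz0
        have h3 : θ =ᶠ[𝓝 z0] fun _ => w := h2
        rw [h3.deriv_eq]
        simp
      · exact h2
    have hall : ∀ᶠ z in 𝓝[≠] z0, ∀ w ∈ {w : ℂ | ev A w = Θ β}, θ z ≠ w :=
      (Filter.eventually_all_finite hfin).2 fun w _ => hne w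
    obtain ⟨z, h2, h3⟩ := (h1.and hall).exists
    exact h3 (θ z) h2 rfl
  refine ⟨ω 0, ω 1, α, β, θ, ?_, ?_, hmθ, fun z => ⟨hperθ _ (hωΛ 0) z, hperθ _ (hωΛ 1) z⟩,
    ⟨z0, hz0.differentiableAt, hdz0⟩, ?_⟩
  · have e : ![ω 0, ω 1] = ω := by
      ext i; fin_cases i <;> rfl
    rw [e]; exact hω
  · obtain ⟨m₁, n₁, h1⟩ := hrep _ (hα _ (hωΛ 0))
    obtain ⟨m₂, n₂, h2⟩ := hrep _ (hα _ (hωΛ 1))
    exact ⟨m₁, n₁, m₂, n₂, h1, h2⟩
  · apply cod_of_nhdsNE
    intro x
    filter_upwards [nhdsNE_of_codiscrete hfe x, heq x,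
      (nhdsNE_affine (α := α) (β := β) (x := x) hα0).eventually (heq (α * x + β))] with z h1 h2 h3
    rw [h2, h1, h3]

end Pool.Agent.Helper65
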